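import Pool.Agent.Mg.F692752.G94411f

/-! The subgroup that maps to the free group of rank two, for an orbifold target. -/

set_option autoImplicit false

namespace Pool.Agent.MP_692752_al

open FreeGroup

section
variable {G : Type} [Group G] {D : Subgroup G} (θ : D →* Orb)

open Classical in
/-- the extension of `θ` to a function on the whole group -/
noncomputable def ex_VCoreV (z : G) : Orb := if h : z ∈ D then θ ⟨z, h⟩ else 1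

theorem ex_mem_VCoreV {z : G} (h : z ∈ D) : ex_VCoreV θ z = θ ⟨z, h⟩ := dif_pos h

/-- `α` induces `jjO w` up to an inner automorphism -/
def Rel_VCoreV (α : MulAut G) (w : F2) : Prop :=
  ∃ γ : Orb, ∀ x ∈ D, ex_VCoreV θ (α x) = γ * jjO w (ex_VCoreV θ x) * γ⁻¹

variable {θ}

theorem mul_VCoreV {α β : MulAut G} {w w' : F2} (h : Rel_VCoreV θ α w) (h' : Rel_VCoreV θ β w')
    (hβ : β ∈ Stab D) : Rel_VCoreV θ (α * β) (w * w') := by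
  obtain ⟨γ, h⟩ := h
  obtain ⟨γ', h'⟩ := h'
  refine ⟨γ * jjO w γ', fun x hx => ?_⟩
  rw [MulAut.mul_apply, h _ ((hβ x).2 hx), h' x hx]
  simp [mul_assoc]

theorem inv_VCoreV {α : MulAut G} {w : F2} (h : Rel_VCoreV θ α w) (hα : α ∈ Stab D) :
    Rel_VCoreV θ α⁻¹ w⁻¹ := by
  obtain ⟨γ, h⟩ := h
  refine ⟨jjO w⁻¹ γ⁻¹, fun x hx => ?_⟩
  have e := h _ (((Stab D).inv_mem hα x).2 hx)
  rw [MulAut.apply_inv_self] at e
  rw [e]
  simp [mul_assoc]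

theorem ug_VCoreV (hF : CFG Orb) (hθ : θ.range.FiniteIndex) (m : ℕ) : ∃ m', ∀ β : MulAut Orb,
    (∀ x ∈ D, Eqv m' (β (ex_VCoreV θ x)) (ex_VCoreV θ x)) → ∀ z, Eqv m (β z) z := by
  obtain ⟨m', h⟩ := ug_of hF θ.range hθ m
  refine ⟨m', fun β hβ => h β.toMonoidHom ?_⟩
  rintro _ ⟨x, rfl⟩
  have := hβ x x.2
  rwa [ex_mem_VCoreV θ x.2] at this

theorem asada_VCoreV (hF : CFG Orb) (hA : Asada2_st) (hθ : θ.range.FiniteIndex) (m : ℕ) :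
    ∃ m', ∀ α w, Rel_VCoreV θ α w →
      (∀ x ∈ D, Eqv m' (ex_VCoreV θ (α x)) (ex_VCoreV θ x)) → w ∈ Lv F2 m := by
  obtain ⟨m₁, h1⟩ := hA m
  obtain ⟨m', h2⟩ := ug_VCoreV hF hθ m₁
  refine ⟨m', fun α w ⟨γ, e⟩ h => h1 γ w (h2 (MulAut.conj γ * jjO w) fun x hx => ?_)⟩
  exact (Eqv.of_eq (e x hx).symm).trans (h x hx)

theorem uniq_VCoreV (hR : RF_st) (hF : CFG Orb) (hA : Asada2_st) (hθ : θ.range.FiniteIndex)
    {α : MulAut G} {w w' : F2} (h : Rel_VCoreV θ α w) (h' : Rel_VCoreV θ α w')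
    (hα : α ∈ Stab D) : w = w' := by
  refine mul_inv_eq_one.1 (rfl_free hR _ _ fun m => ?_)
  obtain ⟨m', e⟩ := asada_VCoreV hF hA hθ m
  refine e _ _ (mul_VCoreV h (inv_VCoreV h' hα) ((Stab D).inv_mem hα)) fun x _ => ?_
  rw [mul_inv_cancel]
  exact Eqv.refl _

theorem gam_VCoreV (hF : CFG Orb) (h4 : Gam4O_st) (hθ : θ.range.FiniteIndex) :
    ∃ m, ∀ α ∈ Desc D θ, (∀ x ∈ D, Eqv m (ex_VCoreV θ (α x)) (ex_VCoreV θ x)) →
      ∃ w, Rel_VCoreV θ α w := by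
  obtain ⟨m₀, h0⟩ := h4
  obtain ⟨m, h1⟩ := ug_VCoreV hF hθ m₀
  refine ⟨m, fun α ⟨a1, β, a2⟩ h => ?_⟩
  have e : ∀ x ∈ D, ex_VCoreV θ (α x) = β (ex_VCoreV θ x) := fun x hx => by
    rw [ex_mem_VCoreV θ hx, ex_mem_VCoreV θ ((a1 x).2 hx)]
    exact a2 ⟨x, hx⟩ _
  obtain ⟨γ, w, e'⟩ := h0 β (h1 β fun x hx => e x hx ▸ h x hx)
  exact ⟨w, γ, fun x hx => (e x hx).trans (e' _)⟩

theorem hom_VCoreV {α : MulAut G} (h1 : α ∈ Stab D)
    (h2 : ∀ x ∈ D, ex_VCoreV θ x = 1 → ex_VCoreV θ (α x) = 1) :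
    ∃ f : θ.range →* θ.range, ∀ x : D,
      f (θ.rangeRestrict x) = θ.rangeRestrict ⟨α x, (h1 x).2 x.2⟩ := by
  let r : D →* D := (α.toMonoidHom.comp D.subtype).codRestrict D fun x => (h1 x).2 x.2
  refine ⟨θ.rangeRestrict.liftOfSurjective θ.rangeRestrict_surjective
    ⟨θ.rangeRestrict.comp r, fun x hx => Subtype.ext ?_⟩, fun x => ?_⟩
  · exact (ex_mem_VCoreV θ (r x).2).symm.trans
      (h2 x x.2 ((ex_mem_VCoreV θ x.2).trans (congrArg Subtype.val hx)))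
  · rw [MonoidHom.liftOfRightInverse_comp_apply]
    rfl

variable (θ)

theorem lev_VCoreV (hD : D.FiniteIndex) (m : ℕ) :
    ∃ (Q' : Type) (_ : Group Q') (_ : Finite Q') (π' : G →* Q'), ∀ a b, π' a = π' b → b ∈ D →
      a ∈ D ∧ Eqv m (ex_VCoreV θ a) (ex_VCoreV θ b) := by
  have := Lv_fi orb_fg m
  have : (((QuotientGroup.mk' (Lv Orb m)).comp θ).ker.map D.subtype).FiniteIndex := ⟨by
    rw [Subgroup.index_map_subtype]
    exact mul_ne_zero Subgroup.FiniteIndex.index_ne_zero hD.index_ne_zero⟩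
  refine ⟨_, _, inferInstance, QuotientGroup.mk'
    (((QuotientGroup.mk' (Lv Orb m)).comp θ).ker.map D.subtype).normalCore, fun a b e hb => ?_⟩
  obtain ⟨n, hn, e⟩ := Subgroup.normalCore_le _ (QuotientGroup.eq.1 e.symm)
  obtain rfl : a = b * n := by
    rw [show (n : G) = b⁻¹ * a from e, mul_inv_cancel_left]
  refine ⟨D.mul_mem hb n.2, ?_⟩
  rw [ex_mem_VCoreV θ hb, ex_mem_VCoreV θ (D.mul_mem hb n.2),
    show θ ⟨b * n, D.mul_mem hb n.2⟩ = θ ⟨b, hb⟩ * θ n from θ.map_mul ⟨b, hb⟩ n]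
  refine (eqv_iff.2 ?_).symm
  rw [inv_mul_cancel_left]
  exact (QuotientGroup.eq_one_iff _).1 hn

/-- the automorphisms that induce an element of the image of `jjO` up to inner automorphisms -/
def T_VCoreV : Subgroup (MulAut G) where
  carrier := {α | α ∈ Stab D ∧ ∃ w, Rel_VCoreV θ α w}
  one_mem' := ⟨one_mem _, 1, 1, fun x _ => by simp⟩
  mul_mem' := fun ⟨ha, _, h⟩ ⟨hb, _, h'⟩ => ⟨mul_mem ha hb, _, mul_VCoreV h h' hb⟩
  inv_mem' := fun ⟨ha, _, h⟩ => ⟨inv_mem ha, _, inv_VCoreV h ha⟩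

end

theorem coreV_ok (hC : Cong_st) (hR : RF_st) (hO : RFL Orb) (hF : CFG Orb) (hG : GrP Orb)
    (hE : Ext_st) (hA : Asada2_st) (h4 : Gam4O_st) : CoreV_st := by
  intro G _ hfg D hD θ hθ
  have L1 : ∀ m, ∃ B : Subgroup (MulAut G), B.FiniteIndex ∧
      ∀ β ∈ B, ∀ z ∈ D, Eqv m (ex_VCoreV θ (β z)) (ex_VCoreV θ z) := by
    intro m
    obtain ⟨Q', _, _, π', h⟩ := lev_VCoreV θ hD m
    obtain ⟨B, h1, h2⟩ := (hC G hfg Q' π').1
    exact ⟨B, h1, fun β hβ z hz => (h _ _ (h2 β hβ z) hz).2⟩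
  have L2 : ∀ m, ∀ a ∈ cl (T_VCoreV θ), ∃ h ∈ T_VCoreV θ,
      ∀ z ∈ D, a z ∈ D ∧ Eqv m (ex_VCoreV θ (a z)) (ex_VCoreV θ (h z)) := by
    intro m a ha
    obtain ⟨Q', _, _, π', h⟩ := lev_VCoreV θ hD m
    obtain ⟨b, h1, h2⟩ := (hC G hfg Q' π').2 _ a ha
    exact ⟨b, h1, fun z hz => h _ _ (h2 z) ((h1.1 z).2 hz)⟩
  have L3 : ∀ a ∈ cl (T_VCoreV θ), ∀ z ∈ D, a z ∈ D := fun a ha z hz =>
    ((L2 0 a ha).choose_spec.2 z hz).1
  have L4 : ∀ a ∈ cl (T_VCoreV θ), ∀ z ∈ D, ex_VCoreV θ z = 1 → ex_VCoreV θ (a z) = 1 := by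
    refine fun a ha z hz e => hO _ fun m => eqv_one.1 ?_
    obtain ⟨b, ⟨-, w, γ, h1⟩, h2⟩ := L2 m a ha
    refine (h2 z hz).2.trans (Eqv.of_eq ?_)
    rw [h1 z hz, e]
    simp
  have L5 : ∀ a ∈ cl (T_VCoreV θ), a ∈ Stab D := fun a ha z =>
    ⟨fun h => by simpa using L3 _ (inv_mem ha) _ h, L3 a ha z⟩
  have L6 : ∀ a ∈ cl (T_VCoreV θ), a ∈ Desc D θ := by
    intro a ha
    obtain ⟨f, hf⟩ := hom_VCoreV (L5 a ha) (L4 a ha)
    obtain ⟨g, hg⟩ := hom_VCoreV (L5 _ (inv_mem ha)) (L4 _ (inv_mem ha))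
    have h1 : g.comp f = MonoidHom.id _ := MonoidHom.ext fun z => by
      obtain ⟨x, rfl⟩ := θ.rangeRestrict_surjective z
      rw [MonoidHom.comp_apply, hf, hg]
      exact congrArg θ.rangeRestrict (Subtype.ext (MulAut.inv_apply_self _ a x))
    have h2 : f.comp g = MonoidHom.id _ := MonoidHom.ext fun z => by
      obtain ⟨x, rfl⟩ := θ.rangeRestrict_surjective z
      rw [MonoidHom.comp_apply, hg, hf]
      exact congrArg θ.rangeRestrict (Subtype.ext (MulAut.apply_inv_self _ a x))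
    obtain ⟨β, hβ⟩ := hE Orb orb_fg hO hF hG θ.range hθ (MonoidHom.toMulEquiv f g h1 h2) fun m => by
      obtain ⟨b, ⟨-, w, γ, a1⟩, a2⟩ := L2 m a ha
      refine ⟨MulAut.conj γ * jjO w, fun u => ?_⟩
      obtain ⟨x, rfl⟩ := θ.rangeRestrict_surjective u
      have a3 := (a2 x x.2).2
      rw [a1 x x.2, ex_mem_VCoreV θ x.2, ex_mem_VCoreV θ (a2 x x.2).1] at a3
      exact (Eqv.of_eq (congrArg Subtype.val (hf x))).trans a3
    exact ⟨L5 a ha, β, fun x _ => (congrArg Subtype.val (hf x)).symm.trans (hβ _)⟩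
  obtain ⟨m₁, hm⟩ := gam_VCoreV hF h4 hθ
  refine ⟨T_VCoreV θ, MonoidHom.mk' (fun t => t.2.2.choose) fun a b => uniq_VCoreV hR hF hA hθ
    (a * b).2.2.choose_spec (mul_VCoreV a.2.2.choose_spec b.2.2.choose_spec b.2.1) (a * b).2.1,
    fun a ha => ?_, fun M hM => ?_, fun c => ?_, fun t ht => ?_⟩
  · obtain ⟨b, h1, h2⟩ := L2 m₁ a ha
    have h3 := L6 _ (mul_mem ha (inv_mem (fun K _ hK => hK h1 : b ∈ cl (T_VCoreV θ))))
    refine (Subgroup.mul_mem_cancel_right _ (inv_mem h1)).1 ⟨h3.1, hm _ h3 fun x hx => ?_⟩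
    have h5 := (h2 _ (((inv_mem h1).1 x).2 hx)).2
    rwa [MulAut.apply_inv_self] at h5
  · obtain ⟨m, h0⟩ := Lv_le M hM
    obtain ⟨m', h⟩ := asada_VCoreV hF hA hθ m
    obtain ⟨B, h1, h2⟩ := L1 m'
    exact ⟨B, h1, fun t ht => h0 (h _ _ t.2.2.choose_spec (h2 _ ht))⟩
  · obtain ⟨B, h1, h2⟩ := L1 m₁
    have h3 := Subgroup.relIndex_eq_zero_of_le_left (H := B ⊓ Desc D θ)
      (K := T_VCoreV θ) (fun β hβ => ⟨hβ.2.1, hm β hβ.2 (h2 β hβ.1)⟩) c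
    rw [Subgroup.inf_relIndex_right] at h3
    exact Subgroup.FiniteIndex.index_ne_zero h3
  · obtain ⟨γ, e⟩ : Rel_VCoreV θ t 1 := (show t.2.2.choose = 1 from ht) ▸ t.2.2.choose_spec
    refine ⟨γ, fun x => ⟨(t.2.1 x).2 x.2, ?_⟩⟩
    rw [← ex_mem_VCoreV, e x x.2, ex_mem_VCoreV θ x.2]
    simp

end Pool.Agent.MP_692752_al
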