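import Pool.Agent.MP_692752_al.Stmt

section

/-! Internal definitions and the statements of the parts. -/

set_option autoImplicit false

namespace Pool.Agent.MP_692752_al

open FreeGroup

abbrev F2 := FreeGroup (Fin 2)

/-! Lengths in a free group -/

/-- the four point condition for the points `1, w, w z, w z z'` of the Cayley tree -/
def Four_st : Prop := ∀ (α : Type) [DecidableEq α] (w z z' : FreeGroup α),
  (w * z * z').norm + z.norm ≤ max (w.norm + z'.norm) ((w * z).norm + (z * z').norm) ∧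
  w.norm + z'.norm ≤ max ((w * z * z').norm + z.norm) ((w * z).norm + (z * z').norm) ∧
  (w * z).norm + (z * z').norm ≤ max (w.norm + z'.norm) ((w * z * z').norm + z.norm)

/-- the four point condition for any four points -/
def FourP_st : Prop := ∀ (α : Type) [DecidableEq α] (a b c d : FreeGroup α),
  (a⁻¹ * b).norm + (c⁻¹ * d).norm ≤
    max ((a⁻¹ * c).norm + (b⁻¹ * d).norm) ((a⁻¹ * d).norm + (b⁻¹ * c).norm)

/-- points on geodesics -/
def Pre_st : Prop := ∀ (α : Type) [DecidableEq α] (a : FreeGroup α) (k : ℕ), k ≤ a.norm →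
  ∃ p : FreeGroup α, p.norm = k ∧ (p⁻¹ * a).norm + k = a.norm

def Par_st : Prop := ∀ (α : Type) [DecidableEq α] (a b : FreeGroup α),
  Even ((a * b).norm + a.norm + b.norm)

def Sq_st : Prop := ∀ (α : Type) [DecidableEq α] (u : FreeGroup α), u ≠ 1 →
  u.norm < (u * u).norm

/-- lengths of powers -/
def Pow_st : Prop := ∀ (α : Type) [DecidableEq α] (u : FreeGroup α) (m : ℕ),
  (u ^ (m + 1)).norm + m * u.norm = u.norm + m * (u * u).norm

/-- bounded cancellation between powers of elements that do not commute -/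
def BP_st : Prop := ∀ (α : Type) [DecidableEq α] (u v : FreeGroup α), ¬ Commute u v →
  ∃ C : ℕ, ∀ m m' : ℤ, (u ^ m).norm + (v ^ m').norm ≤ (u ^ m * v ^ m').norm + C

/-- a term `g * u ^ (μ n) * g'` -/
structure Tm (α : Type) where
  g : FreeGroup α
  u : FreeGroup α
  g' : FreeGroup α
  μ : ℕ → ℤ

def Tm.ev {α : Type} (n : ℕ) (τ : Tm α) : FreeGroup α := τ.g * τ.u ^ τ.μ n * τ.g'

def Tm.Gd {α : Type} (τ τ' : Tm α) : Prop :=
  ¬ Commute τ.u ((τ.g' * τ'.g) * τ'.u * (τ.g' * τ'.g)⁻¹)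

/-- the big powers property, with growth -/
def BG_st : Prop := ∀ (α : Type) [DecidableEq α] (L₁ L₂ : List (Tm α)), L₂ ≠ [] →
  (L₁ ++ L₂).IsChain Tm.Gd → (∀ τ ∈ L₁ ++ L₂, τ.u ≠ 1) → ∀ D : ℕ, ∃ N : ℕ, ∀ n : ℕ,
    (∀ τ ∈ L₁ ++ L₂, N ≤ (τ.μ n).natAbs) →
      (L₁.map (Tm.ev n)).prod.norm + D ≤ ((L₁ ++ L₂).map (Tm.ev n)).prod.norm

/-- Nielsen's theorem in rank two -/
def Niel_st : Prop := ∀ P : F2 → F2 → Prop, P (of 0) (of 1) → (∀ u v, P u v → P v u) →
  (∀ u v, P u v → P u⁻¹ v) → (∀ u v, P u v → P (u * v) v) →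
  (∀ u v z, P u v → P (z * u * z⁻¹) (z * v * z⁻¹)) →
  ∀ u v, Subgroup.closure ({u, v} : Set F2) = ⊤ → P u v

/-! Finite quotients of free groups -/

/-- completion of a finite piece of an action to a finite action -/
def CP_st : Prop := ∀ (ι X : Type) [MulAction (FreeGroup ι) X] (i₀ : ι)
  (W : Set (FreeGroup ι × X)), W.Finite →
  ∃ (S : Type) (_ : Finite S) (π : FreeGroup ι →* Equiv.Perm S) (e : S → X),
    Function.Injective e ∧ (∀ z ∈ W, ∃ q, e q = z.2 ∧ e (π z.1 q) = z.1 • z.2) ∧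
    (∀ q, π (of i₀) q = q → (of i₀ : FreeGroup ι) • e q = e q) ∧
    (∀ i q, ∃ k : ℤ, e (π (of i) q) = (of i : FreeGroup ι) ^ k • e q)

/-- the closure of a subgroup in the profinite topology -/
def cl {A : Type} [Group A] (X : Subgroup A) : Subgroup A where
  carrier := {a | ∀ K : Subgroup A, K.FiniteIndex → X ≤ K → a ∈ K}
  one_mem' := fun K _ _ => K.one_mem
  mul_mem' := fun ha hb K h1 h2 => K.mul_mem (ha K h1 h2) (hb K h1 h2)
  inv_mem' := fun ha K h1 h2 => K.inv_mem (ha K h1 h2)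

/-- M. Hall's theorem -/
def Hall_st : Prop := ∀ (ι : Type) [Nonempty ι] (Y : Subgroup (FreeGroup ι)), Y.FG → cl Y ≤ Y

def RF_st : Prop := ∀ (ι : Type) (a : FreeGroup ι), a ≠ 1 →
  ∃ (Q : Type) (_ : Group Q) (_ : Finite Q) (π : FreeGroup ι →* Q), π a ≠ 1

/-- basis elements are conjugacy distinguished -/
def CS_st : Prop := ∀ (ι : Type) (i : ι) (y : FreeGroup ι),
  (∀ (Q : Type) [Group Q] [Finite Q] (π : FreeGroup ι →* Q), IsConj (π (of i)) (π y)) →
  IsConj (of i) y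

def CentD_st : Prop := ∀ (ι : Type) (i : ι) (w : FreeGroup ι), Commute w (of i) →
  w ∈ Subgroup.zpowers (of i : FreeGroup ι)

def Cent_st : Prop := ∀ (ι : Type) (i : ι) (Q : Type) [Group Q] [Finite Q]
  (π : FreeGroup ι →* Q), ∃ (Q' : Type) (_ : Group Q') (_ : Finite Q') (π' : FreeGroup ι →* Q'),
    ∀ w, Commute (π' w) (π' (of i)) → π w ∈ Subgroup.zpowers (π (of i))

def CF_st : Prop := ∀ (ι : Type) (i j : ι), i ≠ j → ∀ (Q : Type) [Group Q] [Finite Q]
  (π : FreeGroup ι →* Q), ∃ (Q' : Type) (_ : Group Q') (_ : Finite Q') (π' : FreeGroup ι →* Q'),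
    ∀ w, Commute (π' w) (π' (of i)) → Commute (π' w) (π' (of j)) → π w = 1

/-- maps onto a free group that are conjugate in all finite quotients are conjugate -/
def PI_st : Prop := ∀ (ι : Type) (i j : ι), i ≠ j → ∀ (G : Type) [Group G]
  (f f' : G →* FreeGroup ι), Function.Surjective f →
  (∀ (Q : Type) [Group Q] [Finite Q] (π : FreeGroup ι →* Q),
    ∃ w, ∀ x, π (f' x) = π (w * f x * w⁻¹)) →
  ∃ w, ∀ x, f' x = w * f x * w⁻¹

/-! Cocycles given on generators -/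

/-- the action of a free group on `V × Γ` given by permutations `σ i` and labels `k i v` -/
def cocP {ι V Γ : Type} [Group Γ] (σ : ι → Equiv.Perm V) (k : ι → V → Γ) :
    FreeGroup ι →* Equiv.Perm (V × Γ) :=
  FreeGroup.lift fun i =>
    { toFun := fun z => (σ i z.1, k i z.1 * z.2)
      invFun := fun z => ((σ i).symm z.1, (k i ((σ i).symm z.1))⁻¹ * z.2)
      left_inv := fun z => by simp
      right_inv := fun z => by simp }

/-- the cocycle -/
def coc {ι V Γ : Type} [Group Γ] (σ : ι → Equiv.Perm V) (k : ι → V → Γ) (a : FreeGroup ι)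
    (v : V) : Γ := (cocP σ k a (v, 1)).2

section
variable {ι V Γ : Type} [Group Γ] (σ : ι → Equiv.Perm V) (k : ι → V → Γ)

theorem cocP_of (i : ι) (z : V × Γ) : cocP σ k (of i) z = (σ i z.1, k i z.1 * z.2) := by
  simp [cocP]

theorem cocP_apply (a : FreeGroup ι) (v : V) (g : Γ) :
    cocP σ k a (v, g) = (FreeGroup.lift σ a v, coc σ k a v * g) := by
  unfold coc
  induction a using FreeGroup.induction_on generalizing v g with
  | C1 => simp
  | of i => simp [cocP_of]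
  | inv_of i _ => simp [cocP, Equiv.Perm.inv_def]
  | mul a b ha hb =>
    simp only [MonoidHom.map_mul, Equiv.Perm.mul_apply]
    rw [hb v g, ha, hb v 1, ha _ (_ * 1)]
    simp [mul_assoc]

theorem coc_of (i : ι) (v : V) : coc σ k (of i) v = k i v := by simp [coc, cocP_of]

theorem coc_one (v : V) : coc σ k 1 v = 1 := by simp [coc]

theorem coc_mul (a b : FreeGroup ι) (v : V) :
    coc σ k (a * b) v = coc σ k a (FreeGroup.lift σ b v) * coc σ k b v := by
  have h := cocP_apply σ k (a * b) v 1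
  rw [MonoidHom.map_mul, Equiv.Perm.mul_apply, cocP_apply, cocP_apply] at h
  simpa using (congrArg Prod.snd h).symm

theorem coc_inv (a : FreeGroup ι) (v : V) :
    coc σ k a⁻¹ v = (coc σ k a (FreeGroup.lift σ a⁻¹ v))⁻¹ := by
  have h := coc_mul σ k a a⁻¹ v
  rw [mul_inv_cancel, coc_one] at h
  exact eq_inv_of_mul_eq_one_right h.symm
end

/-! Surface groups as HNN extensions with retractions to a free group -/

/-- the data used to prove Grossman's theorem -/
structure HD (G ι : Type) [Group G] where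
  i0 : ι
  i1 : ι
  hi : i0 ≠ i1
  E : Subgroup (FreeGroup ι)
  x : FreeGroup ι
  c : FreeGroup ι
  B : FreeGroup ι
  Y : FreeGroup ι
  s : E →* G
  t : G
  θ : ℕ → G →* FreeGroup ι
  lam : G →* Multiplicative (ZMod 2)
  hx : x ∉ E
  hE : ∀ z, z ∈ E ∨ z * x⁻¹ ∈ E
  hc : c ∈ E
  hc' : x * c * x⁻¹ ∈ E
  hB : B ∈ E
  hB' : x * B * x⁻¹ ∈ E
  hY : Y ∈ E
  gen : Subgroup.closure (Set.range s ∪ {t}) = ⊤
  rel : t * s ⟨c, hc⟩ * t⁻¹ = s ⟨x * c * x⁻¹, hc'⟩
  θs : ∀ n e, θ n (s e) = e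
  θt : ∀ n, θ n t = x * c ^ n
  c_ne : c ≠ 1
  B_ne : B ≠ 1
  cent_c : ∀ z, Commute z c → z ∈ Subgroup.zpowers c
  cent_B : ∀ z, Commute z B → z ∈ Subgroup.zpowers B
  nc : ∀ z, ¬ Commute c (z * B * z⁻¹)
  nY : ¬ Commute B (Y⁻¹ * B * Y)
  hlam : lam (s ⟨B, hB⟩) ≠ lam (s ⟨x * B * x⁻¹, hB'⟩)

def SurfHD_st : Prop := ∀ h : ℕ, 1 ≤ h → Nonempty (HD (Surf (h + 1)) (Fin (h + 1)))

/-- the value of a word in the stable letter and the vertex group -/
def HD.val {G ι : Type} [Group G] (d : HD G ι) (L : List (Bool × d.E)) : G :=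
  (L.map fun τ => (if τ.1 then d.t else d.t⁻¹) * d.s τ.2).prod

/-- no pinch between two consecutive terms -/
def HD.Ok {G ι : Type} [Group G] (d : HD G ι) (τ τ' : Bool × d.E) : Prop :=
  ¬ (τ.1 = true ∧ τ'.1 = false ∧ (τ.2 : FreeGroup ι) ∈ Subgroup.zpowers d.c) ∧
  ¬ (τ.1 = false ∧ τ'.1 = true ∧ (τ.2 : FreeGroup ι) ∈ Subgroup.zpowers (d.x * d.c * d.x⁻¹))

def Lin_st : Prop := ∀ (G ι : Type) [Group G] (d : HD G ι) (γ : G),
  ∃ (e : d.E) (L : List (Bool × d.E)), γ = d.s e * d.val L ∧ L.IsChain d.Ok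

def CycF_st : Prop := ∀ (G ι : Type) [Group G] (d : HD G ι) (γ : G),
  (∃ (δ : G) (e : d.E), γ = δ * d.s e * δ⁻¹) ∨
  ∃ (δ : G) (L : List (Bool × d.E)), L ≠ [] ∧ γ = δ * d.val L * δ⁻¹ ∧ (L ++ L).IsChain d.Ok

/-- discrimination -/
def E1_st : Prop := ∀ (G ι : Type) [Group G] (d : HD G ι) (γ : G),
  (∀ N : ℕ, ∃ n, N ≤ n ∧ d.θ n γ = 1) → γ = 1

def E2_st : Prop := ∀ (G ι : Type) [Group G] (d : HD G ι) (γ : G),
  (∀ n, ∃ w, d.θ n γ = w * d.B * w⁻¹) → ∃ (δ : G) (e : d.E), γ = δ * d.s e * δ⁻¹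

def E3_st : Prop := ∀ (G ι : Type) [Group G] (d : HD G ι) (γ : G) (k : ℕ → ℤ),
  (∀ n, d.θ n γ = d.B ^ k n * d.Y * (d.B ^ k n)⁻¹) →
  ∃ N : ℕ, ∀ n, N ≤ n → (k n).natAbs < N

/-- automorphisms that are inner in every finite quotient are inner -/
def Gr (G : Type) [Group G] : Prop := ∀ φ : MulAut G,
  (∀ (Q : Type) [Group Q] [Finite Q] (π : G →* Q), ∃ γ, ∀ z, π (φ z) = π (γ * z * γ⁻¹)) →
  ∃ γ, ∀ z, φ z = γ * z * γ⁻¹

def Gross_st : Prop := ∀ (G ι : Type) [Group G], Nonempty (HD G ι) → Gr G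

/-! Closures -/

/-- elements of the closure agree with elements of the subgroup on every finite quotient -/
def Cong_st : Prop := ∀ (G : Type) [Group G], Group.FG G → ∀ (Q : Type) [Group Q] [Finite Q]
  (π : G →* Q), (∃ B : Subgroup (MulAut G), B.FiniteIndex ∧ ∀ β ∈ B, ∀ z, π (β z) = π z) ∧
  ∀ (X : Subgroup (MulAut G)), ∀ a ∈ cl X, ∃ h ∈ X, ∀ z, π (a z) = π (h z)

/-- `P` is continuous for the profinite topologies of `A` and of the free group -/
def Cts {A : Type} [Group A] (T : Subgroup A) (P : T →* F2) : Prop :=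
  ∀ M : Subgroup F2, M.FiniteIndex →
    ∃ B : Subgroup A, B.FiniteIndex ∧ ∀ t : T, (t : A) ∈ B → P t ∈ M

/-- the abstract transfer theorem -/
def AT_st : Prop := ∀ (A : Type) [Group A] (I T H : Subgroup A) (P : T →* F2), I.Normal →
  cl I ≤ I → cl T ≤ T → Cts T P → I ≤ H → H.FG → T.relIndex H ≠ 0 →
  (∃ S : Set A, S.Finite ∧ S ⊆ H ∧
    ∀ t : T, (t : A) ∈ H → P t = 1 → ∃ s ∈ S, s⁻¹ * (t : A) ∈ I) →
  cl H ≤ H

/-! Automorphisms of the free group of rank two -/

/-- `x ↦ x y ^ 2`, `y ↦ y` -/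
def js : MulAut F2 :=
  MonoidHom.toMulEquiv (FreeGroup.lift ![of 0 * of 1 * of 1, of 1])
    (FreeGroup.lift ![of 0 * (of 1)⁻¹ * (of 1)⁻¹, of 1])
    (by ext i; fin_cases i <;> simp) (by ext i; fin_cases i <;> simp)

/-- `x ↦ x`, `y ↦ y x ^ 2` -/
def jt : MulAut F2 :=
  MonoidHom.toMulEquiv (FreeGroup.lift ![of 0, of 1 * of 0 * of 0])
    (FreeGroup.lift ![of 0, of 1 * (of 0)⁻¹ * (of 0)⁻¹])
    (by ext i; fin_cases i <;> simp) (by ext i; fin_cases i <;> simp)

def jj : F2 →* MulAut F2 := FreeGroup.lift ![js, jt]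

/-- the congruence topology induces the full profinite topology on the image of `jj` -/
def Asada_st : Prop := ∀ (Q : Type) [Group Q] [Finite Q] (π : F2 →* Q),
  ∃ (Q' : Type) (_ : Group Q') (_ : Finite Q') (π' : F2 →* Q'),
    ∀ γ w : F2, (∀ z, π' (γ * jj w z * γ⁻¹) = π' z) → π w = 1

/-- abelianisation mod 4 -/
def ab4 : F2 →* Multiplicative (ZMod 4 × ZMod 4) :=
  FreeGroup.lift ![Multiplicative.ofAdd (1, 0), Multiplicative.ofAdd (0, 1)]

def Gam4_st : Prop := ∀ φ : MulAut F2, (∀ z, ab4 (φ z) = ab4 z) →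
  ∃ γ w : F2, ∀ z, φ z = γ * jj w z * γ⁻¹

/-! Assembly -/

def Out_st : Prop := ∀ (G : Type) [Group G], Group.FG G → Gr G →
  ∀ (T : Subgroup (MulAut G)) (P : T →* F2), cl T ≤ T → Cts T P →
  ∀ H : Subgroup (Out G), H.FG → T.relIndex (H.comap (toOut G)) ≠ 0 →
  {φ : Out G | φ ∈ H ∧ ∃ t : T, toOut G t = φ ∧ P t = 1}.Finite → Separable H

def Core_st : Prop := ∀ (G : Type) [Group G], Group.FG G → ∀ (D : Subgroup G), D.FiniteIndex →
  ∀ θ : D →* F2, Function.Surjective θ →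
  ∃ (T : Subgroup (MulAut G)) (P : T →* F2), cl T ≤ T ∧ Cts T P ∧
    T.relIndex (Stab D ⊓ Stab (θ.ker.map D.subtype)) ≠ 0 ∧ ∀ t : T, P t = 1 → ActsInner D θ t

def GL2_st : Prop := ∃ (U : Subgroup (GL (Fin 2) ℤ)) (P : U →* F2),
  U.FiniteIndex ∧ Function.Injective P

def Prym_st : Prop := ∀ χ : Surf 2 →* ℤˣ, χ ≠ 1 →
  ∃ (T : Subgroup (MulAut (Surf 2))) (ρ : T →* GL (Fin 2) ℤ), T.FiniteIndex ∧
    ∀ t : T, ρ t = 1 → PrymTrivial χ t

end Pool.Agent.MP_692752_al

end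

section

/-! The two theorems from the parts. -/

set_option autoImplicit false

namespace Pool.Agent.MP_692752_al

theorem gr_surf (hS : SurfHD_st) (hG : Gross_st) (g : ℕ) (hg : 2 ≤ g) : Gr (Surf g) := by
  obtain ⟨h, rfl⟩ : ∃ h, g = h + 1 := ⟨g - 1, by omega⟩
  exact hG _ _ (hS h (by omega))

theorem t3_of (hO : Out_st) (hC : Core_st) (G : Type) [Group G] (hfg : Group.FG G) (hGr : Gr G)
    (D : Subgroup G) (hD : D.FiniteIndex) (θ : D →* F2) (hθ : Function.Surjective θ)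
    (H : Subgroup (Out G)) (hH : H.FG)
    (h1 : (Stab D ⊓ Stab (θ.ker.map D.subtype)).relIndex (H.comap (toOut G)) ≠ 0)
    (h2 : {φ : Out G | φ ∈ H ∧ ∃ α : MulAut G, toOut G α = φ ∧ ActsInner D θ α}.Finite) :
    Separable H := by
  obtain ⟨T, P, hT, hP, hi, hk⟩ := hC G hfg D hD θ hθ
  refine hO G hfg hGr T P hT hP H hH (Subgroup.relIndex_ne_zero_trans hi h1) (h2.subset ?_)
  rintro φ ⟨hφ, t, ht, hPt⟩
  exact ⟨hφ, t, ht, hk t hPt⟩

theorem t4_of (hO : Out_st) (hL : GL2_st) (hP : Prym_st) (hfg : Group.FG (Surf 2))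
    (hGr : Gr (Surf 2)) (χ : Surf 2 →* ℤˣ) (hχ : χ ≠ 1) (H : Subgroup (Out (Surf 2))) (hH : H.FG)
    (h2 : {φ : Out (Surf 2) | φ ∈ H ∧
      ∃ α : MulAut (Surf 2), toOut (Surf 2) α = φ ∧ PrymTrivial χ α}.Finite) :
    Separable H := by
  obtain ⟨U, P, hU, hinj⟩ := hL
  obtain ⟨T, ρ, hT, hρ⟩ := hP χ hχ
  let T' : Subgroup (MulAut (Surf 2)) := (U.comap ρ).map T.subtype
  have hle : T' ≤ T := Subgroup.map_subtype_le _
  have hmem : ∀ t : T', ρ (Subgroup.inclusion hle t) ∈ U := by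
    rintro ⟨_, t, ht, rfl⟩
    exact ht
  let P' : T' →* F2 := P.comp ((ρ.comp (Subgroup.inclusion hle)).codRestrict U hmem)
  have fi : ∀ (A : Subgroup (MulAut (Surf 2))) (_ : A.FiniteIndex) (B : Subgroup A)
      (_ : B.FiniteIndex), (B.map A.subtype).FiniteIndex := by
    intro A hA B hB
    refine ⟨?_⟩
    rw [Subgroup.index_map_subtype]
    exact mul_ne_zero hB.index_ne_zero hA.index_ne_zero
  have fc : ∀ (A B : Type) [Group A] [Group B] (f : A →* B) (M : Subgroup B) (_ : M.FiniteIndex),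
      (M.comap f).FiniteIndex := by
    intro A B _ _ f M hM
    refine ⟨?_⟩
    rw [Subgroup.index_comap]
    exact Subgroup.FiniteIndex.index_ne_zero (H := M.subgroupOf _)
  have hT' : T'.FiniteIndex := fi T hT _ (fc _ _ ρ U hU)
  refine hO _ hfg hGr T' P' (fun a ha => ha T' hT' le_rfl) ?_ H hH
    (Subgroup.FiniteIndex.index_ne_zero (H := T'.subgroupOf _)) (h2.subset ?_)
  · intro M hM
    refine ⟨(M.comap P').map T'.subtype, fi T' hT' _ (fc _ _ P' M hM), ?_⟩
    rintro t ⟨t', ht', h⟩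
    obtain rfl : t' = t := Subtype.ext h
    exact ht'
  · rintro φ ⟨hφ, t, ht, hPt⟩
    refine ⟨hφ, t, ht, hρ (Subgroup.inclusion hle t) ?_⟩
    have := hinj (hPt.trans (map_one P).symm)
    exact congrArg Subtype.val this

end Pool.Agent.MP_692752_al

end

section

/-! Lengths in a free group. -/

set_option autoImplicit false

namespace Pool.Agent.MP_692752_al

open FreeGroup

section
variable {α : Type} [DecidableEq α]

theorem inv_Tree {L : List (α × Bool)} (h : IsReduced L) : IsReduced (invRev L) :=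
  isReduced_iff_reduce_eq.2 (by rw [reduce_invRev, h.reduce_eq])

theorem list_Tree (L : List (α × Bool)) : ∀ L' : List (α × Bool), IsReduced L → IsReduced L' →
    ∃ p s t, L = p ++ s ∧ L' = p ++ t ∧ IsReduced (invRev s ++ t) := by
  induction L with
  | nil => exact fun L' _ h => ⟨[], [], L', rfl, rfl, h⟩
  | cons x L ih =>
    rintro (_ | ⟨y, L'⟩) h h'
    · exact ⟨[], _, [], rfl, rfl, by simpa only [List.append_nil] using inv_Tree h⟩
    by_cases e : x = y
    · obtain ⟨p, s, t, rfl, rfl, h3⟩ := ih L' (List.IsChain.of_cons h) (List.IsChain.of_cons h')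
      exact ⟨x :: p, s, t, rfl, e ▸ rfl, h3⟩
    · refine ⟨[], _, _, rfl, rfl, List.IsChain.append (inv_Tree h) h' fun a ha b hb e1 => ?_⟩
      obtain rfl : (x.1, !x.2) = a := by simpa [invRev] using ha
      obtain rfl : y = b := by simpa using hb
      by_contra e2
      exact e (Prod.ext e1 (by simpa using e2))

theorem mk_Tree {a b : FreeGroup α} {p s t : List (α × Bool)} (ha : a.toWord = p ++ s)
    (hb : b.toWord = p ++ t) : a⁻¹ * b = mk (invRev s ++ t) := by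
  rw [← mk_toWord (x := a), ← mk_toWord (x := b), ha, hb, ← mul_mk, ← mul_mk, ← mul_mk, ← inv_mk]
  group

theorem le_Tree {a b : FreeGroup α} {p s t : List (α × Bool)} (ha : a.toWord = p ++ s)
    (hb : b.toWord = p ++ t) : (a⁻¹ * b).norm ≤ s.length + t.length := by
  rw [mk_Tree ha hb]
  simpa using norm_mk_le (L₁ := invRev s ++ t)

theorem key_Tree (a b : FreeGroup α) : ∃ p s t, a.toWord = p ++ s ∧ b.toWord = p ++ t ∧
    (a⁻¹ * b).norm = s.length + t.length := by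
  obtain ⟨p, s, t, h1, h2, h3⟩ := list_Tree _ _ (isReduced_toWord (x := a))
    (isReduced_toWord (x := b))
  exact ⟨p, s, t, h1, h2, by
    rw [mk_Tree h1 h2, FreeGroup.norm, toWord_mk, h3.reduce_eq, List.length_append, invRev_length]⟩

theorem base_Tree (a b c : FreeGroup α) :
    (a⁻¹ * c).norm + b.norm ≤ max ((a⁻¹ * b).norm + c.norm) ((b⁻¹ * c).norm + a.norm) := by
  obtain ⟨p, s, t, h1, h2, h3⟩ := key_Tree a b
  obtain ⟨q, u, v, h4, h5, h6⟩ := key_Tree b c
  have e1 : a.norm = p.length + s.length := by rw [FreeGroup.norm, h1, List.length_append]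
  have e2 : b.norm = p.length + t.length := by rw [FreeGroup.norm, h2, List.length_append]
  have e3 : b.norm = q.length + u.length := by rw [FreeGroup.norm, h4, List.length_append]
  have e4 : c.norm = q.length + v.length := by rw [FreeGroup.norm, h5, List.length_append]
  rcases List.append_eq_append_iff.1 (h2.symm.trans h4) with ⟨r, rfl, -⟩ | ⟨r, rfl, -⟩
  · have := le_Tree h1 (h5.trans (List.append_assoc _ _ _))
    rw [List.length_append] at this e4
    omega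
  · have := le_Tree (h1.trans (List.append_assoc _ _ _)) h5
    rw [List.length_append] at this e1
    omega

theorem symm_Tree (x y : FreeGroup α) : (x⁻¹ * y).norm = (y⁻¹ * x).norm := by
  rw [← norm_inv_eq, mul_inv_rev, inv_inv]

theorem pw_Tree (u : FreeGroup α) : ∃ s t : ℕ, (t = 0 → u = 1) ∧
    ∀ m : ℕ, (u ^ (m + 1)).norm = 2 * s + (m + 1) * t := by
  refine ⟨(reduceCyclically.conjugator u.toWord).length, (reduceCyclically u.toWord).length,
    fun h => ?_, fun m => ?_⟩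
  · rw [← mk_toWord (x := u), ← reduceCyclically.conj_conjugator_reduceCyclically u.toWord,
      List.length_eq_zero_iff.1 h, List.append_nil, ← mul_mk, ← inv_mk, mul_inv_cancel]
  · rw [FreeGroup.norm, toWord_pow,
      reduceCyclically.reduce_flatten_replicate_succ isReduced_toWord]
    simp only [List.length_append, invRev_length, List.length_flatten, List.map_replicate,
      List.sum_replicate, smul_eq_mul]
    ring

end

theorem fourP_ok : FourP_st := fun α _ a b c d => by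
  have h := base_Tree (d⁻¹ * a) (d⁻¹ * c) (d⁻¹ * b)
  have e : ∀ x y : FreeGroup α, (d⁻¹ * x)⁻¹ * (d⁻¹ * y) = x⁻¹ * y := fun x y => by group
  rwa [e, e, e, symm_Tree d c, symm_Tree d b, symm_Tree d a, symm_Tree c b,
    add_comm (b⁻¹ * c).norm] at h

theorem four_ok : Four_st := fun α _ w z z' => by
  have h1 := fourP_ok α 1 (w * z * z') w (w * z)
  have h2 := fourP_ok α 1 w (w * z) (w * z * z')
  have h3 := fourP_ok α 1 (w * z) w (w * z * z')
  rw [symm_Tree (w * z * z') (w * z), symm_Tree (w * z * z') w] at h1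
  rw [symm_Tree (w * z) w] at h3
  have e : w⁻¹ * (w * z * z') = z * z' := by group
  simp only [inv_one, one_mul, inv_mul_cancel_left, e] at h1 h2 h3
  exact ⟨h1, by omega, h3⟩

theorem pre_ok : Pre_st := fun α _ a k hk => by
  have h1 : (mk (a.toWord.take k)).norm ≤ k := norm_mk_le.trans (List.length_take_le _ _)
  have h2 : (mk (a.toWord.take k))⁻¹ * a = mk (a.toWord.drop k) := by
    rw [inv_mul_eq_iff_eq_mul, mul_mk, List.take_append_drop, mk_toWord]
  have h3 : ((mk (a.toWord.take k))⁻¹ * a).norm ≤ a.norm - k := by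
    rw [h2]
    exact norm_mk_le.trans List.length_drop.le
  have h4 := norm_mul_le (mk (a.toWord.take k)) ((mk (a.toWord.take k))⁻¹ * a)
  rw [mul_inv_cancel_left] at h4
  exact ⟨mk (a.toWord.take k), by omega, by omega⟩

theorem par_ok : Par_st := fun α _ a b => by
  obtain ⟨p, s, t, h1, h2, h3⟩ := key_Tree a⁻¹ b
  have e1 : a.norm = p.length + s.length := by
    rw [← norm_inv_eq, FreeGroup.norm, h1, List.length_append]
  have e2 : b.norm = p.length + t.length := by rw [FreeGroup.norm, h2, List.length_append]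
  rw [inv_inv] at h3
  exact ⟨p.length + s.length + t.length, by omega⟩

theorem sq_ok : Sq_st := fun α _ u hu => by
  obtain ⟨s, t, h0, h⟩ := pw_Tree u
  have h1 := h 0
  have h2 := h 1
  have h3 : t ≠ 0 := fun e => hu (h0 e)
  rw [zero_add, pow_one] at h1
  rw [pow_succ, pow_one] at h2
  omega

theorem pow_ok : Pow_st := fun α _ u m => by
  obtain ⟨s, t, -, h⟩ := pw_Tree u
  have h1 := h 0
  have h2 := h 1
  rw [zero_add, pow_one] at h1
  rw [pow_succ, pow_one] at h2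
  rw [h, h1, h2]
  ring

end Pool.Agent.MP_692752_al

end

section

/-! Bounded cancellation between powers of elements that do not commute. -/

set_option autoImplicit false

namespace Pool.Agent.MP_692752_al

open FreeGroup

section
variable {α : Type} [DecidableEq α]

/-- `p` lies on the geodesic from `1` to `z` -/
def On_BP (z p : FreeGroup α) : Prop := p.norm + (p⁻¹ * z).norm = z.norm

theorem sym_BP (a b : FreeGroup α) : (a⁻¹ * b).norm = (b⁻¹ * a).norm := by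
  rw [← norm_inv_eq, mul_inv_rev, inv_inv]

theorem tri_BP (p z : FreeGroup α) : z.norm ≤ p.norm + (p⁻¹ * z).norm := by
  simpa using norm_mul_le p (p⁻¹ * z)

theorem four_BP (h4 : FourP_st) (a b d : FreeGroup α) :
    (a⁻¹ * b).norm + d.norm ≤ a.norm + (b⁻¹ * d).norm ∨
      (a⁻¹ * b).norm + d.norm ≤ (a⁻¹ * d).norm + b.norm := by
  simpa using h4 α a b 1 d

theorem uniq_BP (h4 : FourP_st) {z p p' : FreeGroup α} (h : On_BP z p) (h' : On_BP z p')
    (e : p.norm = p'.norm) : p = p' := by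
  have := four_BP h4 p p' z
  unfold On_BP at h h'
  exact inv_mul_eq_one.1 (norm_eq_zero.1 (by omega))

theorem trans_BP (h4 : FourP_st) {U V p : FreeGroup α} (h : On_BP U p)
    (e : 2 * p.norm + (U⁻¹ * V).norm ≤ U.norm + V.norm) : On_BP V p := by
  have := four_BP h4 p V U
  have := tri_BP p V
  have := sym_BP U V
  unfold On_BP at h ⊢
  omega

theorem shift_BP (h4 : FourP_st) (hw : Pow_st) {u p : FreeGroup α} {m : ℕ} (h : On_BP (u ^ m) p)
    (h1 : u.norm < p.norm) (h2 : p.norm + u.norm ≤ (u ^ m).norm) :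
    On_BP (u ^ m) (u * p) ∧ (u * p).norm + u.norm = p.norm + (u * u).norm := by
  rcases m with _ | _ | k
  · simp only [pow_zero, FreeGroup.norm_one] at h2
    omega
  · simp only [zero_add, pow_one] at h2
    omega
  have e1 := hw α u k
  have e2 := hw α u (k + 1)
  have e3 := four_BP h4 p (u ^ (k + 1)) (u ^ (k + 1 + 1))
  have e4 := four_BP h4 u⁻¹ p (u ^ (k + 1))
  have e5 := tri_BP (u * p) (u ^ (k + 1 + 1))
  have e6 := norm_mul_le u u
  have e7 : (u * p)⁻¹ * u ^ (k + 1 + 1) = p⁻¹ * u ^ (k + 1) := by group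
  rw [pow_succ u (k + 1), inv_mul_cancel_left, ← pow_succ] at e3
  rw [inv_inv, norm_inv_eq, ← pow_succ'] at e4
  unfold On_BP at h ⊢
  rw [e7] at e5 ⊢
  rw [add_mul, add_mul] at e2
  omega

theorem core_BP (h4 : FourP_st) (hp : Pre_st) (hw : Pow_st) {u v : FreeGroup α}
    (h : ¬ Commute u v) (m m' : ℕ) :
    (u ^ m).norm + (v ^ m').norm ≤ ((u ^ m)⁻¹ * v ^ m').norm + 6 * (u.norm + v.norm + 1) := by
  by_contra c
  have t1 := tri_BP (u ^ m) (v ^ m')
  have t2 := tri_BP (v ^ m') (u ^ m)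
  have t3 := sym_BP (u ^ m) (v ^ m')
  have t4 := norm_mul_le u u
  have t5 := norm_mul_le v v
  obtain ⟨p, p1, p2⟩ := hp α (u ^ m) (u.norm + v.norm + 1) (by omega)
  have a1 : On_BP (u ^ m) p := by
    unfold On_BP
    omega
  obtain ⟨b1, b2⟩ := shift_BP h4 hw a1 (by omega) (by omega)
  obtain ⟨c1, c2⟩ := shift_BP h4 hw (trans_BP h4 (V := v ^ m') a1 (by omega)) (by omega) (by omega)
  obtain ⟨d1, d2⟩ := shift_BP h4 hw (trans_BP h4 (V := u ^ m) c1 (by omega)) (by omega) (by omega)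
  obtain ⟨e1, e2⟩ := shift_BP h4 hw (trans_BP h4 (V := v ^ m') b1 (by omega)) (by omega) (by omega)
  have := uniq_BP h4 d1 (trans_BP h4 (V := u ^ m) e1 (by omega)) (by omega)
  rw [← mul_assoc, ← mul_assoc] at this
  exact h (mul_right_cancel this)

end

theorem bp_ok (h4 : FourP_st) (hp : Pre_st) (hq : Par_st) (hs : Sq_st) (hw : Pow_st) : BP_st := by
  intro α _ u v h
  refine ⟨6 * (u.norm + v.norm + 1), fun m m' => ?_⟩
  have h1 : ¬ Commute u⁻¹ v := fun c => h (Commute.inv_left_iff.1 c)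
  obtain ⟨a, rfl | rfl⟩ := m.eq_nat_or_neg <;> obtain ⟨b, rfl | rfl⟩ := m'.eq_nat_or_neg
  · simpa using core_BP h4 hp hw h1 a b
  · simpa using core_BP h4 hp hw (fun c => h1 (Commute.inv_right_iff.1 c)) a b
  · simpa using core_BP h4 hp hw h a b
  · simpa using core_BP h4 hp hw (fun c => h (Commute.inv_right_iff.1 c)) a b

end Pool.Agent.MP_692752_al

end

section

/-! Finite permutation models of an action of a free group. -/

set_option autoImplicit false

namespace Pool.Agent.MP_692752_al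

open FreeGroup

theorem ext_CP {G X : Type} [Group G] [MulAction G X] (g : G) (S : Set X) (hS : S.Finite) :
    ∃ σ : Equiv.Perm S, (∀ q : S, g • q.1 ∈ S → (σ q).1 = g • q.1) ∧
      ∀ q : S, ∃ k : ℤ, (σ q).1 = g ^ k • q.1 := by
  classical
  have : Finite S := hS
  let c : S → MulAction.orbitRel.Quotient (Subgroup.zpowers g) X := fun q => Quotient.mk'' q.1
  have hc : ∀ (q : S) (h : g • q.1 ∈ S), c ⟨g • q.1, h⟩ = c q := by
    intro q h
    apply Quotient.sound'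
    exact ⟨⟨g, Subgroup.mem_zpowers g⟩, rfl⟩
  have key : ∀ t, ∃ τ : Equiv.Perm {q : S // c q = t},
      ∀ a : {q : S // g • q.1 ∈ S ∧ c q = t},
        τ ⟨a.1, a.2.2⟩ = ⟨⟨g • a.1.1, a.2.1⟩, (hc a.1 a.2.1).trans a.2.2⟩ := by
    intro t
    apply Equiv.Perm.exists_extending_pair
      (f := fun a : {q : S // g • q.1 ∈ S ∧ c q = t} => (⟨a.1, a.2.2⟩ : {q : S // c q = t}))
      (g := fun a : {q : S // g • q.1 ∈ S ∧ c q = t} =>
        (⟨⟨g • a.1.1, a.2.1⟩, (hc a.1 a.2.1).trans a.2.2⟩ : {q : S // c q = t}))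
    · intro a b h
      have h1 : a.1 = b.1 := congrArg (fun z => z.1) h
      exact Subtype.ext h1
    · intro a b h
      have h1 : g • a.1.1 = g • b.1.1 := congrArg (fun z => z.1.1) h
      exact Subtype.ext (Subtype.ext (MulAction.injective g h1))
  choose τ hτ using key
  refine ⟨Equiv.ofFiberEquiv τ, fun q h => ?_, fun q => ?_⟩
  · have := hτ (c q) ⟨q, h, rfl⟩
    exact congrArg (fun z => z.1.1) this
  · have h1 : c (Equiv.ofFiberEquiv τ q) = c q := Equiv.ofFiberEquiv_map τ q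
    obtain ⟨⟨_, k, rfl⟩, hk⟩ := Quotient.exact' h1
    exact ⟨k, hk.symm⟩

theorem path_CP {ι X : Type} [MulAction (FreeGroup ι) X] (y : FreeGroup ι) : ∀ p : X,
    ∃ P : Set X, P.Finite ∧ p ∈ P ∧ ∀ (S : Set X) (π : FreeGroup ι →* Equiv.Perm S), P ⊆ S →
      (∀ i (q : S), (of i : FreeGroup ι) • q.1 ∈ S → (π (of i) q).1 = (of i : FreeGroup ι) • q.1) →
      ∀ q : S, q.1 = p → (π y q).1 = y • p := by
  induction y using FreeGroup.induction_on with
  | C1 =>
    intro p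
    refine ⟨{p}, Set.finite_singleton p, rfl, fun S π _ _ q hq => ?_⟩
    simp [hq]
  | of i =>
    intro p
    refine ⟨{p, (of i : FreeGroup ι) • p}, by simp, by simp, fun S π hP h q hq => ?_⟩
    subst hq
    exact h i q (hP (by simp))
  | inv_of i _ =>
    intro p
    refine ⟨{p, (of i : FreeGroup ι)⁻¹ • p}, by simp, by simp, fun S π hP h q hq => ?_⟩
    subst hq
    have hm : (of i : FreeGroup ι)⁻¹ • q.1 ∈ S := hP (by simp)
    have h1 : π (of i) ⟨_, hm⟩ = q := by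
      apply Subtype.ext
      rw [h i ⟨_, hm⟩ (by simp)]
      simp
    have h2 : π (of i)⁻¹ q = ⟨_, hm⟩ := by
      rw [_root_.map_inv, Equiv.Perm.inv_eq_iff_eq]
      exact h1.symm
    exact congrArg Subtype.val h2
  | mul x y hx hy =>
    intro p
    obtain ⟨P, hP, hp, H⟩ := hy p
    obtain ⟨P', hP', -, H'⟩ := hx (y • p)
    refine ⟨P ∪ P', hP.union hP', Or.inl hp, fun S π hS h q hq => ?_⟩
    rw [_root_.map_mul, Equiv.Perm.mul_apply, mul_smul]
    exact H' S π (Set.subset_union_right.trans hS) h _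
      (H S π (Set.subset_union_left.trans hS) h q hq)

theorem cp_ok : CP_st := by
  intro ι X _ i₀ W hW
  choose P hPf hPm hP using fun z : FreeGroup ι × X => path_CP z.1 z.2
  let S0 : Set X := ⋃ z ∈ W, P z
  have hS0 : S0.Finite := hW.biUnion fun z _ => hPf z
  let S : Set X := S0 ∪ (fun x => (of i₀ : FreeGroup ι) • x) '' S0
  have hS : S.Finite := hS0.union (hS0.image _)
  choose σ hσ hσ' using fun i : ι => ext_CP (of i : FreeGroup ι) S hS
  let π : FreeGroup ι →* Equiv.Perm S := FreeGroup.lift σ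
  have hπ : ∀ i, π (of i) = σ i := fun i => FreeGroup.lift_apply_of
  have ha : ∀ i (q : S), (of i : FreeGroup ι) • q.1 ∈ S →
      (π (of i) q).1 = (of i : FreeGroup ι) • q.1 := fun i q h => by
    rw [hπ]; exact hσ i q h
  refine ⟨S, hS, π, Subtype.val, Subtype.val_injective, fun z hz => ?_, fun q hq => ?_,
    fun i q => ?_⟩
  · have hsub : P z ⊆ S := (Set.subset_biUnion_of_mem (u := P) hz).trans Set.subset_union_left
    exact ⟨⟨z.2, hsub (hPm z)⟩, rfl, hP z S π hsub ha _ rfl⟩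
  · rcases q.2 with h | ⟨x, hx, hxq⟩
    · rw [← ha i₀ q (Or.inr ⟨_, h, rfl⟩), hq]
    · have hxq' : (of i₀ : FreeGroup ι) • x = q.1 := hxq
      have h1 : π (of i₀) ⟨x, Or.inl hx⟩ = q :=
        Subtype.ext ((ha i₀ ⟨x, Or.inl hx⟩ (Or.inr ⟨x, hx, rfl⟩)).trans hxq')
      have h2 : (⟨x, Or.inl hx⟩ : S) = q := (π (of i₀)).injective (h1.trans hq.symm)
      have h3 : x = q.1 := congrArg Subtype.val h2
      rw [← h3] at hxq' ⊢
      exact hxq'
  · rw [hπ]; exact hσ' i q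

end Pool.Agent.MP_692752_al

end

section

/-! Centralisers of basis elements, in the free group and in finite quotients. -/

set_option autoImplicit false

namespace Pool.Agent.MP_692752_al

open FreeGroup

theorem flip_Cent {ι V : Type} (σ : ι → Equiv.Perm V) (i : ι) (p : V) (hp : σ i p = p) :
    ∃ ρ : FreeGroup ι →* Equiv.Perm (V × Multiplicative (ZMod 2)),
      ∀ w, Commute (ρ w) (ρ (of i)) → FreeGroup.lift σ w p = p := by
  classical
  let k : ι → V → Multiplicative (ZMod 2) :=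
    fun j v => if j = i ∧ v = p then Multiplicative.ofAdd 1 else 1
  refine ⟨cocP σ k, fun w hw => ?_⟩
  have h := congrArg (fun f : Equiv.Perm (V × Multiplicative (ZMod 2)) => f (p, 1)) hw.eq
  simp only [Equiv.Perm.mul_apply] at h
  rw [cocP_of, cocP_of, cocP_apply, cocP_apply] at h
  have h2 := congrArg Prod.snd h
  simp only [hp, mul_one] at h2
  by_contra hne
  have k1 : k i p = Multiplicative.ofAdd 1 := by simp [k]
  have k2 : k i (FreeGroup.lift σ w p) = 1 := by simp [k, hne]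
  rw [k1, k2, one_mul] at h2
  have h3 : (Multiplicative.ofAdd (1 : ZMod 2)) = 1 := mul_left_cancel (h2.trans (mul_one _).symm)
  exact absurd h3 (by decide)

theorem gen_Cent {ι : Type} (i : ι) (Q : Type) [Group Q] (π : FreeGroup ι →* Q) :
    ∃ ρ : FreeGroup ι →*
        Equiv.Perm ((Q ⧸ Subgroup.zpowers (π (of i))) × Multiplicative (ZMod 2)),
      ∀ w, Commute (ρ w) (ρ (of i)) → π w ∈ Subgroup.zpowers (π (of i)) := by
  let V := Q ⧸ Subgroup.zpowers (π (of i))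
  let σ : ι → Equiv.Perm V := fun j => MulAction.toPermHom Q V (π (of j))
  have hσ : FreeGroup.lift σ = (MulAction.toPermHom Q V).comp π := by
    ext j : 1
    simp [σ]
  have key : ∀ q : Q, MulAction.toPermHom Q V q ((1 : Q) : V) = ((1 : Q) : V) ↔
      q ∈ Subgroup.zpowers (π (of i)) := by
    intro q
    have : MulAction.toPermHom Q V q ((1 : Q) : V) = ((q * 1 : Q) : V) := rfl
    rw [this, mul_one, eq_comm, QuotientGroup.eq]
    simp
  obtain ⟨ρ, hρ⟩ := flip_Cent σ i ((1 : Q) : V) ((key _).2 (Subgroup.mem_zpowers _))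
  refine ⟨ρ, fun w hw => ?_⟩
  have h := hρ w hw
  rw [hσ] at h
  exact (key _).1 h

theorem centD_ok : CentD_st := by
  intro ι i w hw
  obtain ⟨ρ, hρ⟩ := gen_Cent i (FreeGroup ι) (MonoidHom.id _)
  exact hρ w (hw.map ρ)

theorem cent_ok : Cent_st := by
  intro ι i Q _ _ π
  obtain ⟨ρ, hρ⟩ := gen_Cent i Q π
  exact ⟨_, inferInstance, inferInstance, ρ, hρ⟩

theorem cf_ok : CF_st := by
  classical
  intro ι i j hij Q _ _ π
  let m := Nat.card Q
  have : NeZero m := ⟨Nat.card_pos.ne'⟩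
  let ε : FreeGroup ι →* Multiplicative (ZMod m) :=
    FreeGroup.lift fun l => if l = i then Multiplicative.ofAdd 1 else 1
  let π1 : FreeGroup ι →* Q × Multiplicative (ZMod m) := π.prod ε
  obtain ⟨Qa, _, _, πa, ha⟩ := cent_ok ι i _ π1
  obtain ⟨Qb, _, _, πb, hb⟩ := cent_ok ι j _ π1
  refine ⟨Qa × Qb, inferInstance, inferInstance, πa.prod πb, fun w hi hj => ?_⟩
  obtain ⟨a, haa⟩ := Subgroup.mem_zpowers_iff.1 (ha w (hi.map (MonoidHom.fst Qa Qb)))
  obtain ⟨b, hbb⟩ := Subgroup.mem_zpowers_iff.1 (hb w (hj.map (MonoidHom.snd Qa Qb)))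
  have e1 : ε (of i) = Multiplicative.ofAdd 1 := by simp [ε]
  have e2 : ε (of j) = 1 := by simp [ε, hij.symm]
  have h1 : ε (of i) ^ a = ε w := congrArg Prod.snd haa
  have h2 : ε (of j) ^ b = ε w := congrArg Prod.snd hbb
  have h3 : π (of i) ^ a = π w := congrArg Prod.fst haa
  rw [e2, one_zpow] at h2
  rw [e1, ← h2] at h1
  have h4 : ((a : ℤ) : ZMod m) = 0 := by
    have := congrArg Multiplicative.toAdd h1
    simpa using this
  obtain ⟨c, rfl⟩ := (ZMod.intCast_zmod_eq_zero_iff_dvd a m).1 h4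
  rw [← h3, zpow_mul, zpow_natCast, pow_card_eq_one', one_zpow]

end Pool.Agent.MP_692752_al

end

section

/-! Reduced and cyclically reduced forms. -/

set_option autoImplicit false

namespace Pool.Agent.MP_692752_al

open FreeGroup

section
variable {G ι : Type} [Group G] (d : HD G ι)

theorem val_nil_Lin : d.val [] = 1 := rfl

theorem val_cons_Lin (τ : Bool × d.E) (L : List (Bool × d.E)) :
    d.val (τ :: L) = (if τ.1 then d.t else d.t⁻¹) * d.s τ.2 * d.val L := by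
  simp [HD.val]

theorem val_append_Lin (L L' : List (Bool × d.E)) : d.val (L ++ L') = d.val L * d.val L' := by
  simp [HD.val]

theorem abs_Lin (L : List (Bool × d.E)) (hL : L ≠ []) (e : d.E) :
    ∃ L' : List (Bool × d.E), L'.length = L.length ∧ d.val L * d.s e = d.val L' := by
  rcases List.eq_nil_or_concat' L with rfl | ⟨L0, τ, rfl⟩
  · exact absurd rfl hL
  · refine ⟨L0 ++ [(τ.1, τ.2 * e)], by simp, ?_⟩
    simp only [val_append_Lin, val_cons_Lin, val_nil_Lin, _root_.map_mul, mul_one, mul_assoc]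

/-- `γ` has a form with `k` stable letters -/
def Rep_Lin (γ : G) (k : ℕ) : Prop :=
  ∃ (e : d.E) (L : List (Bool × d.E)), L.length = k ∧ γ = d.s e * d.val L

theorem rep_val_Lin (L : List (Bool × d.E)) : Rep_Lin d (d.val L) L.length :=
  ⟨1, L, rfl, by simp⟩

theorem rep_mul_Lin {γ γ' : G} {k k' : ℕ} (h : Rep_Lin d γ k) (h' : Rep_Lin d γ' k') :
    Rep_Lin d (γ * γ') (k + k') := by
  obtain ⟨e, L, rfl, rfl⟩ := h
  obtain ⟨e', L', rfl, rfl⟩ := h'
  by_cases hL : L = []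
  · subst hL
    exact ⟨e * e', L', by simp, by simp [val_nil_Lin, mul_assoc]⟩
  · obtain ⟨L'', h1, h2⟩ := abs_Lin d L hL e'
    exact ⟨e, L'' ++ L', by simp [h1], by rw [val_append_Lin, ← h2]; simp only [mul_assoc]⟩

theorem rep_ex_Lin (γ : G) : ∃ k, Rep_Lin d γ k := by
  have h : γ ∈ Subgroup.closure (Set.range d.s ∪ {d.t}) := d.gen ▸ Subgroup.mem_top γ
  induction h using Subgroup.closure_induction'' with
  | mem x hx =>
    rcases hx with ⟨e, rfl⟩ | rfl
    · exact ⟨0, e, [], rfl, by simp [val_nil_Lin]⟩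
    · exact ⟨1, 1, [(true, 1)], rfl, by simp [val_cons_Lin, val_nil_Lin]⟩
  | inv_mem x hx =>
    rcases hx with ⟨e, rfl⟩ | rfl
    · exact ⟨0, e⁻¹, [], rfl, by simp [val_nil_Lin]⟩
    · exact ⟨1, 1, [(false, 1)], rfl, by simp [val_cons_Lin, val_nil_Lin]⟩
  | one => exact ⟨0, 1, [], rfl, by simp [val_nil_Lin]⟩
  | mul x y _ _ hx hy =>
    obtain ⟨k, hk⟩ := hx
    obtain ⟨k', hk'⟩ := hy
    exact ⟨_, rep_mul_Lin d hk hk'⟩

theorem pinch_Lin {τ τ' : Bool × d.E} (h : ¬ d.Ok τ τ') : ∃ e : d.E,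
    (if τ.1 then d.t else d.t⁻¹) * d.s τ.2 * (if τ'.1 then d.t else d.t⁻¹) = d.s e := by
  have k : ∀ n : ℤ, d.t * d.s (⟨d.c, d.hc⟩ ^ n) * d.t⁻¹ =
      d.s (⟨d.x * d.c * d.x⁻¹, d.hc'⟩ ^ n) := fun n => by
    rw [map_zpow, map_zpow, ← d.rel, conj_zpow]
  rw [HD.Ok, not_and_or, not_not, not_not] at h
  rcases h with ⟨h1, h2, n, hn⟩ | ⟨h1, h2, n, hn⟩
  · have : τ.2 = ⟨d.c, d.hc⟩ ^ n := Subtype.ext hn.symm
    exact ⟨_, by rw [h1, h2, this]; exact k n⟩
  · have : τ.2 = ⟨d.x * d.c * d.x⁻¹, d.hc'⟩ ^ n := Subtype.ext hn.symm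
    refine ⟨⟨d.c, d.hc⟩ ^ n, ?_⟩
    rw [h1, h2, this, ← k n]
    simp [mul_assoc]

theorem short_Lin (L : List (Bool × d.E)) (h : ¬ L.IsChain d.Ok) :
    ∃ k < L.length, Rep_Lin d (d.val L) k := by
  induction L with
  | nil => exact absurd List.IsChain.nil h
  | cons τ L ih =>
    cases L with
    | nil => exact absurd (List.IsChain.singleton τ) h
    | cons τ' L =>
      by_cases h1 : d.Ok τ τ'
      · obtain ⟨k, hk, hr⟩ := ih fun h2 => h (List.isChain_cons_cons.mpr ⟨h1, h2⟩)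
        have := rep_mul_Lin d (rep_val_Lin d [τ]) hr
        rw [← val_append_Lin] at this
        exact ⟨_, by simp at hk ⊢; omega, this⟩
      · obtain ⟨e, he⟩ := pinch_Lin d h1
        refine ⟨L.length, by simp, e * τ'.2, L, rfl, ?_⟩
        rw [val_cons_Lin, val_cons_Lin, _root_.map_mul, ← he]
        simp only [mul_assoc]

end

theorem lin_ok : Lin_st := by
  intro G ι _ d γ
  obtain ⟨k, hk⟩ := rep_ex_Lin d γ
  induction k using Nat.strong_induction_on with
  | _ k ih =>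
    obtain ⟨e, L, rfl, rfl⟩ := hk
    by_cases h : L.IsChain d.Ok
    · exact ⟨e, L, rfl, h⟩
    · obtain ⟨k, hk, hr⟩ := short_Lin d L h
      have := rep_mul_Lin d (⟨e, [], rfl, by simp [val_nil_Lin]⟩ : Rep_Lin d (d.s e) 0) hr
      exact ih _ (by omega) this

theorem cycF_ok : CycF_st := by
  intro G ι _ d γ
  obtain ⟨k, hk⟩ := rep_ex_Lin d γ
  suffices H : ∀ γ' δ, Rep_Lin d γ' k → γ = δ * γ' * δ⁻¹ →
      (∃ (δ : G) (e : d.E), γ = δ * d.s e * δ⁻¹) ∨ ∃ (δ : G) (L : List (Bool × d.E)), L ≠ [] ∧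
        γ = δ * d.val L * δ⁻¹ ∧ (L ++ L).IsChain d.Ok from H γ 1 hk (by simp)
  clear hk
  induction k using Nat.strong_induction_on with
  | _ k ih =>
    rintro _ δ ⟨e, L, rfl, rfl⟩ hγ
    by_cases hL : L = []
    · subst hL
      exact .inl ⟨δ, e, by simpa [val_nil_Lin] using hγ⟩
    obtain ⟨L', h1, h2⟩ := abs_Lin d L hL e
    have h3 : γ = δ * d.s e * d.val L' * (δ * d.s e)⁻¹ := by rw [hγ, ← h2]; group
    cases L' with
    | nil => exact absurd (List.length_eq_zero_iff.mp h1.symm) hL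
    | cons τ L0 =>
      by_cases c1 : (τ :: L0).IsChain d.Ok
      · by_cases c2 : (L0 ++ [τ]).IsChain d.Ok
        · refine .inr ⟨_, τ :: L0, by simp, h3, List.isChain_append.mpr ⟨c1, c1, ?_⟩⟩
          intro x hx y hy
          obtain rfl : τ = y := by simpa using hy
          cases L0 with
          | nil =>
            obtain rfl : τ = x := by simpa using hx
            constructor <;> rintro ⟨a, b, -⟩ <;> simp [a] at b
          | cons σ L0 =>
            exact (List.isChain_append.mp c2).2.2 x (by simpa [List.getLast?_cons_cons] using hx) τ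
              (by simp)
        · obtain ⟨k, hk, hr⟩ := short_Lin d _ c2
          refine ih k (by simp at hk h1; omega) _ (δ * d.s e * d.val [τ]) hr ?_
          rw [h3, val_append_Lin, ← List.singleton_append, val_append_Lin]
          group
      · obtain ⟨k, hk, hr⟩ := short_Lin d _ c1
        exact ih k (h1 ▸ hk) _ _ hr h3

end Pool.Agent.MP_692752_al

end

section

/-! Automorphisms that are inner in every finite quotient are inner. -/

set_option autoImplicit false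

namespace Pool.Agent.MP_692752_al

open FreeGroup

theorem surj_Gross {G ι : Type} [Group G] (d : HD G ι) (n : ℕ) :
    Function.Surjective (d.θ n) := by
  intro z
  rcases d.hE z with hz | hz
  · exact ⟨d.s ⟨z, hz⟩, d.θs n _⟩
  · refine ⟨d.s ⟨z * d.x⁻¹, hz⟩ * d.t * (d.s ⟨d.c, d.hc⟩ ^ n)⁻¹, ?_⟩
    rw [MonoidHom.map_mul, MonoidHom.map_mul, MonoidHom.map_inv, MonoidHom.map_pow, d.θs, d.θs,
      d.θt]
    group

theorem pig_Gross (k : ℕ → ℤ) (N : ℕ) (hN : ∀ n, N ≤ n → (k n).natAbs < N) :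
    ∃ k0 : ℤ, ∀ M : ℕ, ∃ n, M ≤ n ∧ k n = k0 := by
  by_contra hc
  have hc' : ∀ k0 : ℤ, ∃ M : ℕ, ∀ n, M ≤ n → k n ≠ k0 := by
    intro k0
    by_contra h
    refine hc ⟨k0, fun M => ?_⟩
    by_contra h'
    exact h ⟨M, fun n hn he => h' ⟨n, hn, he⟩⟩
  choose M hM using hc'
  have h1 := hN (N + (Finset.Icc (-(N : ℤ)) N).sup M) (Nat.le_add_right _ _)
  have hm : k (N + (Finset.Icc (-(N : ℤ)) N).sup M) ∈ Finset.Icc (-(N : ℤ)) N := by
    rw [Finset.mem_Icc]
    omega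
  have h2 := Finset.le_sup (f := M) hm
  exact hM _ _ (le_trans h2 (Nat.le_add_left _ _)) rfl

theorem conj_Gross {G ι : Type} [Group G] (d : HD G ι) (h2 : E2_st) (φ : MulAut G)
    (w : ℕ → FreeGroup ι) (hw : ∀ n z, d.θ n (φ z) = w n * d.θ n z * (w n)⁻¹)
    (hl : ∀ z, d.lam (φ z) = d.lam z) :
    ∃ δ : G, φ (d.s ⟨d.B, d.hB⟩) = δ * d.s ⟨d.B, d.hB⟩ * δ⁻¹ := by
  obtain ⟨δ, e, he⟩ := h2 G ι d (φ (d.s ⟨d.B, d.hB⟩)) (fun n => ⟨w n, by rw [hw, d.θs]⟩)
  have h0 := hw 0 (d.s ⟨d.B, d.hB⟩)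
  rw [he, MonoidHom.map_mul, MonoidHom.map_mul, MonoidHom.map_inv, d.θs, d.θs] at h0
  have hz : (e : FreeGroup ι) =
      ((d.θ 0 δ)⁻¹ * w 0) * d.B * ((d.θ 0 δ)⁻¹ * w 0)⁻¹ := by
    have : (e : FreeGroup ι) = (d.θ 0 δ)⁻¹ * (d.θ 0 δ * e * (d.θ 0 δ)⁻¹) * d.θ 0 δ := by group
    rw [this, h0]
    group
  generalize (d.θ 0 δ)⁻¹ * w 0 = z at hz
  rcases d.hE z with hE | hE
  · have h3 : e = (⟨z, hE⟩ : d.E) * ⟨d.B, d.hB⟩ * (⟨z, hE⟩ : d.E)⁻¹ := Subtype.ext hz
    refine ⟨δ * d.s ⟨z, hE⟩, ?_⟩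
    rw [he, h3, MonoidHom.map_mul, MonoidHom.map_mul, MonoidHom.map_inv]
    group
  · exfalso
    have h3 : e = (⟨z * d.x⁻¹, hE⟩ : d.E) * ⟨d.x * d.B * d.x⁻¹, d.hB'⟩ *
        (⟨z * d.x⁻¹, hE⟩ : d.E)⁻¹ := by
      apply Subtype.ext
      rw [hz]
      simp only [Subgroup.coe_mul, Subgroup.coe_inv]
      group
    apply d.hlam
    rw [← hl, he, h3]
    simp only [MonoidHom.map_mul, MonoidHom.map_inv, mul_inv_cancel_comm]

theorem gross_ok (hP : PI_st) (h1 : E1_st) (h2 : E2_st) (h3 : E3_st) : Gross_st := by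
  rintro G ι _ ⟨d⟩ φ hφ
  have hw : ∀ n, ∃ w, ∀ z, d.θ n (φ z) = w * d.θ n z * w⁻¹ := by
    intro n
    refine hP ι d.i0 d.i1 d.hi G (d.θ n) ((d.θ n).comp φ.toMonoidHom) (surj_Gross d n) ?_
    intro Q _ _ π
    obtain ⟨γ, hγ⟩ := hφ Q (π.comp (d.θ n))
    refine ⟨d.θ n γ, fun z => ?_⟩
    have := hγ z
    simpa using this
  choose w hw using hw
  have hl : ∀ z, d.lam (φ z) = d.lam z := by
    obtain ⟨γ, hγ⟩ := hφ (Multiplicative (ZMod 2)) d.lam
    intro z
    rw [hγ]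
    simp only [MonoidHom.map_mul, MonoidHom.map_inv, mul_inv_cancel_comm]
  obtain ⟨δ, hδ⟩ := conj_Gross d h2 φ w hw hl
  have hw' : ∀ n z, d.θ n (δ⁻¹ * φ z * δ) =
      ((d.θ n δ)⁻¹ * w n) * d.θ n z * ((d.θ n δ)⁻¹ * w n)⁻¹ := by
    intro n z
    rw [MonoidHom.map_mul, MonoidHom.map_mul, MonoidHom.map_inv, hw]
    group
  have hk : ∀ n, ∃ k : ℤ, d.B ^ k = (d.θ n δ)⁻¹ * w n := by
    intro n
    apply d.cent_B
    have h := hw' n (d.s ⟨d.B, d.hB⟩)
    have hb : δ⁻¹ * φ (d.s ⟨d.B, d.hB⟩) * δ = d.s ⟨d.B, d.hB⟩ := by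
      rw [hδ]
      group
    rw [hb, d.θs] at h
    exact (eq_mul_inv_iff_mul_eq.mp h).symm
  choose k hk using hk
  obtain ⟨N, hN⟩ := h3 G ι d (δ⁻¹ * φ (d.s ⟨d.Y, d.hY⟩) * δ) k (fun n => by
    rw [hw', ← hk, d.θs])
  obtain ⟨k0, hk0⟩ := pig_Gross k N hN
  refine ⟨δ * d.s ⟨d.B, d.hB⟩ ^ k0, fun z => ?_⟩
  have h := h1 G ι d ((δ⁻¹ * φ z * δ) *
      (d.s ⟨d.B, d.hB⟩ ^ k0 * z * (d.s ⟨d.B, d.hB⟩ ^ k0)⁻¹)⁻¹) (fun M => by
    obtain ⟨n, hn, he⟩ := hk0 M
    refine ⟨n, hn, ?_⟩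
    rw [MonoidHom.map_mul, hw', ← hk, he, MonoidHom.map_inv, MonoidHom.map_mul,
      MonoidHom.map_mul, MonoidHom.map_inv, MonoidHom.map_zpow, d.θs, mul_inv_cancel])
  have h' := mul_inv_eq_one.mp h
  have : φ z = δ * (δ⁻¹ * φ z * δ) * δ⁻¹ := by group
  rw [this, h']
  group

end Pool.Agent.MP_692752_al

end

section

/-! Closures in the profinite topology and the abstract transfer theorem. -/

set_option autoImplicit false

namespace Pool.Agent.MP_692752_al

open FreeGroup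

section
variable {A : Type} [Group A] {X Y : Subgroup A} {a : A}

theorem le_cl_AT (X : Subgroup A) : X ≤ cl X := fun _ h _ _ h2 => h2 h

theorem mono_AT (h : X ≤ Y) : cl X ≤ cl Y := fun _ ha K h1 h2 => ha K h1 (h.trans h2)

theorem dec_AT (ha : a ∈ cl X) (B : Subgroup A) [B.FiniteIndex] : ∃ h ∈ X, h⁻¹ * a ∈ B := by
  obtain ⟨h, hh, n, hn, rfl⟩ := Subgroup.mem_sup_of_normal_right.1
    (ha (X ⊔ B.normalCore) (Subgroup.finiteIndex_of_le le_sup_right) le_sup_left)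
  exact ⟨h, hh, by simpa using B.normalCore_le hn⟩

theorem avoid_AT {ι : Type} [Finite ι] (b : ι → A) (h : ∀ i, b i ∉ cl X) :
    ∃ L : Subgroup A, L.FiniteIndex ∧ X ≤ L ∧ ∀ i, b i ∉ L := by
  have k : ∀ i, ∃ K : Subgroup A, K.FiniteIndex ∧ X ≤ K ∧ b i ∉ K := fun i => by
    by_contra c
    exact h i fun K h1 h2 => by_contra fun h3 => c ⟨K, h1, h2, h3⟩
  choose K h1 h2 h3 using k
  exact ⟨⨅ i, K i, Subgroup.finiteIndex_iInf h1, le_iInf h2,
    fun i c => h3 i (Subgroup.mem_iInf.1 c i)⟩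

theorem coset_AT (h : X.relIndex Y ≠ 0) (ha : a ∈ cl Y) : ∃ h ∈ Y, h⁻¹ * a ∈ cl X := by
  by_contra c
  have : (X.subgroupOf Y).FiniteIndex := ⟨h⟩
  obtain ⟨L, h1, h2, h3⟩ := avoid_AT (X := X)
    (fun q : Y ⧸ X.subgroupOf Y => (q.out : A)⁻¹ * a) fun q e => c ⟨_, q.out.2, e⟩
  obtain ⟨y, hy, e⟩ := dec_AT ha L
  have k := QuotientGroup.eq.1 (QuotientGroup.out_eq' (s := X.subgroupOf Y) (⟨y, hy⟩ : Y))
  exact h3 (⟨y, hy⟩ : Y) (by
    simpa [mul_assoc] using L.mul_mem (h2 (Subgroup.mem_subgroupOf.1 k)) e)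

theorem fg_AT (hle : X ≤ Y) (h : X.relIndex Y ≠ 0) (hY : Y.FG) : X.FG := by
  have : (X.subgroupOf Y).FiniteIndex := ⟨h⟩
  have := (Group.fg_iff_subgroup_fg Y).2 hY
  exact (Group.fg_iff_subgroup_fg X).1 (Group.fg_of_surjective
    (f := (Subgroup.subgroupOfEquivOfLe hle).toMonoidHom) (MulEquiv.surjective _))

theorem img_AT (hH : Hall_st) {T : Subgroup A} {P : T →* F2} (hC : Cts T P) (hle : X ≤ T)
    (hX : X.FG) {t : T} (ha : (t : A) ∈ cl X) : ∃ h : T, (h : A) ∈ X ∧ P h = P t := by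
  have := (Group.fg_iff_subgroup_fg X).2 hX
  obtain ⟨x, hx⟩ := hH (Fin 2) (P.comp (Subgroup.inclusion hle)).range
    ((Group.fg_iff_subgroup_fg _).1 inferInstance) (x := P t) fun K h1 h2 => by
      obtain ⟨B, h3, h4⟩ := hC K h1
      obtain ⟨h, hh, e⟩ := dec_AT ha B
      have k := K.mul_mem (h2 ⟨⟨h, hh⟩, rfl⟩) (h4 ((⟨h, hle hh⟩ : T)⁻¹ * t) e)
      rwa [_root_.map_mul, _root_.map_inv, MonoidHom.comp_apply,
        show Subgroup.inclusion hle ⟨h, hh⟩ = ⟨h, hle hh⟩ from rfl, mul_inv_cancel_left] at k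
  exact ⟨Subgroup.inclusion hle x, x.2, hx⟩

end

theorem cong_ok : Cong_st := by
  intro G _ hG Q _ _ π
  obtain ⟨S, hS, hf⟩ := Group.fg_iff.1 hG
  have := hf.to_subtype
  have : Finite (G →* Q) := Finite.of_injective (fun f (s : S) => f s) fun f g e =>
    MonoidHom.eq_of_eqOn_dense hS fun s hs => congrFun e ⟨s, hs⟩
  let φ : MulAut G →* Equiv.Perm (G →* Q) := MonoidHom.mk'
    (fun α => ⟨fun f => f.comp α.symm.toMonoidHom, fun f => f.comp α.toMonoidHom,
      fun f => by ext; simp, fun f => by ext; simp⟩) fun _ _ => rfl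
  have k : ∀ β ∈ φ.ker, ∀ (f : G →* Q) z, f (β z) = f z := fun β hβ f z => by
    have e := DFunLike.congr_fun (DFunLike.congr_fun (MonoidHom.mem_ker.1 hβ) f) (β z)
    simpa [φ] using e.symm
  refine ⟨⟨φ.ker, inferInstance, fun β hβ => k β hβ π⟩, fun X a ha => ?_⟩
  obtain ⟨h, hh, e⟩ := dec_AT ha φ.ker
  exact ⟨h, hh, fun z => by simpa using k _ e (π.comp h.toMonoidHom) z⟩

theorem at_ok (hH : Hall_st) : AT_st := by
  intro A _ I T H P hI cI cT hC IH fH hT ⟨S, hS, SH, hP⟩ a ha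
  have r0 : (T ⊓ H).relIndex H ≠ 0 := by rwa [Subgroup.inf_relIndex_right]
  have f0 := fg_AT inf_le_right r0 fH
  have mT : ∀ {X : Subgroup A} {b}, X ≤ T → b ∈ cl X → b ∈ T := fun h hb => cT (mono_AT h hb)
  obtain ⟨h₀, m₀, c₀⟩ := coset_AT r0 ha
  obtain ⟨h₁, m₁, e₁⟩ := img_AT hH hC inf_le_left f0 (t := ⟨_, mT inf_le_left c₀⟩) c₀
  obtain ⟨b, hb⟩ : ∃ b : T, b = h₁⁻¹ * ⟨_, mT inf_le_left c₀⟩ := ⟨_, rfl⟩
  have cb : (b : A) ∈ cl (T ⊓ H) := hb ▸ mul_mem (inv_mem (le_cl_AT _ m₁)) c₀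
  have pb : P b = 1 := by rw [hb, _root_.map_mul, _root_.map_inv, e₁, inv_mul_cancel]
  suffices k : (b : A) ∈ H by
    have := H.mul_mem m₀ (H.mul_mem m₁.2 k)
    simpa [hb] using this
  by_contra nb
  have := hS.to_subtype
  obtain ⟨L, l1, l2, l3⟩ := avoid_AT (X := I) (fun s : S => (s : A)⁻¹ * b) fun s e =>
    nb (by simpa using H.mul_mem (SH s.2) (IH (cI e)))
  have IB : I ≤ L.normalCore := Subgroup.normal_le_normalCore.2 l2
  have r1 : (L.normalCore ⊓ (T ⊓ H)).relIndex (T ⊓ H) ≠ 0 := by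
    rw [Subgroup.inf_relIndex_right]
    exact Subgroup.FiniteIndex.index_ne_zero
  obtain ⟨h₂, m₂, c₂⟩ := coset_AT r1 cb
  obtain ⟨h₃, m₃, e₃⟩ := img_AT hH hC (inf_le_right.trans inf_le_left) (fg_AT inf_le_right r1 f0)
    (t := (⟨h₂, m₂.1⟩ : T)⁻¹ * b) c₂
  obtain ⟨s, hs, e⟩ := hP (⟨h₂, m₂.1⟩ * h₃) (H.mul_mem m₂.2 m₃.2.2) (by
    rw [_root_.map_mul, e₃, ← _root_.map_mul, mul_inv_cancel_left, pb])
  refine l3 ⟨s, hs⟩ (L.normalCore_le ?_)
  have := mul_mem (mul_mem (IB e) (inv_mem m₃.1)) (c₂ _ inferInstance inf_le_left)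
  simpa [mul_assoc] using this

end Pool.Agent.MP_692752_al

end

section

/-! Passage from automorphisms to outer automorphisms. -/

set_option autoImplicit false

namespace Pool.Agent.MP_692752_al

open FreeGroup

theorem ker_Out (G : Type) [Group G] : (toOut G).ker = Inn G := QuotientGroup.ker_mk' _

theorem surj_Out (G : Type) [Group G] : Function.Surjective (toOut G) :=
  QuotientGroup.mk'_surjective _

theorem out_ok (hC : Cong_st) (hA : AT_st) : Out_st := by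
  intro G _ hG hGr T P hT hP H hH hi hf
  obtain ⟨σ, hσ⟩ := (surj_Out G).hasRightInverse
  have hI : cl (Inn G) ≤ Inn G := by
    intro a ha
    obtain ⟨γ, hγ⟩ := hGr a fun Q _ _ π => by
      obtain ⟨_, ⟨γ, rfl⟩, h⟩ := (hC G hG Q π).2 _ a ha
      exact ⟨γ, h⟩
    exact ⟨γ, MulEquiv.ext fun z => (hγ z).symm⟩
  have hIH : Inn G ≤ H.comap (toOut G) := ker_Out G ▸ Subgroup.ker_le_comap _ _
  have hfg : (H.comap (toOut G)).FG := by
    obtain ⟨S, hS, hS'⟩ := (Subgroup.fg_iff H).1 hH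
    have e : H = (Subgroup.closure (σ '' S)).map (toOut G) := by
      rw [MonoidHom.map_closure, Set.image_image]
      simp only [hσ _, Set.image_id', hS]
    rw [e, Subgroup.comap_map_eq, ker_Out]
    exact ((Subgroup.fg_iff _).2 ⟨_, rfl, hS'.image σ⟩).sup
      ((Group.fg_iff_subgroup_fg _).1 (Group.fg_range _))
  have key := hA (MulAut G) (Inn G) T (H.comap (toOut G)) P inferInstance hI hT hP hIH hfg hi
    ⟨_, hf.image σ, by
      rintro _ ⟨φ, h, rfl⟩
      rw [SetLike.mem_coe, Subgroup.mem_comap, hσ]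
      exact h.1, fun t ht h1 => ⟨_, ⟨toOut G t, ⟨ht, t, rfl, h1⟩, rfl⟩, by
      rw [← ker_Out, MonoidHom.mem_ker, _root_.map_mul, _root_.map_inv, hσ, inv_mul_cancel]⟩⟩
  intro φ hφ
  by_contra hn
  refine hφ (hσ φ ▸ (key (fun K hK hHK => ?_) : σ φ ∈ H.comap (toOut G)))
  by_contra hK'
  have hk : (toOut G).ker ≤ K := ker_Out G ▸ hIH.trans hHK
  refine hn ⟨K.map (toOut G), ⟨?_⟩, ?_, fun h => hK' ?_⟩
  · rw [Subgroup.index_map_eq _ (surj_Out G) hk]
    exact hK.index_ne_zero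
  · rw [← Subgroup.map_comap_eq_self_of_surjective (surj_Out G) H]
    exact Subgroup.map_mono hHK
  · rw [← Subgroup.comap_map_eq_self hk, Subgroup.mem_comap, hσ]
    exact h

theorem surf_fg (g : ℕ) : Group.FG (Surf g) :=
  Group.fg_of_surjective (PresentedGroup.mk_surjective _)

end Pool.Agent.MP_692752_al

end
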