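import Pool.Agent.Mg.F692752.G94411f

/-! The data for the surface of genus two with one boundary component. -/

set_option autoImplicit false

namespace Pool.Agent.MP_692752_al

open FreeGroup

def nA : Wd 4 :=
    [(3, false), (2, false), (3, true), (2, true), (1, true), (0, false), (1, false)]

def cA : Wd 4 :=
    [(0, true), (3, false), (2, false), (3, true), (2, true), (1, true), (0, false), (1, false)]

def DA : Fin 4 → Wd 4 :=
    ![[(0, true)], [(3, false), (2, false), (3, true), (2, true), (1, true)], [(3, false), (2,
    false), (3, true), (2, true), (1, true), (0, false), (1, false), (2, true), (1, true), (0,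
    true), (1, false), (2, false), (3, false), (2, true), (3, true)], [(3, false), (2, false),
    (3, true), (2, true), (1, true), (0, false), (1, false), (3, true), (1, true), (0, true), (1,
    false), (2, false), (3, false), (2, true), (3, true)]]

def DiA : Fin 4 → Wd 4 :=
    ![[(0, true)], [(1, true), (0, true), (1, false), (2, false), (3, false), (2, true), (3,
    true), (1, true), (0, false)], [(1, true), (0, true), (1, false), (2, false), (3, false), (2,
    true), (3, true), (2, true), (3, false), (2, false), (3, true), (2, true), (1, true), (0,
    false), (1, false)], [(1, true), (0, true), (1, false), (2, false), (3, false), (2, true),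
    (3, true), (2, false), (3, true), (2, true), (1, true), (0, false), (1, false)]]

theorem okDA : ∀ i, apW DA (DiA i) = [(i, true)] ∧ apW DiA (DA i) = [(i, true)] := by
  decide +kernel

def nuA : Fin 4 → Wd 4 :=
    ![[(3, false), (2, false), (3, true), (2, true), (1, true), (0, false), (1, false)], [(1,
    true)], [(2, true)], [(3, true)]]

def nuiA : Fin 4 → Wd 4 :=
    ![[(1, false), (0, false), (3, false), (2, false), (3, true), (2, true), (1, true)], [(1,
    true)], [(2, true)], [(3, true)]]

theorem okNA : ∀ i, apW nuA (nuiA i) = [(i, true)] ∧ apW nuiA (nuA i) = [(i, true)] := by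
  decide +kernel

def PA : Fin 4 → Fin 4 → Wd 4 :=
    ![![[(0, true)], [(1, true), (0, true), (1, false), (2, false), (3, false), (2, true), (3,
    true), (1, true), (0, false)], [(1, true), (0, true), (1, false), (2, false), (3, false), (2,
    true), (3, true), (2, true), (3, false), (2, false), (3, true), (2, true), (1, true), (0,
    false), (1, false)], [(1, true), (0, true), (1, false), (2, false), (3, false), (2, true),
    (3, true), (2, false), (3, true), (2, true), (1, true), (0, false), (1, false)]], ![[(0,
    true), (3, false), (2, false), (3, true), (2, true)], [(1, true)], [(1, true), (2, true), (1,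
    false)], [(1, true), (3, true), (1, false)]], ![[(2, true), (1, true), (0, true), (1, false),
    (2, false), (3, false), (2, true), (3, true), (0, true), (3, false), (2, false), (3, true),
    (2, true), (1, true), (0, false), (1, false), (2, false)], [(1, true), (0, true), (1, false),
    (2, false), (3, false), (2, true), (3, true), (0, false), (2, true), (1, true), (0, true),
    (3, false), (2, false), (3, true), (2, true), (1, true), (0, false), (1, false), (2, false)],
    [(2, true)], [(2, true), (3, true), (0, true), (3, false), (2, false), (3, true), (2, true),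
    (1, true), (0, false), (1, false), (2, false)]], ![[(0, true), (3, false), (2, false), (3,
    true), (2, true), (1, true), (0, false), (1, false), (3, true), (0, true), (3, false), (1,
    true), (0, true), (1, false), (2, false), (3, false), (2, true), (3, true), (0, false)], [(3,
    true), (0, true), (3, false), (2, false), (3, true), (2, true), (1, true), (0, false), (3,
    false), (1, true), (0, true), (1, false), (2, false), (3, false), (2, true), (3, true), (0,
    false)], [(3, true), (2, true), (1, true), (0, true), (1, false), (2, false), (3, false), (2,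
    true), (3, true), (0, false), (3, false)], [(3, true)]]]

def PiA : Fin 4 → Fin 4 → Wd 4 :=
    ![![[(0, true)], [(3, false), (2, false), (3, true), (2, true), (1, true)], [(3, false), (2,
    false), (3, true), (2, true), (1, true), (0, false), (1, false), (2, true), (1, true), (0,
    true), (1, false), (2, false), (3, false), (2, true), (3, true)], [(3, false), (2, false),
    (3, true), (2, true), (1, true), (0, false), (1, false), (3, true), (1, true), (0, true), (1,
    false), (2, false), (3, false), (2, true), (3, true)]], ![[(0, true), (1, false), (2, false),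
    (3, false), (2, true), (3, true), (1, true)], [(1, true)], [(1, false), (2, true), (1,
    true)], [(1, false), (3, true), (1, true)]], ![[(0, true), (3, false), (2, false), (3, true),
    (2, true), (1, true), (0, false), (1, false), (2, false), (0, true), (2, true), (1, true),
    (0, true), (1, false), (2, false), (3, false), (2, true), (3, true), (0, false)], [(2,
    false), (0, true), (3, false), (2, false), (3, true), (2, true), (1, true), (0, false), (2,
    true), (1, true), (0, true), (1, false), (2, false), (3, false), (2, true), (3, true), (0,
    false)], [(2, true)], [(2, false), (3, true), (2, true), (1, true), (0, true), (1, false),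
    (2, false), (3, false), (2, true), (3, true), (0, false)]], ![[(3, false), (1, true), (0,
    true), (1, false), (2, false), (3, false), (2, true), (3, true), (0, true), (3, false), (2,
    false), (3, true), (2, true), (1, true), (0, false), (1, false), (3, true)], [(1, true), (0,
    true), (1, false), (2, false), (3, false), (2, true), (3, true), (0, false), (3, false), (1,
    true), (0, true), (3, false), (2, false), (3, true), (2, true), (1, true), (0, false), (1,
    false), (3, true)], [(3, false), (2, true), (3, true), (0, true), (3, false), (2, false), (3,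
    true), (2, true), (1, true), (0, false), (1, false)], [(3, true)]]]

theorem okPA : ∀ j i, apW (PA j) (PiA j i) = [(i, true)] ∧ apW (PiA j) (PA j i) = [(i, true)] := by
  decide +kernel

def alA : Fin 3 → Fin 4 → Wd 4 :=
    ![![[(0, true), (2, true), (1, true), (2, false), (3, true), (2, true), (1, true), (3, true),
    (2, true), (1, true), (3, true), (2, true), (1, true), (2, false), (3, true), (2, true), (1,
    true), (2, true), (1, true), (1, true), (1, true)], [(1, true)], [(1, false), (1, false), (1,
    false), (2, false), (1, false), (2, false), (3, false), (2, true), (1, false), (2, false),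
    (3, false), (1, false), (2, false), (3, false), (2, true), (1, true), (1, true)], [(1,
    false), (1, false), (1, false), (2, false), (1, false), (2, false), (3, false), (2, true),
    (3, true), (2, true), (1, true), (2, false), (3, true), (2, true), (1, true), (3, true), (2,
    true), (1, true), (3, true), (2, true), (1, true), (2, false), (3, true), (2, true), (1,
    true), (2, true), (1, true), (1, true), (1, true)]], ![[(0, true)], [(1, true), (0, true)],
    [(2, true)], [(3, true)]], ![[(0, true), (2, true), (1, true), (0, true), (2, true), (1,
    true), (0, true), (3, true), (2, true), (1, true), (1, true), (0, true), (2, false), (3,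
    true), (2, true), (1, true), (2, false), (3, true), (2, true), (1, true), (1, true), (0,
    true), (3, true), (2, true), (1, true)], [(1, false), (2, false), (3, false), (0, false), (1,
    false), (2, false), (0, false), (1, false), (2, false), (0, false)], [(1, false), (2, false),
    (3, false), (0, false), (1, false), (1, false), (2, false), (3, false), (2, true), (1,
    false), (2, false), (3, false), (2, true), (0, false), (1, false), (1, false), (2, false),
    (3, false), (2, true), (1, true), (0, true), (3, true), (2, true), (1, true)], [(1, false),
    (2, false), (3, false), (0, false), (1, false), (1, false), (2, false), (3, false), (2,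
    true), (1, false), (2, false), (3, false), (2, true), (3, true), (2, true), (1, true), (0,
    true), (2, true), (1, true), (0, true), (3, true), (2, true), (1, true), (1, true), (0,
    true), (2, false), (3, true), (2, true), (1, true), (2, false), (3, true), (2, true), (1,
    true), (1, true), (0, true), (3, true), (2, true), (1, true)]]]

def aliA : Fin 3 → Fin 4 → Wd 4 :=
    ![![[(0, true), (1, false), (2, false), (3, false), (2, true), (1, false), (2, false), (1,
    false), (2, false), (3, false), (1, false), (2, false), (3, false), (1, false), (2, false),
    (1, false), (2, false), (3, false), (2, true), (1, false), (1, false)], [(1, true)], [(1,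
    true), (1, true), (2, false), (3, true), (2, true), (1, true), (2, true), (1, true), (3,
    true), (2, true), (1, true), (3, true), (2, true), (1, true), (2, true), (1, false), (1,
    false)], [(1, true), (1, true), (2, false), (3, true), (2, true), (1, true), (2, true), (1,
    true), (3, true), (1, false), (2, false), (3, false), (2, true), (1, false), (2, false), (1,
    false), (2, false), (3, false), (1, false), (2, false), (3, false), (1, false), (2, false),
    (1, false), (2, false), (3, false), (2, true), (1, false), (1, false)]], ![[(0, true)], [(1,
    true), (0, false)], [(2, true)], [(3, true)]], ![[(1, false), (2, false), (0, false), (1,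
    false), (2, false), (0, false), (1, false), (1, false), (2, false), (3, false), (1, false),
    (2, false), (3, false), (2, true), (1, false), (2, false), (3, false), (2, true), (1, false),
    (2, false), (3, false), (0, false), (1, false)], [(1, true), (0, true), (3, true), (2, true),
    (1, true), (1, true), (0, true), (2, true), (1, true), (0, true), (2, true), (1, true)], [(1,
    true), (0, true), (3, true), (2, true), (1, true), (2, false), (3, true), (2, true), (1,
    true), (2, false), (3, true), (2, true), (1, true), (3, true), (2, true), (1, true), (1,
    true), (0, true), (2, true), (1, false), (2, false), (3, false), (0, false), (1, false)],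
    [(1, true), (0, true), (3, true), (2, true), (1, true), (2, false), (3, true), (2, true), (1,
    true), (2, false), (3, true), (2, true), (1, true), (3, true), (0, false), (1, false), (2,
    false), (0, false), (1, false), (2, false), (0, false), (1, false), (1, false), (2, false),
    (3, false), (1, false), (2, false), (3, false), (2, true), (1, false), (2, false), (3,
    false), (2, true), (1, false), (2, false), (3, false), (0, false), (1, false)]]]

theorem okAA : ∀ j i, apW (alA j) (aliA j i) = [(i, true)] ∧ apW (aliA j) (alA j i) = [(i, true)] := by
  decide +kernel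

def hmA : HM (Fin 4) where
  ig := 0
  is := 1
  ia := 2
  inn := 0
  gs := by decide
  ag := by decide
  as' := by decide
  n := mk nA
  hn := by
    have h : mk nA = (of 3)⁻¹ * (of 2)⁻¹ * of 3 * of 2 * (of 1 * of 0 * (of 1)⁻¹)⁻¹ := by
      decide +kernel
    rw [h]
    refine mul_mem (mul_mem (mul_mem (mul_mem (inv_mem ?_) (inv_mem ?_)) ?_) ?_) (inv_mem ?_) <;>
      refine Subgroup.subset_closure ?_
    exacts [Or.inr ⟨3, by decide, by decide, rfl⟩, Or.inr ⟨2, by decide, by decide, rfl⟩,
      Or.inr ⟨3, by decide, by decide, rfl⟩, Or.inr ⟨2, by decide, by decide, rfl⟩, Or.inl rfl]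
  D := auW DA DiA okDA
  D_g := by decide +kernel
  D_s := by decide +kernel
  D_a := by decide +kernel
  T := auW (alA 1) (aliA 1) (okAA 1)
  T_s := by decide +kernel
  T_o := by decide +kernel
  η := FreeGroup.lift ![Multiplicative.ofAdd 1, 1, 1, 1]
  η_g := by decide +kernel
  η_n := by decide +kernel
  η2 := FreeGroup.lift ![1, 1, Multiplicative.ofAdd 1, 1]
  η2_g := by decide +kernel
  η2_n := by decide +kernel
  η2_a := by decide +kernel
  ν := auW nuA nuiA okNA
  ν_n := by decide +kernel
  π0 := FreeGroup.lift ![1, 1, ⟨![0, 2, 1, 4, 5, 3], ![0, 2, 1, 5, 3, 4], by decide, by decide⟩,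
    ⟨![1, 2, 3, 4, 0, 5], ![4, 0, 1, 2, 3, 5], by decide, by decide⟩]
  π0_g := by decide +kernel
  π0_4 := by decide +kernel
  π0_2 := by decide +kernel

theorem hmA_c : hmA.c = mk cA := by decide +kernel

def puA : PU (Fin 4) where
  toHM := hmA
  pu := luW PA PiA okPA
  pu_c := lift_fix _ (by decide +kernel)
  pu_cc := ⟨-2, aut_ext fun i => by
    rw [hmA_c]
    refine (mk_evW PA PiA okPA cA [(i, true)]).symm.trans ?_
    revert i
    decide +kernel⟩
  pu_g := aut_ext (by decide +kernel)

def kA : Fin 3 → Fin 4 → ℤ := ![![6, 0, -4, 4], ![0, 0, 0, 0], ![6, -3, -3, 3]]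

theorem chkA_00 : ∀ l, apW (alA 0) (PA 0 l) = evW PA PiA (alA 0 0)
    (pwW cA (kA 0 0) ++ alA 0 l ++ invRev (pwW cA (kA 0 0))) := by
  decide +kernel

theorem chkA_01 : ∀ l, apW (alA 0) (PA 1 l) = evW PA PiA (alA 0 1)
    (pwW cA (kA 0 1) ++ alA 0 l ++ invRev (pwW cA (kA 0 1))) := by
  decide +kernel

theorem chkA_02 : ∀ l, apW (alA 0) (PA 2 l) = evW PA PiA (alA 0 2)
    (pwW cA (kA 0 2) ++ alA 0 l ++ invRev (pwW cA (kA 0 2))) := by
  decide +kernel

theorem chkA_03 : ∀ l, apW (alA 0) (PA 3 l) = evW PA PiA (alA 0 3)
    (pwW cA (kA 0 3) ++ alA 0 l ++ invRev (pwW cA (kA 0 3))) := by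
  decide +kernel

theorem chkA_10 : ∀ l, apW (alA 1) (PA 0 l) = evW PA PiA (alA 1 0)
    (pwW cA (kA 1 0) ++ alA 1 l ++ invRev (pwW cA (kA 1 0))) := by
  decide +kernel

theorem chkA_11 : ∀ l, apW (alA 1) (PA 1 l) = evW PA PiA (alA 1 1)
    (pwW cA (kA 1 1) ++ alA 1 l ++ invRev (pwW cA (kA 1 1))) := by
  decide +kernel

theorem chkA_12 : ∀ l, apW (alA 1) (PA 2 l) = evW PA PiA (alA 1 2)
    (pwW cA (kA 1 2) ++ alA 1 l ++ invRev (pwW cA (kA 1 2))) := by
  decide +kernel

theorem chkA_13 : ∀ l, apW (alA 1) (PA 3 l) = evW PA PiA (alA 1 3)
    (pwW cA (kA 1 3) ++ alA 1 l ++ invRev (pwW cA (kA 1 3))) := by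
  decide +kernel

theorem chkA_20 : ∀ l, apW (alA 2) (PA 0 l) = evW PA PiA (alA 2 0)
    (pwW cA (kA 2 0) ++ alA 2 l ++ invRev (pwW cA (kA 2 0))) := by
  decide +kernel

theorem chkA_21 : ∀ l, apW (alA 2) (PA 1 l) = evW PA PiA (alA 2 1)
    (pwW cA (kA 2 1) ++ alA 2 l ++ invRev (pwW cA (kA 2 1))) := by
  decide +kernel

theorem chkA_22 : ∀ l, apW (alA 2) (PA 2 l) = evW PA PiA (alA 2 2)
    (pwW cA (kA 2 2) ++ alA 2 l ++ invRev (pwW cA (kA 2 2))) := by
  decide +kernel

theorem chkA_23 : ∀ l, apW (alA 2) (PA 3 l) = evW PA PiA (alA 2 3)
    (pwW cA (kA 2 3) ++ alA 2 l ++ invRev (pwW cA (kA 2 3))) := by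
  decide +kernel

theorem cpA (v : F3) : puA.Cp (luW alA aliA okAA v) := by
  refine cp_lift _ _ (fun j => ?_) v
  rw [luW_of]
  refine cp_words puA PA PiA okPA rfl cA hmA_c _ _ _ (kA j)
    (by revert j; decide +kernel) fun i => ?_
  fin_cases j <;> fin_cases i
  exacts [chkA_00, chkA_01, chkA_02, chkA_03, chkA_10, chkA_11, chkA_12, chkA_13, chkA_20, chkA_21, chkA_22, chkA_23]

end Pool.Agent.MP_692752_al
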