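import Pool.Agent.Mg.F692752.Ge7ea3c
import Pool.Agent.MP_692752_al.Stmt2

section

/-! Internal definitions and the statements of the parts, second series. -/

set_option autoImplicit false

namespace Pool.Agent.MP_692752_al

open FreeGroup

/-! Levels -/

/-- the elements killed by every action on `m` points -/
def Lv (G : Type) [Group G] (m : ℕ) : Subgroup G := ⨅ f : G →* Equiv.Perm (Fin m), f.ker

/-- the elements killed by every action on `m` points that kills `c` -/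
def Lv0 {G : Type} [Group G] (c : G) (m : ℕ) : Subgroup G :=
  ⨅ (f : G →* Equiv.Perm (Fin m)) (_ : f c = 1), f.ker

/-- equality up to level `m` -/
def Eqv {G : Type} [Group G] (m : ℕ) (a b : G) : Prop :=
  ∀ f : G →* Equiv.Perm (Fin m), f a = f b

/-- commutator -/
def cm {G : Type} [Group G] (a b : G) : G := a * b * a⁻¹ * b⁻¹

section
variable {G H : Type} [Group G] [Group H] {m m' : ℕ}

theorem map_cm (f : G →* H) (a b : G) : f (cm a b) = cm (f a) (f b) := by simp [cm]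

theorem mem_Lv {a : G} : a ∈ Lv G m ↔ ∀ f : G →* Equiv.Perm (Fin m), f a = 1 := by
  simp [Lv, Subgroup.mem_iInf]

theorem mem_Lv0 {a c : G} :
    a ∈ Lv0 c m ↔ ∀ f : G →* Equiv.Perm (Fin m), f c = 1 → f a = 1 := by
  simp [Lv0, Subgroup.mem_iInf]

instance Lv_normal : (Lv G m).Normal where
  conj_mem a ha g := mem_Lv.2 fun f => by simp [mem_Lv.1 ha f]

instance Lv0_normal (c : G) : (Lv0 c m).Normal where
  conj_mem a ha g := mem_Lv0.2 fun f hf => by simp [mem_Lv0.1 ha f hf]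

theorem eqv_iff {a b : G} : Eqv m a b ↔ a⁻¹ * b ∈ Lv G m := by
  rw [mem_Lv]
  refine forall_congr' fun f => ?_
  rw [_root_.map_mul, _root_.map_inv, inv_mul_eq_one]

theorem eqv_one {a : G} : Eqv m a 1 ↔ a ∈ Lv G m := by
  rw [mem_Lv]
  exact forall_congr' fun f => by rw [_root_.map_one]

theorem Eqv.refl (a : G) : Eqv m a a := fun _ => rfl

theorem Eqv.of_eq {a b : G} (h : a = b) : Eqv m a b := fun _ => by rw [h]

theorem Eqv.symm {a b : G} (h : Eqv m a b) : Eqv m b a := fun f => (h f).symm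

theorem Eqv.trans {a b c : G} (h : Eqv m a b) (h' : Eqv m b c) : Eqv m a c :=
  fun f => (h f).trans (h' f)

theorem Eqv.mul {a b c d : G} (h : Eqv m a b) (h' : Eqv m c d) : Eqv m (a * c) (b * d) :=
  fun f => by rw [_root_.map_mul, _root_.map_mul, h f, h' f]

theorem Eqv.inv {a b : G} (h : Eqv m a b) : Eqv m a⁻¹ b⁻¹ :=
  fun f => by rw [_root_.map_inv, _root_.map_inv, h f]

theorem Eqv.zpow {a b : G} (h : Eqv m a b) (k : ℤ) : Eqv m (a ^ k) (b ^ k) :=
  fun f => by rw [map_zpow, map_zpow, h f]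

theorem Eqv.map (φ : G →* H) {a b : G} (h : Eqv m a b) : Eqv m (φ a) (φ b) :=
  fun f => h (f.comp φ)

theorem Eqv.aut (φ : G ≃* H) {a b : G} (h : Eqv m a b) : Eqv m (φ a) (φ b) :=
  h.map φ.toMonoidHom

theorem Lv_map (φ : G →* H) {a : G} (h : a ∈ Lv G m) : φ a ∈ Lv H m :=
  mem_Lv.2 fun f => mem_Lv.1 h (f.comp φ)

/-- an action on a finite type with at most `m` points, as an action on `m` points -/
theorem perm_emb (Ω : Type) [Finite Ω] (h : Nat.card Ω ≤ m) :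
    ∃ j : Equiv.Perm Ω →* Equiv.Perm (Fin m), Function.Injective j := by
  classical
  have := Fintype.ofFinite Ω
  obtain ⟨e⟩ : Nonempty (Ω ↪ Fin m) :=
    Function.Embedding.nonempty_of_card_le (by simpa [Nat.card_eq_fintype_card] using h)
  exact ⟨Equiv.Perm.viaEmbeddingHom e, Equiv.Perm.viaEmbeddingHom_injective e⟩

theorem grp_emb (Q : Type) [Group Q] [Finite Q] (h : Nat.card Q ≤ m) :
    ∃ j : Q →* Equiv.Perm (Fin m), Function.Injective j := by
  obtain ⟨j, hj⟩ := perm_emb Q h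
  exact ⟨j.comp (MulAction.toPermHom Q Q), hj.comp MulAction.toPerm_injective⟩

theorem Eqv.perm {Ω : Type} [Finite Ω] (h : Nat.card Ω ≤ m) (f : G →* Equiv.Perm Ω) {a b : G}
    (hab : Eqv m a b) : f a = f b := by
  obtain ⟨j, hj⟩ := perm_emb Ω h
  exact hj (hab (j.comp f))

theorem Eqv.grp {Q : Type} [Group Q] [Finite Q] (h : Nat.card Q ≤ m) (f : G →* Q) {a b : G}
    (hab : Eqv m a b) : f a = f b := by
  obtain ⟨j, hj⟩ := grp_emb Q h
  exact hj (hab (j.comp f))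

theorem Eqv.anti (h : m ≤ m') {a b : G} (hab : Eqv m' a b) : Eqv m a b :=
  fun f => hab.perm (by simpa using h) f

theorem Lv_anti (h : m ≤ m') : Lv G m' ≤ Lv G m :=
  fun _ ha => eqv_one.1 ((eqv_one.2 ha).anti h)

theorem Lv0_grp {Q : Type} [Group Q] [Finite Q] (h : Nat.card Q ≤ m) (f : G →* Q) {a c : G}
    (hc : f c = 1) (ha : a ∈ Lv0 c m) : f a = 1 := by
  obtain ⟨j, hj⟩ := grp_emb Q h
  exact (injective_iff_map_eq_one j).1 hj _ (mem_Lv0.1 ha (j.comp f) (by simp [hc]))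

theorem Lv0_perm {Ω : Type} [Finite Ω] (h : Nat.card Ω ≤ m) (f : G →* Equiv.Perm Ω) {a c : G}
    (hc : f c = 1) (ha : a ∈ Lv0 c m) : f a = 1 := by
  obtain ⟨j, hj⟩ := perm_emb Ω h
  exact (injective_iff_map_eq_one j).1 hj _ (mem_Lv0.1 ha (j.comp f) (by simp [hc]))

theorem Lv0_anti (h : m ≤ m') (c : G) : Lv0 c m' ≤ Lv0 c m :=
  fun _ ha => mem_Lv0.2 fun f hf => Lv0_perm (by simpa using h) f hf ha

theorem Lv_le_Lv0 (c : G) : Lv G m ≤ Lv0 c m := fun _ ha => mem_Lv0.2 fun f _ => mem_Lv.1 ha f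

/-- every subgroup of finite index contains a level -/
theorem Lv_le (K : Subgroup G) (hK : K.FiniteIndex) : ∃ m, Lv G m ≤ K := by
  refine ⟨Nat.card (G ⧸ K), fun a ha => ?_⟩
  have h := (eqv_one.2 ha).perm le_rfl (MulAction.toPermHom G (G ⧸ K))
  have h1 := DFunLike.congr_fun h ((1 : G) : G ⧸ K)
  simp only [MulAction.toPermHom_apply, MulAction.toPerm_apply, MulAction.Quotient.smul_mk,
    smul_eq_mul, mul_one, _root_.map_one, Equiv.Perm.one_apply, QuotientGroup.eq] at h1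
  simpa using h1

theorem Lv_fi (hG : Group.FG G) (m : ℕ) : (Lv G m).FiniteIndex := by
  obtain ⟨S, hS, hfin⟩ := Group.fg_iff.1 hG
  have := hfin.to_subtype
  have : Finite (G →* Equiv.Perm (Fin m)) := by
    refine Finite.of_injective (fun f (s : S) => f s) fun f g h => ?_
    exact MonoidHom.eq_of_eqOn_dense hS fun s hs => congrFun h ⟨s, hs⟩
  exact Subgroup.finiteIndex_iInf fun f => inferInstance

theorem pow_mem_Lv (a : G) (m : ℕ) : a ^ m.factorial ∈ Lv G m := mem_Lv.2 fun f => by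
  rw [_root_.map_pow]
  have h := pow_card_eq_one' (x := f a)
  rwa [Nat.card_perm, Nat.card_fin] at h

theorem zpow_mem_Lv (a : G) {k : ℤ} (h : (m.factorial : ℤ) ∣ k) : a ^ k ∈ Lv G m := by
  obtain ⟨j, rfl⟩ := h
  rw [zpow_mul, zpow_natCast]
  exact (Lv G m).zpow_mem (pow_mem_Lv a m) j

/-- an integer valued homomorphism is determined modulo `N` at level `N` -/
theorem Eqv.modEq {N : ℕ} (hN : N ≠ 0) (h : N ≤ m) (η : G →* Multiplicative ℤ) {a b : G}
    (hab : Eqv m a b) : (η a).toAdd ≡ (η b).toAdd [ZMOD N] := by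
  have : NeZero N := ⟨hN⟩
  have h1 := hab.grp (Q := Multiplicative (ZMod N)) (by simpa using h)
    ((Int.castAddHom (ZMod N)).toMultiplicative.comp η)
  exact (ZMod.intCast_eq_intCast_iff _ _ _).1 (congrArg Multiplicative.toAdd h1)

theorem Lv0_dvd {N : ℕ} (hN : N ≠ 0) (h : N ≤ m) (η : G →* Multiplicative ℤ) {a c : G}
    (hc : η c = 1) (ha : a ∈ Lv0 c m) : (N : ℤ) ∣ (η a).toAdd := by
  have : NeZero N := ⟨hN⟩
  have h1 := Lv0_grp (Q := Multiplicative (ZMod N)) (by simpa using h)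
    ((Int.castAddHom (ZMod N)).toMultiplicative.comp η) (by simp [hc]) ha
  exact (ZMod.intCast_zmod_eq_zero_iff_dvd _ _).1 (congrArg Multiplicative.toAdd h1)
end

theorem free_fg (ι : Type) [Finite ι] : Group.FG (FreeGroup ι) := inferInstance

/-- residual finiteness in terms of levels -/
def RFL (G : Type) [Group G] : Prop := ∀ z : G, (∀ m, z ∈ Lv G m) → z = 1

theorem rfl_free (hR : RF_st) (ι : Type) : RFL (FreeGroup ι) := fun z hz => by
  by_contra h
  obtain ⟨Q, _, _, π, hπ⟩ := hR ι z h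
  exact hπ (by simpa using (eqv_one.2 (hz (Nat.card Q))).grp le_rfl π)

/-- centralisers of subgroups of finite index are trivial, level by level -/
def CFG (G : Type) [Group G] : Prop := ∀ U : Subgroup G, U.FiniteIndex → ∀ m, ∃ m', ∀ w : G,
  (∀ u ∈ U, Eqv m' (w * u) (u * w)) → w ∈ Lv G m

/-- an endomorphism is determined on a subgroup of finite index, level by level -/
def UG (G : Type) [Group G] : Prop := ∀ U : Subgroup G, U.FiniteIndex → ∀ m, ∃ m',
  ∀ β : G →* G, (∀ u ∈ U, Eqv m' (β u) u) → ∀ z, Eqv m (β z) z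

theorem ug_of {G : Type} [Group G] (h : CFG G) : UG G := by
  intro U hU m
  obtain ⟨m', hm⟩ := h U.normalCore inferInstance m
  refine ⟨m', fun β hβ z => (eqv_iff.2 (hm _ fun u hu => ?_)).symm⟩
  have h1 := hβ u (U.normalCore_le hu)
  have h2 := hβ (z * u * z⁻¹) (U.normalCore_le (Subgroup.Normal.conj_mem inferInstance u hu z))
  intro f
  have h3 := h1 f
  have h4 := h2 f
  simp only [_root_.map_mul, _root_.map_inv, h3] at h4 ⊢
  calc (f z)⁻¹ * f (β z) * f u = (f z)⁻¹ * (f (β z) * f u * (f (β z))⁻¹) * f (β z) := by group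
    _ = f u * ((f z)⁻¹ * f (β z)) := by rw [h4]; group

/-- maps of subgroups of finite index that are inner at every level are inner -/
def GrP (G : Type) [Group G] : Prop := ∀ U : Subgroup G, U.FiniteIndex → ∀ f : U →* G,
  (∀ m, ∃ γ : G, ∀ u : U, Eqv m (f u) (γ * u * γ⁻¹)) → ∃ γ : G, ∀ u : U, f u = γ * u * γ⁻¹

/-! Free groups, powers of basis elements -/

def CPk_st : Prop := ∀ (ι X : Type) [MulAction (FreeGroup ι) X] (i₀ : ι) (k : ℕ)
  (W : Set (FreeGroup ι × X)), W.Finite →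
  ∃ (S : Type) (_ : Finite S) (π : FreeGroup ι →* Equiv.Perm S) (e : S → X),
    Function.Injective e ∧ (∀ z ∈ W, ∃ q, e q = z.2 ∧ e (π z.1 q) = z.1 • z.2) ∧
    (∀ q, π (of i₀ ^ k) q = q → (of i₀ ^ k : FreeGroup ι) • e q = e q) ∧
    (∀ i q, ∃ j : ℤ, e (π (of i) q) = (of i : FreeGroup ι) ^ j • e q)

def CSk_st : Prop := ∀ (ι : Type) (i : ι) (k : ℕ), k ≠ 0 → ∀ y : FreeGroup ι,
  (∀ m, ∃ g, Eqv m y (g * of i ^ k * g⁻¹)) → ∃ g, y = g * of i ^ k * g⁻¹

def Centk_st : Prop := ∀ (ι : Type) [Finite ι] (i : ι) (k : ℕ), k ≠ 0 → ∀ m, ∃ m',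
  ∀ w : FreeGroup ι, Eqv m' (w * of i ^ k) (of i ^ k * w) → ∃ j : ℤ, Eqv m w (of i ^ j)

def CFk_st : Prop := ∀ (ι : Type) [Finite ι] (i j : ι), i ≠ j → ∀ k : ℕ, k ≠ 0 → ∀ m, ∃ m',
  ∀ w : FreeGroup ι, Eqv m' (w * of i ^ k) (of i ^ k * w) →
    Eqv m' (w * of j ^ k) (of j ^ k * w) → w ∈ Lv (FreeGroup ι) m

def CFF_st : Prop := ∀ (ι : Type) [Finite ι] (i j : ι), i ≠ j → CFG (FreeGroup ι)

def Mal_st : Prop := ∀ (ι : Type) [Finite ι] (i : ι) (m : ℕ), ∃ m',
  ∀ (a : FreeGroup ι) (k j : ℤ), Odd k → Eqv m' (of i ^ k * a) (a * of i ^ j) →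
    ∃ l : ℤ, Eqv m a (of i ^ l)

def PIk_st : Prop := ∀ (ι : Type) [Finite ι] (i j : ι), i ≠ j → ∀ (G : Type) [Group G]
  (f f' : G →* FreeGroup ι), f.range.FiniteIndex →
  (∀ m, ∃ w, ∀ x, Eqv m (f' x) (w * f x * w⁻¹)) → ∃ w, ∀ x, f' x = w * f x * w⁻¹

def E2p_st : Prop := ∀ (G ι : Type) [Group G] (d : HD G ι) (γ : G) (B' : FreeGroup ι),
  (∀ n, ∃ w, d.θ n γ = w * B' * w⁻¹) → ∃ (δ : G) (e : d.E), γ = δ * d.s e * δ⁻¹

def GrH_st : Prop := ∀ (G ι : Type) [Group G] [Finite ι] (d : HD G ι)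
  (lz : G →* Multiplicative ℤ), lz (d.s ⟨d.B, d.hB⟩) ≠ lz (d.s ⟨d.x * d.B * d.x⁻¹, d.hB'⟩) → GrP G

def Surf2_st : Prop := GrP (Surf 2) ∧ RFL (Surf 2)

/-! Free groups split along two curves -/

/-- a free group split along the two curves `of ig` and `n`, with the twists `D` and `T` -/
structure HM (ι : Type) where
  ig : ι
  is : ι
  ia : ι
  inn : ι
  gs : ig ≠ is
  ag : ia ≠ ig
  as' : ia ≠ is
  n : FreeGroup ι
  hn : n ∈ Subgroup.closure
    ({of is * of ig * (of is)⁻¹} ∪ {z | ∃ i, i ≠ ig ∧ i ≠ is ∧ z = of i} : Set (FreeGroup ι))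
  D : MulAut (FreeGroup ι)
  D_g : D (of ig) = of ig
  D_s : D (of is) = n * of is * of ig
  D_a : ∀ i, i ≠ ig → i ≠ is → D (of i) = n * of i * n⁻¹
  T : MulAut (FreeGroup ι)
  T_s : T (of is) = of is * of ig
  T_o : ∀ i, i ≠ is → T (of i) = of i
  η : FreeGroup ι →* Multiplicative ℤ
  η_g : η (of ig) = Multiplicative.ofAdd 1
  η_n : η n = Multiplicative.ofAdd (-1)
  η2 : FreeGroup ι →* Multiplicative (ZMod 2)
  η2_g : η2 (of ig) = 1
  η2_n : η2 n = 1
  η2_a : η2 (of ia) ≠ 1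
  ν : MulAut (FreeGroup ι)
  ν_n : ν (of inn) = n
  π0 : FreeGroup ι →* Equiv.Perm (Fin 6)
  π0_g : π0 (of ig) = 1
  π0_4 : π0 n ^ 4 = 1
  π0_2 : π0 n ^ 2 ≠ 1

namespace HM
variable {ι : Type} (d : HM ι)

abbrev γ : FreeGroup ι := of d.ig

abbrev s : FreeGroup ι := of d.is

/-- the first vertex group -/
def A : Subgroup (FreeGroup ι) := Subgroup.closure
  ({of d.is * of d.ig * (of d.is)⁻¹} ∪ {z | ∃ i, i ≠ d.ig ∧ i ≠ d.is ∧ z = of i})

/-- the second vertex group, a pair of pants -/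
def P : Subgroup (FreeGroup ι) := Subgroup.closure {d.n, d.γ}

/-- the boundary -/
def c : FreeGroup ι := d.γ * d.n

/-- the twisted map -/
def ψ (h u : FreeGroup ι) : FreeGroup ι := h⁻¹ * d.D u

theorem n_A : d.n ∈ d.A := d.hn

theorem sγ_A : d.s * d.γ * d.s⁻¹ ∈ d.A := Subgroup.subset_closure (Or.inl rfl)

theorem of_A {i : ι} (h : i ≠ d.ig) (h' : i ≠ d.is) : of i ∈ d.A :=
  Subgroup.subset_closure (Or.inr ⟨i, h, h', rfl⟩)

theorem n_P : d.n ∈ d.P := Subgroup.subset_closure (by simp)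

theorem γ_P : d.γ ∈ d.P := Subgroup.subset_closure (by simp)

theorem c_P : d.c ∈ d.P := d.P.mul_mem d.γ_P d.n_P

theorem D_A {a : FreeGroup ι} (ha : a ∈ d.A) : d.D a = d.n * a * d.n⁻¹ := by
  induction ha using Subgroup.closure_induction with
  | mem x hx =>
    rcases hx with rfl | ⟨i, h, h', rfl⟩
    · simp only [_root_.map_mul, _root_.map_inv, d.D_g, d.D_s]
      group
    · exact d.D_a i h h'
  | one => simp
  | mul x y _ _ hx hy => rw [_root_.map_mul, hx, hy]; group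
  | inv x _ hx => rw [_root_.map_inv, hx]; group

theorem D_n : d.D d.n = d.n := by rw [d.D_A d.n_A]; group

theorem D_P {p : FreeGroup ι} (hp : p ∈ d.P) : d.D p = p := by
  induction hp using Subgroup.closure_induction with
  | mem x hx =>
    rcases hx with rfl | rfl
    · exact d.D_n
    · exact d.D_g
  | one => simp
  | mul x y _ _ hx hy => rw [_root_.map_mul, hx, hy]
  | inv x _ hx => rw [_root_.map_inv, hx]

theorem T_A {a : FreeGroup ι} (ha : a ∈ d.A) : d.T a = a := by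
  induction ha using Subgroup.closure_induction with
  | mem x hx =>
    rcases hx with rfl | ⟨i, _, h', rfl⟩
    · simp only [_root_.map_mul, _root_.map_inv, d.T_s, d.T_o _ d.gs]
      group
    · exact d.T_o i h'
  | one => simp
  | mul x y _ _ hx hy => rw [_root_.map_mul, hx, hy]
  | inv x _ hx => rw [_root_.map_inv, hx]

theorem T_P {p : FreeGroup ι} (hp : p ∈ d.P) : d.T p = p := by
  induction hp using Subgroup.closure_induction with
  | mem x hx =>
    rcases hx with rfl | rfl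
    · exact d.T_A d.n_A
    · exact d.T_o _ d.gs
  | one => simp
  | mul x y _ _ hx hy => rw [_root_.map_mul, hx, hy]
  | inv x _ hx => rw [_root_.map_inv, hx]

theorem η_c : d.η d.c = 1 := by
  rw [c, _root_.map_mul, d.η_g, d.η_n]
  rfl

theorem η_D (u : FreeGroup ι) : d.η (d.D u) = d.η u := by
  have : d.η.comp d.D.toMonoidHom = d.η := by
    ext i
    by_cases h : i = d.ig
    · simp [h, d.D_g]
    by_cases h' : i = d.is
    · subst h'
      simp only [MonoidHom.comp_apply, MulEquiv.coe_toMonoidHom, d.D_s, _root_.map_mul, d.η_g,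
        d.η_n, toAdd_mul, toAdd_ofAdd]
      ring
    · simp [d.D_a i h h']
  exact DFunLike.congr_fun this u

theorem η2_P {p : FreeGroup ι} (hp : p ∈ d.P) : d.η2 p = 1 :=
  (Subgroup.closure_le (K := d.η2.ker)).2 (by
    rintro x (rfl | rfl)
    exacts [d.η2_n, d.η2_g]) hp

theorem ψ_mul (h u v : FreeGroup ι) (r : ℕ) :
    (d.ψ h)^[r] (u * v) = (d.ψ h)^[r] u * (d.D ^ r) v := by
  induction r with
  | zero => simp
  | succ r ih =>
    rw [Function.iterate_succ_apply', Function.iterate_succ_apply', ih, pow_succ']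
    simp [ψ, mul_assoc]

theorem ψ_P {h p : FreeGroup ι} (hh : h ∈ d.P) (hp : p ∈ d.P) (r : ℕ) :
    (d.ψ h)^[r] p = (h ^ r)⁻¹ * p := by
  induction r with
  | zero => simp
  | succ r ih =>
    rw [Function.iterate_succ_apply', ih, ψ,
      d.D_P (d.P.mul_mem (d.P.inv_mem (d.P.pow_mem hh r)) hp), pow_succ]
    group

theorem ψ_eqv {m : ℕ} (h : FreeGroup ι) {u v : FreeGroup ι} (huv : Eqv m u v) (r : ℕ) :
    Eqv m ((d.ψ h)^[r] u) ((d.ψ h)^[r] v) := by
  induction r with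
  | zero => exact huv
  | succ r ih =>
    rw [Function.iterate_succ_apply', Function.iterate_succ_apply']
    exact (Eqv.refl _).mul (ih.aut d.D)

theorem η_ψ (h u : FreeGroup ι) (r : ℕ) :
    (d.η ((d.ψ h)^[r] u)).toAdd = (d.η u).toAdd - r * (d.η h).toAdd := by
  induction r with
  | zero => simp
  | succ r ih =>
    rw [Function.iterate_succ_apply', ψ, _root_.map_mul, d.η_D, toAdd_mul, ih]
    simp
    ring

theorem Dr_P {p : FreeGroup ι} (hp : p ∈ d.P) (r : ℕ) : (d.D ^ r) p = p := by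
  induction r with
  | zero => simp
  | succ r ih => rw [pow_succ', MulAut.mul_apply, ih, d.D_P hp]

theorem Dr_A {a : FreeGroup ι} (ha : a ∈ d.A) (r : ℕ) :
    (d.D ^ r) a = d.n ^ r * a * (d.n ^ r)⁻¹ := by
  induction r with
  | zero => simp
  | succ r ih =>
    rw [pow_succ', MulAut.mul_apply, ih]
    simp only [_root_.map_mul, _root_.map_inv, _root_.map_pow, d.D_n, d.D_A ha]
    group

theorem Dr_s (r : ℕ) : (d.D ^ r) d.s = d.n ^ r * d.s * d.γ ^ r := by
  induction r with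
  | zero => simp
  | succ r ih =>
    rw [pow_succ', MulAut.mul_apply, ih]
    simp only [_root_.map_mul, _root_.map_pow, d.D_n, d.D_s, d.D_g]
    group

end HM

/-- counting modulo two along the orbits of a permutation of order a power of two -/
def Smith_st : Prop := ∀ (E : Type) [Fintype E] (σ : Equiv.Perm E) (k : ℕ), σ ^ 2 ^ k = 1 →
  ∀ F : E → ZMod 2, (∀ e, F (σ e) = F e) → (∀ e, σ e = e → F e = 0) → ∑ e, F e = 0

/-- the fixed points of the twisted map in the finite quotient graphs are connected -/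
def Conn_st : Prop := ∀ (ι : Type) [Finite ι] (d : HM ι) (m : ℕ), ∃ m', ∀ h ∈ d.P, ∃ r : ℕ,
  Odd r ∧ ∀ SP SA : FreeGroup ι → Prop,
    (∀ u v, ∀ p ∈ d.P, Eqv m (u * p) v → SP u → SP v) →
    (∀ u v, ∀ a ∈ d.A, Eqv m (u * a) v → SA u → SA v) →
    (∀ u, SP u → SP ((d.ψ h)^[r] u)) → (∀ u, SA u → SA ((d.ψ h)^[r] u)) →
    (∀ u (k : ℤ), Eqv m ((d.ψ h)^[r] u) (u * d.n ^ k) → (SP u ↔ SA u)) →
    (∀ u (k : ℤ), Eqv m ((d.ψ h)^[r] u) (u * d.γ ^ k) → (SP u ↔ SA (u * d.s⁻¹))) →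
    (∀ g, ∀ p ∈ d.P, Eqv m' (d.D g) (h * g * p) → SP 1 → SP g) ∧
    (h ∈ d.A → ∀ g, ∀ a ∈ d.A, Eqv m' (d.D g) (h * g * a) → SA 1 → SA g)

/-- malnormality and rigidity of the two edge groups -/
def HMF_st : Prop := ∀ (ι : Type) [Finite ι] (d : HM ι) (m : ℕ), ∃ m', m ≤ m' ∧ 2 ≤ m' ∧
  (∀ a (k j : ℤ), Odd k → Eqv m' (d.n ^ k * a) (a * d.n ^ j) → ∃ l : ℤ, Eqv m a (d.n ^ l)) ∧
  (∀ a (k j : ℤ), Odd k → Eqv m' (d.γ ^ k * a) (a * d.γ ^ j) → ∃ l : ℤ, Eqv m a (d.γ ^ l)) ∧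
  (∀ a (k j : ℤ), Odd k → ¬ Eqv m' (d.n ^ k * a) (a * d.γ ^ j)) ∧
  (∀ a (k j : ℤ), Odd k → ¬ Eqv m' (d.γ ^ k * a) (a * d.n ^ j))

def W0_st : Prop := ∀ (ι : Type) [Finite ι] (d : HM ι) (m : ℕ), ∃ m', ∀ h ∈ d.P,
  Even (d.η h).toAdd → ∀ g, ∀ p ∈ d.P, Eqv m' (d.D g) (h * g * p) → ∃ q ∈ d.P, Eqv m g q

def W1_st : Prop := ∀ (ι : Type) [Finite ι] (d : HM ι) (m : ℕ), ∃ m',
  ∀ g, ∀ a ∈ d.A, Eqv m' (d.D g) (d.n * g * a) → ∃ b ∈ d.A, Eqv m g b

def W2_st : Prop := ∀ (ι : Type) [Finite ι] (d : HM ι) (m : ℕ), ∃ m', ∀ h ∈ d.P,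
  Odd (d.η h).toAdd → ∀ g, ∀ p ∈ d.P, Eqv m' (d.D g) (h * g * p) → (∃ q ∈ d.P, Eqv m g q) ∨
    ∃ q ∈ d.P, ∃ k : ℤ, Eqv m h (q * d.n ^ k * q⁻¹) ∨ Eqv m h (q * d.γ ^ k * q⁻¹)

/-- first half: the twist `D` commutes with `φ`, and `φ` keeps the pair of pants -/
def HM1_st : Prop := ∀ (ι : Type) [Finite ι] (d : HM ι) (m : ℕ), ∃ m',
  ∀ φ : MulAut (FreeGroup ι), φ d.c = d.c →
    (∃ k : ℤ, ∀ z, Eqv m' (φ (d.D z)) (d.c ^ k * d.D (φ z) * (d.c ^ k)⁻¹)) →
    (∀ z, Eqv m (φ (d.D z)) (d.D (φ z))) ∧ (∃ q ∈ d.P, Eqv m (φ d.γ) q) ∧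
      ∃ q ∈ d.P, Eqv m (φ d.n) q

/-- second step: the two curves are kept up to conjugation in the pair of pants -/
def HM2_st : Prop := ∀ (ι : Type) [Finite ι] (d : HM ι) (m : ℕ), ∃ m',
  ∀ φ : MulAut (FreeGroup ι), φ d.c = d.c → (∀ z, z⁻¹ * φ z ∈ Lv0 d.c m') →
    (∀ z, Eqv m' (φ (d.D z)) (d.D (φ z))) → (∃ q ∈ d.P, Eqv m' (φ d.γ) q) →
    (∃ q ∈ d.P, Eqv m' (φ d.n) q) →
    (∃ q ∈ d.P, Eqv m (φ d.γ) (q * d.γ * q⁻¹)) ∧ ∃ q ∈ d.P, Eqv m (φ d.n) (q * d.n * q⁻¹)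

/-- third step: `φ` commutes with the twist `T` -/
def HM3_st : Prop := ∀ (ι : Type) [Finite ι] (d : HM ι) (m : ℕ), ∃ m',
  ∀ φ : MulAut (FreeGroup ι), (∀ z, Eqv m' (φ (d.D z)) (d.D (φ z))) →
    (∃ q ∈ d.P, Eqv m' (φ d.γ) (q * d.γ * q⁻¹)) → (∃ q ∈ d.P, Eqv m' (φ d.n) (q * d.n * q⁻¹)) →
    ∀ z, Eqv m (φ (d.T z)) (d.T (φ z))

/-- point pushing data -/
structure PU (ι : Type) extends HM ι where
  pu : FreeGroup ι →* MulAut (FreeGroup ι)
  pu_c : ∀ g, pu g toHM.c = toHM.c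
  pu_cc : ∃ k : ℤ, pu toHM.c = MulAut.conj (toHM.c ^ k)
  pu_g : pu toHM.γ = D⁻¹

/-- automorphisms compatible with the point pushing map -/
def PU.Cp {ι : Type} (d : PU ι) (φ : MulAut (FreeGroup ι)) : Prop :=
  φ d.c = d.c ∧ ∀ g, ∃ k : ℤ, φ * d.pu g = d.pu (φ g) * MulAut.conj (d.c ^ k) * φ

def Push_st : Prop := ∀ (ι : Type) [Finite ι] (d : PU ι) (m : ℕ), ∃ m',
  ∀ φ : MulAut (FreeGroup ι), d.Cp φ → d.γ⁻¹ * φ d.γ ∈ Lv0 d.c m' →
    ∃ k : ℤ, ∀ z, Eqv m (φ (d.D z)) (d.c ^ k * d.D (φ z) * (d.c ^ k)⁻¹)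

def HP_st : Prop := ∀ (ι : Type) [Finite ι] (d : PU ι) (m : ℕ), ∃ m',
  ∀ φ : MulAut (FreeGroup ι), d.Cp φ → (∀ z, z⁻¹ * φ z ∈ Lv0 d.c m') →
    ∀ z, Eqv m (φ (d.T z)) (d.T (φ z))

/-! The orbifold group -/

abbrev F3 := FreeGroup (Fin 3)
abbrev F4 := FreeGroup (Fin 4)
abbrev F5 := FreeGroup (Fin 5)

def cc : F2 := of 0 * of 1 * (of 0)⁻¹ * (of 1)⁻¹

def pr : F2 →* Orb := PresentedGroup.mk _

def xo : Orb := pr (of 0)
def yo : Orb := pr (of 1)
def co : Orb := pr cc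

theorem pr_sur : Function.Surjective pr := PresentedGroup.mk_surjective _

theorem orbRel_eq : orbRel = cc * cc := pow_two _

theorem co_eq : co = xo * yo * xo⁻¹ * yo⁻¹ := by simp [co, cc, xo, yo]

theorem co_co : co * co = 1 := by
  rw [co, ← _root_.map_mul, ← orbRel_eq]
  exact PresentedGroup.one_of_mem rfl

theorem co_inv : co⁻¹ = co := inv_eq_of_mul_eq_one_right co_co

theorem yxy : yo * xo * yo⁻¹ = co * xo := by
  rw [← co_inv, co_eq]
  group

theorem orb_fg : Group.FG Orb := Group.fg_of_surjective pr_sur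

theorem oRel {H : Type} [Group H] (f : F2 →* H) (h : f cc * f cc = 1) :
    ∀ r ∈ ({orbRel} : Set F2), FreeGroup.lift (fun i => f (of i)) r = 1 := by
  rintro r rfl
  have : FreeGroup.lift (fun i => f (of i)) = f := by ext i; simp
  rw [this, orbRel_eq, _root_.map_mul, h]

def oLift {H : Type} [Group H] (f : F2 →* H) (h : f cc * f cc = 1) : Orb →* H :=
  PresentedGroup.toGroup (oRel f h)

theorem oLift_pr {H : Type} [Group H] (f : F2 →* H) (h : f cc * f cc = 1) (z : F2) :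
    oLift f h (pr z) = f z := by
  have : (oLift f h).comp pr = f := by
    ext i
    exact PresentedGroup.toGroup.of (oRel f h)
  exact DFunLike.congr_fun this z

theorem orb_ext {H : Type} [Group H] {f g : Orb →* H} (h0 : f xo = g xo) (h1 : f yo = g yo) :
    f = g := by
  refine MonoidHom.ext fun z => ?_
  obtain ⟨z, rfl⟩ := pr_sur z
  have : f.comp pr = g.comp pr := by
    ext i
    fin_cases i
    exacts [h0, h1]
  exact DFunLike.congr_fun this z

/-- the automorphism induced by an automorphism that fixes the commutator -/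
def dsc (φ : MulAut F2) (h : φ cc = cc) : MulAut Orb :=
  MonoidHom.toMulEquiv (oLift (pr.comp φ.toMonoidHom) (by simpa [h, co] using co_co))
    (oLift (pr.comp φ.symm.toMonoidHom) (by
      have h' : φ.symm cc = cc := by rw [MulEquiv.symm_apply_eq, h]
      simpa [h', co] using co_co))
    (orb_ext (by simp [xo, oLift_pr]) (by simp [yo, oLift_pr]))
    (orb_ext (by simp [xo, oLift_pr]) (by simp [yo, oLift_pr]))

theorem dsc_pr (φ : MulAut F2) (h : φ cc = cc) (z : F2) : dsc φ h (pr z) = pr (φ z) := by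
  simp [dsc, oLift_pr]

theorem js_cc : js cc = cc := by decide +kernel

theorem jt_cc : jt cc = cc := by decide +kernel

def jjO : F2 →* MulAut Orb := FreeGroup.lift ![dsc js js_cc, dsc jt jt_cc]

theorem jjO_pr (w z : F2) : jjO w (pr z) = pr (jj w z) := by
  induction w using FreeGroup.induction_on generalizing z with
  | C1 => simp
  | of i => fin_cases i <;> simp [jjO, jj, dsc_pr]
  | inv_of i hi =>
    rw [_root_.map_inv, _root_.map_inv, MulAut.inv_apply, MulEquiv.symm_apply_eq, hi]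
    simp
  | mul a b ha hb => rw [_root_.map_mul, _root_.map_mul, MulAut.mul_apply, hb, ha, MulAut.mul_apply]

theorem jj_cc (w : F2) : jj w cc = cc := by
  induction w using FreeGroup.induction_on with
  | C1 => simp
  | of i => fin_cases i <;> simp [jj, js_cc, jt_cc]
  | inv_of i hi => rw [_root_.map_inv, MulAut.inv_apply, MulEquiv.symm_apply_eq, hi]
  | mul a b ha hb => rw [_root_.map_mul, MulAut.mul_apply, hb, ha]

theorem jjO_co (w : F2) : jjO w co = co := by rw [co, jjO_pr, jj_cc]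

/-- exponent sums -/
def ex : Orb →* Multiplicative ℤ :=
  oLift (FreeGroup.lift ![Multiplicative.ofAdd 1, 1]) (by simp [cc])

def ey : Orb →* Multiplicative ℤ :=
  oLift (FreeGroup.lift ![1, Multiplicative.ofAdd 1]) (by simp [cc])

theorem ex_x : ex xo = Multiplicative.ofAdd 1 := by simp [ex, xo, oLift_pr]
theorem ex_y : ex yo = 1 := by simp [ex, yo, oLift_pr]
theorem ey_x : ey xo = 1 := by simp [ey, xo, oLift_pr]
theorem ey_y : ey yo = Multiplicative.ofAdd 1 := by simp [ey, yo, oLift_pr]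
theorem ex_c : ex co = 1 := by simp [co_eq, ex_y]
theorem ey_c : ey co = 1 := by simp [co_eq, ey_x]

/-- the centraliser of the cone point, level by level -/
def CO_st : Prop := ∀ m, ∃ m', ∀ w : Orb, Eqv m' (w * co) (co * w) → Eqv m w 1 ∨ Eqv m w co

/-- the permutation of the basis of `F4` -/
def fs : F4 →* F4 := FreeGroup.map ![2, 3, 0, 1]

def FixSwap_st : Prop := ∀ m, ∃ m', ∀ u : F4, Eqv m' (fs u) u → u ∈ Lv F4 m

/-- the data of the fourfold cover of the once punctured torus by the twice punctured surface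
of genus two -/
structure CD where
  d1 : PU (Fin 4)
  d2 : PU (Fin 5)
  e3 : F3 →* F2
  e3_1 : e3 (of 1) = of 1 ^ 2
  e3_cm : ∀ w, cm w (of 1 ^ 2) ∈ e3.range
  σ : Fin 2 → Equiv.Perm (Fin 4)
  lab : Fin 2 → Fin 4 → F5
  io : F5 →* F2
  io_fix : ∀ u, FreeGroup.lift σ (io u) 0 = 0
  io_coc : ∀ u, coc σ lab (io u) 0 = u
  io_sur : ∀ z, FreeGroup.lift σ z 0 = 0 → z ∈ io.range
  io_c : pr (io d2.c) = 1
  q : F5 →* F4
  sg : F4 →* F5
  q_sg : ∀ u, q (sg u) = u
  q_c : q d2.c = 1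
  sec : ∀ u, u⁻¹ * sg (q u) ∈ Subgroup.normalClosure {d2.c}
  σ_cc : FreeGroup.lift σ (cc * cc) = 1
  coc_cc : ∀ v, q (coc σ lab (cc * cc) v) ∈ Subgroup.normalClosure {d1.c}
  α1 : F3 →* MulAut F4
  α2 : F3 →* MulAut F5
  α3 : F3 →* MulAut F5
  io_α : ∀ v u, io (α2 v u) = jj (e3 v) (io u)
  q_α : ∀ v u, q (α2 v u) = α1 v (q u)
  α23 : ∀ v, ∃ g, ∀ u, α2 v u = g * α3 v u * g⁻¹
  τ : F5 →* F5
  sw : MulAut F4
  q_τ : ∀ u, q (τ u) = sw (fs (sw⁻¹ (q u)))
  α_τ : ∀ v u, α3 v (τ u) = τ (α3 v u)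
  α1_T : α1 (of 1) = d1.T
  α3_T : α3 (of 1) = d2.T
  α1_cp : ∀ v, d1.Cp (α1 v)
  α3_cp : ∀ v, d2.Cp (α3 v)
  j4 : F4 →* Surf 2
  j4_c : j4 d1.c = 1
  j4_sur : Function.Surjective j4
  i0 : Surf 2 →* Orb
  i0_j : ∀ u, i0 (j4 u) = pr (io (sg u))

def StepO_st : Prop := ∀ m, ∃ m', ∀ (γ : Orb) (w p : F2),
  (∀ z, Eqv m' (γ * jjO w z * γ⁻¹) z) → ∀ z, Eqv m (jjO (cm w p) z) z

def StepA_st : Prop := ∀ (d : CD) (m : ℕ), ∃ m', ∀ v : F3,
  (∀ z, Eqv m' (jjO (d.e3 v) z) z) → ∀ u, Eqv m (d.α1 (cm v (of 1)) u) u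

def StepB_st : Prop := ∀ (d : CD) (m : ℕ), ∃ m', ∀ v : F3,
  (∀ u, Eqv m' (d.α1 v u) u) → ∃ g, ∀ u, Eqv m (d.α2 (cm v (of 1)) u) (g * u * g⁻¹)

def StepC_st : Prop := ∀ (d : CD) (m : ℕ), ∃ m', ∀ (v : F3) (g : F5),
  (∀ u, Eqv m' (d.α2 v u) (g * u * g⁻¹)) → d.e3 v ∈ Lv F2 m

def StepD_st : Prop := ∀ m, ∃ m', ∀ w : F2,
  cm (cm (cm w (of 1 ^ 2)) (of 1 ^ 2)) (of 1 ^ 2) ∈ Lv F2 m' → Eqv m (w * of 1) (of 1 * w)

def AsT_st : Prop := ∀ m, ∃ m', ∀ (γ : Orb) (w : F2),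
  (∀ z, Eqv m' (γ * jjO w z * γ⁻¹) z) → Eqv m (w * of 1) (of 1 * w)

def Asada2_st : Prop := ∀ m, ∃ m', ∀ (γ : Orb) (w : F2),
  (∀ z, Eqv m' (γ * jjO w z * γ⁻¹) z) → w ∈ Lv F2 m

def Cover_st : Prop := ∃ i : Surf 2 →* Orb, Function.Injective i ∧ i.range.FiniteIndex

/-- passing to a group that contains `S` with finite index -/
def Up_st : Prop := ∀ (S G : Type) [Group S] [Group G] (i : S →* G), Function.Injective i →
  i.range.FiniteIndex → Group.FG S → RFL S → GrP S → CFG G → RFL G ∧ GrP G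

/-- extension of automorphisms of subgroups of finite index -/
def Ext_st : Prop := ∀ (G : Type) [Group G], Group.FG G → RFL G → CFG G → GrP G →
  ∀ U : Subgroup G, U.FiniteIndex → ∀ φ : MulAut U,
    (∀ m, ∃ β : MulAut G, ∀ u : U, Eqv m (φ u : G) (β u)) →
    ∃ β : MulAut G, ∀ u : U, (φ u : G) = β u

/-! Length functions -/

/-- the distance from a base vertex to its translates, for an action on a tree -/
structure LF (G : Type) [Group G] where
  len : G → ℕ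
  one : len 1 = 0
  inv : ∀ g, len g⁻¹ = len g
  four : ∀ a b c d, len (a⁻¹ * b) + len (c⁻¹ * d) ≤
    max (len (a⁻¹ * c) + len (b⁻¹ * d)) (len (a⁻¹ * d) + len (b⁻¹ * c))
  pre : ∀ a k, k ≤ len a → ∃ p, len p = k ∧ len (p⁻¹ * a) + k = len a
  par : ∀ a b, Even (len (a * b) + len a + len b)
  noinv : ∀ a, len a = 1 → len (a * a) ≠ 0

def Ell_st : Prop := ∀ (G : Type) [Group G] (l : LF G) (a : G), l.len (a * a) ≤ l.len a →
  ∃ p, l.len (p⁻¹ * a * p) = 0

def S1_st : Prop := ∀ (G : Type) [Group G] (l : LF G) (P : G → G → Prop),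
  (∀ u v, P u v → P v u) → (∀ u v, P u v → P u⁻¹ v) → (∀ u v, P u v → P (u * v) v) →
  (∀ u v z, P u v → P (z * u * z⁻¹) (z * v * z⁻¹)) → (∀ u v, P u v → cm u v * cm u v = 1) →
  ∀ u v, P u v → ∃ u' v', P u' v' ∧ l.len u' = 0

def Geo_st : Prop := ∀ (G : Type) [Group G] (l : LF G) (u g p : G), l.len u = 0 →
  l.len (g⁻¹ * u * g) = 0 → l.len p + l.len (p⁻¹ * g) = l.len g → l.len (p⁻¹ * u * p) = 0

def Br_st : Prop := ∀ (G : Type) [Group G] (l : LF G) (a b p q : G), l.len (p⁻¹ * a * p) = 0 →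
  l.len (q⁻¹ * b * q) = 0 → a * b * (a * b) = 1 →
  ∃ z, l.len (z⁻¹ * a * z) = 0 ∧ l.len (z⁻¹ * b * z) = 0

/-- the vertex group of the splitting of the orbifold group -/
def AO : Subgroup Orb := Subgroup.closure {xo, co}

def OT_st : Prop := (∀ a ∈ AO, yo * a * yo⁻¹ ∈ AO → a ∈ Subgroup.zpowers xo) ∧
  ∃ l : LF Orb, (∀ g, l.len g = 0 ↔ g ∈ AO) ∧
    ∀ g, l.len g = 1 → ∃ a ∈ AO, ∃ a' ∈ AO, g = a * yo * a' ∨ g = a * yo⁻¹ * a'

/-- the subgroup of index two of the vertex group -/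
def mu : F2 →* Orb := FreeGroup.lift ![xo, co * xo * co]

def AnnO_st : Prop := Function.Injective mu ∧ co ∉ mu.range

def PP_st : Prop := ∀ g k : F2, g * of 1 * g⁻¹ * of 0 = k * (of 1 * of 0) * k⁻¹ →
  ∃ i j : ℤ, g = of 0 ^ i * of 1 ^ j

def AnnF_st : Prop :=
  (∀ a ∈ AO, ∀ k j : ℤ, k ≠ 0 → xo ^ k * a = a * xo ^ j → a ∈ Subgroup.zpowers xo) ∧
  (∀ a ∈ AO, ∀ k j : ℤ, k ≠ 0 → (co * xo) ^ k * a = a * (co * xo) ^ j →
    a ∈ Subgroup.zpowers (co * xo)) ∧
  (∀ a ∈ AO, ∀ k j : ℤ, xo ^ k * a = a * (co * xo) ^ j → k = 0 ∧ j = 0)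

def AnnE_st : Prop := ∀ a ∈ AO, cm xo (a * yo) * cm xo (a * yo) = 1 →
  ∃ i j : ℤ, a * yo = xo ^ i * yo * xo ^ j

def Fx_st : Prop := ∀ u ∈ AO, u ≠ 1 → ∀ v : Orb, v * u * v⁻¹ ∈ AO → ey v = Multiplicative.ofAdd 1 →
  ∃ (z : Orb) (k : ℤ), ∃ a ∈ AO, z * u * z⁻¹ = xo ^ k ∧ z * v * z⁻¹ = a * yo

/-- every automorphism of the orbifold group comes from the free group -/
def NO_st : Prop := ∀ β : MulAut Orb, ∃ φ : MulAut F2, ∀ z, β (pr z) = pr (φ z)

def Gam4O_st : Prop := ∃ m, ∀ β : MulAut Orb, (∀ z, Eqv m (β z) z) →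
  ∃ (γ : Orb) (w : F2), ∀ z, β z = γ * jjO w z * γ⁻¹

def CoreV_st : Prop := ∀ (G : Type) [Group G], Group.FG G → ∀ (D : Subgroup G), D.FiniteIndex →
  ∀ θ : D →* Orb, θ.range.FiniteIndex →
  ∃ (T : Subgroup (MulAut G)) (P : T →* F2), cl T ≤ T ∧ Cts T P ∧
    T.relIndex (Desc D θ) ≠ 0 ∧ ∀ t : T, P t = 1 → ActsInner D θ t

end Pool.Agent.MP_692752_al

end

section

/-! The theorem for the orbifold target from the parts. -/

set_option autoImplicit false

namespace Pool.Agent.MP_692752_al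

open FreeGroup

theorem asT_ok (d : CD) (hO : StepO_st) (hA : StepA_st) (hB : StepB_st) (hC : StepC_st)
    (hD : StepD_st) : AsT_st := by
  intro m
  obtain ⟨m1, h1⟩ := hD m
  obtain ⟨m2, h2⟩ := hC d m1
  obtain ⟨m3, h3⟩ := hB d m2
  obtain ⟨m4, h4⟩ := hA d m3
  obtain ⟨m5, h5⟩ := hO m4
  refine ⟨m5, fun γ w h => h1 w ?_⟩
  obtain ⟨v, hv⟩ := d.e3_cm w
  obtain ⟨g, hg⟩ := h3 _ (h4 v (by rw [hv]; exact h5 γ w _ h))
  have := h2 _ g hg
  rwa [map_cm, map_cm, hv, d.e3_1] at this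

/-- the exchange of the two generators -/
def sw2 : F2 →* F2 := FreeGroup.lift ![of 1, of 0]

theorem sw2_sw2 (z : F2) : sw2 (sw2 z) = z :=
  DFunLike.congr_fun (FreeGroup.ext_hom (sw2.comp sw2) (MonoidHom.id _) (by decide +kernel)) z

theorem sw2_jj (w : F2) : ∀ z, jj (sw2 w) (sw2 z) = sw2 (jj w z) := by
  induction w using FreeGroup.induction_on with
  | C1 => simp
  | of i =>
    exact fun z => DFunLike.congr_fun (FreeGroup.ext_hom
      ((jj (sw2 (of i))).toMonoidHom.comp sw2) (sw2.comp (jj (of i)).toMonoidHom)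
      (by revert i; decide +kernel)) z
  | inv_of i hi =>
    intro z
    rw [_root_.map_inv, _root_.map_inv, _root_.map_inv, MulAut.inv_apply, MulAut.inv_apply,
      MulEquiv.symm_apply_eq, hi]
    simp
  | mul a b ha hb =>
    intro z
    rw [_root_.map_mul, _root_.map_mul, _root_.map_mul, MulAut.mul_apply, MulAut.mul_apply, hb, ha]

/-- the exchange of the two generators of the orbifold group -/
def swO : Orb →* Orb := oLift (pr.comp sw2) (by
  have h : sw2 cc = cc⁻¹ := by decide +kernel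
  rw [MonoidHom.comp_apply, h, _root_.map_inv, ← mul_inv_rev, inv_eq_one]
  exact co_co)

theorem swO_pr (z : F2) : swO (pr z) = pr (sw2 z) := oLift_pr _ _ z

theorem asada2_ok (hT : AsT_st) (hF : CFk_st) : Asada2_st := by
  intro m
  obtain ⟨m1, h1⟩ := hF (Fin 2) 0 1 (by decide) 1 one_ne_zero m
  obtain ⟨m2, h2⟩ := hT m1
  refine ⟨m2, fun γ w h => h1 w ?_ (by simpa using h2 γ w h)⟩
  have h3 := h2 (swO γ) (sw2 w) fun z => by
    obtain ⟨z, rfl⟩ := pr_sur z
    have h4 := (h (pr (sw2 z))).map swO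
    rw [jjO_pr, _root_.map_mul, _root_.map_mul, _root_.map_inv, swO_pr, swO_pr, ← sw2_jj,
      sw2_sw2, ← jjO_pr] at h4
    exact h4
  have h5 := h3.map sw2
  rw [_root_.map_mul, _root_.map_mul, sw2_sw2] at h5
  simpa [sw2] using h5

theorem v2_of (hO : Out_st) (hC : CoreV_st) (G : Type) [Group G] (hfg : Group.FG G) (hGr : Gr G)
    (D : Subgroup G) (hD : D.FiniteIndex) (θ : D →* Orb) (hθ : θ.range.FiniteIndex)
    (H : Subgroup (Out G)) (hH : H.FG) (h1 : (Desc D θ).relIndex (H.comap (toOut G)) ≠ 0)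
    (h2 : {φ : Out G | φ ∈ H ∧ ∃ α : MulAut G, toOut G α = φ ∧ ActsInner D θ α}.Finite) :
    Separable H := by
  obtain ⟨T, P, hT, hP, hi, hk⟩ := hC G hfg D hD θ hθ
  refine hO G hfg hGr T P hT hP H hH (Subgroup.relIndex_ne_zero_trans hi h1) (h2.subset ?_)
  rintro φ ⟨hφ, t, ht, hPt⟩
  exact ⟨hφ, t, ht, hk t hPt⟩

end Pool.Agent.MP_692752_al

end

section

/-! Tools for checking identities between automorphisms of free groups by computation. -/

set_option autoImplicit false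

namespace Pool.Agent.MP_692752_al

open FreeGroup

abbrev Wd (n : ℕ) := List (Fin n × Bool)

def psh {n : ℕ} (x : Fin n × Bool) : Wd n → Wd n
  | [] => [x]
  | y :: t => if x.1 = y.1 ∧ x.2 = !y.2 then t else x :: y :: t

def apW {n m : ℕ} (f : Fin n → Wd m) (w : Wd n) : Wd m :=
  w.foldr (fun x st => (if x.2 then f x.1 else invRev (f x.1)).foldr psh st) []

def hmW {n m : ℕ} (f : Fin n → Wd m) : FreeGroup (Fin n) →* FreeGroup (Fin m) :=
  FreeGroup.lift fun i => mk (f i)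

theorem mk_cons_W {α : Type} (x : α × Bool) (w : List (α × Bool)) :
    mk (x :: w) = (if x.2 then of x.1 else (of x.1)⁻¹) * mk w := by
  obtain ⟨i, b⟩ := x
  cases b
  · exact (mul_mk (L₁ := [(i, false)])).symm
  · exact (mul_mk (L₁ := [(i, true)])).symm

theorem mk_psh {n : ℕ} (x : Fin n × Bool) (w : Wd n) : mk (psh x w) = mk (x :: w) := by
  cases w with
  | nil => rfl
  | cons y t =>
    obtain ⟨i, b⟩ := x
    obtain ⟨j, c⟩ := y
    rw [psh]
    split_ifs with h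
    · obtain ⟨h1, h2⟩ := h
      simp only at h1 h2
      subst h1 h2
      rw [mk_cons_W, mk_cons_W]
      cases c <;> simp
    · rfl

theorem mk_foldr_psh {n : ℕ} (u w : Wd n) : mk (u.foldr psh w) = mk u * mk w := by
  induction u with
  | nil => exact (one_mul _).symm
  | cons x u ih => rw [List.foldr_cons, mk_psh, mk_cons_W, mk_cons_W, ih, mul_assoc]

theorem mk_apW {n m : ℕ} (f : Fin n → Wd m) (w : Wd n) : mk (apW f w) = hmW f (mk w) := by
  induction w with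
  | nil => exact (_root_.map_one _).symm
  | cons x w ih =>
    rw [apW, List.foldr_cons, mk_foldr_psh, mk_cons_W, _root_.map_mul, ← ih]
    obtain ⟨i, b⟩ := x
    cases b <;> simp [hmW, apW, inv_mk]

theorem hmW_of {n m : ℕ} (f : Fin n → Wd m) (i : Fin n) : hmW f (of i) = mk (f i) := by
  simp [hmW]

/-- an automorphism given by words, with its inverse -/
def auW {n : ℕ} (f g : Fin n → Wd n)
    (h : ∀ i, apW f (g i) = [(i, true)] ∧ apW g (f i) = [(i, true)]) :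
    MulAut (FreeGroup (Fin n)) :=
  MonoidHom.toMulEquiv (hmW f) (hmW g)
    (FreeGroup.ext_hom _ _ fun i => by
      rw [MonoidHom.comp_apply, hmW_of, ← mk_apW, (h i).2]; rfl)
    (FreeGroup.ext_hom _ _ fun i => by
      rw [MonoidHom.comp_apply, hmW_of, ← mk_apW, (h i).1]; rfl)

theorem auW_apply {n : ℕ} (f g : Fin n → Wd n) (h) (z : FreeGroup (Fin n)) :
    auW f g h z = hmW f z := rfl

theorem auW_inv {n : ℕ} (f g : Fin n → Wd n) (h) (z : FreeGroup (Fin n)) :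
    (auW f g h)⁻¹ z = hmW g z := rfl

/-- the homomorphism to the automorphism group given by tables -/
def luW {k n : ℕ} (P Q : Fin k → Fin n → Wd n)
    (h : ∀ j i, apW (P j) (Q j i) = [(i, true)] ∧ apW (Q j) (P j i) = [(i, true)]) :
    FreeGroup (Fin k) →* MulAut (FreeGroup (Fin n)) :=
  FreeGroup.lift fun j => auW (P j) (Q j) (h j)

theorem luW_of {k n : ℕ} (P Q : Fin k → Fin n → Wd n) (h) (j : Fin k) :
    luW P Q h (of j) = auW (P j) (Q j) (h j) := by simp [luW]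

def evW {k n : ℕ} (P Q : Fin k → Fin n → Wd n) (w : Wd k) (u : Wd n) : Wd n :=
  w.foldr (fun x st => apW (if x.2 then P x.1 else Q x.1) st) u

theorem mk_evW {k n : ℕ} (P Q : Fin k → Fin n → Wd n) (h) (w : Wd k) (u : Wd n) :
    mk (evW P Q w u) = luW P Q h (mk w) (mk u) := by
  induction w with
  | nil => exact congrArg (fun φ : MulAut _ => φ (mk u)) (_root_.map_one (luW P Q h)).symm
  | cons x w ih =>
    rw [evW, List.foldr_cons, mk_apW, mk_cons_W, _root_.map_mul, MulAut.mul_apply, ← ih]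
    obtain ⟨i, b⟩ := x
    cases b
    · simp only [Bool.false_eq_true, if_false, _root_.map_inv, luW_of, auW_inv]; rfl
    · simp only [if_true, luW_of, auW_apply]; rfl

/-- powers of words -/
def pwW {n : ℕ} (c : Wd n) : ℤ → Wd n
  | Int.ofNat k => (List.replicate k c).flatten
  | Int.negSucc k => invRev (List.replicate (k + 1) c).flatten

theorem mk_rep {n : ℕ} (c : Wd n) (k : ℕ) : mk (List.replicate k c).flatten = mk c ^ k := by
  induction k with
  | zero => rfl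
  | succ k ih => rw [List.replicate_succ, List.flatten_cons, ← mul_mk, ih, pow_succ']

theorem mk_pwW {n : ℕ} (c : Wd n) (k : ℤ) : mk (pwW c k) = mk c ^ k := by
  cases k with
  | ofNat k => rw [pwW, mk_rep]; simp
  | negSucc k => rw [pwW, ← inv_mk, mk_rep, zpow_negSucc]

theorem aut_ext {ι : Type} {φ ψ : MulAut (FreeGroup ι)} (h : ∀ i, φ (of i) = ψ (of i)) :
    φ = ψ := by
  have : φ.toMonoidHom = ψ.toMonoidHom := FreeGroup.ext_hom _ _ h
  exact MulEquiv.ext fun z => DFunLike.congr_fun this z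

theorem conj_comm {G : Type} [Group G] (φ : MulAut G) {c : G} (h : φ c = c) (k : ℤ) :
    φ * MulAut.conj (c ^ k) = MulAut.conj (c ^ k) * φ := by
  ext z
  rw [MulAut.mul_apply, MulAut.mul_apply, MulAut.conj_apply, MulAut.conj_apply, _root_.map_mul,
    _root_.map_mul, _root_.map_inv, map_zpow, h]

theorem lift_fix {κ G : Type} [Group G] (A : FreeGroup κ →* MulAut G) {c : G}
    (h : ∀ j, A (of j) c = c) (v : FreeGroup κ) : A v c = c := by
  induction v using FreeGroup.induction_on with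
  | C1 => simp
  | of j => exact h j
  | inv_of j hj => rw [_root_.map_inv, MulAut.inv_apply, MulEquiv.symm_apply_eq, hj]
  | mul a b ha hb => rw [_root_.map_mul, MulAut.mul_apply, hb, ha]

theorem twine {κ G H : Type} [Group G] [Group H] (A : FreeGroup κ →* MulAut G)
    (B : FreeGroup κ →* MulAut H) (f : G →* H) (h : ∀ j u, f (A (of j) u) = B (of j) (f u))
    (v : FreeGroup κ) : ∀ u, f (A v u) = B v (f u) := by
  induction v using FreeGroup.induction_on with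
  | C1 => simp
  | of j => exact h j
  | inv_of j hj =>
    intro u
    rw [_root_.map_inv, _root_.map_inv, MulAut.inv_apply, MulAut.inv_apply, eq_comm,
      MulEquiv.symm_apply_eq, ← hj]
    simp
  | mul a b ha hb =>
    intro u
    rw [_root_.map_mul, _root_.map_mul, MulAut.mul_apply, MulAut.mul_apply, ha, hb]

theorem twine_of {κ ι H : Type} [Group H] (A : FreeGroup κ →* MulAut (FreeGroup ι))
    (B : FreeGroup κ →* MulAut H) (f : FreeGroup ι →* H)
    (h : ∀ j i, f (A (of j) (of i)) = B (of j) (f (of i))) (v : FreeGroup κ) :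
    ∀ u, f (A v u) = B v (f u) :=
  twine A B f (fun j u => DFunLike.congr_fun (FreeGroup.ext_hom (f.comp (A (of j)).toMonoidHom)
    ((B (of j)).toMonoidHom.comp f) (h j)) u) v

theorem inner_of {κ ι : Type} (A B : FreeGroup κ →* MulAut (FreeGroup ι))
    (h : ∀ j, ∃ g, ∀ i, A (of j) (of i) = g * B (of j) (of i) * g⁻¹) (v : FreeGroup κ) :
    ∃ g, ∀ u, A v u = g * B v u * g⁻¹ := by
  induction v using FreeGroup.induction_on with
  | C1 => exact ⟨1, by simp⟩
  | of j =>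
    obtain ⟨g, hg⟩ := h j
    have : A (of j) = MulAut.conj g * B (of j) := aut_ext hg
    exact ⟨g, fun u => by rw [this]; rfl⟩
  | inv_of j hj =>
    obtain ⟨g, hg⟩ := hj
    refine ⟨(B (of j))⁻¹ g⁻¹, fun u => ?_⟩
    rw [_root_.map_inv A, _root_.map_inv B, MulAut.inv_apply, MulEquiv.symm_apply_eq, hg]
    simp [mul_assoc]
  | mul a b ha hb =>
    obtain ⟨g, hg⟩ := ha
    obtain ⟨g', hg'⟩ := hb
    refine ⟨g * B a g', fun u => ?_⟩
    rw [_root_.map_mul, _root_.map_mul, MulAut.mul_apply, MulAut.mul_apply, hg', hg]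
    simp [mul_assoc]

section
variable {ι : Type} (d : PU ι)

theorem cp_gen {φ : MulAut (FreeGroup ι)} (hc : φ d.c = d.c)
    (h : ∀ i, ∃ k : ℤ, φ * d.pu (of i) = d.pu (φ (of i)) * MulAut.conj (d.c ^ k) * φ) :
    d.Cp φ := by
  refine ⟨hc, fun g => ?_⟩
  induction g using FreeGroup.induction_on with
  | C1 => exact ⟨0, by simp⟩
  | of i => exact h i
  | inv_of i hi =>
    obtain ⟨k, hk⟩ := hi
    refine ⟨-k, ?_⟩
    have h1 := conj_comm (d.pu (φ (of i))) (d.pu_c _) k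
    rw [_root_.map_inv, _root_.map_inv, _root_.map_inv, zpow_neg, _root_.map_inv]
    calc φ * (d.pu (of i))⁻¹
        = (d.pu (φ (of i)) * MulAut.conj (d.c ^ k))⁻¹ * (d.pu (φ (of i)) * MulAut.conj (d.c ^ k) * φ)
          * (d.pu (of i))⁻¹ := by group
      _ = _ := by rw [← hk, h1]; group
  | mul a b ha hb =>
    obtain ⟨k, hk⟩ := ha
    obtain ⟨l, hl⟩ := hb
    refine ⟨k + l, ?_⟩
    have h1 := conj_comm (d.pu (φ b)) (d.pu_c _) k
    rw [_root_.map_mul, _root_.map_mul, _root_.map_mul, zpow_add, _root_.map_mul, ← mul_assoc, hk,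
      mul_assoc, hl]
    calc _ = d.pu (φ a) * (MulAut.conj (d.c ^ k) * d.pu (φ b)) * MulAut.conj (d.c ^ l) * φ := by
          group
      _ = _ := by rw [← h1]; group

theorem cp_lift {κ : Type} (A : FreeGroup κ →* MulAut (FreeGroup ι)) (h : ∀ j, d.Cp (A (of j)))
    (v : FreeGroup κ) : d.Cp (A v) := by
  induction v using FreeGroup.induction_on with
  | C1 => exact ⟨by simp, fun g => ⟨0, by simp⟩⟩
  | of j => exact h j
  | inv_of j hj =>
    rw [_root_.map_inv]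
    generalize A (of j) = φ at hj
    refine ⟨by rw [MulAut.inv_apply, MulEquiv.symm_apply_eq, hj.1], fun g => ?_⟩
    obtain ⟨k, hk⟩ := hj.2 (φ⁻¹ g)
    refine ⟨-k, ?_⟩
    have h1 := conj_comm φ hj.1 k
    rw [MulAut.apply_inv_self, mul_assoc, ← h1] at hk
    rw [zpow_neg, _root_.map_inv]
    calc φ⁻¹ * d.pu g
        = φ⁻¹ * (d.pu g * (φ * MulAut.conj (d.c ^ k))) * (φ * MulAut.conj (d.c ^ k))⁻¹ := by group
      _ = _ := by rw [← hk]; group
  | mul a b ha hb =>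
    rw [_root_.map_mul]
    refine ⟨by rw [MulAut.mul_apply, hb.1, ha.1], fun g => ?_⟩
    obtain ⟨k, hk⟩ := hb.2 g
    obtain ⟨l, hl⟩ := ha.2 (A b g)
    refine ⟨l + k, ?_⟩
    have h1 := conj_comm (A a) ha.1 k
    rw [mul_assoc, hk, ← mul_assoc, ← mul_assoc, hl, MulAut.mul_apply, zpow_add, _root_.map_mul]
    calc _ = d.pu (A a (A b g)) * MulAut.conj (d.c ^ l) * (A a * MulAut.conj (d.c ^ k)) * A b := by
          group
      _ = _ := by rw [h1]; group
end

/-- compatibility with the point pushing map, from a computation with words -/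
theorem cp_words {n : ℕ} (d : PU (Fin n)) (P Q : Fin n → Fin n → Wd n) (hP)
    (hpu : d.pu = luW P Q hP) (c : Wd n) (hc : d.c = mk c) (f g : Fin n → Wd n) (hf)
    (k : Fin n → ℤ) (h0 : apW f c = c)
    (h : ∀ i j, apW f (P i j) = evW P Q (f i) (pwW c (k i) ++ f j ++ invRev (pwW c (k i)))) :
    d.Cp (auW f g hf) := by
  refine cp_gen d (by rw [hc, auW_apply, ← mk_apW, h0]) fun i => ⟨k i, aut_ext fun j => ?_⟩
  rw [hpu, hc]
  simp only [MulAut.mul_apply, luW_of, auW_apply, hmW_of, MulAut.conj_apply]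
  rw [← mk_apW, h, mk_evW P Q hP, ← mul_mk, ← mul_mk, ← inv_mk, mk_pwW]

/-- the Schreier identity -/
theorem schreier {ι V Γ : Type} [Group Γ] (σ : ι → Equiv.Perm V) (k : ι → V → Γ)
    (io : Γ →* FreeGroup ι) (t : V → FreeGroup ι)
    (h : ∀ i v, io (k i v) = (t (σ i v))⁻¹ * of i * t v) (z : FreeGroup ι) :
    ∀ v, io (coc σ k z v) = (t (FreeGroup.lift σ z v))⁻¹ * z * t v := by
  induction z using FreeGroup.induction_on with
  | C1 => simp [coc_one]
  | of i => simpa [coc_of] using h i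
  | inv_of i hi =>
    intro v
    rw [coc_inv, _root_.map_inv, hi, ← Equiv.Perm.mul_apply, ← _root_.map_mul, mul_inv_cancel,
      _root_.map_one, Equiv.Perm.one_apply]
    group
  | mul a b ha hb =>
    intro v
    rw [coc_mul, _root_.map_mul, ha, hb, _root_.map_mul, Equiv.Perm.mul_apply]
    group

theorem coc_sec {ι κ V : Type} (σ : ι → Equiv.Perm V) (k : ι → V → FreeGroup κ)
    (io : FreeGroup κ →* FreeGroup ι) (v : V)
    (h : ∀ j, FreeGroup.lift σ (io (of j)) v = v ∧ coc σ k (io (of j)) v = of j)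
    (u : FreeGroup κ) : FreeGroup.lift σ (io u) v = v ∧ coc σ k (io u) v = u := by
  induction u using FreeGroup.induction_on with
  | C1 => simp [coc_one]
  | of j => exact h j
  | inv_of j hj =>
    have h1 : FreeGroup.lift σ (io (of j))⁻¹ v = v := by
      rw [_root_.map_inv, Equiv.Perm.inv_eq_iff_eq, hj.1]
    rw [_root_.map_inv, coc_inv, h1, hj.2]
    exact ⟨rfl, rfl⟩
  | mul a b ha hb =>
    rw [_root_.map_mul, coc_mul, _root_.map_mul, Equiv.Perm.mul_apply, hb.1, ha.1, ha.2, hb.2]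
    exact ⟨rfl, rfl⟩

theorem mem_ncl {G : Type} [Group G] {c a : G} (z : G) (k : ℤ) (h : a = z * c ^ k * z⁻¹) :
    a ∈ Subgroup.normalClosure ({c} : Set G) := by
  rw [h]
  exact Subgroup.normalClosure_normal.conj_mem _
    (Subgroup.zpow_mem _ (Subgroup.subset_normalClosure (Set.mem_singleton c)) k) z

theorem sec_of {ι : Type} (N : Subgroup (FreeGroup ι)) [N.Normal] (f : FreeGroup ι →* FreeGroup ι)
    (h : ∀ i, (of i)⁻¹ * f (of i) ∈ N) (u : FreeGroup ι) : u⁻¹ * f u ∈ N := by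
  have : QuotientGroup.mk' N = (QuotientGroup.mk' N).comp f :=
    FreeGroup.ext_hom _ _ fun i => QuotientGroup.eq.2 (h i)
  exact QuotientGroup.eq.1 (DFunLike.congr_fun this u)

end Pool.Agent.MP_692752_al

end

section

/-! The point pushing map and the twists. -/

set_option autoImplicit false

namespace Pool.Agent.MP_692752_al

open FreeGroup

/-- the elements that push like a power of the boundary, up to level `m` -/
def nn_VPush {ι : Type} (d : PU ι) (m : ℕ) : Subgroup (FreeGroup ι) where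
  carrier := {g | ∃ k : ℤ, ∀ z, Eqv m (d.pu g z) (d.c ^ k * z * (d.c ^ k)⁻¹)}
  one_mem' := ⟨0, fun z => Eqv.of_eq (by simp)⟩
  mul_mem' := by
    rintro a b ⟨k, hk⟩ ⟨l, hl⟩
    refine ⟨k + l, fun z => ?_⟩
    rw [_root_.map_mul, MulAut.mul_apply]
    exact (hk _).trans ((((Eqv.refl _).mul (hl z)).mul (Eqv.refl _)).trans (Eqv.of_eq (by group)))
  inv_mem' := by
    rintro a ⟨k, hk⟩
    refine ⟨-k, fun z f => ?_⟩
    have := hk (d.pu a⁻¹ z) f
    rw [← MulAut.mul_apply, ← _root_.map_mul, mul_inv_cancel, _root_.map_one,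
      MulAut.one_apply] at this
    simp only [_root_.map_mul, _root_.map_inv, map_zpow] at this ⊢
    rw [this]
    group

instance nrm_VPush {ι : Type} (d : PU ι) (m : ℕ) : (nn_VPush d m).Normal where
  conj_mem := by
    rintro a ⟨k, hk⟩ g
    refine ⟨k, fun z => ?_⟩
    rw [_root_.map_mul, _root_.map_mul, MulAut.mul_apply, MulAut.mul_apply]
    refine ((hk _).aut (d.pu g)).trans (Eqv.of_eq ?_)
    simp [d.pu_c]

theorem push_ok (hC : Cong_st) : Push_st := by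
  intro ι _ d m
  have := Lv_fi (free_fg ι) m
  obtain ⟨B, hB, h⟩ := (hC _ (free_fg ι) _ (QuotientGroup.mk' (Lv (FreeGroup ι) m))).1
  have : (B.comap d.pu).FiniteIndex := ⟨by
    rw [Subgroup.index_comap]
    exact Subgroup.FiniteIndex.index_ne_zero⟩
  have : (nn_VPush d m).FiniteIndex := Subgroup.finiteIndex_of_le (H := B.comap d.pu)
    fun g hg => ⟨0, fun z => by simpa using eqv_iff.2 (QuotientGroup.eq.1 (h _ hg z))⟩
  refine ⟨Nat.card (FreeGroup ι ⧸ nn_VPush d m), fun φ hφ h1 => ?_⟩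
  obtain ⟨j, hj⟩ := (QuotientGroup.eq_one_iff _).1 (Lv0_grp le_rfl
    (QuotientGroup.mk' (nn_VPush d m)) ((QuotientGroup.eq_one_iff _).2 (by
      obtain ⟨k, hk⟩ := d.pu_cc
      exact ⟨k, fun z => Eqv.of_eq (by rw [hk, MulAut.conj_apply])⟩)) h1)
  obtain ⟨k, hk⟩ := hφ.2 d.γ
  refine ⟨-(j + k), fun z f => ?_⟩
  have e := DFunLike.congr_fun hk (d.D z)
  have e' := hj (d.c ^ k * φ (d.D z) * (d.c ^ k)⁻¹) f
  rw [d.pu_g, MulAut.mul_apply, MulAut.mul_apply, MulAut.mul_apply, MulAut.inv_apply_self,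
    MulAut.conj_apply] at e
  rw [_root_.map_mul d.pu, _root_.map_inv d.pu, d.pu_g, inv_inv, MulAut.mul_apply, ← e] at e'
  simp only [_root_.map_mul, _root_.map_inv, map_zpow] at e' ⊢
  rw [e']
  group

theorem hp_ok (hP : Push_st) (h1 : HM1_st) (h2 : HM2_st) (h3 : HM3_st) : HP_st := by
  intro ι _ d m
  obtain ⟨m3, k3⟩ := h3 ι d.toHM m
  obtain ⟨m2, k2⟩ := h2 ι d.toHM m3
  obtain ⟨m1, k1⟩ := h1 ι d.toHM (max m2 m3)
  obtain ⟨m0, k0⟩ := hP ι d m1
  refine ⟨max m0 m2, fun φ hφ h => ?_⟩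
  obtain ⟨a, ⟨q, hq, b⟩, q', hq', c⟩ := k1 φ hφ.1 (k0 φ hφ (Lv0_anti (le_max_left _ _) _ (h _)))
  obtain ⟨e, e'⟩ := k2 φ hφ.1 (fun z => Lv0_anti (le_max_right _ _) _ (h z))
    (fun z => (a z).anti (le_max_left _ _)) ⟨q, hq, b.anti (le_max_left _ _)⟩
    ⟨q', hq', c.anti (le_max_left _ _)⟩
  exact k3 φ (fun z => (a z).anti (le_max_right _ _)) e e'

end Pool.Agent.MP_692752_al

end

section

/-! Centralisers of powers of basis elements, level by level. -/

set_option autoImplicit false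

namespace Pool.Agent.MP_692752_al

open FreeGroup

theorem flip_VCentk {ι V : Type} (σ : ι → Equiv.Perm V) (i : ι) (p : V) (hp : σ i p = p)
    (N : ℕ) : ∃ ρ : FreeGroup ι →* Equiv.Perm (V × Multiplicative (ZMod N)),
      ∀ (w : FreeGroup ι) (k j : ℤ), (j : ZMod N) ≠ 0 → ρ (of i ^ k * w) = ρ (w * of i ^ j) →
        FreeGroup.lift σ w p = p := by
  classical
  let lab : ι → V → Multiplicative (ZMod N) :=
    fun j v => if j = i ∧ v = p then Multiplicative.ofAdd 1 else 1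
  have h0 : ∀ a : ℤ, FreeGroup.lift σ (of i ^ a) p = p := fun a => by
    rw [map_zpow, lift_apply_of]
    exact Equiv.Perm.zpow_apply_eq_self_of_apply_eq_self hp a
  have h1 : ∀ (a : ℤ) (v : V), coc σ lab (of i ^ (a + 1)) v = lab i v * coc σ lab (of i ^ a) v :=
    fun a v => by
      have e : FreeGroup.lift σ (of i ^ a) v = p ↔ v = p := by
        conv_lhs => rw [← h0 a]
        exact (FreeGroup.lift σ (of i ^ a)).injective.eq_iff
      rw [add_comm, zpow_one_add, coc_mul, coc_of]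
      simp only [lab, e]
  have h2 : ∀ (a : ℤ) (v : V), coc σ lab (of i ^ a) v = lab i v ^ a := fun a v => by
    induction a using Int.induction_on with
    | zero => rw [zpow_zero, zpow_zero, coc_one]
    | succ n ih => rw [h1, ih, add_comm, zpow_one_add]
    | pred n ih =>
      have := h1 (-n - 1) v
      rw [sub_add_cancel, ih] at this
      rw [zpow_sub_one (lab i v), this, mul_inv_cancel_comm]
  refine ⟨cocP σ lab, fun w k j hj hw => by_contra fun hne => hj ?_⟩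
  have h : coc σ lab (of i ^ k * w) p = coc σ lab (w * of i ^ j) p := by
    unfold coc
    rw [hw]
  have k1 : lab i p = Multiplicative.ofAdd 1 := by simp [lab]
  have k2 : lab i (FreeGroup.lift σ w p) = 1 := by simp [lab, hne]
  rw [coc_mul, coc_mul, h0, h2, h2, k1, k2, one_zpow, one_mul, left_eq_mul] at h
  simpa using congrArg Multiplicative.toAdd h

theorem gen_VCentk (ι : Type) [Finite ι] (i : ι) {N : ℕ} (hN : N ≠ 0) (m : ℕ) :
    ∃ m', ∀ (w : FreeGroup ι) (k j : ℤ), ¬ (N : ℤ) ∣ j → Eqv m' (of i ^ k * w) (w * of i ^ j) →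
      ∃ l : ℤ, Eqv m w (of i ^ l) := by
  have : NeZero N := ⟨hN⟩
  have := Lv_fi (free_fg ι) m
  let Q := FreeGroup ι ⧸ Lv (FreeGroup ι) m
  let π : FreeGroup ι →* Q := QuotientGroup.mk' _
  let V := Q ⧸ Subgroup.zpowers (π (of i))
  let σ : ι → Equiv.Perm V := fun j => MulAction.toPermHom Q V (π (of j))
  have hσ : FreeGroup.lift σ = (MulAction.toPermHom Q V).comp π := by
    ext j : 1
    simp [σ]
  have key : ∀ q : Q, MulAction.toPermHom Q V q ((1 : Q) : V) = ((1 : Q) : V) ↔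
      q ∈ Subgroup.zpowers (π (of i)) := by
    intro q
    have : MulAction.toPermHom Q V q ((1 : Q) : V) = ((q * 1 : Q) : V) := rfl
    rw [this, mul_one, eq_comm, QuotientGroup.eq]
    simp
  obtain ⟨ρ, hρ⟩ := flip_VCentk σ i ((1 : Q) : V) ((key _).2 (Subgroup.mem_zpowers _)) N
  refine ⟨Nat.card (V × Multiplicative (ZMod N)), fun w k j hj hw => ?_⟩
  have h := hρ w k j (fun e => hj ((ZMod.intCast_zmod_eq_zero_iff_dvd _ _).1 e))
    (hw.perm le_rfl ρ)
  rw [hσ] at h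
  obtain ⟨l, hl⟩ := Subgroup.mem_zpowers_iff.1 ((key _).1 h)
  rw [← map_zpow] at hl
  exact ⟨l, (eqv_iff.2 (QuotientGroup.eq.1 hl)).symm⟩

theorem centk_ok : Centk_st := by
  intro ι _ i k hk m
  obtain ⟨m', h⟩ := gen_VCentk ι i (N := k + 1) (by omega) m
  refine ⟨m', fun w hw => h w k k (fun e => ?_) ?_⟩
  · have := Int.le_of_dvd (by omega) e
    omega
  · rw [zpow_natCast]
    exact hw.symm

theorem cfk_ok (h : Centk_st) : CFk_st := by
  classical
  intro ι _ i j hij k hk m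
  obtain ⟨m1, h1⟩ := h ι i k hk (max m m.factorial)
  obtain ⟨m2, h2⟩ := h ι j k hk (max m m.factorial)
  refine ⟨max m1 m2, fun w hi hj => ?_⟩
  obtain ⟨a, ha⟩ := h1 w (hi.anti (le_max_left _ _))
  obtain ⟨b, hb⟩ := h2 w (hj.anti (le_max_right _ _))
  have e := (hb.symm.trans ha).modEq m.factorial_ne_zero (le_max_right _ _)
    (FreeGroup.lift fun l => if l = i then Multiplicative.ofAdd 1 else 1)
  have e' : (m.factorial : ℤ) ∣ a := by simpa [hij.symm] using e.dvd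
  exact eqv_one.1 ((ha.anti (le_max_left _ _)).trans (eqv_one.2 (zpow_mem_Lv _ e')))

theorem cff_ok (h : CFk_st) : CFF_st := by
  intro ι _ i j hij U hU m
  obtain ⟨m', h'⟩ := h ι i j hij U.normalCore.index Subgroup.FiniteIndex.index_ne_zero m
  exact ⟨m', fun w hw => h' w (hw _ (U.normalCore_le (U.normalCore.pow_index_mem _)))
    (hw _ (U.normalCore_le (U.normalCore.pow_index_mem _)))⟩

theorem mal_ok : Mal_st := by
  intro ι _ i m
  obtain ⟨m', h⟩ := gen_VCentk ι i two_ne_zero m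
  refine ⟨max m' 2, fun a k j hk ha => h a k j (fun e => ?_) (ha.anti (le_max_left _ _))⟩
  have e1 := ha.modEq two_ne_zero (le_max_right _ _)
    (FreeGroup.lift fun _ => Multiplicative.ofAdd 1)
  have e2 := e1.dvd
  simp only [MonoidHom.map_mul, MonoidHom.map_zpow, lift_apply_of, toAdd_mul, toAdd_zpow,
    toAdd_ofAdd, smul_eq_mul] at e2
  obtain ⟨c, rfl⟩ := hk
  omega

end Pool.Agent.MP_692752_al

end

section

set_option autoImplicit false

namespace Pool.Agent.MP_692752_al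

open FreeGroup

theorem tool_VUp {S G : Type} [Group S] [Group G] (i : S →* G) (hi : Function.Injective i)
    (hR : i.range.FiniteIndex) (hS : Group.FG S) (m : ℕ) :
    ∃ m', ∀ a b : S, Eqv m' (i a) (i b) → Eqv m a b := by
  have h1 := Lv_fi hS m
  obtain ⟨m', h⟩ := Lv_le ((Lv S m).map i) ⟨by
    rw [Subgroup.index_map_of_injective _ hi]
    exact mul_ne_zero h1.index_ne_zero hR.index_ne_zero⟩
  refine ⟨m', fun a b hab => ?_⟩
  obtain ⟨c, hc, e⟩ := h (eqv_iff.1 hab)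
  rw [← _root_.map_inv, ← _root_.map_mul] at e
  exact eqv_iff.2 (hi e ▸ hc)

theorem ext_VUp {G : Type} [Group G] (hR : RFL G) (hC : CFG G) (U R : Subgroup G)
    (hU : U.FiniteIndex) (hR' : R.FiniteIndex) (f : U →* G) (γ : G)
    (h : ∀ u : U, (u : G) ∈ R → f u = γ * u * γ⁻¹) (z : U) : f z = γ * z * γ⁻¹ := by
  have key : ∀ n ∈ (U ⊓ R).normalCore,
      (z : G)⁻¹ * (γ⁻¹ * f z * γ) * n = n * ((z : G)⁻¹ * (γ⁻¹ * f z * γ)) := fun n hn => by
    have h1 := (U ⊓ R).normalCore_le hn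
    have h2 := (U ⊓ R).normalCore_le (Subgroup.Normal.conj_mem inferInstance n hn z)
    have h3 := h ⟨n, h1.1⟩ h1.2
    have h4 := h (z * ⟨n, h1.1⟩ * z⁻¹) h2.2
    simp only [_root_.map_mul, _root_.map_inv, h3, Subgroup.coe_mul, Subgroup.coe_inv] at h4
    calc (z : G)⁻¹ * (γ⁻¹ * f z * γ) * n
        = (z : G)⁻¹ * γ⁻¹ * (f z * (γ * n * γ⁻¹) * (f z)⁻¹) * (f z * γ) := by group
      _ = _ := by rw [h4]; group
  have h5 := hR ((z : G)⁻¹ * (γ⁻¹ * f z * γ)) fun m => by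
    obtain ⟨m', hm⟩ := hC (U ⊓ R).normalCore inferInstance m
    exact hm _ fun n hn => Eqv.of_eq (key n hn)
  rw [inv_mul_eq_one] at h5
  rw [h5]
  group

theorem up_ok : Up_st := by
  intro S G _ _ i hi hR hS hF hG hC
  have tool := tool_VUp i hi hR hS
  obtain ⟨m₀, h₀⟩ := Lv_le i.range hR
  have hRF : RFL G := fun z hz => by
    obtain ⟨s, rfl⟩ := h₀ (hz m₀)
    rw [hF s fun m => ?_, _root_.map_one]
    obtain ⟨m', hm⟩ := tool m
    exact eqv_one.1 (hm s 1 (by rw [_root_.map_one]; exact eqv_one.2 (hz m')))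
  refine ⟨hRF, fun U hU f h => ?_⟩
  choose γ hγ using h
  obtain ⟨y, hy⟩ := Finite.exists_infinite_fiber fun m => (γ m : G ⧸ i.range)
  obtain ⟨r, rfl⟩ := QuotientGroup.mk_surjective y
  have key : ∀ m, ∃ s : S, ∀ (a : S) (ha : i a ∈ U),
      Eqv m (r⁻¹ * f ⟨i a, ha⟩ * r) (i (s * a * s⁻¹)) := fun m => by
    obtain ⟨m', h1, h2⟩ := (Set.infinite_coe_iff.1 hy).exists_gt m
    obtain ⟨s, hs⟩ := QuotientGroup.eq.1 (show (r : G ⧸ i.range) = γ m' from h1.symm)
    refine ⟨s, fun a ha => ?_⟩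
    refine (((Eqv.refl r⁻¹).mul ((hγ m' ⟨i a, ha⟩).anti h2.le)).mul (Eqv.refl r)).trans
      (Eqv.of_eq ?_)
    rw [_root_.map_mul, _root_.map_mul, _root_.map_inv, hs]
    group
  have hU' : (U.comap i).FiniteIndex := ⟨by
    rw [Subgroup.index_comap]
    exact (inferInstance : (U.subgroupOf i.range).FiniteIndex).index_ne_zero⟩
  have hm : ∀ a : U.comap i, ∃ t : S, i t = r⁻¹ * f ⟨i a, a.2⟩ * r := fun a => by
    obtain ⟨s, hs⟩ := key m₀
    have h1 := h₀ (eqv_iff.1 (hs a a.2).symm)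
    exact (i.range.mul_mem_cancel_left (i.range.inv_mem ⟨_, rfl⟩)).1 h1
  choose t ht using hm
  have hmul : ∀ a b, t (a * b) = t a * t b := fun a b => hi (by
    have e : (⟨i (a * b : U.comap i), (a * b).2⟩ : U) = ⟨i a, a.2⟩ * ⟨i b, b.2⟩ :=
      Subtype.ext (_root_.map_mul i _ _)
    rw [_root_.map_mul, ht, ht, ht, e, _root_.map_mul]
    group)
  obtain ⟨s₀, hs₀⟩ := hG (U.comap i) hU' (MonoidHom.mk' t hmul) fun m => by
    obtain ⟨m', hm⟩ := tool m
    obtain ⟨s, hs⟩ := key m'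
    exact ⟨s, fun a => hm _ _ ((Eqv.of_eq (ht a)).trans (hs a a.2))⟩
  refine ⟨r * i s₀, ext_VUp hRF hC U i.range hU hR f _ ?_⟩
  rintro ⟨u, hu⟩ ⟨a, rfl⟩
  have h1 := ht ⟨a, hu⟩
  have h2 : t ⟨a, hu⟩ = s₀ * a * s₀⁻¹ := hs₀ ⟨a, hu⟩
  rw [h2, _root_.map_mul, _root_.map_mul, _root_.map_inv] at h1
  calc f ⟨i a, hu⟩ = r * (r⁻¹ * f ⟨i a, hu⟩ * r) * r⁻¹ := by group
    _ = _ := by rw [← h1]; group

end Pool.Agent.MP_692752_al

end

section

/-! Extension of automorphisms of subgroups of finite index. -/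

set_option autoImplicit false

namespace Pool.Agent.MP_692752_al

open FreeGroup

section
variable {G : Type} [Group G]

theorem cent_VExt (hR : RFL G) (hC : CFG G) {N : Subgroup G} (hN : N.FiniteIndex) {a b : G}
    (h : ∀ n ∈ N, a * n * a⁻¹ = b * n * b⁻¹) : a = b := by
  refine inv_mul_eq_one.1 (hR _ fun m => ?_)
  obtain ⟨m', hm⟩ := hC N hN m
  refine hm _ fun n hn => Eqv.of_eq ?_
  calc a⁻¹ * b * n = a⁻¹ * (b * n * b⁻¹) * b := by group
    _ = n * (a⁻¹ * b) := by rw [← h n hn]; group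

/-- the map is induced by automorphisms at every level -/
def Hyp_VExt {U : Subgroup G} (φ : MulAut U) : Prop :=
  ∀ m, ∃ β : MulAut G, ∀ u : U, Eqv m (φ u : G) (β u)

theorem inv_VExt {U : Subgroup G} {φ : MulAut U} (h : Hyp_VExt φ) : Hyp_VExt φ.symm := fun m => by
  obtain ⟨β, hβ⟩ := h m
  refine ⟨β.symm, fun u => ?_⟩
  simpa using ((hβ (φ.symm u)).aut β.symm).symm

theorem lv_VExt {U : Subgroup G} {φ : MulAut U} (h : Hyp_VExt φ) {m : ℕ} {u : U}
    (hu : (u : G) ∈ Lv G m) : (φ u : G) ∈ Lv G m := by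
  obtain ⟨β, hβ⟩ := h m
  exact eqv_one.1 ((hβ u).trans (eqv_one.2 (Lv_map β.toMonoidHom hu)))

theorem hom_VExt (hG : Group.FG G) (hR : RFL G) (hC : CFG G) (hP : GrP G) {U : Subgroup G}
    {m₀ : ℕ} (hU : Lv G m₀ ≤ U) {φ : MulAut U} (h : Hyp_VExt φ) :
    ∃ e : G →* G, ∀ u : U, e u = φ u := by
  have hN := Lv_fi hG m₀
  have h' := inv_VExt h
  have cj : ∀ z : G, ∀ n ∈ Lv G m₀, z * n * z⁻¹ ∈ Lv G m₀ :=
    fun z n hn => Subgroup.Normal.conj_mem inferInstance n hn z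
  let P : G → G → Prop := fun z γ => ∀ n n' : U, (n : G) ∈ Lv G m₀ → (n' : G) = z * n * z⁻¹ →
    (φ n' : G) = γ * φ n * γ⁻¹
  have ex : ∀ z, ∃ γ, P z γ := fun z => by
    let c : Lv G m₀ →* U := MonoidHom.mk'
      (fun n => ⟨z * φ.symm ⟨n, hU n.2⟩ * z⁻¹, hU (cj z _ (lv_VExt h' n.2))⟩) fun a b => by
        ext
        show z * (φ.symm (⟨a, hU a.2⟩ * ⟨b, hU b.2⟩) : G) * z⁻¹ = _
        simp only [_root_.map_mul, Subgroup.coe_mul]
        group
    obtain ⟨γ, hγ⟩ := hP _ hN (U.subtype.comp (φ.toMonoidHom.comp c)) fun m => by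
      obtain ⟨β, hβ⟩ := h m
      refine ⟨β z, fun n => (hβ (c n)).trans ?_⟩
      have e1 : β (c n) = β z * β (φ.symm ⟨n, hU n.2⟩) * (β z)⁻¹ := by
        rw [← _root_.map_inv, ← _root_.map_mul, ← _root_.map_mul]
        rfl
      have e2 := (hβ (φ.symm ⟨n, hU n.2⟩)).symm
      rw [MulEquiv.apply_symm_apply] at e2
      rw [e1]
      exact ((Eqv.refl _).mul e2).mul (Eqv.refl _)
    refine ⟨γ, fun n n' hn e => ?_⟩
    have e1 : n' = c ⟨φ n, lv_VExt h hn⟩ := by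
      ext
      rw [e]
      show _ = z * (φ.symm (φ n) : G) * z⁻¹
      rw [MulEquiv.symm_apply_apply]
    rw [e1]
    exact hγ ⟨φ n, lv_VExt h hn⟩
  have un : ∀ z γ γ', P z γ → P z γ' → γ = γ' := fun z γ γ' k k' => by
    refine cent_VExt hR hC hN fun n hn => ?_
    have h1 := lv_VExt h' (u := ⟨n, hU hn⟩) hn
    have e1 := k _ ⟨_, hU (cj z _ h1)⟩ h1 rfl
    have e2 := k' _ ⟨_, hU (cj z _ h1)⟩ h1 rfl
    rw [MulEquiv.apply_symm_apply] at e1 e2
    exact e1.symm.trans e2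
  choose e he using ex
  refine ⟨MonoidHom.mk' e fun a b => un (a * b) _ _ (he _) fun n n' hn k => ?_,
    fun u => un u _ _ (he _) fun n n' _ k => ?_⟩
  · rw [he a ⟨_, hU (cj b _ hn)⟩ n' (cj b _ hn) (by rw [k]; group),
      he b n ⟨_, hU (cj b _ hn)⟩ hn rfl]
    group
  · rw [show n' = u * n * u⁻¹ from Subtype.ext k]
    simp

theorem id_VExt (hR : RFL G) (hC : CFG G) {U : Subgroup G} (hU : U.FiniteIndex) (f : G →* G)
    (h : ∀ u : U, f u = u) : f = MonoidHom.id G := by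
  ext z
  refine cent_VExt hR hC (N := U.normalCore) inferInstance fun n hn => ?_
  have h1 := h ⟨n, U.normalCore_le hn⟩
  have h2 := h ⟨_, U.normalCore_le (Subgroup.Normal.conj_mem inferInstance n hn z)⟩
  simp only [_root_.map_mul, _root_.map_inv] at h1 h2
  rw [h1] at h2
  exact h2

end

theorem ext_ok : Ext_st := by
  intro G _ hG hR hC hP U hU φ h
  obtain ⟨m₀, hm⟩ := Lv_le U hU
  obtain ⟨e, he⟩ := hom_VExt hG hR hC hP hm h
  obtain ⟨e', he'⟩ := hom_VExt hG hR hC hP hm (inv_VExt h)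
  refine ⟨MonoidHom.toMulEquiv e e' (id_VExt hR hC hU _ fun u => ?_)
    (id_VExt hR hC hU _ fun u => ?_), fun u => (he u).symm⟩
  · rw [MonoidHom.comp_apply, he, he', MulEquiv.symm_apply_apply]
  · rw [MonoidHom.comp_apply, he', he, MulEquiv.apply_symm_apply]

end Pool.Agent.MP_692752_al

end

section

namespace Pool.Agent.MP_692752_al

open FreeGroup

section

variable {G : Type} [Group G] (l : LF G)

/-- the distance -/
def d_VBr (x y : G) : ℕ := l.len (x⁻¹ * y)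

theorem sym_VBr (x y : G) : d_VBr l x y = d_VBr l y x := by
  rw [d_VBr, d_VBr, ← l.inv, mul_inv_rev, inv_inv]

theorem four_VBr (a b c d : G) : d_VBr l a b + d_VBr l c d ≤
    max (d_VBr l a c + d_VBr l b d) (d_VBr l a d + d_VBr l b c) := l.four a b c d

theorem tri_VBr (a c b : G) : d_VBr l a b ≤ d_VBr l a c + d_VBr l c b := by
  have := four_VBr l a b c c
  rw [max_self, sym_VBr l b c] at this
  omega

theorem mul_VBr (g a b : G) : d_VBr l (g * a) (g * b) = d_VBr l a b := by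
  rw [d_VBr, mul_inv_rev, mul_assoc, inv_mul_cancel_left, d_VBr]

theorem fix_VBr {a p : G} (h : d_VBr l p (a * p) = 0) (x : G) :
    d_VBr l p (a * x) = d_VBr l p x := by
  have h1 := tri_VBr l p (a * p) (a * x)
  have h2 := tri_VBr l (a * p) p (a * x)
  have h3 := mul_VBr l a p x
  have h4 := sym_VBr l p (a * p)
  omega

theorem step_VBr {a p q : G} (h : d_VBr l p (a * p) = 0)
    (h1 : d_VBr l q (a * q) < 2 * d_VBr l p q) :
    ∃ z, d_VBr l z (a * z) = 0 ∧ d_VBr l z q + 1 = d_VBr l p q := by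
  obtain ⟨w, w1, w2⟩ := l.pre (p⁻¹ * q) 1 (by change 1 ≤ d_VBr l p q; omega)
  have e1 : d_VBr l p (p * w) = 1 := by rw [d_VBr, inv_mul_cancel_left, w1]
  have e2 : d_VBr l (p * w) q + 1 = d_VBr l p q := by
    rw [d_VBr, mul_inv_rev, mul_assoc]; exact w2
  have e3 : Even (d_VBr l q (a * q) + d_VBr l q p + d_VBr l p (a * q)) := by
    have := l.par (q⁻¹ * p) (p⁻¹ * (a * q))
    rwa [mul_assoc, mul_inv_cancel_left] at this
  generalize p * w = z at e1 e2
  obtain ⟨k, e3⟩ := e3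
  have f1 := four_VBr l z (a * q) p q
  have f2 := four_VBr l z (a * z) p (a * q)
  have g1 := fix_VBr l h q
  have g2 := fix_VBr l h z
  rw [sym_VBr l z p, sym_VBr l (a * q) q, sym_VBr l (a * q) p] at f1
  rw [sym_VBr l z p, mul_VBr, sym_VBr l (a * z) p] at f2
  rw [sym_VBr l q p] at e3
  exact ⟨z, by omega, e2⟩

theorem ind_VBr {a b : G} (e : a * b * (a * b) = 1) (r : ℕ) : ∀ p q : G, d_VBr l p q = r →
    d_VBr l p (a * p) = 0 → d_VBr l q (b * q) = 0 →
    ∃ z, d_VBr l z (a * z) = 0 ∧ d_VBr l z (b * z) = 0 := by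
  induction r with
  | zero =>
    intro p q h hp hq
    have h1 := tri_VBr l p q (b * p)
    have h2 := fix_VBr l hq p
    have h3 := sym_VBr l p q
    exact ⟨p, hp, by omega⟩
  | succ r ih =>
    intro p q h hp hq
    have s1 := sym_VBr l p q
    by_cases h1 : d_VBr l q (a * q) < 2 * d_VBr l p q
    · obtain ⟨z, z1, z2⟩ := step_VBr l hp h1
      exact ih z q (by omega) z1 hq
    by_cases h2 : d_VBr l p (b * p) < 2 * d_VBr l q p
    · obtain ⟨z, z1, z2⟩ := step_VBr l hq h2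
      exact ih p z (by rw [sym_VBr]; omega) hp z1
    exfalso
    have f := four_VBr l p (a * (b * p)) (a * q) (a * (b * (a * q)))
    have e1 : d_VBr l p (a * (b * (a * q))) = d_VBr l (b * p) q := by
      rw [← mul_VBr l (a * b * a) (b * p) q, ← mul_assoc (a * b * a), mul_assoc (a * b), e, one_mul,
        mul_assoc, mul_assoc]
    rw [e1, fix_VBr l hp, fix_VBr l hp, mul_VBr, mul_VBr, mul_VBr, mul_VBr, fix_VBr l hq,
      fix_VBr l hp, sym_VBr l (b * p) q, fix_VBr l hq] at f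
    omega

end

theorem geo_ok : Geo_st := by
  intro G _ l u g p h1 h2 h3
  have e1 : d_VBr l 1 (u * 1) = 0 := by rwa [d_VBr, inv_one, one_mul, mul_one]
  have e2 : d_VBr l g (u * g) = 0 := by rwa [d_VBr, ← mul_assoc]
  have e3 : d_VBr l 1 p + d_VBr l p g = d_VBr l 1 g := by
    rwa [d_VBr, d_VBr, d_VBr, inv_one, one_mul, one_mul]
  have f := four_VBr l p (u * p) 1 g
  rw [sym_VBr l (u * p) g, sym_VBr l (u * p) 1, fix_VBr l e1, fix_VBr l e2, sym_VBr l p 1,
    sym_VBr l g p] at f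
  rw [mul_assoc]
  change d_VBr l p (u * p) = 0
  omega

theorem br_ok : Br_st := by
  intro G _ l a b p q h1 h2 e
  simp only [mul_assoc] at h1 h2 ⊢
  exact ind_VBr l e _ p q rfl h1 h2

end Pool.Agent.MP_692752_al

end
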