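import Pool.Agent.Mg.F692752.G94411f

section

/-! The fixed points of the twisted map in the finite quotient graphs are connected. -/

set_option autoImplicit false

namespace Pool.Agent.MP_692752_al

open FreeGroup

theorem smith_ok : Smith_st := by
  intro E _ σ k hσ F h1 h2
  classical
  have h01 : ∀ x : ZMod 2, x = if x = 1 then 1 else 0 := by decide
  let f : Function.End {e // F e = 1} := fun e => ⟨σ e, (h1 e).trans e.2⟩
  have hf : ∀ n e, ((f ^ n) e : E) = (σ ^ n) e := by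
    intro n
    induction n with
    | zero => exact fun _ => rfl
    | succ n ih =>
      intro e
      rw [pow_succ, pow_succ]
      exact ih (f e)
  have h3 := Equiv.Perm.card_fixedPoints_modEq (f := f) (p := 2) (n := k)
    (funext fun e => Subtype.ext (by rw [hf, hσ]; rfl))
  have he : IsEmpty f.fixedPoints := ⟨fun e => by
    have := h2 _ (congrArg Subtype.val e.2)
    rw [e.1.2] at this
    exact one_ne_zero this⟩
  rw [Fintype.card_eq_zero (α := f.fixedPoints), Fintype.card_subtype] at h3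
  rw [Finset.sum_congr rfl fun e _ => h01 (F e), Finset.sum_boole]
  exact (ZMod.natCast_eq_natCast_iff _ _ 2).2 h3

theorem two_VConn (x : ZMod 2) : x + x = 0 := by revert x; decide

open Classical in
/-- the truth value modulo two -/
noncomputable def ch_VConn (p : Prop) : ZMod 2 := if p then 1 else 0

theorem ch_congr_VConn {p q : Prop} (h : p ↔ q) : ch_VConn p = ch_VConn q := by rw [propext h]

theorem ch_iff_VConn {p q : Prop} (h : ch_VConn p + ch_VConn q = 0) (hq : q) : p := by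
  by_contra hp
  rw [ch_VConn, ch_VConn, if_neg hp, if_pos hq, zero_add] at h
  exact one_ne_zero h

section
variable {G E : Type} [Group G] [MulAction G E]

/-- cocycles with values in the chains modulo two -/
def Coc_VConn (z : G → E → ZMod 2) : Prop := ∀ u v e, z (u * v) e = z u e + z v (u⁻¹ • e)

theorem Coc_VConn.one {z : G → E → ZMod 2} (h : Coc_VConn z) (e : E) : z 1 e = 0 := by
  have := h 1 1 e
  rwa [mul_one, inv_one, one_smul, two_VConn] at this

theorem Coc_VConn.inv {z : G → E → ZMod 2} (h : Coc_VConn z) (u : G) (e : E) :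
    z u⁻¹ e = z u (u • e) := by
  have := h u⁻¹ u e
  rw [inv_mul_cancel, h.one, inv_inv] at this
  linear_combination two_VConn (z u⁻¹ e) + this

theorem Coc_VConn.ext {z z' : G → E → ZMod 2} (h : Coc_VConn z) (h' : Coc_VConn z') {S : Set G}
    (hS : ∀ s ∈ S, ∀ e, z s e = z' s e) {a : G} (ha : a ∈ Subgroup.closure S) (e : E) :
    z a e = z' a e := by
  induction ha using Subgroup.closure_induction generalizing e with
  | mem x hx => exact hS x hx e
  | one => rw [h.one, h'.one]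
  | mul x y _ _ hx hy => rw [h, h', hx, hy]
  | inv x _ hx => rw [h.inv, h'.inv, hx]

/-- the chain of one edge -/
noncomputable def dl_VConn (a e : E) : ZMod 2 := ch_VConn (a = e)

theorem dl_smul_VConn (u : G) (a e : E) : dl_VConn a (u⁻¹ • e) = dl_VConn (u • a) e :=
  ch_congr_VConn eq_inv_smul_iff

theorem dl_perm_VConn (σ : Equiv.Perm E) (a e : E) : dl_VConn (σ a) (σ e) = dl_VConn a e :=
  ch_congr_VConn σ.apply_eq_iff_eq

theorem dl_sum_VConn [Fintype E] (a : E) (f : E → ZMod 2) : ∑ e, dl_VConn a e * f e = f a := by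
  rw [Finset.sum_eq_single a (fun b _ h => by simp [dl_VConn, ch_VConn, h.symm]) (by simp)]
  simp [dl_VConn, ch_VConn]

theorem cob_VConn (a : E) : Coc_VConn fun (u : G) e => dl_VConn a e + dl_VConn (u • a) e := by
  intro u v e
  simp only [dl_smul_VConn, mul_smul]
  linear_combination -two_VConn (dl_VConn (u • a) e)

theorem fin_VConn (hS : Smith_st) [Fintype E] {D : MulAut G} {Dp Ψ : Equiv.Perm E}
    {w : G → E → ZMod 2} (hw : Coc_VConn w) (hD : ∀ u e, w (D u) (Dp e) = w u e) {h g p : G}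
    (h0 : ∀ e, w h e = 0) (p0 : ∀ e, w p e = 0) (hg : ∀ e, w (D g) e = w (h * g * p) e) {r k : ℕ}
    (hΨ : ∀ e, Ψ e = h⁻¹ • Dp e) (hk : (Ψ ^ r) ^ 2 ^ k = 1) {f : E → ZMod 2}
    (f1 : ∀ e, f ((Ψ ^ r) e) = f e) (f2 : ∀ e, (Ψ ^ r) e = e → f e = 0) :
    ∑ e, w g e * f e = 0 := by
  have h1 : ∀ (j : ℕ) e, w g ((Ψ ^ j) e) = w g e := by
    intro j
    induction j with
    | zero => exact fun _ => rfl
    | succ j ih =>
      intro e
      rw [pow_succ, Equiv.Perm.mul_apply, ih, ← hD g e, hg, hw, hw, h0, p0, zero_add, add_zero, hΨ]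
  exact hS E _ k hk _ (fun e => by rw [h1, f1]) fun e he => by rw [f2 e he, mul_zero]

end

theorem quo_VConn {G : Type} [Group G] (hG : Group.FG G) (m : ℕ) (D : MulAut G) (x : G)
    (hx : D x = x) : ∃ (X : Type) (_ : Finite X) (_ : MulAction G X) (e : X) (Dp : Equiv.Perm X),
      x • e = e ∧ Dp e = e ∧ (∀ u y, Dp (u • y) = D u • Dp y) ∧ (∀ y, ∃ u : G, u • e = y) ∧
      ∀ u v : G, u • e = v • e → ∃ k : ℤ, Eqv m v (u * x ^ k) := by
  let H : Subgroup G :=
    { carrier := {a | ∃ k : ℤ, Eqv m a (x ^ k)}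
      one_mem' := ⟨0, Eqv.of_eq (zpow_zero x).symm⟩
      mul_mem' := fun ⟨k, h⟩ ⟨l, h'⟩ => ⟨k + l, (h.mul h').trans (Eqv.of_eq (zpow_add x k l).symm)⟩
      inv_mem' := fun ⟨k, h⟩ => ⟨-k, h.inv.trans (Eqv.of_eq (zpow_neg x k).symm)⟩ }
  have := Lv_fi hG m
  have : H.FiniteIndex := Subgroup.finiteIndex_of_le (H := Lv G m) fun a ha =>
    ⟨0, (eqv_one.2 ha).trans (Eqv.of_eq (zpow_zero x).symm)⟩
  have hH : ∀ φ : MulAut G, φ x = x → ∀ a ∈ H, φ a ∈ H := fun φ h a ⟨k, ha⟩ =>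
    ⟨k, (ha.aut φ).trans (Eqv.of_eq (by rw [map_zpow, h]))⟩
  refine ⟨G ⧸ H, inferInstance, inferInstance, (1 : G), Quotient.congr D.toEquiv fun a b => ?_,
    ?_, ?_, fun u y => ?_, fun y => ?_, fun u v h => ?_⟩
  · rw [QuotientGroup.leftRel_apply, QuotientGroup.leftRel_apply]
    refine ⟨fun h => by simpa using hH D hx _ h, fun h => ?_⟩
    simpa using hH D.symm (by rw [MulEquiv.symm_apply_eq, hx]) _ h
  · refine QuotientGroup.eq.2 ⟨-1, Eqv.of_eq (by simp)⟩
  · exact congrArg QuotientGroup.mk (_root_.map_one D)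
  · obtain ⟨y, rfl⟩ := QuotientGroup.mk_surjective y
    exact congrArg QuotientGroup.mk (_root_.map_mul D u y)
  · obtain ⟨y, rfl⟩ := QuotientGroup.mk_surjective y
    exact ⟨y, congrArg QuotientGroup.mk (mul_one y)⟩
  · obtain ⟨k, hk⟩ := QuotientGroup.eq.1 h
    exact ⟨k, (Eqv.of_eq (by simp)).trans ((Eqv.refl u).mul hk)⟩

section
variable {ι E : Type} [MulAction (FreeGroup ι) E]

theorem coc_VConn [Finite E] (z0 : ι → E → ZMod 2) :
    ∃ z : FreeGroup ι → E → ZMod 2, (∀ i e, z (of i) e = z0 i e) ∧ Coc_VConn z ∧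
      ∀ m a b, Nat.card (E → ZMod 2) ≤ m → Eqv m a b → z a = z b := by
  let ρ : FreeGroup ι →* Equiv.Perm (E → ZMod 2) := FreeGroup.lift fun i =>
    ((MulAction.toPerm (of i : FreeGroup ι)).arrowCongr (Equiv.refl _)).trans
      (Equiv.addRight (z0 i))
  have key : ∀ u x y, ρ u (x + y) = (fun e => x (u⁻¹ • e)) + ρ u y := by
    intro u
    induction u using FreeGroup.induction_on with
    | C1 => intro x y; ext e; simp
    | of i => intro x y; ext e; simp [ρ, add_assoc]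
    | inv_of i hi =>
      intro x y
      rw [_root_.map_inv, Equiv.Perm.inv_eq_iff_eq, hi]
      ext e
      simp
    | mul a b ha hb =>
      intro x y
      rw [_root_.map_mul, Equiv.Perm.mul_apply, Equiv.Perm.mul_apply, hb, ha]
      ext e
      simp [mul_smul]
  refine ⟨fun u => ρ u 0, fun i e => by simp [ρ], fun u v e => ?_, fun m a b hm h => ?_⟩
  · have := congrFun (key u (ρ v 0) 0) e
    rw [add_zero] at this
    simp only [_root_.map_mul, Equiv.Perm.mul_apply, this, Pi.add_apply, add_comm]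
  · simp only [h.perm hm ρ]

theorem bd_VConn [Fintype E] {z : FreeGroup ι → E → ZMod 2} (hz : Coc_VConn z) (f : E → ZMod 2)
    (χ : FreeGroup ι → ZMod 2)
    (h : ∀ i u, ∑ e, z (of i) e * f (u • e) = χ (u * of i) + χ u) (g u : FreeGroup ι) :
    ∑ e, z g e * f (u • e) = χ (u * g) + χ u := by
  induction g using FreeGroup.induction_on generalizing u with
  | C1 => simp [hz.one, two_VConn]
  | of i => exact h i u
  | inv_of i hi =>
    have := hi (u * (of i)⁻¹)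
    rw [inv_mul_cancel_right, add_comm] at this
    rw [← this]
    exact Fintype.sum_equiv (MulAction.toPerm (of i : FreeGroup ι)) _ _ fun e => by
      simp [hz.inv, mul_smul]
  | mul a b ha hb =>
    have := hb (u * a)
    rw [← Equiv.sum_comp (MulAction.toPerm a⁻¹)] at this
    simp only [MulAction.toPerm_apply, mul_smul, smul_inv_smul] at this
    simp only [hz a b, add_mul, Finset.sum_add_distrib, ha, this, mul_assoc]
    linear_combination two_VConn (χ (u * a))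

theorem path_VConn [Fintype E] (d : HM ι) {em ep : E} (hn : d.n • em = em) (hγ : d.γ • ep = ep)
    {Dp : Equiv.Perm E} (D1 : Dp em = em) (D2 : Dp ep = ep)
    (D3 : ∀ u e, Dp (u • e) = d.D u • Dp e) : ∃ z : FreeGroup ι → E → ZMod 2, Coc_VConn z ∧
      (∀ m a b, Nat.card (E → ZMod 2) ≤ m → Eqv m a b → z a = z b) ∧
      (∀ a ∈ d.A, ∀ e, z a e = dl_VConn em e + dl_VConn (a • em) e) ∧ (∀ p ∈ d.P, ∀ e, z p e = 0) ∧
      (∀ u e, z (d.D u) (Dp e) = z u e) ∧ ∀ (f : E → ZMod 2) (χ χ' : FreeGroup ι → ZMod 2),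
        (∀ u, f (u • em) = χ u + χ' u) → (∀ u, f (u • ep) = χ u + χ' (u * d.s⁻¹)) →
        (∀ u, χ (u * d.γ) = χ u) → (∀ u, ∀ a ∈ d.A, χ' (u * a) = χ' u) →
        ∀ g, ∑ e, z g e * f e = χ g + χ 1 := by
  classical
  obtain ⟨z, h0, hz, hm⟩ := coc_VConn (ι := ι) fun i e => if i = d.ig then 0 else
    if i = d.is then dl_VConn em e + dl_VConn (d.s • ep) e else
      dl_VConn em e + dl_VConn ((of i : FreeGroup ι) • em) e
  have zg : ∀ e, z d.γ e = 0 := fun e => by rw [h0, if_pos rfl]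
  have zs : ∀ e, z d.s e = dl_VConn em e + dl_VConn (d.s • ep) e := fun e => by
    rw [h0, if_neg d.gs.symm, if_pos rfl]
  have zA : ∀ a ∈ d.A, ∀ e, z a e = dl_VConn em e + dl_VConn (a • em) e := fun a ha =>
    hz.ext (cob_VConn em) (by
      rintro _ (rfl | ⟨i, h, h', rfl⟩) e
      · rw [hz, hz, hz.inv, zg, zs, zs, smul_smul, show of d.is * (of d.is * of d.ig)⁻¹ =
          (of d.is * of d.ig * (of d.is)⁻¹)⁻¹ by group, dl_smul_VConn, dl_smul_VConn]
        simp only [mul_smul, inv_smul_smul, hγ]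
        linear_combination two_VConn (dl_VConn (d.s • ep) e)
      · rw [h0, if_neg h, if_neg h']) ha
  have zn : ∀ e, z d.n e = 0 := fun e => by rw [zA _ d.n_A, hn, two_VConn]
  refine ⟨z, hz, hm, zA, fun p hp => hz.ext (z' := fun _ _ => 0) (fun _ _ _ => rfl) ?_ hp,
    fun u => Coc_VConn.ext (z := fun u e => z (d.D u) (Dp e)) (fun u v e => ?_) hz
      (S := Set.range of) ?_ (by simp), fun f χ χ' f1 f2 c1 c2 g => ?_⟩
  · rintro _ (rfl | rfl)
    exacts [zn, zg]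
  · simp only [_root_.map_mul, hz _ _, D3, _root_.map_inv]
  · rintro _ ⟨i, rfl⟩ e
    by_cases h : i = d.ig
    · rw [h, d.D_g, zg, zg]
    by_cases h' : i = d.is
    · rw [h', zs, ← dl_perm_VConn Dp, ← dl_perm_VConn Dp (_ • _), D3, D1, D2, d.D_s, hz, hz, zn, zg,
        zs, dl_smul_VConn, dl_smul_VConn, hn, mul_smul, mul_smul, hγ, zero_add, add_zero]
    · have h1 := d.of_A h h'
      rw [zA _ h1, ← dl_perm_VConn Dp, ← dl_perm_VConn Dp (_ • _), D3, D1, zA]
      rw [d.D_A h1]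
      exact d.A.mul_mem (d.A.mul_mem d.n_A h1) (d.A.inv_mem d.n_A)
  · have := bd_VConn hz f χ (fun i u => ?_) g 1
    · simpa using this
    by_cases h : i = d.ig
    · simp [h, zg, c1, two_VConn]
    by_cases h' : i = d.is
    · simp only [h', zs, add_mul, Finset.sum_add_distrib, dl_sum_VConn, smul_smul, f1, f2,
        mul_inv_cancel_right]
      linear_combination two_VConn (χ' u)
    · simp only [zA _ (d.of_A h h'), add_mul, Finset.sum_add_distrib, dl_sum_VConn, smul_smul, f1,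
        c2 _ _ (d.of_A h h')]
      linear_combination two_VConn (χ' u)

end

theorem conn_ok (hS : Smith_st) : Conn_st := by
  intro ι _ d m
  obtain ⟨X, _, _, x, DX, x1, x2, x3, x4, x5⟩ := quo_VConn (free_fg ι) m d.D d.n d.D_n
  obtain ⟨Y, _, _, y, DY, y1, y2, y3, y4, y5⟩ := quo_VConn (free_fg ι) m d.D d.γ d.D_g
  have := Fintype.ofFinite (X ⊕ Y)
  have D3 : ∀ (u : FreeGroup ι) e, DX.sumCongr DY (u • e) = d.D u • DX.sumCongr DY e := by
    rintro u (e | e)
    exacts [congrArg Sum.inl (x3 u e), congrArg Sum.inr (y3 u e)]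
  have D1 : DX.sumCongr DY (.inl x) = .inl x := congrArg Sum.inl x2
  have D2 : DX.sumCongr DY (.inr y) = .inr y := congrArg Sum.inr y2
  obtain ⟨z, hz, hm, zA, zP, zD, zb⟩ := path_VConn d (E := X ⊕ Y) (congrArg Sum.inl x1)
    (congrArg Sum.inr y1) D1 D2 D3
  generalize DX.sumCongr DY = Dp at D1 D2 D3 zD
  refine ⟨max (Nat.card (X ⊕ Y)) (Nat.card (X ⊕ Y → ZMod 2)), fun h hh => ?_⟩
  obtain ⟨Ψ, hΨ⟩ : ∃ Ψ : Equiv.Perm (X ⊕ Y), ∀ e, Ψ e = h⁻¹ • Dp e :=
    ⟨MulAction.toPerm h⁻¹ * Dp, fun _ => rfl⟩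
  obtain ⟨k, r, hr, hk⟩ := Nat.exists_eq_two_pow_mul_odd (orderOf_pos Ψ).ne'
  have hk' : (Ψ ^ r) ^ 2 ^ k = 1 := by rw [← pow_mul, mul_comm, ← hk, pow_orderOf_eq_one]
  refine ⟨r, hr, fun SP SA hP hA iP iA fn fγ => ?_⟩
  have it : ∀ e, Dp e = e → ∀ (j : ℕ) u, (Ψ ^ j) (u • e) = (d.ψ h)^[j] u • e := by
    intro e he j u
    induction j with
    | zero => rfl
    | succ j ih =>
      rw [pow_succ', Equiv.Perm.mul_apply, ih, hΨ, D3, he, Function.iterate_succ_apply', HM.ψ,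
        mul_smul]
  have back : ∀ S : FreeGroup ι → Prop, (∀ u v, ∀ l : ℤ, Eqv m (u * d.n ^ l) v → S u → S v) →
      (∀ u, S u → S ((d.ψ h)^[r] u)) → ∀ u, S ((d.ψ h)^[r] u) ↔ S u := by
    refine fun S h1 h2 u => ⟨fun h3 => ?_, h2 u⟩
    have h4 : ∀ j : ℕ, S ((d.ψ h)^[r * (j + 1)] u) := by
      intro j
      induction j with
      | zero => simpa using h3
      | succ j ih =>
        rw [mul_add_one, add_comm, Function.iterate_add_apply]
        exact h2 _ ih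
    have h5 := h4 (2 ^ k - 1)
    rw [Nat.sub_add_cancel Nat.one_le_two_pow] at h5
    have h6 := it _ D1 (r * 2 ^ k) u
    rw [pow_mul, hk'] at h6
    obtain ⟨l, hl⟩ := x5 _ _ (Sum.inl.inj h6).symm
    exact h1 _ _ l hl.symm h5
  have bP := back SP (fun u v l => hP u v _ (d.P.zpow_mem d.n_P l)) iP
  have bA := back SA (fun u v l => hA u v _ (d.A.zpow_mem d.n_A l)) iA
  have cA : ∀ u, ∀ a ∈ d.A, SA (u * a) ↔ SA u := fun u a ha =>
    ⟨hA _ _ _ (d.A.inv_mem ha) (Eqv.of_eq (by group)), hA _ _ _ ha (Eqv.refl _)⟩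
  have wX : ∀ u v : FreeGroup ι, u • x = v • x → (SP u → SP v) ∧ (SA u → SA v) := fun u v e =>
    (x5 u v e).elim fun l hl =>
      ⟨hP _ _ _ (d.P.zpow_mem d.n_P l) hl.symm, hA _ _ _ (d.A.zpow_mem d.n_A l) hl.symm⟩
  have wY : ∀ u v : FreeGroup ι, u • y = v • y →
      (SP u → SP v) ∧ (SA (u * d.s⁻¹) → SA (v * d.s⁻¹)) := fun u v e =>
    (y5 u v e).elim fun l hl => ⟨hP _ _ _ (d.P.zpow_mem d.γ_P l) hl.symm,
      hA _ _ _ (d.A.zpow_mem d.sγ_A l) ((Eqv.of_eq (by rw [conj_zpow]; group)).trans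
        (hl.symm.mul (Eqv.refl _)))⟩
  choose cx hx using x4
  choose cy hy using y4
  obtain ⟨f, f1, f2⟩ : ∃ f : X ⊕ Y → ZMod 2,
      (∀ u : FreeGroup ι, f (u • .inl x) = ch_VConn (SP u) + ch_VConn (SA u)) ∧
      ∀ u : FreeGroup ι, f (u • .inr y) = ch_VConn (SP u) + ch_VConn (SA (u * d.s⁻¹)) := by
    refine ⟨Sum.elim (fun e => ch_VConn (SP (cx e)) + ch_VConn (SA (cx e)))
      fun e => ch_VConn (SP (cy e)) + ch_VConn (SA (cy e * d.s⁻¹)), fun u => ?_, fun u => ?_⟩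
    · have a := wX _ _ (hx (u • x))
      have b := wX _ _ (hx (u • x)).symm
      exact congrArg₂ (· + ·) (ch_congr_VConn ⟨a.1, b.1⟩) (ch_congr_VConn ⟨a.2, b.2⟩)
    · have a := wY _ _ (hy (u • y))
      have b := wY _ _ (hy (u • y)).symm
      exact congrArg₂ (· + ·) (ch_congr_VConn ⟨a.1, b.1⟩) (ch_congr_VConn ⟨a.2, b.2⟩)
  have cs : ∀ e : X ⊕ Y, ∃ u : FreeGroup ι, e = u • .inl x ∨ e = u • .inr y := by
    rintro (e | e)
    exacts [⟨_, .inl (congrArg Sum.inl (hx e).symm)⟩, ⟨_, .inr (congrArg Sum.inr (hy e).symm)⟩]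
  have g1 : ∀ e, f ((Ψ ^ r) e) = f e := fun e => by
    obtain ⟨u, rfl | rfl⟩ := cs e
    · rw [it _ D1, f1, f1, ch_congr_VConn (bP u), ch_congr_VConn (bA u)]
    · rw [it _ D2, f2, f2, ch_congr_VConn (bP u), ← ch_congr_VConn (bA (u * d.s⁻¹)), d.ψ_mul,
        _root_.map_inv, d.Dr_s, ← ch_congr_VConn (cA _ _ (d.A.inv_mem
          (d.A.mul_mem (d.A.pow_mem d.n_A r) (d.A.pow_mem d.sγ_A r)))), conj_pow]
      congr 3
      group
  have g2 : ∀ e, (Ψ ^ r) e = e → f e = 0 := fun e he => by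
    obtain ⟨u, rfl | rfl⟩ := cs e
    · rw [it _ D1] at he
      obtain ⟨l, hl⟩ := x5 _ _ (Sum.inl.inj he).symm
      rw [f1, ch_congr_VConn (fn u l hl), two_VConn]
    · rw [it _ D2] at he
      obtain ⟨l, hl⟩ := y5 _ _ (Sum.inr.inj he).symm
      rw [f2, ch_congr_VConn (fγ u l hl), two_VConn]
  have bd := zb f _ _ f1 f2 (fun u => ch_congr_VConn ⟨hP _ _ _ (d.P.inv_mem d.γ_P)
    (Eqv.of_eq (by group)), hP _ _ _ d.γ_P (Eqv.refl _)⟩) fun u a ha => ch_congr_VConn (cA u a ha)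
  refine ⟨fun g p hp hg => ch_iff_VConn ?_, fun hh' g a ha hg => ch_iff_VConn ?_⟩
  · rw [← bd]
    exact fin_VConn hS hz zD (zP h hh) (zP p hp) (congrFun (hm _ _ _ (le_max_right _ _) hg)) hΨ hk'
      g1 g2
  · have hw : Coc_VConn fun u e => z u e + (dl_VConn (.inl x) e + dl_VConn (u • .inl x) e) :=
      fun u v e => by
        have := cob_VConn (G := FreeGroup ι) (Sum.inl x : X ⊕ Y) u v e
        simp only at this ⊢
        rw [hz, this]
        ring
    have := fin_VConn hS hw (D := d.D) (Dp := Dp) (fun u e => by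
      simp only [zD]
      rw [← dl_perm_VConn Dp _ e, ← dl_perm_VConn Dp (u • _) e, D3, D1]) (g := g) (p := a)
      (fun e => by simp only [zA h hh', two_VConn]) (fun e => by simp only [zA a ha, two_VConn])
      (fun e => by
        have e1 : d.D g • (Sum.inl x : X ⊕ Y) = (h * g * a) • .inl x := DFunLike.congr_fun
          (hg.perm (le_max_left _ _) (MulAction.toPermHom _ (X ⊕ Y))) (.inl x)
        simp only [hm _ _ _ (le_max_right _ _) hg, e1]) hΨ hk' g1 g2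
    have e1 := f1 1
    rw [one_smul] at e1
    simp only [add_mul, Finset.sum_add_distrib, dl_sum_VConn, bd, e1, f1] at this
    linear_combination this - two_VConn (ch_VConn (SP g)) - two_VConn (ch_VConn (SP 1))

end Pool.Agent.MP_692752_al

end

section

/-! Malnormality of the edge groups and the case of an odd twisting element. -/

set_option autoImplicit false

namespace Pool.Agent.MP_692752_al

open FreeGroup

theorem odd4_VW2 {G : Type} [Group G] {x : G} (h4 : x ^ 4 = 1) {k : ℤ} (hk : Odd k)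
    (h : x ^ k = 1) : x ^ 2 = 1 := by
  obtain ⟨t, rfl⟩ := hk
  have h4' : x ^ (4 : ℤ) = 1 := by exact_mod_cast h4
  have h1 : x ^ ((2 * t + 1) * (2 * t + 1)) = 1 := by rw [zpow_mul, h, one_zpow]
  have h2 : (2 * t + 1) * (2 * t + 1) = 4 * (t * t + t) + 1 := by ring
  rw [h2, zpow_add, zpow_mul, h4', one_zpow, one_mul, zpow_one] at h1
  rw [h1, one_pow]

theorem hmf_ok (hM : Mal_st) : HMF_st := by
  intro ι _ d m
  obtain ⟨mg, hg⟩ := hM ι d.ig m
  obtain ⟨mn, hn⟩ := hM ι d.inn m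
  have hν : d.ν.symm d.n = of d.inn := by rw [← d.ν_n, MulEquiv.symm_apply_apply]
  refine ⟨max (max m 6) (max mg mn), by omega, by omega, ?_, ?_, ?_, ?_⟩
  · intro a k j hk h
    have h1 := (h.anti (m := mn) (by omega)).aut d.ν.symm
    simp only [_root_.map_mul, map_zpow, hν] at h1
    obtain ⟨l, hl⟩ := hn _ k j hk h1
    have h2 := hl.aut d.ν
    rw [MulEquiv.apply_symm_apply, map_zpow, d.ν_n] at h2
    exact ⟨l, h2⟩
  · intro a k j hk h
    exact hg a k j hk (h.anti (by omega))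
  · intro a k j hk h
    have h1 := h.perm (Ω := Fin 6) (by simp) d.π0
    simp only [_root_.map_mul, map_zpow, d.π0_g, one_zpow, mul_one, mul_eq_right] at h1
    exact d.π0_2 (odd4_VW2 d.π0_4 hk h1)
  · intro a k j hk h
    have h1 := h.perm (Ω := Fin 6) (by simp) d.π0
    simp only [_root_.map_mul, map_zpow, d.π0_g, one_zpow, one_mul, left_eq_mul] at h1
    have h2 := Eqv.modEq (N := 2) (by norm_num) (by omega) d.η h
    simp only [_root_.map_mul, map_zpow, d.η_g, d.η_n, toAdd_mul, toAdd_zpow, toAdd_ofAdd,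
      Int.ModEq, smul_eq_mul] at h2
    have hj : Odd j := by
      obtain ⟨t, rfl⟩ := hk
      rw [Int.odd_iff]
      push_cast at h2
      omega
    exact d.π0_2 (odd4_VW2 d.π0_4 hj h1)

/-- a fixed edge gives a conjugate of a power of the edge element -/
theorem edge_VW2 {G : Type} [Group G] {m m1 : ℕ} (h2 : 2 ≤ m1) (η : G →* Multiplicative ℤ)
    {e h q : G} {r : ℕ} {k : ℤ} (hh : Odd (η h).toAdd) (hr : Odd r)
    (F : ∀ a (k j : ℤ), Odd k → Eqv m1 (e ^ k * a) (a * e ^ j) → ∃ l : ℤ, Eqv m a (e ^ l))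
    (hE : Eqv m1 ((h ^ r)⁻¹ * q) (q * e ^ k)) : ∃ l : ℤ, Eqv m h (q * e ^ l * q⁻¹) := by
  have h1 := Eqv.modEq (N := 2) (by norm_num) h2 η hE
  simp only [_root_.map_mul, map_zpow, _root_.map_inv, _root_.map_pow, toAdd_mul, toAdd_zpow,
    toAdd_inv, toAdd_pow, nsmul_eq_mul, zsmul_eq_mul, Int.cast_id] at h1
  have hk : Odd k := by
    have h3 : Odd ((r : ℤ) * (η h).toAdd) := (hr.natCast).mul hh
    have h4 : Odd (k * (η e).toAdd) := by
      rw [Int.odd_iff] at h3 ⊢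
      unfold Int.ModEq at h1
      push_cast at h1
      omega
    exact (Int.odd_mul.1 h4).1
  have h5 : Eqv m1 (e ^ k * (q⁻¹ * h * q)) ((q⁻¹ * h * q) * e ^ k) := by
    intro f
    have h6 := hE f
    simp only [_root_.map_mul, _root_.map_inv, _root_.map_pow] at h6 ⊢
    have h7 : f (e ^ k) = (f q)⁻¹ * (f h ^ r)⁻¹ * f q := by rw [mul_assoc, h6]; group
    rw [h7]
    group
  obtain ⟨l, hl⟩ := F _ k k hk h5
  refine ⟨l, fun f => ?_⟩
  have h8 := hl f
  simp only [_root_.map_mul, _root_.map_inv] at h8 ⊢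
  rw [← h8]
  group

theorem w2_ok (hC : Conn_st) (hF : HMF_st) : W2_st := by
  intro ι _ d m
  obtain ⟨m1, hm1, h2, F1, F2, -, -⟩ := hF ι d m
  obtain ⟨m', hc⟩ := hC ι d m1
  refine ⟨m', fun h hh hodd g p hp hE => ?_⟩
  obtain ⟨r, hr, hS⟩ := hc h hh
  by_cases hno : ∃ q ∈ d.P, ∃ k : ℤ,
    Eqv m h (q * d.n ^ k * q⁻¹) ∨ Eqv m h (q * d.γ ^ k * q⁻¹)
  · exact Or.inr hno
  have key : ∀ {u q : FreeGroup ι} (e : FreeGroup ι) (k : ℤ), q ∈ d.P → Eqv m1 u q →
      Eqv m1 ((d.ψ h)^[r] u) (u * e ^ k) → Eqv m1 ((h ^ r)⁻¹ * q) (q * e ^ k) := by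
    intro u q e k hq hu hf
    rw [← d.ψ_P hh hq r]
    exact ((d.ψ_eqv h hu r).symm.trans hf).trans (hu.mul (Eqv.refl _))
  have hS' := (hS (fun u => ∃ q ∈ d.P, Eqv m1 u q) (fun _ => False) ?_ ?_ ?_ ?_ ?_ ?_).1 g p hp hE
    ⟨1, d.P.one_mem, Eqv.refl _⟩
  · obtain ⟨q, hq, hg⟩ := hS'
    exact Or.inl ⟨q, hq, hg.anti hm1⟩
  · rintro u v p' hp' huv ⟨q, hq, hu⟩
    exact ⟨q * p', d.P.mul_mem hq hp', huv.symm.trans (hu.mul (Eqv.refl _))⟩
  · exact fun _ _ _ _ _ hf => hf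
  · rintro u ⟨q, hq, hu⟩
    refine ⟨(h ^ r)⁻¹ * q, d.P.mul_mem (d.P.inv_mem (d.P.pow_mem hh r)) hq, ?_⟩
    rw [← d.ψ_P hh hq r]
    exact d.ψ_eqv h hu r
  · exact fun _ hf => hf
  · intro u k hf
    refine ⟨?_, False.elim⟩
    rintro ⟨q, hq, hu⟩
    obtain ⟨l, hl⟩ := edge_VW2 h2 d.η hodd hr F1 (key _ k hq hu hf)
    exact hno ⟨q, hq, l, Or.inl hl⟩
  · intro u k hf
    refine ⟨?_, False.elim⟩
    rintro ⟨q, hq, hu⟩
    obtain ⟨l, hl⟩ := edge_VW2 h2 d.η hodd hr F2 (key _ k hq hu hf)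
    exact hno ⟨q, hq, l, Or.inr hl⟩

end Pool.Agent.MP_692752_al

end

section

/-! The two curves are kept up to conjugation in the pair of pants. -/

set_option autoImplicit false

namespace Pool.Agent.MP_692752_al

open FreeGroup

theorem eqv_zpow_VHM2 {G : Type} [Group G] {m : ℕ} (a : G) {k j : ℤ}
    (h : k ≡ j [ZMOD (m.factorial : ℕ)]) : Eqv m (a ^ k) (a ^ j) := by
  rw [eqv_iff, ← zpow_neg, ← zpow_add, neg_add_eq_sub]
  exact zpow_mem_Lv a h.dvd

theorem key_VHM2 (h2 : W2_st) (ι : Type) [Finite ι] (d : HM ι) (m : ℕ) (hm : 2 ≤ m) :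
    ∃ m', ∀ h ∈ d.P, (d.η h).toAdd ≡ -1 [ZMOD (m.factorial : ℕ)] → ∀ g, d.η2 g ≠ 1 →
      ∀ p ∈ d.P, Eqv m' (d.D g) (h * g * p) →
      ∃ q ∈ d.P, Eqv m h (q * d.n * q⁻¹) ∨ Eqv m h (q * d.γ⁻¹ * q⁻¹) := by
  obtain ⟨m', hm'⟩ := h2 ι d (max m m.factorial)
  refine ⟨m', fun h hh hη g hg p hp hD => ?_⟩
  have hev : (2 : ℤ) ∣ (m.factorial : ℕ) := by
    exact_mod_cast Nat.dvd_factorial two_pos hm
  have hodd : Odd (d.η h).toAdd := by
    obtain ⟨j, hj⟩ := hev.trans hη.dvd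
    exact ⟨-j - 1, by linarith⟩
  rcases hm' h hh hodd g p hp hD with ⟨q, hq, h1⟩ | ⟨q, hq, k, h1 | h1⟩
  · refine absurd ?_ hg
    rw [h1.grp (by simpa using Or.inl hm) d.η2, d.η2_P hq]
  · have h3 := h1.modEq m.factorial_ne_zero (le_max_right _ _) d.η
    simp only [_root_.map_mul, _root_.map_inv, map_zpow, d.η_n, mul_inv_cancel_comm,
      toAdd_zpow, toAdd_ofAdd, smul_neg, zsmul_eq_mul, mul_one, Int.cast_id] at h3
    have h4 : k ≡ 1 [ZMOD (m.factorial : ℕ)] := by simpa using (h3.symm.trans hη).neg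
    refine ⟨q, hq, Or.inl ((h1.anti (le_max_left _ _)).trans ?_)⟩
    simpa using ((Eqv.refl q).mul (eqv_zpow_VHM2 d.n h4)).mul (Eqv.refl q⁻¹)
  · have h3 := h1.modEq m.factorial_ne_zero (le_max_right _ _) d.η
    simp only [_root_.map_mul, _root_.map_inv, map_zpow, d.η_g, mul_inv_cancel_comm,
      toAdd_zpow, toAdd_ofAdd, zsmul_eq_mul, mul_one, Int.cast_id] at h3
    refine ⟨q, hq, Or.inr ((h1.anti (le_max_left _ _)).trans ?_)⟩
    simpa using ((Eqv.refl q).mul (eqv_zpow_VHM2 d.γ (h3.symm.trans hη))).mul (Eqv.refl q⁻¹)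

theorem comm_VHM2 {ι : Type} (d : HM ι) {q : FreeGroup ι} (hq : q ∈ d.P) :
    Commute (d.π0 q) (d.π0 d.n) := by
  induction hq using Subgroup.closure_induction with
  | mem x hx =>
    rcases hx with rfl | rfl
    · exact Commute.refl _
    · rw [d.π0_g]
      exact Commute.one_left _
  | one => simp
  | mul x y _ _ hx hy => rw [_root_.map_mul]; exact hx.mul_left hy
  | inv x _ hx => rw [_root_.map_inv]; exact hx.inv_left

theorem hm2_ok (h2 : W2_st) : HM2_st := by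
  intro ι _ d m
  obtain ⟨m3, hm3, h6⟩ : ∃ m3, m ≤ m3 ∧ 6 ≤ m3 := ⟨max m 6, le_max_left _ _, le_max_right _ _⟩
  obtain ⟨mW, hW⟩ := key_VHM2 h2 ι d m3 (by omega)
  obtain ⟨m', a1, a2, a3⟩ : ∃ m', m3 ≤ m' ∧ m3.factorial ≤ m' ∧ mW ≤ m' :=
    ⟨max m3 (max m3.factorial mW), by simp, by simp, by simp⟩
  refine ⟨m', fun φ hc hL hD ⟨q1, hq1, e1⟩ ⟨q0, hq0, e0⟩ => ?_⟩
  have hη : ∀ z, (d.η (φ z)).toAdd ≡ (d.η z).toAdd [ZMOD (m3.factorial : ℕ)] := fun z => by
    have h := Lv0_dvd m3.factorial_ne_zero a2 d.η d.η_c (hL z)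
    rw [_root_.map_mul, _root_.map_inv, toAdd_mul, toAdd_inv, neg_add_eq_sub] at h
    exact (Int.modEq_iff_dvd.2 h).symm
  have hη2 : ∀ z, d.η2 (φ z) = d.η2 z := fun z => by
    have h := Lv0_grp (by simp; omega) d.η2 (d.η2_P d.c_P) (hL z)
    rw [_root_.map_mul, _root_.map_inv, inv_mul_eq_one] at h
    exact h.symm
  have k0 := hW q0 hq0 (by
      refine (e0.symm.modEq m3.factorial_ne_zero a2 d.η).trans ((hη d.n).trans ?_)
      rw [d.η_n, toAdd_ofAdd]) (φ (of d.ia)) (by rw [hη2]; exact d.η2_a) q0⁻¹ (d.P.inv_mem hq0)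
    (Eqv.anti a3 ((hD _).symm.trans (by
      rw [d.D_a _ d.ag d.as', _root_.map_mul, _root_.map_mul, _root_.map_inv]
      exact (e0.mul (Eqv.refl _)).mul e0.inv)))
  have k1 := hW q1⁻¹ (d.P.inv_mem hq1) (by
      rw [_root_.map_inv, toAdd_inv]
      refine ((e1.symm.modEq m3.factorial_ne_zero a2 d.η).trans ((hη d.γ).trans ?_)).neg
      rw [d.η_g, toAdd_ofAdd]) (φ (d.s⁻¹ * of d.ia * d.s)) (by
      rw [hη2, _root_.map_mul, _root_.map_mul, _root_.map_inv, inv_mul_cancel_comm]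
      exact d.η2_a) q1 hq1
    (Eqv.anti a3 ((hD _).symm.trans (by
      have e : d.D (d.s⁻¹ * of d.ia * d.s) = d.γ⁻¹ * (d.s⁻¹ * of d.ia * d.s) * d.γ := by
        simp only [_root_.map_mul, _root_.map_inv, d.D_s, d.D_a _ d.ag d.as']
        group
      rw [e, _root_.map_mul, _root_.map_mul, _root_.map_inv]
      exact (e1.inv.mul (Eqv.refl _)).mul e1)))
  obtain ⟨r0, hr0, k0⟩ := k0
  obtain ⟨r1, hr1, k1⟩ := k1
  have f0 := e0.anti a1
  have f1 := e1.anti a1
  have hπ : ∀ {a b : FreeGroup ι}, Eqv m3 a b → d.π0 a = d.π0 b := fun h =>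
    h.perm (by simpa using h6) d.π0
  have hn : ∀ q ∈ d.P, d.π0 (q * d.n * q⁻¹) = d.π0 d.n := fun q hq => by
    rw [_root_.map_mul, _root_.map_mul, _root_.map_inv, (comm_VHM2 d hq).eq,
      mul_inv_cancel_right]
  have hγ : ∀ q, d.π0 (q * d.γ⁻¹ * q⁻¹) = 1 := fun q => by
    simp [d.π0_g]
  have hv : d.π0 q1 * d.π0 q0 = d.π0 d.n := by
    rw [← hπ f0, ← hπ f1, ← _root_.map_mul, ← _root_.map_mul]
    change d.π0 (φ d.c) = _
    rw [hc, HM.c, _root_.map_mul, d.π0_g, one_mul]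
  have hv1 : d.π0 d.n ≠ 1 := fun h => d.π0_2 (by rw [h, one_pow])
  have g1 : ∀ {a : FreeGroup ι}, Eqv m3 q1⁻¹ a → d.π0 q1 = (d.π0 a)⁻¹ := fun h => by
    rw [← hπ h, _root_.map_inv, inv_inv]
  rcases k0 with k0 | k0 <;> rcases k1 with k1 | k1
  · rw [g1 k1, hπ k0, hn _ hr0, hn _ hr1, inv_mul_cancel] at hv
    exact absurd hv.symm hv1
  · refine ⟨⟨r1, hr1, Eqv.anti hm3 (f1.trans ?_)⟩, r0, hr0, Eqv.anti hm3 (f0.trans k0)⟩
    simpa [mul_assoc] using k1.inv
  · rw [g1 k1, hπ k0, hγ, hn _ hr1, mul_one] at hv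
    exact absurd (by rw [pow_two]; nth_rw 1 [← hv]; rw [inv_mul_cancel]) d.π0_2
  · rw [g1 k1, hπ k0, hγ, hγ, inv_one, mul_one] at hv
    exact absurd hv.symm hv1

end Pool.Agent.MP_692752_al

end

section

/-! Centralisers of subgroups of finite index of the orbifold group. -/

set_option autoImplicit false

namespace Pool.Agent.MP_692752_al

open FreeGroup

theorem act_VCFO {V Γ : Type} [Group V] [CommGroup Γ] (π : Orb →* V) (k : V → Γ)
    (hk : ∀ v, k (π yo * v) = k v) :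
    ∃ (ρ : Orb →* Equiv.Perm (V × Γ)) (κ : Orb → V → Γ),
      (∀ z v c, ρ z (v, c) = (π z * v, κ z v * c)) ∧ ∀ v, κ xo v = k v := by
  let σ : Fin 2 → Equiv.Perm V := fun i => MulAction.toPerm (π (pr (of i)))
  let l : Fin 2 → V → Γ := ![k, fun _ => 1]
  have h0 : FreeGroup.lift σ = (MulAction.toPermHom V V).comp (π.comp pr) := by
    ext i v
    simp [σ]
  have h1 : ∀ a v, FreeGroup.lift σ a v = π (pr a) * v := fun a v => by simp [h0]
  have h2 : ∀ v, coc σ l cc v = 1 := fun v => by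
    have e0 : l 0 = k := rfl
    have e1 : l 1 = fun _ => 1 := rfl
    simp only [cc, coc_mul, coc_inv, coc_of, h1, e0, e1]
    rw [← yo, hk]
    simp
  have h3 : cocP σ l cc * cocP σ l cc = 1 := by
    ext ⟨v, c⟩ : 1
    rw [Equiv.Perm.mul_apply, cocP_apply, cocP_apply, h2, h2, h1, h1, ← mul_assoc,
      ← _root_.map_mul, ← co, co_co]
    simp
  refine ⟨oLift _ h3, fun z v => (oLift _ h3 z (v, 1)).2, fun z v c => ?_, fun v => ?_⟩
  · obtain ⟨a, rfl⟩ := pr_sur z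
    simp only [oLift_pr, cocP_apply, h1, mul_one]
  · simp only [xo, oLift_pr, cocP_apply, coc_of, mul_one, l]
    rfl

theorem cent_VCFO {V : Type} [Group V] [Finite V] (π : Orb →* V) {N : ℕ} (hN : N ≠ 0)
    (h1 : π xo ^ N = 1) (h2 : ∀ i, i < N → π xo ^ i ∈ Subgroup.zpowers (π yo) → i = 0) :
    ∃ m', ∀ w, Eqv m' (w * xo ^ N) (xo ^ N * w) → ∃ (i : ℕ) (j : ℤ), π xo ^ i * π w = π yo ^ j := by
  classical
  let k : V → Multiplicative (ZMod 2) := fun v =>
    if v ∈ Subgroup.zpowers (π yo) then Multiplicative.ofAdd 1 else 1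
  obtain ⟨ρ, κ, a1, a2⟩ := act_VCFO π k fun v => by
    simp only [k, Subgroup.mul_mem_cancel_left _ (Subgroup.mem_zpowers (π yo))]
  have a3 : ∀ (n : ℕ) v c, ρ (xo ^ n) (v, c) =
      (π xo ^ n * v, (∏ i ∈ Finset.range n, k (π xo ^ i * v)) * c) := fun n v c => by
    induction n with
    | zero => simp
    | succ n ih =>
      rw [pow_succ', _root_.map_mul, Equiv.Perm.mul_apply, ih, a1, a2, Finset.prod_range_succ,
        pow_succ', mul_assoc, ← mul_assoc (k _), mul_comm (k _)]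
  refine ⟨Nat.card (V × Multiplicative (ZMod 2)), fun w hw => ?_⟩
  have b := congrArg Prod.snd (DFunLike.congr_fun (hw.perm le_rfl ρ) (1, 1))
  rw [_root_.map_mul, _root_.map_mul, Equiv.Perm.mul_apply, Equiv.Perm.mul_apply, a3, a1 w, a1 w,
    a3, h1, Finset.prod_eq_single 0 (fun i hi h0 => if_neg fun e =>
      h0 (h2 i (Finset.mem_range.1 hi) (by simpa using e)))
      fun e => absurd (Finset.mem_range.2 (Nat.pos_of_ne_zero hN)) e] at b
  by_contra e
  rw [Finset.prod_eq_one fun i _ => if_neg fun ⟨j, hj⟩ => e ⟨i, j, by simpa using hj.symm⟩] at b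
  simp at b

theorem lev_VCFO (m : ℕ) : ∃ m', ∀ w, Eqv m' (w * xo ^ m.factorial) (xo ^ m.factorial * w) →
    Eqv m w (xo ^ (ex w).toAdd * yo ^ (ey w).toAdd) := by
  have hN := m.factorial_ne_zero
  have : NeZero m.factorial := ⟨hN⟩
  have := Lv_fi orb_fg m
  let r : Multiplicative ℤ →* Multiplicative (ZMod m.factorial) :=
    (Int.castAddHom (ZMod m.factorial)).toMultiplicative
  obtain ⟨m', hm⟩ := cent_VCFO ((QuotientGroup.mk' (Lv Orb m)).prod ((r.comp ex).prod (r.comp ey)))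
    hN (by
      rw [← _root_.map_pow]
      refine Prod.ext ((QuotientGroup.eq_one_iff _).2 (pow_mem_Lv xo m)) (Prod.ext ?_ ?_)
      · refine Multiplicative.toAdd.injective ?_
        simp [r, ex_x]
      · simp [ey_x]) fun i hi ⟨j, hj⟩ => by
      have := congrArg (fun z => z.2.1.toAdd) hj
      simp only [Prod.pow_snd, Prod.pow_fst, MonoidHom.prod_apply, MonoidHom.comp_apply, ex_x, ex_y,
        _root_.map_one, one_zpow, toAdd_one, toAdd_pow, r] at this
      exact Nat.eq_zero_of_dvd_of_lt ((ZMod.natCast_eq_zero_iff _ _).1 (by simpa using this.symm)) hi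
  refine ⟨m', fun w hw => ?_⟩
  obtain ⟨i, j, e⟩ := hm w hw
  have e1 : Eqv m (xo ^ i * w) (yo ^ j) :=
    eqv_iff.2 (QuotientGroup.eq.1 (by simpa using congrArg Prod.fst e))
  have e2 : (m.factorial : ℤ) ∣ i + (ex w).toAdd := (ZMod.intCast_zmod_eq_zero_iff_dvd _ _).1 (by
    simpa [r, ex_x, ex_y] using congrArg (fun z => z.2.1.toAdd) e)
  have e3 : (m.factorial : ℤ) ∣ (ey w).toAdd - j := (ZMod.intCast_zmod_eq_zero_iff_dvd _ _).1 (by
    simpa [r, ey_x, ey_y, sub_eq_zero] using congrArg (fun z => z.2.2.toAdd) e)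
  intro f
  have f1 := e1 f
  have f2 := mem_Lv.1 (zpow_mem_Lv xo e2) f
  have f3 := mem_Lv.1 (zpow_mem_Lv yo e3) f
  simp only [_root_.map_mul, _root_.map_pow, _root_.map_inv, map_zpow, zpow_add, zpow_sub,
    zpow_natCast, mul_inv_eq_one] at f1 f2 f3 ⊢
  rw [f3, ← f1, ← mul_assoc, mul_eq_one_comm.1 f2, one_mul]

theorem cfo_ok (h : CO_st) : CFG Orb := by
  intro U hU m
  obtain ⟨m1, h1⟩ := h (max m m.factorial)
  obtain ⟨m3, h3⟩ := Lv_le U hU
  obtain ⟨m', h4⟩ := lev_VCFO (max (max m1 m) m3)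
  refine ⟨m', fun w hw => ?_⟩
  have k : ∀ g, Eqv (max (max m1 m) m3) (g⁻¹ * w * g) (xo ^ (ex w).toAdd * yo ^ (ey w).toAdd) :=
    fun g => by
      have a := hw _ (h3 (Lv_anti (le_max_right (max m1 m) m3)
        (Subgroup.Normal.conj_mem inferInstance _ (pow_mem_Lv xo _) g)))
      have b := h4 (g⁻¹ * w * g) fun f => by
        have c := a f
        simp only [_root_.map_mul, _root_.map_inv] at c ⊢
        generalize f (xo ^ _) = u at c ⊢
        calc (f g)⁻¹ * f w * f g * u = (f g)⁻¹ * (f w * (f g * u * (f g)⁻¹)) * f g := by group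
          _ = _ := by rw [c]; group
      simpa using b
  have k1 := k 1
  rw [inv_one, one_mul, mul_one] at k1
  have k2 : Eqv m1 (w * co) (co * w) := by
    have := ((Eqv.refl co).mul ((k co).trans k1.symm)).anti
      ((le_max_left m1 m).trans (le_max_left _ m3))
    rwa [← mul_assoc, mul_inv_cancel_left] at this
  have k3 : ∀ η : Orb →* Multiplicative ℤ, η co = 1 → (m.factorial : ℤ) ∣ (η w).toAdd :=
    fun η hη => by
      rcases h1 w k2 with e | e <;>
        simpa [hη, Int.modEq_zero_iff_dvd] using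
          e.modEq m.factorial_ne_zero (le_max_right _ _) η
  exact eqv_one.1 ((k1.anti ((le_max_right m1 m).trans (le_max_left _ m3))).trans (eqv_one.2
    (Subgroup.mul_mem _ (zpow_mem_Lv xo (k3 ex ex_c)) (zpow_mem_Lv yo (k3 ey ey_c)))))

end Pool.Agent.MP_692752_al

end

section

set_option autoImplicit false

namespace Pool.Agent.MP_692752_al

open FreeGroup

theorem fs_fs_VFix (u : F4) : fs (fs u) = u := by
  have : fs.comp fs = MonoidHom.id _ := by
    ext i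
    fin_cases i <;> simp [fs]
  exact DFunLike.congr_fun this u

theorem swap_VFix {Q : Type} [Group Q] (π : F4 →* Q) (fb : Q →* Q) (h1 : ∀ q, fb (fb q) = q)
    (h2 : ∀ u, fb (π u) = π (fs u)) :
    ∃ ρ : F4 →* Equiv.Perm (Q × ZMod 2), ∀ u, ρ (fs u) = ρ u → π u = 1 := by
  classical
  have h3 : ∀ q, fb q = 1 ↔ q = 1 := fun q =>
    ⟨fun h => by rw [← h1 q, h, _root_.map_one], fun h => by rw [h, _root_.map_one]⟩
  have hinv : Function.Involutive
      fun x : Q × ZMod 2 => (fb x.1, x.2 + if x.1 = 1 then 1 else 0) := by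
    rintro ⟨q, e⟩
    simp only [h1, h3, add_assoc, CharTwo.add_self_eq_zero, add_zero]
  obtain ⟨ε, hε, hεε⟩ : ∃ ε : Equiv.Perm (Q × ZMod 2),
      (∀ q e, ε (q, e) = (fb q, e + if q = 1 then 1 else 0)) ∧ ε * ε = 1 :=
    ⟨hinv.toPerm, fun _ _ => rfl, Equiv.ext hinv⟩
  obtain ⟨L, hL⟩ : ∃ L : Q → Equiv.Perm (Q × ZMod 2), ∀ a q e, L a (q, e) = (a * q, e) :=
    ⟨fun a => Equiv.prodCongr (Equiv.mulLeft a) (Equiv.refl _), fun _ _ _ => rfl⟩
  let ρ : F4 →* Equiv.Perm (Q × ZMod 2) := FreeGroup.lift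
    ![L (π (of 0)), L (π (of 1)), ε * L (π (of 0)) * ε, ε * L (π (of 1)) * ε]
  have hεi : ε⁻¹ = ε := inv_eq_of_mul_eq_one_right hεε
  have k1 : ∀ u, ρ (fs u) = ε * ρ u * ε := by
    have hx : ∀ x, ε * (ε * x * ε) * ε = x := fun x => by
      rw [← mul_assoc, ← mul_assoc, hεε, one_mul, mul_assoc, hεε, mul_one]
    have : ρ.comp fs = (MulAut.conj ε).toMonoidHom.comp ρ := by
      refine FreeGroup.ext_hom _ _ fun i => ?_
      fin_cases i <;> simp [ρ, fs, hεi, hx]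
    intro u
    have h := DFunLike.congr_fun this u
    simpa [hεi] using h
  have k2 : ∀ u, ∃ c : Q → ZMod 2, ∀ q e, ρ u (q, e) = (π u * q, e + c q) := by
    intro u
    induction u using FreeGroup.induction_on with
    | C1 => exact ⟨0, by simp⟩
    | of i =>
      have a0 : fb (π (of 0)) = π (of 2) := by rw [h2]; simp [fs]
      have a1 : fb (π (of 1)) = π (of 3) := by rw [h2]; simp [fs]
      fin_cases i
      · exact ⟨0, by simp [ρ, hL]⟩
      · exact ⟨0, by simp [ρ, hL]⟩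
      · exact ⟨fun q => (if q = 1 then 1 else 0) + if π (of 0) * fb q = 1 then 1 else 0,
          by simp [ρ, hL, hε, h1, a0, add_assoc]⟩
      · exact ⟨fun q => (if q = 1 then 1 else 0) + if π (of 1) * fb q = 1 then 1 else 0,
          by simp [ρ, hL, hε, h1, a1, add_assoc]⟩
    | inv_of i hi =>
      obtain ⟨c, hc⟩ := hi
      refine ⟨fun q => -c ((π (of i))⁻¹ * q), fun q e => ?_⟩
      rw [_root_.map_inv, _root_.map_inv, Equiv.Perm.inv_eq_iff_eq, hc, neg_add_cancel_right,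
        mul_inv_cancel_left]
    | mul a b ha hb =>
      obtain ⟨c, hc⟩ := ha
      obtain ⟨d, hd⟩ := hb
      refine ⟨fun q => d q + c (π b * q), fun q e => ?_⟩
      rw [_root_.map_mul, _root_.map_mul, Equiv.Perm.mul_apply, hd, hc, mul_assoc, add_assoc]
  refine ⟨ρ, fun u hu => ?_⟩
  obtain ⟨c, hc⟩ := k2 u
  have h := DFunLike.congr_fun (hu.symm.trans (k1 u)) (1, 0)
  rw [Equiv.Perm.mul_apply, Equiv.Perm.mul_apply, hε, hc, hc, hε] at h
  by_contra hne
  have h' := congrArg Prod.snd h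
  simp [hne] at h'

theorem fixSwap_ok : FixSwap_st := by
  intro m
  have := Lv_fi (free_fg (Fin 4)) m
  obtain ⟨ρ, hρ⟩ := swap_VFix (QuotientGroup.mk' (Lv F4 m))
    (QuotientGroup.map _ _ fs fun a ha => Lv_map fs ha)
    (fun q => by
      obtain ⟨u, rfl⟩ := QuotientGroup.mk_surjective q
      rw [QuotientGroup.map_mk, QuotientGroup.map_mk, fs_fs_VFix])
    fun u => rfl
  exact ⟨Nat.card ((F4 ⧸ Lv F4 m) × ZMod 2), fun u hu =>
    (QuotientGroup.eq_one_iff u).1 (hρ u (hu.perm le_rfl ρ))⟩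

theorem stepO_ok (h : CO_st) : StepO_st := by
  intro m
  obtain ⟨m', hm⟩ := h m
  refine ⟨max m m', fun γ w p hz z => ?_⟩
  have h1 : Eqv m' (γ * co) (co * γ) := by
    have := ((hz co).anti (le_max_right _ _)).mul (Eqv.refl γ)
    rwa [jjO_co, inv_mul_cancel_right] at this
  obtain ⟨κ, hκ, hγ⟩ : ∃ κ : Orb, jjO p κ = κ ∧ Eqv m γ κ := by
    rcases hm γ h1 with e | e
    · exact ⟨1, _root_.map_one _, e⟩
    · exact ⟨co, jjO_co p, e⟩
  have h2 : ∀ y, Eqv m (jjO w y) (κ⁻¹ * y * κ) := fun y => by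
    have := (hγ.inv.mul ((hz y).anti (le_max_left _ _))).mul hγ
    rwa [show γ⁻¹ * (γ * jjO w y * γ⁻¹) * γ = jjO w y by group] at this
  obtain ⟨y, rfl⟩ : ∃ y, z = jjO p (jjO w y) := ⟨(jjO w)⁻¹ ((jjO p)⁻¹ z), by simp⟩
  have h3 : jjO (cm w p) (jjO p (jjO w y)) = jjO w (jjO p y) := by simp [cm]
  rw [h3]
  refine (h2 _).trans (Eqv.symm (((h2 y).aut (jjO p)).trans (Eqv.of_eq ?_)))
  rw [_root_.map_mul, _root_.map_mul, _root_.map_inv, hκ]

theorem comm_VFix {G : Type} [Group G] {m : ℕ} {a b : G} (h : cm a b ∈ Lv G m) :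
    Eqv m (a * b) (b * a) := by
  have := (eqv_one.2 h).mul (Eqv.refl (b * a))
  rwa [one_mul, show cm a b * (b * a) = a * b by rw [cm]; group] at this

theorem d1_VFix (hZ : Centk_st) (m : ℕ) : ∃ m', ∀ a b : F2,
    cm (cm a b) (of 1 ^ 2) ∈ Lv F2 m' → cm a b ∈ Lv F2 m := by
  obtain ⟨m', hm⟩ := hZ (Fin 2) 1 2 two_ne_zero (max m m.factorial)
  refine ⟨m', fun a b h => ?_⟩
  obtain ⟨j, hj⟩ := hm _ (comm_VFix h)
  have h1 := hj.modEq m.factorial_ne_zero (le_max_right _ _)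
    (FreeGroup.lift ![1, Multiplicative.ofAdd 1])
  rw [map_cm, cm, mul_inv_cancel_comm, mul_inv_cancel, map_zpow] at h1
  have h2 : (m.factorial : ℤ) ∣ j := by simpa using h1.dvd
  exact eqv_one.1 ((hj.anti (le_max_left _ _)).trans (eqv_one.2 (zpow_mem_Lv _ h2)))

theorem stepD_ok (hZ : Centk_st) : StepD_st := by
  intro m
  obtain ⟨m1, h1⟩ := hZ (Fin 2) 1 2 two_ne_zero m
  obtain ⟨m2, h2⟩ := d1_VFix hZ m1
  obtain ⟨m3, h3⟩ := d1_VFix hZ m2
  refine ⟨m3, fun w h => ?_⟩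
  obtain ⟨j, hj⟩ := h1 w (comm_VFix (h2 _ _ (h3 _ _ h)))
  refine (hj.mul (Eqv.refl _)).trans ((Eqv.of_eq ?_).trans ((Eqv.refl _).mul hj.symm))
  group

end Pool.Agent.MP_692752_al

end

section

/-! Elliptic elements for an action on a tree. -/

set_option autoImplicit false

namespace Pool.Agent.MP_692752_al

open FreeGroup

section
variable {G : Type} [Group G] (l : LF G)

/-- the distance -/
def D_VS1 (a b : G) : ℕ := l.len (a⁻¹ * b)

theorem sy_VS1 (a b : G) : D_VS1 l a b = D_VS1 l b a := by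
  rw [D_VS1, D_VS1, ← l.inv, mul_inv_rev, inv_inv]

theorem tr_VS1 (g a b : G) : D_VS1 l (g * a) (g * b) = D_VS1 l a b := by
  rw [D_VS1, D_VS1, mul_inv_rev, mul_assoc, inv_mul_cancel_left]

theorem one_VS1 (a : G) : D_VS1 l 1 a = l.len a := by rw [D_VS1, inv_one, one_mul]

theorem four_VS1 (a b c d : G) : D_VS1 l a b + D_VS1 l c d ≤
    max (D_VS1 l a c + D_VS1 l b d) (D_VS1 l a d + D_VS1 l b c) := l.four a b c d

theorem tri_VS1 (a b c : G) : D_VS1 l a b ≤ D_VS1 l a c + D_VS1 l b c := by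
  have := four_VS1 l a b c c
  omega

theorem par_VS1 (a b c : G) : Even (D_VS1 l a c + D_VS1 l a b + D_VS1 l b c) := by
  have := l.par (a⁻¹ * b) (b⁻¹ * c)
  rwa [mul_assoc, mul_inv_cancel_left] at this

end

theorem ell_ok : Ell_st := by
  intro G _ l a h
  obtain ⟨p, h1, h2⟩ := l.pre a (l.len a / 2) (Nat.div_le_self _ _)
  refine ⟨p, by_contra fun h0 => ?_⟩
  have h3 := l.noinv (p⁻¹ * a * p)
  rw [show p⁻¹ * a * p * (p⁻¹ * a * p) = p⁻¹ * (a * (a * p)) by group] at h3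
  rw [mul_assoc] at h0 h3
  change D_VS1 l p (a * p) ≠ 0 at h0
  change D_VS1 l p (a * p) = 1 → D_VS1 l p (a * (a * p)) ≠ 0 at h3
  change D_VS1 l p a + _ = _ at h2
  obtain ⟨m, hm⟩ := l.par a a
  have e1 := one_VS1 l p
  have e2 := one_VS1 l a
  have e3 := one_VS1 l (a * a)
  have e4 := tr_VS1 l a 1 p
  have e5 := tr_VS1 l a p a
  have e6 := tr_VS1 l a 1 a
  have e7 := tr_VS1 l a 1 (a * p)
  have e8 := tr_VS1 l (a * a) 1 p
  rw [mul_one] at e4 e6 e7 e8
  rw [mul_assoc] at e8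
  have f1 := four_VS1 l (a * p) 1 a (a * a)
  have f2 := tri_VS1 l 1 a (a * p)
  have f3 := four_VS1 l p (a * p) 1 a
  obtain ⟨j, f4⟩ := par_VS1 l 1 p (a * p)
  have f5 := four_VS1 l p (a * a) a 1
  have f6 := four_VS1 l p (a * (a * p)) a (a * a)
  rw [sy_VS1 l (a * p) 1, sy_VS1 l (a * p) a] at f1 f3
  rw [sy_VS1 l p 1] at f3 f5
  rw [sy_VS1 l a 1, sy_VS1 l (a * a) 1, sy_VS1 l (a * a) a] at f5
  rw [sy_VS1 l (a * (a * p)) (a * a), sy_VS1 l (a * (a * p)) a] at f6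
  omega

theorem s1_ok (hE : Ell_st) : S1_st := by
  intro G _ l P p1 p2 p3 p4 p5 u v h
  by_contra hn
  have h0 : ∀ a b, P a b → l.len a ≠ 0 := fun a b e e' => hn ⟨a, b, e, e'⟩
  have p6 : ∀ a b, P a b → P a (a * b) := fun a b e => by
    simpa [mul_assoc] using p1 _ _ (p4 _ _ a (p3 _ _ (p1 _ _ e)))
  have hex : ∃ n, ∃ a b, P a b ∧ l.len a + l.len b = n := ⟨_, u, v, h, rfl⟩
  classical
  obtain ⟨a, b, hab, e⟩ := Nat.find_spec hex
  have hmin : ∀ a b, P a b → Nat.find hex ≤ l.len a + l.len b := fun a b e =>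
    Nat.find_min' hex ⟨a, b, e, rfl⟩
  generalize Nat.find hex = n at e hmin
  have step : ∀ w y z : G, (P y z ∧ l.len y + l.len z = n) ∧
      l.len w + l.len z < l.len (w * y) + l.len (y * z) ∧ 0 < l.len (w * y) →
      (P z y⁻¹ ∧ l.len z + l.len y⁻¹ = n) ∧
      l.len (w * y) + l.len y⁻¹ < l.len (w * y * z) + l.len (z * y⁻¹) ∧ 0 < l.len (w * y * z) := by
    rintro w y z ⟨⟨k1, k2⟩, k3, k4⟩
    have k5 := p1 _ _ (p2 _ _ k1)
    have e1 := hmin _ _ (p3 _ _ k1)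
    have e2 := hmin _ _ (p6 _ _ k5)
    have e3 : l.len z < l.len (z * z) := by
      by_contra e3
      obtain ⟨p, hp⟩ := hE G l z (not_lt.1 e3)
      exact h0 _ _ (p4 _ _ p⁻¹ k5) (by rwa [inv_inv])
    have e4 := l.four z z⁻¹ 1 y⁻¹
    have e5 := l.four 1 (w * y) w (w * y * z)
    rw [show w⁻¹ * (w * y * z) = y * z by group, show (w * y)⁻¹ * (w * y * z) = z by group,
      show (w * y)⁻¹ * w = y⁻¹ by group] at e5
    simp only [← mul_inv_rev, inv_one, one_mul, mul_one, inv_inv, l.inv] at e4 e5 ⊢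
    exact ⟨⟨k5, by omega⟩, by omega, by omega⟩
  have s0 := hmin _ _ (p6 _ _ hab)
  have s1 := h0 _ _ hab
  have := (step _ _ _ (step _ _ _ (step _ _ _ (step _ _ _ (step _ _ _ (step _ _ _ (step 1 a b
    ⟨⟨hab, e⟩, by rw [l.one, one_mul]; omega, by rw [one_mul]; omega⟩))))))).2.2
  have e1 := p5 a b hab
  rw [cm] at e1
  simp only [inv_inv, one_mul, ← mul_assoc] at this e1
  rw [e1, l.one] at this
  exact lt_irrefl _ this

end Pool.Agent.MP_692752_al

end

section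

/-! Automorphisms of the orbifold group come from the free group. -/

set_option autoImplicit false

namespace Pool.Agent.MP_692752_al

open FreeGroup

/-- the pairs that come from a basis of the free group -/
def P_VNO (β : MulAut Orb) (u v : Orb) : Prop :=
  (∃ φ : MulAut F2, u = β (pr (φ (of 0))) ∧ v = β (pr (φ (of 1)))) ∧ cm u v * cm u v = 1

section
variable {β : MulAut Orb} {u v : Orb}

theorem swap_VNO (h : P_VNO β u v) : P_VNO β v u := by
  obtain ⟨⟨φ, h0, h1⟩, h2⟩ := h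
  refine ⟨⟨φ * MonoidHom.toMulEquiv (FreeGroup.lift ![of 1, of 0]) (FreeGroup.lift ![of 1, of 0])
    (by ext i; fin_cases i <;> simp) (by ext i; fin_cases i <;> simp), by simpa using h1,
    by simpa using h0⟩, ?_⟩
  rw [show cm v u = (cm u v)⁻¹ by simp only [cm]; group, ← mul_inv_rev, h2, inv_one]

theorem inv_VNO (h : P_VNO β u v) : P_VNO β u⁻¹ v := by
  obtain ⟨⟨φ, h0, h1⟩, h2⟩ := h
  refine ⟨⟨φ * MonoidHom.toMulEquiv (FreeGroup.lift ![(of 0)⁻¹, of 1])
    (FreeGroup.lift ![(of 0)⁻¹, of 1])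
    (by ext i; fin_cases i <;> simp) (by ext i; fin_cases i <;> simp), by simpa using h0,
    by simpa using h1⟩, ?_⟩
  rw [show cm u⁻¹ v * cm u⁻¹ v = u⁻¹ * (cm u v * cm u v)⁻¹ * u by simp only [cm]; group, h2]
  group

theorem mul_VNO (h : P_VNO β u v) : P_VNO β (u * v) v := by
  obtain ⟨⟨φ, h0, h1⟩, h2⟩ := h
  refine ⟨⟨φ * MonoidHom.toMulEquiv (FreeGroup.lift ![of 0 * of 1, of 1])
    (FreeGroup.lift ![of 0 * (of 1)⁻¹, of 1])
    (by ext i; fin_cases i <;> simp) (by ext i; fin_cases i <;> simp), by simp [h0, h1],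
    by simpa using h1⟩, ?_⟩
  rwa [show cm (u * v) v = cm u v by simp only [cm]; group]

theorem conj_VNO (z : Orb) (h : P_VNO β u v) : P_VNO β (z * u * z⁻¹) (z * v * z⁻¹) := by
  obtain ⟨⟨φ, h0, h1⟩, h2⟩ := h
  obtain ⟨z, rfl⟩ := β.surjective z
  obtain ⟨w, rfl⟩ := pr_sur z
  refine ⟨⟨MulAut.conj w * φ, by simp [h0], by simp [h1]⟩, ?_⟩
  generalize β (pr w) = z
  rw [show cm (z * u * z⁻¹) (z * v * z⁻¹) * cm (z * u * z⁻¹) (z * v * z⁻¹) =
    z * (cm u v * cm u v) * z⁻¹ by simp only [cm]; group, h2]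
  group

theorem inv2_VNO (h : P_VNO β u v) : P_VNO β u v⁻¹ := swap_VNO (inv_VNO (swap_VNO h))

theorem mul2_VNO (h : P_VNO β u v) : P_VNO β u (v * u) := swap_VNO (mul_VNO (swap_VNO h))

theorem right_VNO (h : P_VNO β u v) (k : ℤ) : P_VNO β u (v * u ^ k) := by
  induction k using Int.induction_on with
  | zero => simpa using h
  | succ k ih => simpa only [zpow_add_one, mul_assoc] using mul2_VNO ih
  | pred k ih => simpa only [zpow_sub_one, mul_assoc, inv_inv] using inv_VNO (mul2_VNO (inv_VNO ih))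

theorem left_VNO (h : P_VNO β u v) (k : ℤ) : P_VNO β u (u ^ k * v) := by
  simpa using inv2_VNO (right_VNO (inv2_VNO h) (-k))

theorem gen_VNO (h : P_VNO β u v) (f : Orb →* Multiplicative ℤ) (g : Orb)
    (hg : f g = Multiplicative.ofAdd 1) (hv : f v = 1) : (f u).toAdd = 1 ∨ (f u).toAdd = -1 := by
  obtain ⟨⟨φ, h0, h1⟩, -⟩ := h
  have key : ∀ w, f (β (pr (φ w))) ∈ Subgroup.zpowers (f u) := by
    intro w
    induction w using FreeGroup.induction_on with
    | C1 => simp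
    | of i =>
      fin_cases i
      · exact h0 ▸ Subgroup.mem_zpowers _
      · exact (congrArg f h1).symm.trans hv ▸ Subgroup.one_mem _
    | inv_of i hi => simpa only [_root_.map_inv] using Subgroup.inv_mem _ hi
    | mul a b ha hb => simpa only [_root_.map_mul] using Subgroup.mul_mem _ ha hb
  obtain ⟨g, rfl⟩ := β.surjective g
  obtain ⟨w, rfl⟩ := pr_sur g
  obtain ⟨w, rfl⟩ := φ.surjective w
  obtain ⟨k, hk⟩ := key w
  have h3 := congrArg Multiplicative.toAdd (hk.trans hg)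
  simp only [toAdd_zpow, smul_eq_mul, toAdd_ofAdd] at h3
  exact Int.eq_one_or_neg_one_of_mul_eq_one (by rw [mul_comm]; exact h3)

theorem ex_VNO (h : P_VNO β u v) (hu : ey u = 1) (hv : ey v = Multiplicative.ofAdd 1) :
    (ex u).toAdd = 1 ∨ (ex u).toAdd = -1 := by
  have h1 := gen_VNO h (ex * (zpowGroupHom (-(ex v).toAdd)).comp ey) xo (by simp [ex_x, ey_x])
    (by simp [hv, ← ofAdd_zsmul])
  simpa [hu] using h1

end

theorem ey_VNO {a : Orb} (ha : a ∈ AO) : ey a = 1 :=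
  (Subgroup.closure_le (K := ey.ker)).2 (by
    rintro x (rfl | rfl)
    exacts [ey_x, ey_c]) ha

theorem no_ok (hT : OT_st) (h1 : S1_st) (hB : Br_st) (hX : Fx_st) (hE : AnnE_st) : NO_st := by
  intro β
  obtain ⟨-, l, hl, -⟩ := hT
  have a0 : P_VNO β (β xo) (β yo) := ⟨⟨1, rfl, rfl⟩, by
    rw [show cm (β xo) (β yo) = β (cm xo yo) by simp [cm], ← _root_.map_mul, cm, ← co_eq,
      co_co, _root_.map_one]⟩
  obtain ⟨u, v₀, a1, hu⟩ := h1 Orb l (P_VNO β) (fun _ _ => swap_VNO) (fun _ _ => inv_VNO)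
    (fun _ _ => mul_VNO) (fun _ _ => conj_VNO) (fun _ _ h => h.2) _ _ a0
  have b1 := ey_VNO ((hl u).1 hu)
  obtain ⟨v, a2, b2⟩ : ∃ v, P_VNO β u v ∧ ey v = Multiplicative.ofAdd 1 := by
    rcases gen_VNO (swap_VNO a1) ey yo ey_y b1 with h | h
    · exact ⟨v₀, a1, congrArg Multiplicative.ofAdd h⟩
    · refine ⟨v₀⁻¹, inv2_VNO a1, Multiplicative.toAdd.injective ?_⟩
      simp [h]
  have b3 : u ≠ 1 := by
    rintro rfl
    simpa using ex_VNO a2 b1 b2
  obtain ⟨z, c1, c2⟩ := hB Orb l u (v * u⁻¹ * v⁻¹) 1 v (by simpa using hu)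
    (by simpa [mul_assoc, l.inv] using hu) (by simpa only [cm, mul_assoc] using a2.2)
  have a3 := conj_VNO z⁻¹ a2
  rw [inv_inv] at a3
  obtain ⟨z', k, a, ha, d1, d2⟩ := hX _ ((hl _).1 c1) (fun h => b3 (by
      simpa [mul_assoc] using congrArg (fun t => z * t * z⁻¹) h)) (z⁻¹ * v * z)
    (by
      rw [show z⁻¹ * v * z * (z⁻¹ * u * z) * (z⁻¹ * v * z)⁻¹ =
        (z⁻¹ * (v * u⁻¹ * v⁻¹) * z)⁻¹ by group]
      exact AO.inv_mem ((hl _).1 c2))
    (by simp [b2])
  have a4 := conj_VNO z' a3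
  rw [d1, d2] at a4
  have a5 : P_VNO β xo (a * yo) := by
    have h := ex_VNO a4 (by simp [ey_x]) (by simp [ey_y, ey_VNO ha])
    simp only [map_zpow, ex_x, toAdd_zpow, toAdd_ofAdd, smul_eq_mul, mul_one] at h
    rcases h with rfl | rfl
    · simpa using a4
    · simpa using inv_VNO a4
  obtain ⟨i, j, e⟩ := hE a ha a5.2
  rw [e] at a5
  have a6 : P_VNO β xo yo := by
    simpa [mul_assoc] using left_VNO (right_VNO a5 (-j)) (-i)
  obtain ⟨⟨φ, h0, h1⟩, -⟩ := a6
  have key : (β.toMonoidHom.comp pr).comp φ.toMonoidHom = pr := by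
    ext i
    fin_cases i
    exacts [h0.symm, h1.symm]
  exact ⟨φ⁻¹, fun z => by simpa using DFunLike.congr_fun key (φ⁻¹ z)⟩

theorem gam4O_ok (hN : NO_st) (hG : Gam4_st) : Gam4O_st := by
  refine ⟨16, fun β hβ => ?_⟩
  obtain ⟨φ, hφ⟩ := hN β
  have hc : ab4 cc * ab4 cc = 1 := by simp [cc]
  obtain ⟨γ, w, h⟩ := hG φ fun z => by
    rw [← oLift_pr ab4 hc, ← oLift_pr ab4 hc, ← hφ]
    exact (hβ _).grp (by simp) _
  refine ⟨pr γ, w, fun z => ?_⟩
  obtain ⟨z, rfl⟩ := pr_sur z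
  rw [hφ, h, jjO_pr, _root_.map_mul, _root_.map_mul, _root_.map_inv]

end Pool.Agent.MP_692752_al

end
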