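import Pool.Agent.Mg.F692752.Ge7ea3c

section

/-! Maps onto a free group that are conjugate in all finite quotients are conjugate. -/

set_option autoImplicit false

namespace Pool.Agent.MP_692752_al

open FreeGroup

/-- the endomorphism is inner in every finite quotient -/
def H_PI {ι : Type} (η : FreeGroup ι →* FreeGroup ι) : Prop :=
  ∀ (Q : Type) [Group Q] [Finite Q] (π : FreeGroup ι →* Q),
    ∃ w, ∀ z, π (η z) = π (w * z * w⁻¹)

theorem conj_PI {ι : Type} {η : FreeGroup ι →* FreeGroup ι} (H : H_PI η) (v : FreeGroup ι) :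
    H_PI ((MulAut.conj v).toMonoidHom.comp η) := by
  intro Q _ _ π
  obtain ⟨w, hw⟩ := H Q π
  refine ⟨v * w, fun z => ?_⟩
  have h1 : ((MulAut.conj v).toMonoidHom.comp η) z = v * η z * v⁻¹ := rfl
  rw [h1, MonoidHom.map_mul, MonoidHom.map_mul, hw z]
  simp only [MonoidHom.map_mul, MonoidHom.map_inv, mul_inv_rev, mul_assoc]

theorem two_PI {ι : Type} {η : FreeGroup ι →* FreeGroup ι} (H : H_PI η)
    {Q Q' : Type} [Group Q] [Finite Q] [Group Q'] [Finite Q'] (π : FreeGroup ι →* Q)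
    (π' : FreeGroup ι →* Q') :
    ∃ w, (∀ z, π (η z) = π w * π z * (π w)⁻¹) ∧ ∀ z, π' (η z) = π' w * π' z * (π' w)⁻¹ := by
  obtain ⟨w, hw⟩ := H (Q × Q') (π.prod π')
  refine ⟨w, fun z => ?_, fun z => ?_⟩
  · have := congrArg Prod.fst (hw z)
    simpa only [MonoidHom.prod_apply, MonoidHom.map_mul, MonoidHom.map_inv, Prod.fst_mul,
      Prod.fst_inv] using this
  · have := congrArg Prod.snd (hw z)
    simpa only [MonoidHom.prod_apply, MonoidHom.map_mul, MonoidHom.map_inv, Prod.snd_mul,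
      Prod.snd_inv] using this

theorem comm_PI {Q : Type} [Group Q] {a b : Q} (h : b = a * b * a⁻¹) : Commute a b := by
  have : a * b = b * a := by
    calc a * b = a * b * a⁻¹ * a := by group
      _ = b * a := by rw [← h]
  exact this

theorem fix_PI (hR : RF_st) (hF : CF_st) {ι : Type} {i j : ι} (hij : i ≠ j)
    {η : FreeGroup ι →* FreeGroup ι} (H : H_PI η) (hi : η (of i) = of i) (hj : η (of j) = of j)
    (z : FreeGroup ι) : η z = z := by
  by_contra hne
  have h1 : η z * z⁻¹ ≠ 1 := fun h => hne (mul_inv_eq_one.mp h)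
  obtain ⟨Q, _, _, π, hπ⟩ := hR ι _ h1
  obtain ⟨Q', _, _, π', hπ'⟩ := hF ι i j hij Q π
  obtain ⟨w, hw, hw'⟩ := two_PI H π π'
  have c1 := hw' (of i)
  have c2 := hw' (of j)
  rw [hi] at c1
  rw [hj] at c2
  have h2 : π w = 1 := hπ' w (comm_PI c1) (comm_PI c2)
  apply hπ
  rw [MonoidHom.map_mul, MonoidHom.map_inv, hw z, h2]
  simp

theorem orbit_PI {ι X S : Type} [MulAction (FreeGroup ι) X] (π : FreeGroup ι →* Equiv.Perm S)
    (e : S → X) (i : ι)
    (h3 : ∀ q, ∃ k : ℤ, e (π (of i) q) = (of i : FreeGroup ι) ^ k • e q) (m : ℤ) (q : S) :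
    ∃ k : ℤ, e ((π (of i) ^ m) q) = (of i : FreeGroup ι) ^ k • e q := by
  induction m using Int.induction_on with
  | zero => exact ⟨0, by simp⟩
  | succ n ih =>
    obtain ⟨k, hk⟩ := ih
    obtain ⟨k', hk'⟩ := h3 ((π (of i) ^ (n : ℤ)) q)
    refine ⟨k' + k, ?_⟩
    rw [add_comm (n : ℤ) 1, zpow_add, zpow_one, Equiv.Perm.mul_apply, hk', hk, zpow_add, mul_smul]
  | pred n ih =>
    obtain ⟨k, hk⟩ := ih
    obtain ⟨k', hk'⟩ := h3 ((π (of i) ^ (-(n : ℤ) - 1)) q)
    refine ⟨-k' + k, ?_⟩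
    have h4 : π (of i) ((π (of i) ^ (-(n : ℤ) - 1)) q) = (π (of i) ^ (-(n : ℤ))) q := by
      rw [← Equiv.Perm.mul_apply, ← zpow_one_add]
      congr 2
      ring
    rw [h4, hk] at hk'
    rw [zpow_add, mul_smul, hk', zpow_neg, inv_smul_smul]

theorem second_PI (h : CP_st) (hZ : Cent_st) {ι : Type} (i j : ι)
    {η : FreeGroup ι →* FreeGroup ι} (H : H_PI η) (hi : η (of i) = of i) :
    ∃ k : ℤ, (of i) ^ k * η (of j) * ((of i) ^ k)⁻¹ = of j := by
  classical
  obtain ⟨S, _, π, e, he, h1, h2, h3⟩ := h ι (FreeGroup ι ⧸ Subgroup.zpowers (η (of j))) j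
    {(η (of j), ((1 : FreeGroup ι) : FreeGroup ι ⧸ Subgroup.zpowers (η (of j))))}
    (Set.finite_singleton _)
  obtain ⟨q, hq, hq'⟩ := h1 _ rfl
  have hfix : π (η (of j)) q = q := by
    apply he
    rw [hq, hq']
    show ((η (of j) * 1 : FreeGroup ι) : FreeGroup ι ⧸ Subgroup.zpowers (η (of j))) = _
    rw [QuotientGroup.eq]
    simp
  obtain ⟨Q', _, _, π', hπ'⟩ := hZ ι i (Equiv.Perm S) π
  obtain ⟨w, hw, hw'⟩ := two_PI H π π'
  have c1 := hw' (of i)
  rw [hi] at c1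
  obtain ⟨m, hm⟩ := Subgroup.mem_zpowers_iff.mp (hπ' w (comm_PI c1))
  have hq2 : π (of j) ((π (of i) ^ (-m)) q) = (π (of i) ^ (-m)) q := by
    have h5 : π (of j) * π (of i) ^ (-m) = π (of i) ^ (-m) * π (η (of j)) := by
      rw [hw (of j), ← hm]
      group
    rw [← Equiv.Perm.mul_apply, h5, Equiv.Perm.mul_apply, hfix]
  obtain ⟨k, hk⟩ := orbit_PI π e i (h3 i) (-m) q
  have h6 := h2 _ hq2
  rw [hk, hq] at h6
  have h7 : ((of j * (of i ^ k * 1) : FreeGroup ι) : FreeGroup ι ⧸ Subgroup.zpowers (η (of j))) =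
      ((of i ^ k * 1 : FreeGroup ι) : FreeGroup ι ⧸ Subgroup.zpowers (η (of j))) := h6
  obtain ⟨l, hl⟩ := Subgroup.mem_zpowers_iff.mp (QuotientGroup.eq.mp h7.symm)
  let φ : FreeGroup ι →* Multiplicative ℤ :=
    FreeGroup.lift fun k => if k = j then Multiplicative.ofAdd 1 else 1
  have hφ : φ (of j) = Multiplicative.ofAdd 1 := by simp [φ]
  have h8 : l * Multiplicative.toAdd (φ (η (of j))) = 1 := by
    have := congrArg (fun x => Multiplicative.toAdd (φ x)) hl
    simp only [map_zpow, MonoidHom.map_mul, MonoidHom.map_inv, toAdd_mul, toAdd_inv, toAdd_zpow,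
      hφ, toAdd_ofAdd, smul_eq_mul, mul_one] at this
    rw [this]
    ring
  let ψ : Multiplicative ℤ →* Multiplicative (ZMod 3) :=
    AddMonoidHom.toMultiplicative (Int.castAddHom (ZMod 3))
  obtain ⟨u, hu⟩ := H (Multiplicative (ZMod 3)) (ψ.comp φ)
  have h9 : ((Multiplicative.toAdd (φ (η (of j))) : ℤ) : ZMod 3) = 1 := by
    have h10 := hu (of j)
    rw [MonoidHom.map_mul, MonoidHom.map_mul, MonoidHom.map_inv, mul_inv_cancel_comm,
      MonoidHom.comp_apply, MonoidHom.comp_apply, hφ] at h10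
    have h11 := congrArg Multiplicative.toAdd h10
    simpa [ψ] using h11
  have h12 : l = 1 := by
    rcases Int.eq_one_or_neg_one_of_mul_eq_one' h8 with h13 | h13
    · exact h13.1
    · rw [h13.2] at h9
      exact absurd h9 (by decide)
  rw [h12, zpow_one] at hl
  refine ⟨k, ?_⟩
  rw [hl]
  group

theorem endo_PI (h : CP_st) (hR : RF_st) (hC : CS_st) (hZ : Cent_st) (hF : CF_st)
    {ι : Type} {i j : ι} (hij : i ≠ j) {η : FreeGroup ι →* FreeGroup ι} (H : H_PI η) :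
    ∃ w, ∀ z, η z = w * z * w⁻¹ := by
  obtain ⟨c, hc⟩ := isConj_iff.mp (hC ι i (η (of i)) fun Q _ _ π => by
    obtain ⟨w, hw⟩ := H Q π
    refine isConj_iff.mpr ⟨π w, ?_⟩
    rw [hw, MonoidHom.map_mul, MonoidHom.map_mul, MonoidHom.map_inv])
  have H1 := conj_PI H c⁻¹
  have e1 : ∀ z, ((MulAut.conj c⁻¹).toMonoidHom.comp η) z = c⁻¹ * η z * c⁻¹⁻¹ := fun _ => rfl
  have hi1 : ((MulAut.conj c⁻¹).toMonoidHom.comp η) (of i) = of i := by
    rw [e1, ← hc]
    group
  obtain ⟨k, hk⟩ := second_PI h hZ i j H1 hi1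
  have H2 := conj_PI H1 (of i ^ k)
  have e2 : ∀ z, ((MulAut.conj (of i ^ k)).toMonoidHom.comp
      ((MulAut.conj c⁻¹).toMonoidHom.comp η)) z =
      of i ^ k * ((MulAut.conj c⁻¹).toMonoidHom.comp η) z * (of i ^ k)⁻¹ := fun _ => rfl
  have h1 := fix_PI hR hF hij H2 (by rw [e2, hi1]; group) (by rw [e2, hk])
  refine ⟨c * (of i ^ k)⁻¹, fun z => ?_⟩
  have h2 := h1 z
  rw [e2, e1] at h2
  calc η z = c * (of i ^ k)⁻¹ * (of i ^ k * (c⁻¹ * η z * c⁻¹⁻¹) * (of i ^ k)⁻¹) *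
      (c * (of i ^ k)⁻¹)⁻¹ := by group
    _ = _ := by rw [h2]

theorem pi_ok (h : CP_st) (hR : RF_st) (hC : CS_st) (hZ : Cent_st) (hF : CF_st) : PI_st := by
  intro ι i j hij G _ f f' hf hyp
  let s : FreeGroup ι →* G := FreeGroup.lift fun k => Classical.choose (hf (of k))
  have hs : ∀ z, f (s z) = z := by
    have : f.comp s = MonoidHom.id _ := by
      ext k
      simp only [s, MonoidHom.comp_apply, FreeGroup.lift_apply_of, MonoidHom.id_apply]
      exact Classical.choose_spec (hf (of k))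
    intro z
    exact DFunLike.congr_fun this z
  have H : H_PI (f'.comp s) := by
    intro Q _ _ π
    obtain ⟨w, hw⟩ := hyp Q π
    exact ⟨w, fun z => by rw [MonoidHom.comp_apply, hw, hs]⟩
  obtain ⟨w, hw⟩ := endo_PI h hR hC hZ hF hij H
  refine ⟨w, fun x => ?_⟩
  rw [← hw, MonoidHom.comp_apply]
  by_contra hne
  have h1 : f' x * (f' (s (f x)))⁻¹ ≠ 1 := fun h => hne (mul_inv_eq_one.mp h)
  obtain ⟨Q, _, _, π, hπ⟩ := hR ι _ h1
  obtain ⟨u, hu⟩ := hyp Q π
  apply hπ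
  rw [MonoidHom.map_mul, MonoidHom.map_inv, hu, hu, hs, mul_inv_cancel]

end Pool.Agent.MP_692752_al

end

section

/-! Discrimination by the retractions, from the big powers property. -/

set_option autoImplicit false

namespace Pool.Agent.MP_692752_al

open FreeGroup

section
variable {G ι : Type} [Group G] (d : HD G ι)

/-- the term attached to a letter -/
def tm_EE (τ : Bool × d.E) : Tm ι :=
  if τ.1 then ⟨d.x, d.c, τ.2, fun n => n⟩ else ⟨1, d.c, d.x⁻¹ * τ.2, fun n => -n⟩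

theorem tm_u_EE (τ : Bool × d.E) : (tm_EE d τ).u = d.c := by
  unfold tm_EE; split <;> rfl

theorem tm_μ_EE (τ : Bool × d.E) (n : ℕ) : ((tm_EE d τ).μ n).natAbs = n := by
  unfold tm_EE; split <;> simp

theorem val_EE (n : ℕ) (L : List (Bool × d.E)) :
    d.θ n (d.val L) = ((L.map (tm_EE d)).map (Tm.ev n)).prod := by
  rw [HD.val, map_list_prod, List.map_map, List.map_map]
  congr 1
  refine List.map_congr_left fun τ _ => ?_
  obtain ⟨b, e⟩ := τ
  cases b <;> simp [tm_EE, Tm.ev, d.θs, d.θt, mul_assoc]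

theorem mal_EE {f : FreeGroup ι} (h : Commute d.c (f * d.c * f⁻¹)) :
    f ∈ Subgroup.zpowers d.c := by
  obtain ⟨k, hk⟩ := d.cent_c _ h.symm
  have h' : Commute (f⁻¹ * d.c * f) d.c := by
    have := h.conj f⁻¹
    simpa [mul_assoc] using this
  obtain ⟨l, hl⟩ := d.cent_c _ h'
  simp only at hk hl
  have h1 : d.c ^ (k * l - 1) = 1 := by
    rw [zpow_sub_one, zpow_mul, hk, conj_zpow, hl]; group
  have h2 : k * l = 1 := by
    by_contra hne
    exact d.c_ne (zpow_left_injective (sub_ne_zero.mpr hne) (h1.trans (one_zpow _).symm))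
  apply d.cent_c
  rcases Int.eq_one_or_neg_one_of_mul_eq_one h2 with rfl | rfl
  · rw [zpow_one] at hk
    exact (eq_mul_inv_iff_mul_eq.mp hk).symm
  · rw [zpow_neg_one] at hk
    have h3 : (d.c * f * d.c⁻¹) ^ (2 : ℤ) = f ^ (2 : ℤ) := by
      have h4 : d.c = f * d.c⁻¹ * f⁻¹ := by
        rw [← inv_inj, mul_inv_rev, mul_inv_rev, inv_inv, inv_inv, ← mul_assoc]; exact hk
      rw [conj_zpow]
      calc d.c * f ^ (2 : ℤ) * d.c⁻¹ = f * d.c⁻¹ * f⁻¹ * f ^ (2 : ℤ) * d.c⁻¹ := by rw [← h4]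
        _ = f * (f * d.c * f⁻¹) * f⁻¹ * f ^ (2 : ℤ) * d.c⁻¹ := by rw [← hk]
        _ = f ^ (2 : ℤ) := by rw [zpow_two]; group
    exact (mul_inv_eq_iff_eq_mul.mp (zpow_left_injective two_ne_zero h3)).symm

theorem gd_EE (τ τ' : Bool × d.E) (h : d.Ok τ τ') : Tm.Gd (tm_EE d τ) (tm_EE d τ') := by
  intro hc
  rw [tm_u_EE, tm_u_EE] at hc
  have hm := mal_EE d hc
  have hE : _ ∈ d.E := (Subgroup.zpowers_le.mpr d.hc) hm
  obtain ⟨b, e⟩ := τ
  obtain ⟨b', e'⟩ := τ'
  cases b <;> cases b' <;> simp only [tm_EE, if_true, Bool.false_eq_true, if_false, mul_one] at hm hE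
  · exact d.hx (by simpa using (d.E.mul_mem_cancel_right e.2).mp hE)
  · obtain ⟨k, hk⟩ := hm
    refine h.2 ⟨rfl, rfl, k, ?_⟩
    simp only at hk ⊢
    rw [conj_zpow, hk]; group
  · exact h.1 ⟨rfl, rfl, hm⟩
  · exact d.hx ((d.E.mul_mem_cancel_left e.2).mp hE)

theorem chain_EE {L : List (Bool × d.E)} (h : L.IsChain d.Ok) :
    (L.map (tm_EE d)).IsChain Tm.Gd :=
  List.isChain_map_of_isChain _ (gd_EE d) h

end

theorem e1_ok (hG : BG_st) (hL : Lin_st) : E1_st := by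
  classical
  intro G ι _ d γ h
  obtain ⟨e, L, rfl, hc⟩ := hL G ι d γ
  by_cases hne : L = []
  · subst hne
    obtain ⟨n, -, hn⟩ := h 0
    have he : e = 1 := Subtype.ext (by simpa [HD.val, d.θs] using hn)
    simp [HD.val, he]
  · exfalso
    obtain ⟨N, hN⟩ := hG ι [] (L.map (tm_EE d)) (by simpa using hne) (chain_EE d hc)
      (by
        intro τ hτ
        obtain ⟨σ, -, rfl⟩ := List.mem_map.mp hτ
        rw [tm_u_EE]; exact d.c_ne) ((e : FreeGroup ι).norm + 1)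
    obtain ⟨n, hn, h1⟩ := h N
    have h2 := hN n (by
      intro τ hτ
      obtain ⟨σ, -, rfl⟩ := List.mem_map.mp hτ
      rw [tm_μ_EE]; exact hn)
    rw [MonoidHom.map_mul, d.θs, val_EE] at h1
    rw [List.nil_append, eq_inv_of_mul_eq_one_right h1, norm_inv_eq] at h2
    omega

theorem e2_ok (h4 : FourP_st) (hG : BG_st) (hC : CycF_st) : E2_st := by
  classical
  intro G ι _ d γ h
  rcases hC G ι d γ with h0 | ⟨δ, L, hne, rfl, hc⟩
  · exact h0
  exfalso
  have hc' := chain_EE d hc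
  rw [List.map_append] at hc'
  obtain ⟨N, hN⟩ := hG ι (L.map (tm_EE d)) (L.map (tm_EE d)) (by simpa using hne) hc'
    (by
      intro τ hτ
      rw [← List.map_append] at hτ
      obtain ⟨σ, -, rfl⟩ := List.mem_map.mp hτ
      rw [tm_u_EE]; exact d.c_ne) (d.B.norm + 1)
  have h2 := hN N (by
    intro τ hτ
    rw [← List.map_append] at hτ
    obtain ⟨σ, -, rfl⟩ := List.mem_map.mp hτ
    rw [tm_μ_EE])
  rw [List.map_append, List.prod_append, ← val_EE] at h2
  obtain ⟨w₀, hw⟩ := h N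
  rw [MonoidHom.map_mul, MonoidHom.map_mul, MonoidHom.map_inv] at hw
  generalize d.θ N (d.val L) = g at h2 hw
  obtain ⟨w, hg⟩ : ∃ w, g = w * d.B * w⁻¹ := by
    refine ⟨(d.θ N δ)⁻¹ * w₀, ?_⟩
    calc g = (d.θ N δ)⁻¹ * (d.θ N δ * g * (d.θ N δ)⁻¹) * d.θ N δ := by group
      _ = _ := by rw [hw]; group
  have h5 := h4 ι 1 (g * g) g (g * w)
  have e1 : (g * g)⁻¹ * (g * w) = w * d.B⁻¹ := by rw [hg]; group
  have e2 : g * w = w * d.B := by rw [hg]; group
  have e3 : (g * g)⁻¹ * g = g⁻¹ := by group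
  rw [e1, e3, inv_mul_cancel_left, inv_one, one_mul, one_mul, one_mul, norm_inv_eq, e2] at h5
  have l1 := norm_mul_le w d.B
  have l2 := norm_mul_le w d.B⁻¹
  rw [norm_inv_eq] at l2
  omega

theorem e3_ok (hG : BG_st) (hL : Lin_st) : E3_st := by
  classical
  intro G ι _ d γ k h
  obtain ⟨e, L, rfl, hc⟩ := hL G ι d γ
  obtain ⟨N, hN⟩ := hG ι [] (L.map (tm_EE d) ++ [⟨1, d.B, d.Y⁻¹, k⟩, ⟨1, d.B, 1, fun n => -k n⟩])
    (by simp)
    (by
      rw [List.nil_append]
      refine (chain_EE d hc).append (List.isChain_pair.mpr ?_) ?_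
      · simpa [Tm.Gd] using d.nY
      · intro τ hτ σ hσ
        obtain ⟨σ', -, rfl⟩ := List.mem_map.mp (List.mem_of_getLast? hτ)
        obtain rfl : _ = σ := Option.some.inj hσ
        rw [Tm.Gd, tm_u_EE]
        exact d.nc _)
    (by
      intro τ hτ
      simp only [List.nil_append, List.mem_append, List.mem_map, List.mem_cons,
        List.not_mem_nil, or_false] at hτ
      rcases hτ with ⟨σ, -, rfl⟩ | rfl | rfl
      · rw [tm_u_EE]; exact d.c_ne
      · exact d.B_ne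
      · exact d.B_ne) ((e : FreeGroup ι).norm + 1)
  refine ⟨N, fun n hn => ?_⟩
  by_contra hk
  have h2 := hN n (by
    intro τ hτ
    simp only [List.nil_append, List.mem_append, List.mem_map, List.mem_cons,
      List.not_mem_nil, or_false] at hτ
    rcases hτ with ⟨σ, -, rfl⟩ | rfl | rfl
    · rw [tm_μ_EE]; exact hn
    · exact not_lt.mp hk
    · simpa using not_lt.mp hk)
  have h1 := h n
  rw [MonoidHom.map_mul, d.θs, val_EE] at h1
  have h3 : ((L.map (tm_EE d) ++ [(⟨1, d.B, d.Y⁻¹, k⟩ : Tm ι), ⟨1, d.B, 1, fun n => -k n⟩]).map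
      (Tm.ev n)).prod = (e : FreeGroup ι)⁻¹ := by
    rw [List.map_append, List.prod_append, eq_inv_mul_of_mul_eq h1]
    simp only [List.map_cons, List.map_nil, List.prod_cons, List.prod_nil, Tm.ev]
    group
  rw [List.nil_append, h3, norm_inv_eq] at h2
  omega

end Pool.Agent.MP_692752_al

end
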