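import Pool.Agent.Mg.F692752.Ge7ea3c

section

/-! The surface groups carry the data `HD`. -/

set_option autoImplicit false

namespace Pool.Agent.MP_692752_al

open FreeGroup

section
variable (h : ℕ)

abbrev F_SurfHD := FreeGroup (Fin (h + 1))

abbrev G_SurfHD := FreeGroup (Fin (h + 1) ⊕ Fin (h + 1))

def X_SurfHD (j : ℕ) : F_SurfHD h := if hj : j < h then of (Fin.succ ⟨j, hj⟩) else 1

def A_SurfHD (j : ℕ) : G_SurfHD h :=
  if hj : j < h then of (Sum.inl (Fin.succ ⟨j, hj⟩)) else 1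

def B_SurfHD (j : ℕ) : G_SurfHD h :=
  if hj : j < h then of (Sum.inr (Fin.succ ⟨j, hj⟩)) else 1

def W_SurfHD : ℕ → F_SurfHD h
  | 0 => of 0 * of 0
  | j + 1 => W_SurfHD j * (X_SurfHD h j * X_SurfHD h j)

def Z_SurfHD : ℕ → G_SurfHD h
  | 0 => 1
  | j + 1 => B_SurfHD h j * A_SurfHD h j * Z_SurfHD j

def U_SurfHD (j : ℕ) : G_SurfHD h := Z_SurfHD h j * (Z_SurfHD h h)⁻¹ * of (Sum.inl 0)

def P_SurfHD : ℕ → G_SurfHD h
  | 0 => 1
  | j + 1 => P_SurfHD j * (A_SurfHD h j * B_SurfHD h j * (A_SurfHD h j)⁻¹ * (B_SurfHD h j)⁻¹)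

theorem rel_SurfHD : surfRel (h + 1) = of (Sum.inl 0) * of (Sum.inr 0) * (of (Sum.inl 0))⁻¹ *
    (of (Sum.inr 0))⁻¹ * P_SurfHD h h := by
  have key : ∀ n : ℕ, (List.ofFn fun i : Fin n => A_SurfHD h i * B_SurfHD h i * (A_SurfHD h i)⁻¹ *
      (B_SurfHD h i)⁻¹).prod = P_SurfHD h n := fun n => by
    induction n with
    | zero => rfl
    | succ n ih =>
      rw [List.ofFn_succ', List.prod_concat, P_SurfHD, ← ih]
      rfl
  rw [surfRel, List.ofFn_succ, List.prod_cons, ← key]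
  simp [A_SurfHD, B_SurfHD]

section lifts
variable {Q : Type} [Group Q] (α β : Q) (p q : ℕ → Q) (j : ℕ)

def L1_SurfHD : F_SurfHD h →* Q := lift (Matrix.vecCons α fun j => p j)

def L2_SurfHD : G_SurfHD h →* Q :=
  lift (Sum.elim (Matrix.vecCons α fun j => p j) (Matrix.vecCons β fun j => q j))

theorem L1x_SurfHD : L1_SurfHD h α p (of 0) = α := by simp [L1_SurfHD]

theorem L1X_SurfHD : L1_SurfHD h α p (X_SurfHD h j) = if j < h then p j else 1 := by
  unfold X_SurfHD
  split_ifs <;> simp [L1_SurfHD]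

theorem L2a_SurfHD : L2_SurfHD h α β p q (of (Sum.inl 0)) = α := by simp [L2_SurfHD]

theorem L2t_SurfHD : L2_SurfHD h α β p q (of (Sum.inr 0)) = β := by simp [L2_SurfHD]

theorem L2A_SurfHD : L2_SurfHD h α β p q (A_SurfHD h j) = if j < h then p j else 1 := by
  unfold A_SurfHD
  split_ifs <;> simp [L2_SurfHD]

theorem L2B_SurfHD : L2_SurfHD h α β p q (B_SurfHD h j) = if j < h then q j else 1 := by
  unfold B_SurfHD
  split_ifs <;> simp [L2_SurfHD]

/-- only the first two generators survive -/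
theorem L1W_SurfHD (h1 : 0 < h) :
    L1_SurfHD h α (fun j => if j = 0 then β else 1) (W_SurfHD h (j + 1)) = α * α * (β * β) := by
  induction j with
  | zero => simp [W_SurfHD, L1x_SurfHD, L1X_SurfHD, h1]
  | succ j ih => rw [W_SurfHD, _root_.map_mul, ih]; simp [L1X_SurfHD]

theorem L2P_SurfHD (h1 : 0 < h) :
    L2_SurfHD h 1 1 (fun j => if j = 0 then α else 1) (fun j => if j = 0 then β else 1)
      (P_SurfHD h (j + 1)) = α * β * α⁻¹ * β⁻¹ := by
  induction j with
  | zero => simp [P_SurfHD, L2A_SurfHD, L2B_SurfHD, h1]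
  | succ j ih => rw [P_SurfHD, _root_.map_mul, ih]; simp [L2A_SurfHD, L2B_SurfHD]

theorem L2Z_SurfHD : L2_SurfHD h α β 1 1 (Z_SurfHD h j) = 1 ∧ L2_SurfHD h α β 1 1 (P_SurfHD h j) = 1 := by
  induction j with
  | zero => simp [Z_SurfHD, P_SurfHD]
  | succ j ih => simp [Z_SurfHD, P_SurfHD, ih, L2A_SurfHD, L2B_SurfHD]

end lifts

/-- the retractions -/
def th_SurfHD (n : ℕ) : G_SurfHD h →* F_SurfHD h :=
  L2_SurfHD h (W_SurfHD h h) (of 0 * W_SurfHD h h ^ n)
    (fun j => W_SurfHD h j * (of 0 * X_SurfHD h j) * (W_SurfHD h j)⁻¹)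
    (fun j => W_SurfHD h j * (X_SurfHD h j * (of 0)⁻¹) * (W_SurfHD h j)⁻¹)

theorem thP_SurfHD (n j : ℕ) :
    th_SurfHD h n (P_SurfHD h j) = of 0 * W_SurfHD h j * (of 0)⁻¹ * (W_SurfHD h j)⁻¹ ∧
    th_SurfHD h n (Z_SurfHD h j) = W_SurfHD h j * (W_SurfHD h 0)⁻¹ := by
  induction j with
  | zero => simp [P_SurfHD, Z_SurfHD, W_SurfHD, mul_assoc]
  | succ j ih =>
    simp only [P_SurfHD, Z_SurfHD, _root_.map_mul, _root_.map_inv, ih.1, ih.2]
    rw [th_SurfHD, L2A_SurfHD, L2B_SurfHD]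
    by_cases hj : j < h
    · simp [hj, W_SurfHD, mul_assoc]
    · simp [hj, W_SurfHD, X_SurfHD]

theorem thU_SurfHD (n j : ℕ) : th_SurfHD h n (U_SurfHD h j) = W_SurfHD h j := by
  simp only [U_SurfHD, _root_.map_mul, _root_.map_inv, (thP_SurfHD h n _).2]
  rw [th_SurfHD, L2a_SurfHD]
  simp [mul_assoc]

theorem thR_SurfHD (n : ℕ) : th_SurfHD h n (surfRel (h + 1)) = 1 := by
  simp only [rel_SurfHD, _root_.map_mul, _root_.map_inv, (thP_SurfHD h n _).1]
  rw [th_SurfHD, L2a_SurfHD, L2t_SurfHD]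
  group

/-- the labels -/
def k_SurfHD : Fin (h + 1) → Bool → G_SurfHD h :=
  Matrix.vecCons (fun v => bif v then 1 else U_SurfHD h 0) fun j v =>
    (U_SurfHD h j)⁻¹ * (bif v then B_SurfHD h j else A_SurfHD h j) * U_SurfHD h j

abbrev sg_SurfHD : F_SurfHD h →* Equiv.Perm Bool := lift fun _ => Equiv.swap false true

abbrev co_SurfHD : F_SurfHD h → Bool → G_SurfHD h := coc (fun _ => Equiv.swap false true) (k_SurfHD h)

theorem cox_SurfHD (v : Bool) : co_SurfHD h (of 0) v = bif v then 1 else U_SurfHD h 0 := by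
  simp [coc_of, k_SurfHD]

theorem coi_SurfHD : co_SurfHD h (of 0)⁻¹ false = 1 := by
  rw [co_SurfHD, coc_inv]
  simp [cox_SurfHD]

theorem coX_SurfHD {j : ℕ} (hj : j < h) : sg_SurfHD h (X_SurfHD h j) = Equiv.swap false true ∧ ∀ v,
    co_SurfHD h (X_SurfHD h j) v =
      (U_SurfHD h j)⁻¹ * (bif v then B_SurfHD h j else A_SurfHD h j) * U_SurfHD h j := by
  simp [X_SurfHD, hj, coc_of, k_SurfHD]

theorem coW_SurfHD (j : ℕ) : sg_SurfHD h (W_SurfHD h j) = 1 ∧ co_SurfHD h (W_SurfHD h j) false = U_SurfHD h j ∧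
    co_SurfHD h (W_SurfHD h j) true = P_SurfHD h j * U_SurfHD h j := by
  induction j with
  | zero => simp [W_SurfHD, P_SurfHD, coc_mul, cox_SurfHD]
  | succ j ih =>
    have e : U_SurfHD h (j + 1) = B_SurfHD h j * A_SurfHD h j * U_SurfHD h j := by
      simp only [U_SurfHD, Z_SurfHD, mul_assoc]
    by_cases hj : j < h
    · simp [W_SurfHD, P_SurfHD, coc_mul, coX_SurfHD h hj, ih, e, mul_assoc]
    · simpa [W_SurfHD, P_SurfHD, X_SurfHD, A_SurfHD, B_SurfHD, hj, e] using ih

theorem thco_SurfHD (n : ℕ) (z : F_SurfHD h) (v : Bool) : th_SurfHD h n (co_SurfHD h z v) =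
    (bif sg_SurfHD h z v then of 0 else 1) * z * (bif v then (of 0)⁻¹ else 1) := by
  induction z using FreeGroup.induction_on generalizing v with
  | C1 => cases v <;> simp [coc_one]
  | of i =>
    refine Fin.cases ?_ (fun j => ?_) i
    · cases v <;> simp [cox_SurfHD, thU_SurfHD, W_SurfHD]
    · have e : (of j.succ : F_SurfHD h) = X_SurfHD h j := by simp [X_SurfHD]
      rw [e, (coX_SurfHD h j.2).1, (coX_SurfHD h j.2).2]
      simp only [_root_.map_mul, _root_.map_inv, thU_SurfHD]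
      cases v <;> simp [th_SurfHD, L2A_SurfHD, L2B_SurfHD, mul_assoc]
  | inv_of i ih =>
    rw [co_SurfHD, coc_inv, _root_.map_inv, ih]
    cases v <;> simp
  | mul a b ha hb =>
    rw [co_SurfHD, coc_mul, _root_.map_mul, ha, hb, _root_.map_mul, Equiv.Perm.mul_apply]
    cases sg_SurfHD h b v <;> simp [mul_assoc]

/-- the words of even length -/
def E_SurfHD : Subgroup (F_SurfHD h) := (MulAction.stabilizer (Equiv.Perm Bool) false).comap (sg_SurfHD h)

theorem memE_SurfHD {z : F_SurfHD h} : z ∈ E_SurfHD h ↔ sg_SurfHD h z false = false := Iff.rfl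

theorem hE_SurfHD (z : F_SurfHD h) : z ∈ E_SurfHD h ∨ z * (of 0)⁻¹ ∈ E_SurfHD h := by
  have e : sg_SurfHD h z true ≠ sg_SurfHD h z false := (sg_SurfHD h z).injective.ne (by decide)
  simp only [memE_SurfHD, _root_.map_mul, _root_.map_inv, lift_apply_of, Equiv.swap_inv,
    Equiv.Perm.mul_apply, Equiv.swap_apply_left]
  revert e
  cases sg_SurfHD h z true <;> cases sg_SurfHD h z false <;> simp

/-- the section -/
def s_SurfHD : E_SurfHD h →* G_SurfHD h := MonoidHom.mk' (fun e => co_SurfHD h e false) fun a b => by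
  rw [Subgroup.coe_mul, co_SurfHD, coc_mul, (memE_SurfHD h).1 b.2]

theorem ths_SurfHD (n : ℕ) (e : E_SurfHD h) : th_SurfHD h n (s_SurfHD h e) = e := by
  have := thco_SurfHD h n e false
  rw [(memE_SurfHD h).1 e.2] at this
  exact this.trans (by simp)

theorem hc_SurfHD (j : ℕ) : W_SurfHD h j ∈ E_SurfHD h := by simp [memE_SurfHD, (coW_SurfHD h j).1]

theorem hd_SurfHD : of 0 * W_SurfHD h h * (of 0)⁻¹ ∈ E_SurfHD h := by simp [memE_SurfHD, (coW_SurfHD h h).1]

theorem sc_SurfHD : s_SurfHD h ⟨_, hc_SurfHD h h⟩ = of (Sum.inl 0) :=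
  (coW_SurfHD h h).2.1.trans (by simp [U_SurfHD])

theorem sd_SurfHD : s_SurfHD h ⟨_, hd_SurfHD h⟩ = P_SurfHD h h * of (Sum.inl 0) := by
  show co_SurfHD h _ false = _
  simp [coc_mul, coi_SurfHD, cox_SurfHD, coW_SurfHD, U_SurfHD]

theorem centc_SurfHD (hD : CentD_st) (h1 : 0 < h) (z : F_SurfHD h) (hz : Commute z (W_SurfHD h h)) :
    z ∈ Subgroup.zpowers (W_SurfHD h h) := by
  rcases hE_SurfHD h z with e | e
  · have h2 : Commute (⟨z, e⟩ : E_SurfHD h) ⟨_, hc_SurfHD h h⟩ := Subtype.ext hz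
    obtain ⟨m, hm⟩ := hD _ _ _ (sc_SurfHD h ▸ h2.map (s_SurfHD h))
    have h3 := congrArg (th_SurfHD h 0) hm
    rw [ths_SurfHD, map_zpow, th_SurfHD, L2a_SurfHD] at h3
    exact ⟨m, h3⟩
  · exfalso
    have h2 : (⟨_, e⟩ : E_SurfHD h) * ⟨_, hd_SurfHD h⟩ = ⟨_, hc_SurfHD h h⟩ * ⟨_, e⟩ :=
      Subtype.ext (by simp [← mul_assoc, hz.eq])
    have h3 := congrArg (fun u => L2_SurfHD h 1 1 (fun j => if j = 0 then Equiv.swap (0 : Fin 3) 1 else 1)
      (fun j => if j = 0 then Equiv.swap 1 2 else 1) (s_SurfHD h u)) h2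
    obtain ⟨j, rfl⟩ : ∃ j, h = j + 1 := ⟨h - 1, by omega⟩
    simp only [_root_.map_mul, sc_SurfHD, sd_SurfHD, L2a_SurfHD, L2P_SurfHD _ _ _ _ h1, mul_one, one_mul,
      mul_eq_left] at h3
    exact absurd h3 (by decide)

theorem centB_SurfHD (hD : CentD_st) (h1 : 0 < h) (z : F_SurfHD h)
    (hz : Commute z (X_SurfHD h 0 * (of 0)⁻¹)) : z ∈ Subgroup.zpowers (X_SurfHD h 0 * (of 0)⁻¹) := by
  let φ := L1_SurfHD h (of 0 : F_SurfHD h) fun j => if j = 0 then X_SurfHD h 0 * of 0 else X_SurfHD h j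
  let ψ := L1_SurfHD h (of 0 : F_SurfHD h) fun j => if j = 0 then X_SurfHD h 0 * (of 0)⁻¹ else X_SurfHD h j
  have e : ψ.comp φ = MonoidHom.id _ := FreeGroup.ext_hom _ _ fun i => by
    refine Fin.cases ?_ (fun j => ?_) i
    · simp [φ, ψ, L1x_SurfHD]
    · have e : (of j.succ : F_SurfHD h) = X_SurfHD h j := by simp [X_SurfHD]
      by_cases hj : j.val = 0 <;> simp [e, φ, ψ, L1x_SurfHD, L1X_SurfHD, hj, h1]
  have e0 : X_SurfHD h 0 = of (Fin.succ ⟨0, h1⟩) := dif_pos h1
  have h2 : Commute (φ z) (of (Fin.succ ⟨0, h1⟩)) := by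
    rw [← e0]
    simpa [φ, L1x_SurfHD, L1X_SurfHD, h1] using hz.map φ
  obtain ⟨m, hm⟩ := hD _ _ _ h2
  have h3 := congrArg ψ hm
  rw [← MonoidHom.comp_apply ψ φ, e, map_zpow, ← e0, L1X_SurfHD, if_pos h1, if_pos rfl] at h3
  exact ⟨m, h3⟩

/-- maps out of the surface group -/
def des_SurfHD {Q : Type} [Group Q] (f : G_SurfHD h →* Q) (hf : f (surfRel (h + 1)) = 1) :
    Surf (h + 1) →* Q := QuotientGroup.lift _ f
  (Subgroup.normalClosure_le_normal (N := f.ker) (Set.singleton_subset_iff.2 hf))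

/-- the projection to the surface group -/
def mk_SurfHD : G_SurfHD h →* Surf (h + 1) := PresentedGroup.mk _

theorem desmk_SurfHD {Q : Type} [Group Q] (f : G_SurfHD h →* Q) (hf : f (surfRel (h + 1)) = 1)
    (z : G_SurfHD h) : des_SurfHD h f hf (mk_SurfHD h z) = f z := rfl

theorem gen_SurfHD : Subgroup.closure (Set.range ((mk_SurfHD h).comp (s_SurfHD h)) ∪
    {mk_SurfHD h (of (Sum.inr 0))}) = ⊤ := by
  have k0 : ∀ (z) (hz : z ∈ E_SurfHD h), mk_SurfHD h (co_SurfHD h z false) ∈ Subgroup.closure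
      (Set.range ((mk_SurfHD h).comp (s_SurfHD h)) ∪ {mk_SurfHD h (of (Sum.inr 0))}) := fun z hz =>
    Subgroup.subset_closure (Or.inl ⟨⟨z, hz⟩, rfl⟩)
  refine (Subgroup.eq_top_iff' _).2 (PresentedGroup.generated_by _ _ ?_)
  rintro (i | i) <;> refine Fin.cases ?_ (fun j => ?_) i
  · exact Subgroup.subset_closure (Or.inl ⟨_, congrArg (mk_SurfHD h) (sc_SurfHD h)⟩)
  · have := k0 (W_SurfHD h j * (of 0 * X_SurfHD h j) * (W_SurfHD h j)⁻¹)
      (by simp [memE_SurfHD, coW_SurfHD, coX_SurfHD h j.2])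
    rwa [show co_SurfHD h _ false = of (Sum.inl j.succ) by
      simp [coc_mul, coc_inv, cox_SurfHD, coW_SurfHD, coX_SurfHD h j.2, mul_assoc, A_SurfHD]] at this
  · exact Subgroup.subset_closure (Or.inr rfl)
  · have := k0 (W_SurfHD h j * (X_SurfHD h j * (of 0)⁻¹) * (W_SurfHD h j)⁻¹)
      (by simp [memE_SurfHD, coW_SurfHD, coX_SurfHD h j.2])
    rwa [show co_SurfHD h _ false = of (Sum.inr j.succ) by
      simp [coc_mul, coc_inv, cox_SurfHD, coW_SurfHD, coX_SurfHD h j.2, mul_assoc, B_SurfHD]] at this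

end

theorem surfHD_ok (hD : CentD_st) : SurfHD_st := by
  intro h h1
  have hX := coX_SurfHD h h1
  have nY : ¬ Commute (X_SurfHD h 0 * (of 0)⁻¹)
      ((of 0 * of 0)⁻¹ * (X_SurfHD h 0 * (of 0)⁻¹) * (of 0 * of 0)) := fun e => by
    have h2 := (e.map (L1_SurfHD h (finRotate 3) fun _ => Equiv.swap 0 1)).eq
    simp only [_root_.map_mul, _root_.map_inv, L1x_SurfHD, L1X_SurfHD, if_pos (show 0 < h from h1)] at h2
    exact absurd h2 (by decide)
  have hk : ∀ (z : F_SurfHD h) (m : ℤ), (X_SurfHD h 0 * (of 0)⁻¹) ^ m ≠ z⁻¹ * W_SurfHD h h * z := by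
    intro z m e
    have h2 := congrArg (L1_SurfHD h (finRotate 3) fun j => if j = 0 then finRotate 3 else 1) e
    obtain ⟨j, rfl⟩ : ∃ j, h = j + 1 := ⟨h - 1, by omega⟩
    simp only [_root_.map_mul, _root_.map_inv, map_zpow, L1x_SurfHD, L1X_SurfHD, L1W_SurfHD _ _ _ _ h1,
      if_pos (show 0 < j + 1 from h1), if_true, mul_inv_cancel, one_zpow] at h2
    rw [mul_assoc, eq_inv_mul_iff_mul_eq, mul_one, right_eq_mul] at h2
    exact absurd h2 (by decide)
  have hl : L2_SurfHD h (Multiplicative.ofAdd (1 : ZMod 2)) 1 1 1 (surfRel (h + 1)) = 1 := by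
    simp [rel_SurfHD, L2a_SurfHD, L2t_SurfHD, L2Z_SurfHD]
  exact ⟨{
    i0 := 0
    i1 := Fin.succ ⟨0, h1⟩
    hi := (Fin.succ_ne_zero _).symm
    E := E_SurfHD h
    x := of 0
    c := W_SurfHD h h
    B := X_SurfHD h 0 * (of 0)⁻¹
    Y := of 0 * of 0
    s := (mk_SurfHD h).comp (s_SurfHD h)
    t := mk_SurfHD h (of (Sum.inr 0))
    θ := fun n => des_SurfHD h (th_SurfHD h n) (thR_SurfHD h n)
    lam := des_SurfHD h _ hl
    hx := by simp [memE_SurfHD]
    hE := hE_SurfHD h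
    hc := hc_SurfHD h h
    hc' := hd_SurfHD h
    hB := by simp [memE_SurfHD, hX.1]
    hB' := by simp [memE_SurfHD, hX.1]
    hY := hc_SurfHD h 0
    gen := gen_SurfHD h
    rel := by
      have e : mk_SurfHD h (surfRel (h + 1)) = 1 := PresentedGroup.one_of_mem (Set.mem_singleton _)
      simp only [rel_SurfHD, _root_.map_mul, _root_.map_inv] at e
      simp only [MonoidHom.comp_apply, sc_SurfHD, sd_SurfHD, _root_.map_mul]
      rw [← mul_eq_one_iff_inv_eq.1 e]
      group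
    θs := fun n e => ths_SurfHD h n e
    θt := fun n => by rw [desmk_SurfHD, th_SurfHD, L2t_SurfHD]
    c_ne := fun e => hk 1 0 (by simp [e])
    B_ne := fun e => nY (e ▸ Commute.one_left _)
    cent_c := centc_SurfHD h hD h1
    cent_B := centB_SurfHD h hD h1
    nc := fun z e => by
      obtain ⟨m, hm⟩ := centB_SurfHD h hD h1 (z⁻¹ * W_SurfHD h h * z) (by
        simpa [mul_assoc] using e.map (MulAut.conj z⁻¹))
      exact hk z m hm
    nY := nY
    hlam := by
      show L2_SurfHD h _ 1 1 1 (co_SurfHD h _ false) ≠ L2_SurfHD h _ 1 1 1 (co_SurfHD h _ false)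
      simp [coc_mul, coc_inv, cox_SurfHD, hX, U_SurfHD, L2a_SurfHD, L2A_SurfHD, L2B_SurfHD, L2Z_SurfHD] }⟩

end Pool.Agent.MP_692752_al

end

section

/-! Nielsen's theorem in rank two, from the tree properties of the word length. -/

set_option autoImplicit false

namespace Pool.Agent.MP_692752_al

open FreeGroup

/-- closure under the Nielsen moves and conjugation -/
structure Cl_Niel (P : F2 → F2 → Prop) : Prop where
  sy : ∀ u v, P u v → P v u
  iv : ∀ u v, P u v → P u⁻¹ v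
  mu : ∀ u v, P u v → P (u * v) v
  cj : ∀ u v z, P u v → P (z * u * z⁻¹) (z * v * z⁻¹)

namespace Cl_Niel
variable {P : F2 → F2 → Prop} (h : Cl_Niel P) {u v : F2}
include h

theorem sy_iff : P u v ↔ P v u := ⟨h.sy _ _, h.sy _ _⟩

theorem iv_iff : P u v ↔ P u⁻¹ v :=
  ⟨h.iv _ _, fun H => by simpa using h.iv _ _ H⟩

theorem iv_iff' : P u v ↔ P u v⁻¹ := by
  rw [h.sy_iff, h.iv_iff, h.sy_iff]

theorem mu_iff : P u v ↔ P (u * v) v :=
  ⟨h.mu _ _, fun H => by
    have := h.mu _ _ (h.iv_iff'.1 H)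
    rw [mul_inv_cancel_right] at this
    exact h.iv_iff'.2 this⟩

theorem cj_iff (z : F2) : P u v ↔ P (z * u * z⁻¹) (z * v * z⁻¹) :=
  ⟨h.cj _ _ z, fun H => by simpa [mul_assoc] using h.cj _ _ z⁻¹ H⟩

theorem mu_iff' : P u v ↔ P u (u * v) := by
  rw [h.sy_iff, h.mu_iff, h.cj_iff u, h.sy_iff]
  simp [mul_assoc]

end Cl_Niel

theorem gen_le_Niel {u v u' v' : F2} (hu : u ∈ Subgroup.closure ({u', v'} : Set F2))
    (hv : v ∈ Subgroup.closure ({u', v'} : Set F2))
    (h : Subgroup.closure ({u, v} : Set F2) = ⊤) : Subgroup.closure ({u', v'} : Set F2) = ⊤ := by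
  rw [eq_top_iff, ← h, Subgroup.closure_le]
  rintro x (rfl | rfl)
  · exact hu
  · exact hv

theorem gen_cl_Niel : Cl_Niel fun u v => Subgroup.closure ({u, v} : Set F2) = ⊤ := by
  have m1 : ∀ u v : F2, u ∈ Subgroup.closure ({u, v} : Set F2) := fun u v =>
    Subgroup.subset_closure (by simp)
  have m2 : ∀ u v : F2, v ∈ Subgroup.closure ({u, v} : Set F2) := fun u v =>
    Subgroup.subset_closure (by simp)
  refine ⟨fun u v => gen_le_Niel (m2 _ _) (m1 _ _), fun u v => gen_le_Niel ?_ (m2 _ _),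
    fun u v => gen_le_Niel ?_ (m2 _ _), fun u v z h => ?_⟩
  · simpa using Subgroup.inv_mem _ (m1 u⁻¹ v)
  · simpa using Subgroup.mul_mem _ (m1 (u * v) v) (Subgroup.inv_mem _ (m2 (u * v) v))
  · have := congrArg (Subgroup.map (MulAut.conj z).toMonoidHom) h
    rw [MonoidHom.map_closure, Subgroup.map_top_of_surjective _ (MulAut.conj z).surjective]
      at this
    simpa [Set.image_pair] using this

/-- a pair of least total length in its class -/
def Min_Niel (u v : F2) : Prop :=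
  ∀ u' v' : F2, (∀ P, Cl_Niel P → (P u v ↔ P u' v')) → u.norm + v.norm ≤ u'.norm + v'.norm

namespace Min_Niel
variable {a b : F2} (h : Min_Niel a b)
include h

theorem sy : Min_Niel b a := fun u' v' H => by
  have := h u' v' fun P hP => hP.sy_iff.trans (H P hP)
  omega

theorem iv : Min_Niel a⁻¹ b := fun u' v' H => by
  have := h u' v' fun P hP => hP.iv_iff.trans (H P hP)
  rwa [norm_inv_eq]

theorem iv' : Min_Niel a b⁻¹ := h.sy.iv.sy

theorem le1 : a.norm ≤ (a * b).norm := by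
  have := h (a * b) b fun P hP => hP.mu_iff
  omega

theorem le2 : b.norm ≤ (a * b).norm := by
  have := h a (a * b) fun P hP => hP.mu_iff'
  omega

theorem n2b (h4 : FourP_st) (hs : Sq_st) (ha : a ≠ 1) :
    b.norm + b⁻¹.norm < (b * a).norm + (a * b⁻¹).norm := by
  have e1 := h.sy.le1
  have e2 := h.iv'.le2
  have e3 := hs _ a ha
  have e4 := h4 _ a a⁻¹ 1 b⁻¹
  have e5 : (a⁻¹ * a⁻¹).norm = (a * a).norm := by rw [← mul_inv_rev, norm_inv_eq]
  have e6 : (a⁻¹ * b⁻¹).norm = (b * a).norm := by rw [← mul_inv_rev, norm_inv_eq]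
  simp only [inv_one, one_mul, mul_one, inv_inv, norm_inv_eq, e5, e6] at e2 e4 ⊢
  omega

theorem n2a (h4 : FourP_st) (hp : Pre_st) (hq : Par_st) (ha : a ≠ 1) :
    b.norm + b.norm < (b * a).norm + (a * b).norm := by
  have e1 := h.sy.le1
  have e2 := h.le2
  have e2' := h.le1
  by_contra hc
  have f1 : (b * a).norm = b.norm := by omega
  have f2 : (a * b).norm = b.norm := by omega
  have e3 := hq _ a b
  obtain ⟨k, hk⟩ : ∃ k, a.norm = k + k := by
    obtain ⟨m, hm⟩ := e3
    exact ⟨m - b.norm, by omega⟩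
  have k0 : a.norm ≠ 0 := fun H => ha (norm_eq_zero.1 H)
  obtain ⟨p, hp1, hp2⟩ := hp _ a k (by omega)
  obtain ⟨s, rfl⟩ : ∃ s, a = p * s := ⟨p⁻¹ * a, by simp⟩
  rw [inv_mul_cancel_left] at hp2
  have g1 := h4 _ 1 (p * s)⁻¹ s⁻¹ b
  have g2 := h4 _ 1 (p * s) p b⁻¹
  have g3 := h4 _ s⁻¹ (b * p) 1 b
  have i1 : ((p * s)⁻¹ * b⁻¹).norm = (b * (p * s)).norm := by rw [← mul_inv_rev, norm_inv_eq]
  have i2 : (p⁻¹ * b⁻¹).norm = (b * p).norm := by rw [← mul_inv_rev, norm_inv_eq]
  have i3 : ((p * s)⁻¹ * p).norm = s.norm := by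
    rw [← norm_inv_eq]; simp
  have i4 : ((b * p)⁻¹ * b).norm = p.norm := by
    rw [← norm_inv_eq]; simp
  simp only [inv_one, one_mul, mul_one, inv_inv, norm_inv_eq, i1, i2, i3, i4,
    mul_inv_cancel_right] at g1 g2 g3
  have g4 : (s * p).norm ≤ s.norm + p.norm := norm_mul_le _ _
  have g5 := h (s * p) (s * (b * p)) fun P hP => by
    rw [hP.sy_iff, hP.mu_iff, hP.sy_iff, hP.cj_iff s]
    simp [mul_assoc]
  omega

theorem n2 (h4 : FourP_st) (hp : Pre_st) (hq : Par_st) (hs : Sq_st) (ha : a ≠ 1) {x z : F2}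
    (hx : x = a ∨ x = b ∨ x = b⁻¹) (hz : z = a ∨ z = b ∨ z = b⁻¹) :
    x.norm + z.norm < (x * a).norm + (a * z).norm := by
  have e0 := hs _ a ha
  have e1 := h.sy.le1
  have e2 := h.le2
  have e3 := h.iv'.sy.le1
  have e4 := h.iv'.le2
  have e5 := h.n2a h4 hp hq ha
  have e6 := h.iv'.n2a h4 hp hq ha
  have e7 := h.n2b h4 hs ha
  have e8 := h.iv'.n2b h4 hs ha
  rw [inv_inv] at e8
  rcases hx with rfl | rfl | rfl <;> rcases hz with rfl | rfl | rfl <;> omega

theorem n1 (hs : Sq_st) (ha : a ≠ 1) {z : F2} (hz : z = a ∨ z = b ∨ z = b⁻¹) :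
    a.norm ≤ (a * z).norm ∧ z.norm ≤ (a * z).norm := by
  have e0 := hs _ a ha
  have e1 := h.le1
  have e2 := h.le2
  have e3 := h.iv'.le1
  have e4 := h.iv'.le2
  rcases hz with rfl | rfl | rfl <;> omega

end Min_Niel

theorem grow_Niel (h4' : Four_st) {β : Type} (l : β → F2) (r : β → β → Prop)
    (F2' : ∀ x y, r x y → (l x).norm ≤ (l x * l y).norm)
    (F3 : ∀ x y z, r x y → r y z → (l x).norm + (l z).norm < (l x * l y).norm + (l y * l z).norm)
    (L : List β) : ∀ (y : β) (w : F2), (y :: L).IsChain r →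
      (∀ z, r y z → w.norm + (l z).norm < (w * l y).norm + (l y * l z).norm) →
      (w * l y).norm ≤ (w * l y * (L.map l).prod).norm := by
  induction L with
  | nil => intro y w _ _; simp
  | cons z L ih =>
    intro y w hc hI
    rw [List.isChain_cons_cons] at hc
    have e1 := hI z hc.1
    have e2 := h4' _ w (l y) (l z)
    have e3 := F2' y z hc.1
    have e4 := ih z (w * l y) hc.2 fun t ht => by
      have := F3 y z t hc.1 ht
      omega
    rw [List.map_cons, List.prod_cons, ← mul_assoc]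
    omega

theorem nc_Niel : ¬ Commute (of 0 : F2) (of 1) := by
  unfold Commute SemiconjBy
  decide

theorem ne_one_Niel {u v : F2} (h : Subgroup.closure ({u, v} : Set F2) = ⊤) : v ≠ 1 := by
  rintro rfl
  have hle : Subgroup.closure ({u, 1} : Set F2) ≤ Subgroup.zpowers u := by
    rw [Subgroup.closure_le]
    rintro x (rfl | rfl)
    · exact Subgroup.mem_zpowers _
    · exact Subgroup.one_mem _
  rw [h] at hle
  obtain ⟨m, hm⟩ := hle (Subgroup.mem_top (of 0 : F2))
  obtain ⟨n, hn⟩ := hle (Subgroup.mem_top (of 1 : F2))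
  apply nc_Niel
  rw [← hm, ← hn]
  exact Commute.zpow_zpow_self u m n

/-- the letters of a pair -/
def lt_Niel (u v : F2) (x : Fin 2 × Bool) : F2 := cond x.2 (![u, v] x.1) (![u, v] x.1)⁻¹

theorem nb_Niel {u v : F2} (h : Min_Niel u v) (y : Fin 2 × Bool) :
    ∃ b, Min_Niel (lt_Niel u v y) b ∧ ∀ x : Fin 2 × Bool, (x.1 = y.1 → x.2 = y.2) →
      lt_Niel u v x = lt_Niel u v y ∨ lt_Niel u v x = b ∨ lt_Niel u v x = b⁻¹ := by
  obtain ⟨i, c⟩ := y
  fin_cases i <;> cases c
  · refine ⟨v, h.iv, fun ⟨j, d⟩ => ?_⟩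
    fin_cases j <;> cases d <;> simp [lt_Niel]
  · refine ⟨v, h, fun ⟨j, d⟩ => ?_⟩
    fin_cases j <;> cases d <;> simp [lt_Niel]
  · refine ⟨u, h.sy.iv, fun ⟨j, d⟩ => ?_⟩
    fin_cases j <;> cases d <;> simp [lt_Niel]
  · refine ⟨u, h.sy, fun ⟨j, d⟩ => ?_⟩
    fin_cases j <;> cases d <;> simp [lt_Niel]

theorem letter_Niel (h4 : FourP_st) (h4' : Four_st) (hp : Pre_st) (hq : Par_st) (hs : Sq_st)
    {u v : F2} (hg : Subgroup.closure ({u, v} : Set F2) = ⊤) (h : Min_Niel u v) (i : Fin 2) :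
    ∃ x, lt_Niel u v x = of i := by
  have hv := ne_one_Niel hg
  have hu := ne_one_Niel (gen_cl_Niel.sy _ _ hg)
  have F1 : ∀ x, lt_Niel u v x ≠ 1 := by
    rintro ⟨j, d⟩
    fin_cases j <;> cases d <;> simp [lt_Niel, hu, hv]
  have F2' : ∀ x y : Fin 2 × Bool, (x.1 = y.1 → x.2 = y.2) →
      (lt_Niel u v x).norm ≤ (lt_Niel u v x * lt_Niel u v y).norm ∧
      (lt_Niel u v y).norm ≤ (lt_Niel u v x * lt_Niel u v y).norm := fun x y hxy => by
    obtain ⟨b, hb, hb'⟩ := nb_Niel h x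
    exact hb.n1 hs (F1 x) (hb' y fun e => (hxy e.symm).symm)
  have F3 : ∀ x y z : Fin 2 × Bool, (x.1 = y.1 → x.2 = y.2) → (y.1 = z.1 → y.2 = z.2) →
      (lt_Niel u v x).norm + (lt_Niel u v z).norm <
        (lt_Niel u v x * lt_Niel u v y).norm + (lt_Niel u v y * lt_Niel u v z).norm :=
    fun x y z hxy hyz => by
      obtain ⟨b, hb, hb'⟩ := nb_Niel h y
      exact hb.n2 h4 hp hq hs (F1 y) (hb' x hxy) (hb' z fun e => (hyz e.symm).symm)
  have hr : (of i : F2) ∈ (FreeGroup.lift ![u, v] : F2 →* F2).range := by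
    rw [FreeGroup.range_lift_eq_closure]
    have : Set.range ![u, v] = {u, v} := by simp [Set.pair_comm]
    rw [this, hg]
    trivial
  obtain ⟨g, hg'⟩ := hr
  have hw : ((g.toWord).map (lt_Niel u v)).prod = of i := by
    rw [← hg']
    conv_rhs => rw [← mk_toWord (x := g), lift_mk]
    rfl
  have hred : g.toWord.IsChain fun x y => x.1 = y.1 → x.2 = y.2 := isReduced_toWord
  generalize g.toWord = L at hw hred
  have hn : (L.map (lt_Niel u v)).prod.norm = 1 := by rw [hw, norm_of]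
  match L, hw, hred, hn with
  | [], _, _, hn => simp at hn
  | [x], hw, _, _ => exact ⟨x, by simpa using hw⟩
  | x :: y :: L, _, hred, hn =>
    exfalso
    rw [List.isChain_cons_cons] at hred
    have e1 := grow_Niel h4' (lt_Niel u v) _ (fun x y H => (F2' x y H).1) F3 L y
      (lt_Niel u v x) hred.2 fun z hz => F3 x y z hred.1 hz
    have e2 := F2' x y hred.1
    have e3 : (lt_Niel u v x).norm ≠ 0 := fun H => F1 x (norm_eq_zero.1 H)
    have e4 : (lt_Niel u v y).norm ≠ 0 := fun H => F1 y (norm_eq_zero.1 H)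
    obtain ⟨m, hm⟩ := hq _ (lt_Niel u v x) (lt_Niel u v y)
    rw [List.map_cons, List.map_cons, List.prod_cons, List.prod_cons, ← mul_assoc] at hn
    omega

theorem niel_ok (h4 : FourP_st) (h4' : Four_st) (hp : Pre_st) (hq : Par_st) (hs : Sq_st) :
    Niel_st := by
  intro P h0 p1 p2 p3 p4 u v hg
  have hP : Cl_Niel P := ⟨p1, p2, p3, p4⟩
  induction hn : u.norm + v.norm using Nat.strong_induction_on generalizing u v with
  | _ n ih =>
    by_cases hm : Min_Niel u v
    · obtain ⟨⟨i, c⟩, hx⟩ := letter_Niel h4 h4' hp hq hs hg hm 0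
      obtain ⟨⟨j, d⟩, hy⟩ := letter_Niel h4 h4' hp hq hs hg hm 1
      have hnc := nc_Niel
      rw [← hx, ← hy] at h0 hnc
      fin_cases i <;> fin_cases j <;> cases c <;> cases d <;>
        simp only [lt_Niel, cond_true, cond_false, Fin.zero_eta, Fin.mk_one, Fin.isValue,
          Matrix.cons_val_zero, Matrix.cons_val_one, Matrix.cons_val_fin_one, ← hP.iv_iff,
          ← hP.iv_iff', Commute.inv_left_iff, Commute.inv_right_iff, Commute.refl,
          not_true_eq_false] at h0 hnc <;>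
        first | exact h0 | exact hP.sy _ _ h0
    · unfold Min_Niel at hm
      push Not at hm
      obtain ⟨u', v', H, hlt⟩ := hm
      exact (H P hP).2 (ih _ (hn ▸ hlt) u' v' ((H _ gen_cl_Niel).1 hg) rfl)

end Pool.Agent.MP_692752_al

end

section

/-! The principal congruence subgroup of level four lies in `Inn * jj F2`. -/

set_option autoImplicit false

namespace Pool.Agent.MP_692752_al

open FreeGroup

abbrev Wd_Gam4 := List (Fin 2 × Bool)

/-- coset representatives -/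
def rep_Gam4 : Fin 24 → Wd_Gam4 × Wd_Gam4 :=
  ![([(0, true)], [(1, true)]),
    ([(1, true)], [(0, true)]),
    ([(0, false)], [(1, true)]),
    ([(0, true), (1, true)], [(1, true)]),
    ([(1, false)], [(0, true)]),
    ([(1, true), (0, true)], [(0, true)]),
    ([(1, true)], [(0, false)]),
    ([(0, false), (1, true)], [(1, true)]),
    ([(1, true)], [(0, true), (1, true)]),
    ([(0, true)], [(1, false)]),
    ([(1, false), (0, true)], [(0, true)]),
    ([(0, true)], [(1, true), (0, true)]),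
    ([(1, false)], [(0, false)]),
    ([(1, true), (0, false)], [(0, false)]),
    ([(1, true)], [(0, false), (1, true)]),
    ([(1, false)], [(0, true), (1, true)]),
    ([(0, true)], [(1, false), (0, true)]),
    ([(0, false)], [(1, false)]),
    ([(0, true), (1, false)], [(1, false)]),
    ([(0, false)], [(1, true), (0, true)]),
    ([(1, false), (0, false)], [(0, false)]),
    ([(1, false)], [(0, false), (1, true)]),
    ([(0, false)], [(1, false), (0, false)]),
    ([(0, false), (1, false)], [(1, false)])]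

/-- the table of the three moves -/
def tab_Gam4 : Fin 24 → Fin 3 → Fin 24 × Wd_Gam4 × Wd_Gam4 :=
  ![![(1, [], []), (2, [], []), (3, [], [])],
    ![(0, [], []), (4, [], []), (5, [], [])],
    ![(6, [], []), (0, [], []), (7, [], [])],
    ![(8, [], []), (7, [(0, true)], [(1, true)]), (0, [(0, true)], [])],
    ![(9, [], []), (1, [], []), (10, [], [])],
    ![(11, [], []), (10, [(1, true)], [(0, true)]), (1, [(1, true)], [])],
    ![(2, [], []), (12, [], []), (13, [], [])],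
    ![(14, [], []), (3, [(0, false)], [(1, false)]), (2, [(0, false)], [(1, false), (1, false)])],
    ![(3, [], []), (15, [], []), (16, [(0, true)], [(1, true)])],
    ![(4, [], []), (17, [], []), (18, [], [])],
    ![(16, [], []), (5, [(1, false)], [(0, false)]), (4, [(1, false)], [(0, false), (0, false)])],
    ![(5, [], []), (19, [], []), (14, [(1, true)], [(0, true)])],
    ![(17, [], []), (6, [], []), (20, [], [])],
    ![(19, [(1, false)], []), (20, [(1, false)], [(0, false)]), (6, [(1, false)], [])],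
    ![(7, [], []), (21, [], []), (22, [(0, false)], [(1, false)])],
    ![(18, [(0, true)], []), (8, [], []), (11, [], [(1, false)])],
    ![(10, [], []), (22, [(1, false)], [(0, false), (0, false)]), (21, [(1, false), (0, true)], [(0, false), (1, true), (0, false), (0, false), (1, true), (0, false), (0, false)])],
    ![(12, [], []), (9, [], []), (23, [], [])],
    ![(15, [(0, false)], []), (23, [(0, false)], [(1, false)]), (9, [(0, false)], [])],
    ![(13, [(1, true)], []), (11, [], []), (8, [], [(0, false)])],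
    ![(22, [], []), (13, [(1, true)], [(0, true)]), (12, [(1, true)], [(0, true), (0, true)])],
    ![(23, [(0, false)], [(1, false), (1, false)]), (14, [], []), (19, [(1, false)], [(1, false)])],
    ![(20, [], []), (16, [(1, true)], [(0, true), (0, true)]), (15, [(1, true), (0, false)], [(0, true)])],
    ![(21, [(0, true)], [(1, true), (1, true)]), (18, [(0, true)], [(1, true)]), (17, [(0, true)], [(1, true), (1, true)])]]

def mv_Gam4 (n : Fin 3) (u v : F2) : F2 × F2 := ![(v, u), (u⁻¹, v), (u * v, v)] n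

theorem chk_Gam4 : ∀ (i : Fin 24) (n : Fin 3),
    mv_Gam4 n (mk (rep_Gam4 i).1) (mk (rep_Gam4 i).2) =
      (mk (tab_Gam4 i n).2.2 * jj (mk (tab_Gam4 i n).2.1) (mk (rep_Gam4 (tab_Gam4 i n).1).1) *
          (mk (tab_Gam4 i n).2.2)⁻¹,
        mk (tab_Gam4 i n).2.2 * jj (mk (tab_Gam4 i n).2.1) (mk (rep_Gam4 (tab_Gam4 i n).1).2) *
          (mk (tab_Gam4 i n).2.2)⁻¹) := by
  decide +kernel

def Good_Gam4 (u v : F2) : Prop := ∃ (i : Fin 24) (γ w : F2),
  u = γ * jj w (mk (rep_Gam4 i).1) * γ⁻¹ ∧ v = γ * jj w (mk (rep_Gam4 i).2) * γ⁻¹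

theorem step_Gam4 (n : Fin 3) (u v : F2) (h : Good_Gam4 u v) :
    Good_Gam4 (mv_Gam4 n u v).1 (mv_Gam4 n u v).2 := by
  obtain ⟨i, γ, w, rfl, rfl⟩ := h
  have hc := chk_Gam4 i n
  refine ⟨(tab_Gam4 i n).1, γ * jj w (mk (tab_Gam4 i n).2.2), w * mk (tab_Gam4 i n).2.1, ?_, ?_⟩
  · have h1 := congrArg (fun z => γ * jj w z.1 * γ⁻¹) hc
    simp only [_root_.map_mul, _root_.map_inv] at h1
    rw [_root_.map_mul, MulAut.mul_apply]
    refine Eq.trans ?_ (h1.trans (by group))
    generalize mk (rep_Gam4 i).1 = p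
    generalize mk (rep_Gam4 i).2 = q
    fin_cases n <;> simp [mv_Gam4, mul_assoc]
  · have h1 := congrArg (fun z => γ * jj w z.2 * γ⁻¹) hc
    simp only [_root_.map_mul, _root_.map_inv] at h1
    rw [_root_.map_mul, MulAut.mul_apply]
    refine Eq.trans ?_ (h1.trans (by group))
    generalize mk (rep_Gam4 i).1 = p
    generalize mk (rep_Gam4 i).2 = q
    fin_cases n <;> simp [mv_Gam4]

abbrev Z4_Gam4 := Multiplicative (ZMod 4 × ZMod 4)

def ff_Gam4 (a b : Fin 2) : F2 →* Z4_Gam4 :=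
  FreeGroup.lift ![Multiplicative.ofAdd (1, 2 * (a.val : ZMod 4)),
    Multiplicative.ofAdd (2 * (b.val : ZMod 4), 1)]

theorem ff_step_Gam4 : ∀ (a b : Fin 2) (i : Fin 2) (s : Bool), ∃ a' b' : Fin 2,
    ∀ k : Fin 2, ff_Gam4 a b (jj (mk [(i, s)]) (of k)) = ff_Gam4 a' b' (of k) := by
  decide +kernel

theorem ff_rep_Gam4 : ∀ (a b : Fin 2) (i : Fin 24),
    ff_Gam4 a b (mk (rep_Gam4 i).1) = ab4 (of 0) → ff_Gam4 a b (mk (rep_Gam4 i).2) = ab4 (of 1) →
      mk (rep_Gam4 i).1 = of 0 ∧ mk (rep_Gam4 i).2 = of 1 := by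
  decide +kernel

theorem ff_jj_Gam4 (w : F2) : ∀ a b : Fin 2, ∃ a' b' : Fin 2,
    ∀ z, ff_Gam4 a b (jj w z) = ff_Gam4 a' b' z := by
  have key : ∀ (a b i : Fin 2) (s : Bool), ∃ a' b' : Fin 2,
      ∀ z, ff_Gam4 a b (jj (mk [(i, s)]) z) = ff_Gam4 a' b' z := by
    intro a b i s
    obtain ⟨a', b', h⟩ := ff_step_Gam4 a b i s
    refine ⟨a', b', fun z => ?_⟩
    have : (ff_Gam4 a b).comp (jj (mk [(i, s)])).toMonoidHom = ff_Gam4 a' b' := by
      ext k : 1
      exact h k
    exact DFunLike.congr_fun this z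
  induction w using FreeGroup.induction_on with
  | C1 => exact fun a b => ⟨a, b, by simp⟩
  | of i => exact fun a b => key a b i true
  | inv_of i _ => exact fun a b => key a b i false
  | mul w w' hw hw' =>
    intro a b
    obtain ⟨a', b', h⟩ := hw a b
    obtain ⟨a'', b'', h'⟩ := hw' a' b'
    exact ⟨a'', b'', fun z => by rw [_root_.map_mul, MulAut.mul_apply, h, h']⟩

theorem gam4_ok (hN : Niel_st) : Gam4_st := by
  intro φ hφ
  have hgen : Subgroup.closure ({φ (of 0), φ (of 1)} : Set F2) = ⊤ := by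
    have h1 : ({φ (of 0), φ (of 1)} : Set F2) = φ.toMonoidHom '' Set.range of := by
      ext z
      simp [Fin.exists_fin_two, eq_comm]
    rw [h1, ← MonoidHom.map_closure, FreeGroup.closure_range_of]
    exact Subgroup.map_top_of_surjective _ φ.surjective
  have hg : Good_Gam4 (φ (of 0)) (φ (of 1)) := by
    refine hN Good_Gam4 ⟨0, 1, 1, by simp; rfl, by simp; rfl⟩ (step_Gam4 0) (step_Gam4 1)
      (step_Gam4 2) ?_ _ _ hgen
    rintro u v z ⟨i, γ, w, rfl, rfl⟩
    exact ⟨i, z * γ, w, by group, by group⟩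
  obtain ⟨i, γ, w, h0, h1⟩ := hg
  have hab : ab4 = ff_Gam4 0 0 := by
    ext k : 1
    fin_cases k <;> rfl
  obtain ⟨a, b, hab'⟩ := ff_jj_Gam4 w 0 0
  have hc : ∀ z, ab4 (γ * jj w z * γ⁻¹) = ff_Gam4 a b z := by
    intro z
    rw [← hab', ← hab, _root_.map_mul, _root_.map_mul, _root_.map_inv, mul_inv_cancel_comm]
  obtain ⟨e0, e1⟩ := ff_rep_Gam4 a b i (by rw [← hc, ← h0, hφ]) (by rw [← hc, ← h1, hφ])
  rw [e0] at h0
  rw [e1] at h1
  refine ⟨γ, w, fun z => ?_⟩
  have : φ.toMonoidHom = ((MulAut.conj γ) * jj w).toMonoidHom := by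
    ext k : 1
    fin_cases k
    · simpa [MulAut.conj_apply] using h0
    · simpa [MulAut.conj_apply] using h1
  simpa [MulAut.conj_apply] using DFunLike.congr_fun this z

end Pool.Agent.MP_692752_al

end

section

/-! The congruence topology of `Aut F2` induces the full profinite topology on `jj F2`. -/

set_option autoImplicit false

namespace Pool.Agent.MP_692752_al

open FreeGroup

abbrev V_As := Bool × Bool

def sg_As : Fin 2 → Equiv.Perm V_As :=
  ![⟨fun v => (!v.1, v.2), fun v => (!v.1, v.2), by decide, by decide⟩,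
    ⟨fun v => (v.1, !v.2), fun v => (v.1, !v.2), by decide, by decide⟩]

def kk_As : Fin 2 → V_As → F2 :=
  ![fun v => if v.1 then 1 else if v.2 then of 1 else (of 1)⁻¹,
    fun v => if v.2 then 1 else if v.1 then of 0 else (of 0)⁻¹]

def gg_As (i : Fin 2) (s : Bool) (v : V_As) : F2 :=
  if (![v.1, v.2] : Fin 2 → Bool) i then 1 else mk [(i, s)]

def cc_As : F2 := of 0 * of 1 * (of 0)⁻¹ * (of 1)⁻¹

def R_As (α : MulAut F2) (g : V_As → F2) (z : F2) : Prop :=
  ∀ v, FreeGroup.lift sg_As (α z) v = FreeGroup.lift sg_As z v ∧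
    coc sg_As kk_As (α z) v = g (FreeGroup.lift sg_As z v) * coc sg_As kk_As z v * (g v)⁻¹

theorem R_all_As (α : MulAut F2) (g : V_As → F2) (h : ∀ i, R_As α g (of i)) (z : F2) :
    R_As α g z := by
  induction z using FreeGroup.induction_on with
  | C1 => intro v; simp [coc_one]
  | of i => exact h i
  | inv_of i hi =>
    intro v
    have h1 : FreeGroup.lift sg_As (α (of i)) = FreeGroup.lift sg_As (of i) :=
      Equiv.ext fun v => (hi v).1
    have h2 : FreeGroup.lift sg_As (α (of i))⁻¹ = FreeGroup.lift sg_As (of i)⁻¹ := by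
      rw [_root_.map_inv, _root_.map_inv, h1]
    rw [_root_.map_inv, h2]
    refine ⟨rfl, ?_⟩
    rw [coc_inv, coc_inv, h2, (hi _).2, ← Equiv.Perm.mul_apply, ← _root_.map_mul, mul_inv_cancel,
      _root_.map_one, Equiv.Perm.one_apply]
    group
  | mul a b ha hb =>
    intro v
    rw [_root_.map_mul, coc_mul, coc_mul, _root_.map_mul, _root_.map_mul, Equiv.Perm.mul_apply,
      Equiv.Perm.mul_apply, (hb v).1, (ha _).1, (ha _).2, (hb v).2]
    exact ⟨rfl, by group⟩

theorem R_gen_As : ∀ (i : Fin 2) (s : Bool) (k : Fin 2),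
    R_As (jj (mk [(i, s)])) (gg_As i s) (of k) := by
  unfold R_As
  decide +kernel

theorem R_jj_As (w : F2) : ∃ g : V_As → F2, g (false, false) = w ∧ ∀ z, R_As (jj w) g z := by
  induction w using FreeGroup.induction_on with
  | C1 => exact ⟨fun _ => 1, rfl, fun z v => by simp⟩
  | of i => exact ⟨gg_As i true, by revert i; decide, R_all_As _ _ (R_gen_As i true)⟩
  | inv_of i hi => exact ⟨gg_As i false, by clear hi; revert i; decide, R_all_As _ _ (R_gen_As i false)⟩
  | mul a b ha hb =>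
    obtain ⟨g, h0, hg⟩ := ha
    obtain ⟨g', h0', hg'⟩ := hb
    refine ⟨fun v => g v * g' v, by simp [h0, h0'], fun z v => ?_⟩
    rw [_root_.map_mul, MulAut.mul_apply, (hg _ v).1, (hg _ v).2, (hg' z v).1, (hg' z v).2]
    exact ⟨rfl, by group⟩

theorem jj_cc_As (w : F2) : jj w cc_As = cc_As := by
  have h : ∀ (i : Fin 2) (s : Bool), jj (mk [(i, s)]) cc_As = cc_As := by decide +kernel
  induction w using FreeGroup.induction_on with
  | C1 => simp
  | of i => exact h i true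
  | inv_of i _ => exact h i false
  | mul a b ha hb => rw [_root_.map_mul, MulAut.mul_apply, hb, ha]

def t3_As : F2 →* Multiplicative (ZMod 3) :=
  FreeGroup.lift ![Multiplicative.ofAdd 1, Multiplicative.ofAdd 2]

theorem t3_cc_As : ∀ v : V_As, t3_As (coc sg_As kk_As cc_As v) = 1 → v = (false, false) := by
  decide +kernel

theorem coc_map_As {ι V Γ Γ' : Type} [Group Γ] [Group Γ'] (σ : ι → Equiv.Perm V) (k : ι → V → Γ)
    (f : Γ →* Γ') (a : FreeGroup ι) (v : V) :
    coc σ (fun i v => f (k i v)) a v = f (coc σ k a v) := by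
  induction a using FreeGroup.induction_on generalizing v with
  | C1 => simp [coc_one]
  | of i => simp [coc_of]
  | inv_of i hi => rw [coc_inv, coc_inv, hi, f.map_inv]
  | mul a b ha hb => rw [coc_mul, coc_mul, ha, hb, _root_.map_mul]

theorem asada_ok (hF : CF_st) : Asada_st := by
  classical
  intro Q _ _ π
  obtain ⟨Q', _, _, π', hπ'⟩ := hF (Fin 2) 0 1 (by decide) Q π
  let π1 : F2 →* Q' × Multiplicative (ZMod 3) := π'.prod t3_As
  let σ : Fin 2 → Equiv.Perm (V_As × (Q' × Multiplicative (ZMod 3))) :=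
    fun i => cocP sg_As (fun i v => π1 (kk_As i v)) (of i)
  have hσ : ∀ a v q, FreeGroup.lift σ a (v, q) =
      (FreeGroup.lift sg_As a v, π1 (coc sg_As kk_As a v) * q) := by
    intro a v q
    have : FreeGroup.lift σ = cocP sg_As (fun i v => π1 (kk_As i v)) := by
      ext i : 1
      simp [σ]
    rw [this, cocP_apply, coc_map_As]
  let fl : Fin 2 → V_As × (Q' × Multiplicative (ZMod 3)) → Multiplicative (ZMod 2) :=
    fun i z => if i = 0 ∧ z = ((true, false), 1) then Multiplicative.ofAdd 1 else 1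
  have hc : ∀ q e, cocP σ fl cc_As (((false, false), q), e) =
      (((false, false), q), (if q = 1 then Multiplicative.ofAdd 1 else 1) * e) := by
    intro q e
    have h1 : cocP σ fl (of 1 * of 0) (((true, true), q), e) = (((false, false), q), e) := by
      simp [cocP_of, σ, fl, sg_As, kk_As]
    rw [← h1, ← Equiv.Perm.mul_apply, ← _root_.map_mul,
      show cc_As * (of 1 * of 0) = of 0 * of 1 by simp [cc_As]]
    simp [cocP_of, σ, fl, sg_As, kk_As]
  refine ⟨_, inferInstance, inferInstance, cocP σ fl, fun γ w h => ?_⟩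
  have h1 := h cc_As
  rw [jj_cc_As, _root_.map_mul, _root_.map_mul, _root_.map_inv, mul_inv_eq_iff_eq_mul] at h1
  have h2 := DFunLike.congr_fun h1 (((false, false), 1), 1)
  rw [Equiv.Perm.mul_apply, Equiv.Perm.mul_apply, hc, cocP_apply σ fl γ, cocP_apply σ fl γ,
    hσ] at h2
  set v := FreeGroup.lift sg_As γ (false, false) with hv
  set q := π1 (coc sg_As kk_As γ (false, false)) * 1 with hq
  have hv0 : v = (false, false) := by
    rw [cocP_apply, hσ] at h2
    have h3 : q = π1 (coc sg_As kk_As cc_As v) * q := congrArg (fun z => z.1.2) h2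
    have h4 : π1 (coc sg_As kk_As cc_As v) = 1 := by simpa using h3
    exact t3_cc_As v (congrArg Prod.snd h4)
  have hq0 : q = 1 := by
    rw [hv0, hc] at h2
    have h3 := congrArg Prod.snd h2
    by_contra hne
    simp [hne] at h3
  have hγ : ∀ r, FreeGroup.lift σ γ ((false, false), r) = ((false, false), r) := by
    intro r
    rw [hσ, ← hv, hv0, ← mul_one (π1 _), ← hq, hq0, one_mul]
  obtain ⟨g, hg0, hg⟩ := R_jj_As w
  have key : ∀ δ : F2, FreeGroup.lift sg_As δ (false, false) = (false, false) →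
      Commute (π' w) (π' (coc sg_As kk_As δ (false, false))) := by
    intro δ hδ
    have h3 := h δ
    rw [_root_.map_mul, _root_.map_mul, _root_.map_inv, mul_inv_eq_iff_eq_mul] at h3
    have h4 := congrArg Prod.fst (DFunLike.congr_fun h3 (((false, false), 1), 1))
    simp only [Equiv.Perm.mul_apply, cocP_apply] at h4
    rw [hγ, hσ (jj w δ), (hg δ _).1, (hg δ _).2, hδ, hγ, hσ, hg0] at h4
    have h5 : π' (w * coc sg_As kk_As δ (false, false) * w⁻¹) * 1 =
        π' (coc sg_As kk_As δ (false, false)) * 1 := congrArg (fun z => z.2.1) h4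
    rw [mul_one, mul_one, _root_.map_mul, _root_.map_mul, _root_.map_inv,
      mul_inv_eq_iff_eq_mul] at h5
    exact h5
  have k0 := key (of 1 * of 1)⁻¹ (by decide +kernel)
  have k1 := key (of 0 * of 0)⁻¹ (by decide +kernel)
  rw [show coc sg_As kk_As (of 1 * of 1)⁻¹ (false, false) = of 0 by decide +kernel] at k0
  rw [show coc sg_As kk_As (of 0 * of 0)⁻¹ (false, false) = of 1 by decide +kernel] at k1
  exact hπ' w k0 k1

end Pool.Agent.MP_692752_al

end
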