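import Pool.Agent.Mg.F692752.Ge7ea3c
import Pool.Agent.Mg.F692752.G94411f

section

/-! Consequences of the completion of finite pieces of actions of free groups. -/

set_option autoImplicit false

namespace Pool.Agent.MP_692752_al

open FreeGroup

theorem smul_base_Hall {G : Type} [Group G] (Y : Subgroup G) (a : G) :
    a • ((1 : G) : G ⧸ Y) = ((1 : G) : G ⧸ Y) ↔ a ∈ Y := by
  rw [MulAction.Quotient.smul_coe, smul_eq_mul, mul_one, QuotientGroup.eq, mul_one,
    Subgroup.inv_mem_iff]

theorem hall_ok (h : CP_st) : Hall_st := by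
  intro ι hι Y hY a ha
  obtain ⟨T, hT, hfin⟩ := (Subgroup.fg_iff Y).1 hY
  obtain ⟨S, hS, π, e, he, hW, -, -⟩ := h ι (FreeGroup ι ⧸ Y) hι.some
    ((fun y => (y, ((1 : FreeGroup ι) : FreeGroup ι ⧸ Y))) '' insert a T)
    ((hfin.insert a).image _)
  obtain ⟨q, hq, hqa⟩ := hW _ ⟨a, Set.mem_insert _ _, rfl⟩
  have hK : ((MulAction.stabilizer (Equiv.Perm S) q).comap π).FiniteIndex := by
    refine Subgroup.finiteIndex_of_le (H := π.ker) fun x hx => ?_
    rw [Subgroup.mem_comap, MonoidHom.mem_ker.1 hx]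
    exact one_mem _
  have hle : Y ≤ (MulAction.stabilizer (Equiv.Perm S) q).comap π := by
    rw [← hT, Subgroup.closure_le]
    intro y hy
    obtain ⟨q', hq', hqy⟩ := hW _ ⟨y, Set.mem_insert_of_mem _ hy, rfl⟩
    have h1 : q' = q := he (hq'.trans hq.symm)
    subst h1
    have h2 : y ∈ Y := hT ▸ Subgroup.subset_closure hy
    exact he (hqy.trans (((smul_base_Hall Y y).2 h2).trans hq'.symm))
  have h3 : π a q = q := ha _ hK hle
  rw [h3] at hqa
  exact (smul_base_Hall Y a).1 (hqa.symm.trans hq)

theorem rf_ok (h : CP_st) : RF_st := by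
  intro ι a ha
  rcases isEmpty_or_nonempty ι with hι | hι
  · exact absurd (Subsingleton.elim a 1) ha
  obtain ⟨S, hS, π, e, -, hW, -, -⟩ := h ι (FreeGroup ι) hι.some {(a, 1)} (Set.finite_singleton _)
  obtain ⟨q, hq, hqa⟩ := hW _ rfl
  refine ⟨Equiv.Perm S, inferInstance, inferInstance, π, fun h1 => ha ?_⟩
  simp only [h1, Equiv.Perm.one_apply, smul_eq_mul, mul_one] at hqa hq
  exact hqa.symm.trans hq

theorem cs_ok (h : CP_st) : CS_st := by
  classical
  intro ι i y hy
  obtain ⟨S, hS, π, e, he, hW, hfix, -⟩ := h ι (FreeGroup ι ⧸ Subgroup.zpowers y) i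
    {(y, ((1 : FreeGroup ι) : FreeGroup ι ⧸ Subgroup.zpowers y))} (Set.finite_singleton _)
  obtain ⟨q, hq, hqy⟩ := hW _ rfl
  have h1 : π y q = q :=
    he (hqy.trans (((smul_base_Hall _ y).2 (Subgroup.mem_zpowers y)).trans hq.symm))
  obtain ⟨c, hc⟩ := isConj_iff.1 (hy (Equiv.Perm S) π)
  have h2 : π (of i) (c⁻¹ q) = c⁻¹ q := by
    have h3 : π (of i) = c⁻¹ * π y * c := by rw [← hc]; group
    rw [h3]
    simp [h1]
  have h4 := hfix _ h2
  obtain ⟨v, hv⟩ := QuotientGroup.mk_surjective (e (c⁻¹ q))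
  rw [← hv, MulAction.Quotient.smul_coe, smul_eq_mul, eq_comm, QuotientGroup.eq] at h4
  obtain ⟨k, hk⟩ := Subgroup.mem_zpowers_iff.1 h4
  let σ : FreeGroup ι →* Multiplicative ℤ :=
    FreeGroup.lift fun j => if j = i then Multiplicative.ofAdd 1 else 1
  have hσ : σ (of i) = Multiplicative.ofAdd 1 := by simp [σ]
  have h5 : k * Multiplicative.toAdd (σ y) = 1 := by
    have h6 := congrArg (fun z => Multiplicative.toAdd (σ z)) hk
    simp only [map_zpow, _root_.map_mul, _root_.map_inv, hσ, toAdd_zpow, toAdd_mul, toAdd_inv,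
      toAdd_ofAdd, smul_eq_mul] at h6
    linarith
  have h7 : ((Multiplicative.toAdd (σ y) : ℤ) : ZMod 3) = 1 := by
    have h8 := isConj_iff_eq.1 (hy (Multiplicative (ZMod 3))
      ((AddMonoidHom.toMultiplicative (Int.castAddHom (ZMod 3))).comp σ))
    have h9 := congrArg Multiplicative.toAdd h8
    simpa [hσ] using h9.symm
  have h10 : k = 1 := by
    rcases Int.eq_one_or_neg_one_of_mul_eq_one' h5 with h | h
    · exact h.1
    · rw [h.2] at h7
      exact absurd h7 (by decide)
  rw [h10, zpow_one] at hk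
  exact isConj_iff.2 ⟨v⁻¹, by rw [hk]; group⟩

end Pool.Agent.MP_692752_al

end

section

/-! The data for the surface of genus two with two punctures. -/

set_option autoImplicit false

namespace Pool.Agent.MP_692752_al

open FreeGroup

def nB : Wd 5 :=
    [(2, false), (3, false)]

def cB : Wd 5 :=
    [(0, true), (2, false), (3, false)]

def DB : Fin 5 → Wd 5 :=
    ![[(0, true)], [(2, false), (3, false), (1, true), (0, true)], [(2, false), (3, false), (2,
    true), (3, true), (2, true)], [(2, false), (3, true), (2, true)], [(2, false), (3, false),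
    (4, true), (3, true), (2, true)]]

def DiB : Fin 5 → Wd 5 :=
    ![[(0, true)], [(3, true), (2, true), (1, true), (0, false)], [(3, true), (2, true), (3,
    false)], [(3, true), (2, true), (3, true), (2, false), (3, false)], [(3, true), (2, true),
    (4, true), (2, false), (3, false)]]

theorem okDB : ∀ i, apW DB (DiB i) = [(i, true)] ∧ apW DiB (DB i) = [(i, true)] := by
  decide +kernel

def nuB : Fin 5 → Wd 5 :=
    ![[(0, true)], [(1, true)], [(2, false), (3, false)], [(3, true)], [(4, true)]]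

def nuiB : Fin 5 → Wd 5 :=
    ![[(0, true)], [(1, true)], [(3, false), (2, false)], [(3, true)], [(4, true)]]

theorem okNB : ∀ i, apW nuB (nuiB i) = [(i, true)] ∧ apW nuiB (nuB i) = [(i, true)] := by
  decide +kernel

def PB : Fin 5 → Fin 5 → Wd 5 :=
    ![![[(0, true)], [(3, true), (2, true), (1, true), (0, false)], [(3, true), (2, true), (3,
    false)], [(3, true), (2, true), (3, true), (2, false), (3, false)], [(3, true), (2, true),
    (4, true), (2, false), (3, false)]], ![[(0, true), (2, false), (3, false), (1, true), (0,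
    true), (1, false)], [(1, true)], [(1, true), (2, true), (1, false)], [(1, true), (0, true),
    (2, false), (1, false)], [(1, true), (4, true), (1, false)]], ![[(0, true), (2, false), (3,
    false), (2, true), (0, true), (2, false), (3, true), (2, true), (0, false)], [(2, true), (0,
    true), (2, false), (3, false), (1, true), (2, false), (3, true), (2, true), (0, false)], [(2,
    true)], [(2, true), (0, true), (2, false), (3, true), (2, true), (0, false), (2, false)],
    [(2, true), (0, true), (2, false), (3, false), (4, true), (2, false)]], ![[(0, true), (2,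
    false), (0, true), (2, true), (0, false)], [(3, true), (1, true), (2, true), (0, false)],
    [(0, true), (2, true), (0, false)], [(3, true)], [(3, true), (4, true), (2, true), (0,
    false)]], ![[(0, true), (2, false), (3, false), (4, true), (0, true), (4, false), (3, true),
    (2, true), (0, false)], [(4, true), (0, true), (2, false), (3, false), (1, true), (4, false),
    (3, true), (2, true), (0, false)], [(4, true), (2, true), (4, false), (3, true), (2, true),
    (0, false)], [(4, true), (0, true), (2, false), (4, false)], [(4, true)]]]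

def PiB : Fin 5 → Fin 5 → Wd 5 :=
    ![![[(0, true)], [(2, false), (3, false), (1, true), (0, true)], [(2, false), (3, false), (2,
    true), (3, true), (2, true)], [(2, false), (3, true), (2, true)], [(2, false), (3, false),
    (4, true), (3, true), (2, true)]], ![[(1, false), (3, true), (2, true), (1, true)], [(1,
    true)], [(1, false), (2, true), (1, true)], [(3, true), (2, true), (0, false), (1, false),
    (3, true), (1, true)], [(1, false), (4, true), (1, true)]], ![[(2, false), (3, true), (2,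
    true), (0, true), (2, false), (3, false), (2, true)], [(3, true), (2, true), (0, false), (2,
    false), (1, true), (0, true), (2, false), (3, false), (2, true)], [(2, true)], [(3, true),
    (2, true), (0, false), (2, false), (3, true), (2, true), (0, true), (2, false), (3, false)],
    [(3, true), (2, true), (0, false), (2, false), (4, true), (2, true)]], ![[(2, true), (0,
    true), (2, false)], [(3, false), (1, true), (0, true), (2, false)], [(2, true), (0, false),
    (2, true), (0, true), (2, false)], [(3, true)], [(3, false), (4, true), (0, true), (2,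
    false)]], ![[(4, false), (3, true), (2, true), (0, true), (2, false), (3, false), (4, true)],
    [(3, true), (2, true), (0, false), (4, false), (1, true), (0, true), (2, false), (3, false),
    (4, true)], [(4, false), (2, true), (0, true), (2, false), (3, false), (4, true)], [(3,
    true), (2, true), (0, false), (4, false), (3, true), (4, true)], [(4, true)]]]

theorem okPB : ∀ j i, apW (PB j) (PiB j i) = [(i, true)] ∧ apW (PiB j) (PB j i) = [(i, true)] := by
  decide +kernel

def alB : Fin 3 → Fin 5 → Wd 5 :=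
    ![![[(0, true), (2, false), (4, false), (3, false), (1, true), (0, true), (0, true), (2,
    false), (4, false), (3, false), (1, true), (0, true), (0, true), (4, false), (3, false), (1,
    true), (0, true), (1, true), (0, true), (3, false), (1, true), (0, true), (3, false), (1,
    true), (0, true), (1, true), (0, true), (4, false), (3, false), (1, true), (0, true)], [(0,
    false), (1, false), (3, true), (4, true), (0, false), (0, false), (1, false), (3, true), (4,
    true), (2, true), (0, false), (0, false), (1, false), (3, true), (4, true), (2, true), (0,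
    false)], [(0, false), (1, false), (3, true), (4, true), (0, false), (1, false), (0, false),
    (1, false), (3, true), (0, false), (1, false), (3, true), (4, false), (3, false), (1, true),
    (0, true), (0, true), (2, false), (4, false), (3, false), (1, true), (0, true), (0, true),
    (4, false), (3, false), (1, true), (0, true), (1, true), (0, true), (3, false), (1, true),
    (0, true), (3, false), (1, true), (0, true), (1, true), (0, true), (4, false), (3, false),
    (1, true), (0, true)], [(1, true), (0, true), (3, false), (1, true), (0, true), (1, true),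
    (0, true), (4, false), (3, false), (1, true), (0, true)], [(0, false), (1, false), (3, true),
    (4, true), (0, false), (1, false), (3, false), (1, true), (0, true), (1, true), (0, true),
    (3, false), (1, true), (0, true), (3, false), (1, true), (0, true), (1, true), (0, true), (4,
    false), (3, false), (1, true), (0, true)]], ![[(0, true)], [(1, true), (0, true)], [(2,
    true)], [(3, true)], [(4, true)]], ![[(0, true), (2, false), (4, false), (3, false), (1,
    true), (0, true), (0, true), (3, false), (1, true), (0, true), (0, true), (4, false), (3,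
    false), (1, true), (0, true), (0, true), (4, false), (3, false), (1, true), (0, true), (0,
    true), (3, false), (1, true), (0, true), (0, true), (2, false), (4, false), (3, false), (1,
    true), (0, true), (0, true), (1, true), (0, true), (1, true), (0, true)], [(0, false), (1,
    false), (0, false), (0, false), (1, false), (3, true), (4, true), (2, true), (0, false), (0,
    false), (1, false), (3, true), (0, false), (0, false), (1, false), (3, true), (4, true), (0,
    false), (0, false), (1, false), (3, true), (4, true), (0, false), (0, false), (1, false), (3,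
    true), (0, false), (0, false), (1, false), (3, true), (4, true), (2, true), (0, false)], [(0,
    false), (1, false), (0, false), (1, false), (0, false), (0, false), (1, false), (3, true),
    (4, true), (2, true), (0, false), (0, false), (1, false), (3, true), (4, false), (3, false),
    (1, true), (0, true), (0, true), (3, false), (1, true), (0, true), (0, true), (4, false), (3,
    false), (1, true), (0, true), (0, true), (4, false), (3, false), (1, true), (0, true), (0,
    true), (3, false), (1, true), (0, true), (0, true), (2, false), (4, false), (3, false), (1,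
    true), (0, true), (0, true), (1, true), (0, true), (1, true), (0, true)], [(1, true), (0,
    true), (0, true), (2, false), (4, false), (3, false), (1, true), (0, true), (0, true), (1,
    true), (0, true), (1, true), (0, true)], [(0, false), (1, false), (0, false), (1, false), (3,
    false), (1, true), (0, true), (0, true), (4, false), (3, false), (1, true), (0, true), (0,
    true), (3, false), (1, true), (0, true), (0, true), (2, false), (4, false), (3, false), (1,
    true), (0, true), (0, true), (1, true), (0, true), (1, true), (0, true)]]]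

def aliB : Fin 3 → Fin 5 → Wd 5 :=
    ![![[(0, false), (1, false), (3, true), (4, true), (2, true), (0, false), (0, false), (1,
    false), (3, true), (4, true), (2, true), (0, false), (1, false), (0, false), (1, false), (3,
    true), (4, true), (0, false), (1, false), (3, true), (0, false), (1, false), (3, true), (0,
    false), (1, false), (3, true), (4, true), (0, false), (1, false)], [(1, true), (0, true), (4,
    false), (3, false), (1, true), (0, true), (1, true), (0, true), (2, false), (4, false), (3,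
    false), (1, true), (0, true), (0, true), (2, false), (4, false), (3, false), (1, true), (0,
    true)], [(1, true), (0, true), (4, false), (3, false), (1, true), (0, true), (3, false), (1,
    true), (0, true), (3, false), (1, true), (0, true), (2, true), (0, false), (0, false), (1,
    false), (3, true), (4, true), (2, true), (0, false), (0, false), (1, false), (3, true), (4,
    true), (2, true), (0, false), (1, false), (0, false), (1, false), (3, true), (4, true), (0,
    false), (1, false), (3, true), (0, false), (1, false), (3, true), (0, false), (1, false), (3,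
    true), (4, true), (0, false), (1, false)], [(3, true), (0, false), (1, false), (3, true), (0,
    false), (1, false), (3, true), (0, false), (1, false), (3, true), (4, true), (0, false), (1,
    false)], [(1, true), (0, true), (4, false), (3, false), (1, true), (0, true), (4, true), (0,
    false), (1, false), (0, false), (1, false), (3, true), (4, true), (0, false), (1, false), (3,
    true), (0, false), (1, false), (3, true), (0, false), (1, false), (3, true), (4, true), (0,
    false), (1, false)]], ![[(0, true)], [(1, true), (0, false)], [(2, true)], [(3, true)], [(4,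
    true)]], ![[(0, false), (1, false), (3, true), (0, false), (0, false), (1, false), (3, true),
    (4, true), (2, true), (0, false), (0, false), (1, false), (3, true), (4, true), (0, false),
    (0, false), (1, false), (3, true), (4, true), (0, false), (0, false), (1, false), (3, true),
    (4, true), (2, true), (0, false), (0, false), (1, false), (3, true), (0, false), (1, false),
    (0, false), (1, false)], [(1, true), (0, true), (1, true), (0, true), (1, true), (0, true),
    (3, false), (1, true), (0, true), (0, true), (2, false), (4, false), (3, false), (1, true),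
    (0, true), (0, true), (4, false), (3, false), (1, true), (0, true), (0, true), (4, false),
    (3, false), (1, true), (0, true), (0, true), (2, false), (4, false), (3, false), (1, true),
    (0, true), (0, true), (3, false), (1, true), (0, true)], [(1, true), (0, true), (1, true),
    (0, true), (3, false), (1, true), (0, true), (0, true), (2, false), (4, false), (3, false),
    (1, true), (0, true), (0, true), (2, true), (0, false), (0, false), (1, false), (3, true),
    (0, false), (0, false), (1, false), (3, true), (4, true), (2, true), (0, false), (0, false),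
    (1, false), (3, true), (4, true), (0, false), (0, false), (1, false), (3, true), (4, true),
    (0, false), (0, false), (1, false), (3, true), (4, true), (2, true), (0, false), (0, false),
    (1, false), (3, true), (0, false), (1, false), (0, false), (1, false)], [(3, true), (0,
    false), (0, false), (1, false), (3, true), (4, true), (2, true), (0, false), (0, false), (1,
    false), (3, true), (0, false), (1, false), (0, false), (1, false)], [(1, true), (0, true),
    (1, true), (0, true), (4, true), (0, false), (0, false), (1, false), (3, true), (4, true),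
    (0, false), (0, false), (1, false), (3, true), (4, true), (0, false), (0, false), (1, false),
    (3, true), (4, true), (2, true), (0, false), (0, false), (1, false), (3, true), (0, false),
    (1, false), (0, false), (1, false)]]]

theorem okAB : ∀ j i, apW (alB j) (aliB j i) = [(i, true)] ∧ apW (aliB j) (alB j i) = [(i, true)] := by
  decide +kernel

def hmB : HM (Fin 5) where
  ig := 0
  is := 1
  ia := 4
  inn := 2
  gs := by decide
  ag := by decide
  as' := by decide
  n := mk nB
  hn := by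
    have h : mk nB = (of 2)⁻¹ * (of 3)⁻¹ := by decide +kernel
    rw [h]
    refine mul_mem (inv_mem ?_) (inv_mem ?_) <;> refine Subgroup.subset_closure ?_
    exacts [Or.inr ⟨2, by decide, by decide, rfl⟩, Or.inr ⟨3, by decide, by decide, rfl⟩]
  D := auW DB DiB okDB
  D_g := by decide +kernel
  D_s := by decide +kernel
  D_a := by decide +kernel
  T := auW (alB 1) (aliB 1) (okAB 1)
  T_s := by decide +kernel
  T_o := by decide +kernel
  η := FreeGroup.lift ![Multiplicative.ofAdd 1, 1, Multiplicative.ofAdd 1, 1, 1]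
  η_g := by decide +kernel
  η_n := by decide +kernel
  η2 := FreeGroup.lift ![1, 1, 1, 1, Multiplicative.ofAdd 1]
  η2_g := by decide +kernel
  η2_n := by decide +kernel
  η2_a := by decide +kernel
  ν := auW nuB nuiB okNB
  ν_n := by decide +kernel
  π0 := FreeGroup.lift ![1, 1, ⟨![1, 2, 3, 0, 4, 5], ![3, 0, 1, 2, 4, 5], by decide, by decide⟩, 1, 1]
  π0_g := by decide +kernel
  π0_4 := by decide +kernel
  π0_2 := by decide +kernel

theorem hmB_c : hmB.c = mk cB := by decide +kernel

def puB : PU (Fin 5) where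
  toHM := hmB
  pu := luW PB PiB okPB
  pu_c := lift_fix _ (by decide +kernel)
  pu_cc := ⟨-1, aut_ext fun i => by
    rw [hmB_c]
    refine (mk_evW PB PiB okPB cB [(i, true)]).symm.trans ?_
    revert i
    decide +kernel⟩
  pu_g := aut_ext (by decide +kernel)

def kB : Fin 3 → Fin 5 → ℤ := ![![0, 0, 0, 0, 0], ![0, 0, 0, 0, 0], ![0, 0, 0, 0, 0]]

theorem chkB_00 : ∀ l, apW (alB 0) (PB 0 l) = evW PB PiB (alB 0 0)
    (pwW cB (kB 0 0) ++ alB 0 l ++ invRev (pwW cB (kB 0 0))) := by
  decide +kernel

theorem chkB_01 : ∀ l, apW (alB 0) (PB 1 l) = evW PB PiB (alB 0 1)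
    (pwW cB (kB 0 1) ++ alB 0 l ++ invRev (pwW cB (kB 0 1))) := by
  decide +kernel

theorem chkB_02 : ∀ l, apW (alB 0) (PB 2 l) = evW PB PiB (alB 0 2)
    (pwW cB (kB 0 2) ++ alB 0 l ++ invRev (pwW cB (kB 0 2))) := by
  decide +kernel

theorem chkB_03 : ∀ l, apW (alB 0) (PB 3 l) = evW PB PiB (alB 0 3)
    (pwW cB (kB 0 3) ++ alB 0 l ++ invRev (pwW cB (kB 0 3))) := by
  decide +kernel

theorem chkB_04 : ∀ l, apW (alB 0) (PB 4 l) = evW PB PiB (alB 0 4)
    (pwW cB (kB 0 4) ++ alB 0 l ++ invRev (pwW cB (kB 0 4))) := by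
  decide +kernel

theorem chkB_10 : ∀ l, apW (alB 1) (PB 0 l) = evW PB PiB (alB 1 0)
    (pwW cB (kB 1 0) ++ alB 1 l ++ invRev (pwW cB (kB 1 0))) := by
  decide +kernel

theorem chkB_11 : ∀ l, apW (alB 1) (PB 1 l) = evW PB PiB (alB 1 1)
    (pwW cB (kB 1 1) ++ alB 1 l ++ invRev (pwW cB (kB 1 1))) := by
  decide +kernel

theorem chkB_12 : ∀ l, apW (alB 1) (PB 2 l) = evW PB PiB (alB 1 2)
    (pwW cB (kB 1 2) ++ alB 1 l ++ invRev (pwW cB (kB 1 2))) := by
  decide +kernel

theorem chkB_13 : ∀ l, apW (alB 1) (PB 3 l) = evW PB PiB (alB 1 3)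
    (pwW cB (kB 1 3) ++ alB 1 l ++ invRev (pwW cB (kB 1 3))) := by
  decide +kernel

theorem chkB_14 : ∀ l, apW (alB 1) (PB 4 l) = evW PB PiB (alB 1 4)
    (pwW cB (kB 1 4) ++ alB 1 l ++ invRev (pwW cB (kB 1 4))) := by
  decide +kernel

theorem chkB_20 : ∀ l, apW (alB 2) (PB 0 l) = evW PB PiB (alB 2 0)
    (pwW cB (kB 2 0) ++ alB 2 l ++ invRev (pwW cB (kB 2 0))) := by
  decide +kernel

theorem chkB_21 : ∀ l, apW (alB 2) (PB 1 l) = evW PB PiB (alB 2 1)
    (pwW cB (kB 2 1) ++ alB 2 l ++ invRev (pwW cB (kB 2 1))) := by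
  decide +kernel

theorem chkB_22 : ∀ l, apW (alB 2) (PB 2 l) = evW PB PiB (alB 2 2)
    (pwW cB (kB 2 2) ++ alB 2 l ++ invRev (pwW cB (kB 2 2))) := by
  decide +kernel

theorem chkB_23 : ∀ l, apW (alB 2) (PB 3 l) = evW PB PiB (alB 2 3)
    (pwW cB (kB 2 3) ++ alB 2 l ++ invRev (pwW cB (kB 2 3))) := by
  decide +kernel

theorem chkB_24 : ∀ l, apW (alB 2) (PB 4 l) = evW PB PiB (alB 2 4)
    (pwW cB (kB 2 4) ++ alB 2 l ++ invRev (pwW cB (kB 2 4))) := by
  decide +kernel

theorem cpB (v : F3) : puB.Cp (luW alB aliB okAB v) := by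
  refine cp_lift _ _ (fun j => ?_) v
  rw [luW_of]
  refine cp_words puB PB PiB okPB rfl cB hmB_c _ _ _ (kB j)
    (by revert j; decide +kernel) fun i => ?_
  fin_cases j <;> fin_cases i
  exacts [chkB_00, chkB_01, chkB_02, chkB_03, chkB_04, chkB_10, chkB_11, chkB_12, chkB_13, chkB_14, chkB_20, chkB_21, chkB_22, chkB_23, chkB_24]

end Pool.Agent.MP_692752_al

end

section

/-! Finite permutation models and conjugacy separability for powers of a basis element. -/

set_option autoImplicit false

namespace Pool.Agent.MP_692752_al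

open FreeGroup

theorem fix_VCPk {G X : Type} [Group G] [MulAction G X] (x : G) (k : ℕ) (S0 S : Set X)
    (hS : ∀ p, p ∈ S ↔ ∃ j, j ≤ k ∧ ∃ q0 ∈ S0, x ^ j • q0 = p) (t : Equiv.Perm S)
    (ht : ∀ q : S, x • q.1 ∈ S → (t q).1 = x • q.1) (q : S) (hq : (t ^ k) q = q) :
    x ^ k • q.1 = q.1 := by
  rcases Nat.eq_zero_or_pos k with hk | hk
  · rw [hk, pow_zero, one_smul]
  by_cases h : ∀ i : ℕ, x • ((t ^ i) q).1 ∈ S
  · have h1 : ∀ i : ℕ, ((t ^ i) q).1 = x ^ i • q.1 := by
      intro i
      induction i with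
      | zero => simp
      | succ i ih => rw [pow_succ', Equiv.Perm.mul_apply, ht _ (h i), ih, pow_succ', mul_smul]
    rw [← h1 k, hq]
  · exfalso
    obtain ⟨i, hi⟩ := not_forall.1 h
    obtain ⟨j, hj, q0, hq0, hjq⟩ := (hS _).1 ((t ^ i) q).2
    have hm : q0 ∈ S := (hS _).2 ⟨0, Nat.zero_le _, q0, hq0, by simp⟩
    have hstep : ∀ l : ℕ, l < k → x • x ^ l • q0 ∈ S := fun l hl =>
      (hS _).2 ⟨l + 1, hl, q0, hq0, by rw [pow_succ', mul_smul]⟩
    have h2 : ∀ l : ℕ, l ≤ k → ((t ^ l) ⟨q0, hm⟩).1 = x ^ l • q0 := by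
      intro l
      induction l with
      | zero => simp
      | succ l ih =>
        intro hl
        have h3 := ih (Nat.le_of_succ_le hl)
        rw [pow_succ', Equiv.Perm.mul_apply, ht _ (by rw [h3]; exact hstep l hl), h3, pow_succ',
          mul_smul]
    have hjk : j = k := by
      by_contra hne
      exact hi (hjq ▸ hstep j (lt_of_le_of_ne hj hne))
    have h4 : (t ^ k) ⟨q0, hm⟩ = (t ^ i) q := Subtype.ext (by rw [h2 k le_rfl, ← hjq, hjk])
    have h5 : (t ^ k) ((t ^ i) q) = (t ^ i) q := by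
      rw [← Equiv.Perm.mul_apply, pow_mul_comm, Equiv.Perm.mul_apply, hq]
    have h6 : (⟨q0, hm⟩ : S) = (t ^ i) q := (t ^ k).injective (h4.trans h5.symm)
    apply hi
    rw [← h6]
    simpa using hstep 0 hk

theorem cpk_ok : CPk_st := by
  intro ι X _ i₀ k W hW
  choose P hPf hPm hP using fun z : FreeGroup ι × X => path_CP z.1 z.2
  let S0 : Set X := ⋃ z ∈ W, P z
  have hS0 : S0.Finite := hW.biUnion fun z _ => hPf z
  let S : Set X := ⋃ j ∈ Set.Iic k, (fun p => (of i₀ : FreeGroup ι) ^ j • p) '' S0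
  have hS : S.Finite := (Set.finite_Iic k).biUnion fun j _ => hS0.image _
  have hmem : ∀ p, p ∈ S ↔ ∃ j, j ≤ k ∧ ∃ q0 ∈ S0, (of i₀ : FreeGroup ι) ^ j • q0 = p := by
    intro p
    simp only [S, Set.mem_iUnion, Set.mem_Iic, Set.mem_image, exists_prop]
  choose σ hσ hσ' using fun i : ι => ext_CP (of i : FreeGroup ι) S hS
  let π : FreeGroup ι →* Equiv.Perm S := FreeGroup.lift σ
  have hπ : ∀ i, π (of i) = σ i := fun i => FreeGroup.lift_apply_of
  have ha : ∀ i (q : S), (of i : FreeGroup ι) • q.1 ∈ S →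
      (π (of i) q).1 = (of i : FreeGroup ι) • q.1 := fun i q h => by
    rw [hπ]; exact hσ i q h
  refine ⟨S, hS, π, Subtype.val, Subtype.val_injective, fun z hz => ?_, fun q hq => ?_,
    fun i q => ?_⟩
  · have hsub : P z ⊆ S := fun p hp =>
      (hmem p).2 ⟨0, Nat.zero_le _, p, Set.subset_biUnion_of_mem (u := P) hz hp, by simp⟩
    exact ⟨⟨z.2, hsub (hPm z)⟩, rfl, hP z S π hsub ha _ rfl⟩
  · rw [_root_.map_pow] at hq
    exact fix_VCPk (of i₀ : FreeGroup ι) k S0 S hmem (π (of i₀)) (ha i₀) q hq
  · rw [hπ]; exact hσ' i q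

theorem csk_ok (h : CPk_st) : CSk_st := by
  classical
  intro ι i k hk y hy
  obtain ⟨S, hS, π, e, he, hW, hfix, -⟩ := h ι (FreeGroup ι ⧸ Subgroup.zpowers y) i k
    {(y, ((1 : FreeGroup ι) : FreeGroup ι ⧸ Subgroup.zpowers y))} (Set.finite_singleton _)
  obtain ⟨q, hq, hqy⟩ := hW _ rfl
  have h1 : π y q = q :=
    he (hqy.trans (((smul_base_Hall _ y).2 (Subgroup.mem_zpowers y)).trans hq.symm))
  obtain ⟨c, hc⟩ := hy (Nat.card S)
  have hc' := hc.perm le_rfl π
  have h2 : π (of i ^ k) ((π c)⁻¹ q) = (π c)⁻¹ q := by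
    have h3 : π (of i ^ k) = (π c)⁻¹ * π y * π c := by
      rw [hc', _root_.map_mul, _root_.map_mul, _root_.map_inv]
      group
    rw [h3]
    simp [h1]
  have h4 := hfix _ h2
  obtain ⟨v, hv⟩ := QuotientGroup.mk_surjective (e ((π c)⁻¹ q))
  rw [← hv, MulAction.Quotient.smul_coe, smul_eq_mul, eq_comm, QuotientGroup.eq] at h4
  obtain ⟨l, hl⟩ := Subgroup.mem_zpowers_iff.1 h4
  let σ : FreeGroup ι →* Multiplicative ℤ :=
    FreeGroup.lift fun j => if j = i then Multiplicative.ofAdd 1 else 1
  have hσ : σ (of i) = Multiplicative.ofAdd 1 := by simp [σ]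
  have h5 : l * Multiplicative.toAdd (σ y) = k := by
    have h6 := congrArg (fun z => Multiplicative.toAdd (σ z)) hl
    simp only [map_zpow, _root_.map_pow, _root_.map_mul, _root_.map_inv, hσ, toAdd_zpow,
      toAdd_pow, toAdd_mul, toAdd_inv, toAdd_ofAdd, smul_eq_mul, nsmul_eq_mul, mul_one] at h6
    linarith
  have h7 : Multiplicative.toAdd (σ y) = k := by
    obtain ⟨N, hN⟩ : ∃ N : ℕ, N = ((k : ℤ) - Multiplicative.toAdd (σ y)).natAbs + 1 := ⟨_, rfl⟩
    obtain ⟨g, hg⟩ := hy N
    have h8 := hg.modEq (N := N) (by omega) le_rfl σ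
    have h9 : Multiplicative.toAdd (σ (g * of i ^ k * g⁻¹)) = k := by
      simp only [_root_.map_pow, _root_.map_mul, _root_.map_inv, hσ, toAdd_pow, toAdd_mul,
        toAdd_inv, toAdd_ofAdd, nsmul_eq_mul, mul_one]
      ring
    rw [h9] at h8
    have h10 := Int.eq_zero_of_dvd_of_natAbs_lt_natAbs h8.dvd (by simp; omega)
    omega
  have h10 : l = 1 := by
    rw [h7] at h5
    have hk' : (k : ℤ) ≠ 0 := by exact_mod_cast hk
    exact mul_right_cancel₀ hk' (by rw [h5, one_mul])
  rw [h10, zpow_one] at hl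
  exact ⟨v⁻¹, by rw [hl]; group⟩

end Pool.Agent.MP_692752_al

end

section

/-! A free subgroup of rank two and finite index in `GL (Fin 2) ℤ`. -/

set_option autoImplicit false

namespace Pool.Agent.MP_692752_al

open FreeGroup

/-- the upper generator -/
def A_GL2 : GL (Fin 2) ℤ where
  val := !![1, 2; 0, 1]
  inv := !![1, -2; 0, 1]
  val_inv := by ext i j; fin_cases i <;> fin_cases j <;> simp [Matrix.mul_apply, Fin.sum_univ_two]
  inv_val := by ext i j; fin_cases i <;> fin_cases j <;> simp [Matrix.mul_apply, Fin.sum_univ_two]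

/-- the lower generator -/
def B_GL2 : GL (Fin 2) ℤ where
  val := !![1, 0; 2, 1]
  inv := !![1, 0; -2, 1]
  val_inv := by ext i j; fin_cases i <;> fin_cases j <;> simp [Matrix.mul_apply, Fin.sum_univ_two]
  inv_val := by ext i j; fin_cases i <;> fin_cases j <;> simp [Matrix.mul_apply, Fin.sum_univ_two]

theorem A_mul_GL2 (g : GL (Fin 2) ℤ) (j : Fin 2) :
    (A_GL2 * g).val 0 j = g.val 0 j + 2 * g.val 1 j ∧ (A_GL2 * g).val 1 j = g.val 1 j := by
  simp [A_GL2, Matrix.mul_apply, Fin.sum_univ_two]

theorem Ai_mul_GL2 (g : GL (Fin 2) ℤ) (j : Fin 2) :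
    (A_GL2⁻¹ * g).val 0 j = g.val 0 j - 2 * g.val 1 j ∧ (A_GL2⁻¹ * g).val 1 j = g.val 1 j := by
  have h : (A_GL2⁻¹).val = !![1, -2; 0, 1] := rfl
  rw [Units.val_mul, h]
  simp [Matrix.mul_apply, Fin.sum_univ_two]
  ring

theorem B_mul_GL2 (g : GL (Fin 2) ℤ) (j : Fin 2) :
    (B_GL2 * g).val 0 j = g.val 0 j ∧ (B_GL2 * g).val 1 j = g.val 1 j + 2 * g.val 0 j := by
  simp [B_GL2, Matrix.mul_apply, Fin.sum_univ_two]
  ring

theorem Bi_mul_GL2 (g : GL (Fin 2) ℤ) (j : Fin 2) :
    (B_GL2⁻¹ * g).val 0 j = g.val 0 j ∧ (B_GL2⁻¹ * g).val 1 j = g.val 1 j - 2 * g.val 0 j := by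
  have h : (B_GL2⁻¹).val = !![1, 0; -2, 1] := rfl
  rw [Units.val_mul, h]
  simp [Matrix.mul_apply, Fin.sum_univ_two]
  ring

theorem det_unit_GL2 (g : GL (Fin 2) ℤ) :
    IsUnit (g.val 0 0 * g.val 1 1 - g.val 0 1 * g.val 1 0) := by
  rw [← Matrix.det_fin_two]
  exact (Matrix.isUnit_iff_isUnit_det _).1 g.isUnit

theorem col_ne_GL2 (g : GL (Fin 2) ℤ) : ¬ (g.val 0 0 = 0 ∧ g.val 1 0 = 0) := by
  rintro ⟨h0, h1⟩
  have h := det_unit_GL2 g
  rw [h0, h1] at h
  simp at h

/-- the two generators -/
def gen_GL2 : Fin 2 → GL (Fin 2) ℤ := ![A_GL2, B_GL2]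

theorem inj_GL2 : Function.Injective (FreeGroup.lift gen_GL2) := by
  refine FreeGroup.injective_lift_of_ping_pong gen_GL2 (α := GL (Fin 2) ℤ)
    ![{g | g.val 1 0 ^ 2 ≤ g.val 0 0 * g.val 1 0}, {g | g.val 0 0 ^ 2 < g.val 0 0 * g.val 1 0}]
    ![{g | g.val 0 0 * g.val 1 0 < -g.val 1 0 ^ 2}, {g | g.val 0 0 * g.val 1 0 ≤ -g.val 0 0 ^ 2}]
    ?_ ?_ ?_ ?_ ?_ ?_
  · intro i
    fin_cases i
    · exact ⟨1, by simp⟩
    · exact ⟨B_GL2, by simp [B_GL2]⟩
  · intro i j hij
    fin_cases i <;> fin_cases j <;> first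
      | exact absurd rfl hij
      | (refine Set.disjoint_left.2 fun g h1 h2 => ?_
         simp at h1 h2
         nlinarith [sq_nonneg (g.val 0 0 - g.val 1 0)])
  · intro i j hij
    fin_cases i <;> fin_cases j <;> first
      | exact absurd rfl hij
      | (refine Set.disjoint_left.2 fun g h1 h2 => ?_
         simp at h1 h2
         nlinarith [sq_nonneg (g.val 0 0 + g.val 1 0)])
  · intro i j
    fin_cases i <;> fin_cases j <;> refine Set.disjoint_left.2 fun g h1 h2 => ?_ <;>
      simp at h1 h2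
    · nlinarith [sq_nonneg (g.val 1 0)]
    · refine col_ne_GL2 g ⟨?_, ?_⟩
      · exact pow_eq_zero_iff (two_ne_zero) |>.1
          (by nlinarith [sq_nonneg (g.val 1 0), sq_nonneg (g.val 0 0)])
      · exact pow_eq_zero_iff (two_ne_zero) |>.1
          (by nlinarith [sq_nonneg (g.val 1 0), sq_nonneg (g.val 0 0)])
    · nlinarith [sq_nonneg (g.val 1 0), sq_nonneg (g.val 0 0)]
    · nlinarith [sq_nonneg (g.val 0 0)]
  · intro i
    fin_cases i
    · rintro _ ⟨g, hg, rfl⟩
      have hg' : ¬ g.val 0 0 * g.val 1 0 < -g.val 1 0 ^ 2 := hg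
      change (A_GL2 * g).val 1 0 ^ 2 ≤ (A_GL2 * g).val 0 0 * (A_GL2 * g).val 1 0
      rw [(A_mul_GL2 g 0).1, (A_mul_GL2 g 0).2]
      nlinarith
    · rintro _ ⟨g, hg, rfl⟩
      have hg' : ¬ g.val 0 0 * g.val 1 0 ≤ -g.val 0 0 ^ 2 := hg
      change (B_GL2 * g).val 0 0 ^ 2 < (B_GL2 * g).val 0 0 * (B_GL2 * g).val 1 0
      rw [(B_mul_GL2 g 0).1, (B_mul_GL2 g 0).2]
      nlinarith
  · intro i
    fin_cases i
    · rintro _ ⟨g, hg, rfl⟩
      have hg' : ¬ g.val 1 0 ^ 2 ≤ g.val 0 0 * g.val 1 0 := hg
      change (A_GL2⁻¹ * g).val 0 0 * (A_GL2⁻¹ * g).val 1 0 < -(A_GL2⁻¹ * g).val 1 0 ^ 2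
      rw [(Ai_mul_GL2 g 0).1, (Ai_mul_GL2 g 0).2]
      nlinarith
    · rintro _ ⟨g, hg, rfl⟩
      have hg' : ¬ g.val 0 0 ^ 2 < g.val 0 0 * g.val 1 0 := hg
      change (B_GL2⁻¹ * g).val 0 0 * (B_GL2⁻¹ * g).val 1 0 ≤ -(B_GL2⁻¹ * g).val 0 0 ^ 2
      rw [(Bi_mul_GL2 g 0).1, (Bi_mul_GL2 g 0).2]
      nlinarith

theorem A_mem_GL2 : A_GL2 ∈ (FreeGroup.lift gen_GL2).range :=
  ⟨FreeGroup.of 0, by simp [gen_GL2]⟩

theorem B_mem_GL2 : B_GL2 ∈ (FreeGroup.lift gen_GL2).range :=
  ⟨FreeGroup.of 1, by simp [gen_GL2]⟩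

theorem upper_mem_GL2 (k : ℤ) : ∀ g : GL (Fin 2) ℤ, g.val 0 0 = 1 → g.val 0 1 = 2 * k →
    g.val 1 0 = 0 → g.val 1 1 = 1 → g ∈ (FreeGroup.lift gen_GL2).range := by
  induction k using Int.induction_on with
  | zero =>
    intro g h1 h2 h3 h4
    have : g = 1 := by
      ext i j
      fin_cases i <;> fin_cases j <;> simp_all
    rw [this]
    exact one_mem _
  | succ k ih =>
    intro g h1 h2 h3 h4
    rw [← Subgroup.mul_mem_cancel_left _ (inv_mem A_mem_GL2)]
    refine ih _ ?_ ?_ ?_ ?_ <;>
      simp only [(Ai_mul_GL2 g _).1, (Ai_mul_GL2 g _).2, h1, h2, h3, h4] <;> ring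
  | pred k ih =>
    intro g h1 h2 h3 h4
    rw [← Subgroup.mul_mem_cancel_left _ A_mem_GL2]
    refine ih _ ?_ ?_ ?_ ?_ <;>
      simp only [(A_mul_GL2 g _).1, (A_mul_GL2 g _).2, h1, h2, h3, h4] <;> ring

theorem mem_GL2 (n : ℕ) : ∀ g : GL (Fin 2) ℤ, (g.val 0 0).natAbs + (g.val 1 0).natAbs < n →
    g.val 0 0 * g.val 1 1 - g.val 0 1 * g.val 1 0 = 1 → g.val 0 0 % 4 = 1 →
    g.val 0 1 % 2 = 0 → g.val 1 0 % 2 = 0 → g ∈ (FreeGroup.lift gen_GL2).range := by
  induction n with
  | zero => intro g h; exact absurd h (Nat.not_lt_zero _)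
  | succ n ih =>
    intro g hn hd ha hb hc
    by_cases h0 : g.val 1 0 = 0
    · rw [h0, mul_zero, sub_zero] at hd
      have h1 : g.val 0 0 = 1 := by
        rcases Int.eq_one_or_neg_one_of_mul_eq_one hd with h | h <;> omega
      rw [h1, one_mul] at hd
      exact upper_mem_GL2 (g.val 0 1 / 2) g h1 (by omega) h0 hd
    have key : (g.val 0 0 + 2 * g.val 1 0).natAbs < (g.val 0 0).natAbs ∨
        (g.val 0 0 - 2 * g.val 1 0).natAbs < (g.val 0 0).natAbs ∨
        (g.val 1 0 + 2 * g.val 0 0).natAbs < (g.val 1 0).natAbs ∨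
        (g.val 1 0 - 2 * g.val 0 0).natAbs < (g.val 1 0).natAbs := by omega
    rcases key with h | h | h | h
    · rw [← Subgroup.mul_mem_cancel_left _ A_mem_GL2]
      refine ih _ ?_ ?_ ?_ ?_ ?_ <;> simp only [(A_mul_GL2 g _).1, (A_mul_GL2 g _).2] <;>
        first | omega | linear_combination hd
    · rw [← Subgroup.mul_mem_cancel_left _ (inv_mem A_mem_GL2)]
      refine ih _ ?_ ?_ ?_ ?_ ?_ <;> simp only [(Ai_mul_GL2 g _).1, (Ai_mul_GL2 g _).2] <;>
        first | omega | linear_combination hd
    · rw [← Subgroup.mul_mem_cancel_left _ B_mem_GL2]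
      refine ih _ ?_ ?_ ?_ ?_ ?_ <;> simp only [(B_mul_GL2 g _).1, (B_mul_GL2 g _).2] <;>
        first | omega | linear_combination hd
    · rw [← Subgroup.mul_mem_cancel_left _ (inv_mem B_mem_GL2)]
      refine ih _ ?_ ?_ ?_ ?_ ?_ <;> simp only [(Bi_mul_GL2 g _).1, (Bi_mul_GL2 g _).2] <;>
        first | omega | linear_combination hd

theorem ker_le_GL2 :
    (Matrix.GeneralLinearGroup.map (n := Fin 2) (Int.castRingHom (ZMod 4))).ker ≤
      (FreeGroup.lift gen_GL2).range := by
  intro g hg
  rw [MonoidHom.mem_ker] at hg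
  have he : ∀ i j, ((g.val i j : ℤ) : ZMod 4) = (((1 : Matrix (Fin 2) (Fin 2) ℤ) i j : ℤ) : ZMod 4) := by
    intro i j
    have h := congrArg (fun u : GL (Fin 2) (ZMod 4) => u.val i j) hg
    simp only [Matrix.GeneralLinearGroup.map_apply, Units.val_one] at h
    by_cases hij : i = j <;> simp_all [Matrix.one_apply]
  have hm : ∀ i j, g.val i j % 4 = (1 : Matrix (Fin 2) (Fin 2) ℤ) i j % 4 := fun i j =>
    (ZMod.intCast_eq_intCast_iff' _ _ 4).1 (he i j)
  have h00 : g.val 0 0 % 4 = 1 := by simpa using hm 0 0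
  have h01 : g.val 0 1 % 4 = 0 := by simpa using hm 0 1
  have h10 : g.val 1 0 % 4 = 0 := by simpa using hm 1 0
  have h11 : g.val 1 1 % 4 = 1 := by simpa using hm 1 1
  refine mem_GL2 _ g (Nat.lt_succ_self _) ?_ h00 (by omega) (by omega)
  have hd : (g.val 0 0 * g.val 1 1 - g.val 0 1 * g.val 1 0) % 4 = 1 := by
    rw [Int.sub_emod, Int.mul_emod, Int.mul_emod (g.val 0 1), h00, h01, h10, h11]
    rfl
  rcases Int.isUnit_iff.1 (det_unit_GL2 g) with h | h
  · exact h
  · rw [h] at hd
    omega

theorem gl2_ok : GL2_st := by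
  refine ⟨(FreeGroup.lift gen_GL2).range, (MonoidHom.ofInjective inj_GL2).symm.toMonoidHom, ?_,
    (MonoidHom.ofInjective inj_GL2).symm.injective⟩
  exact Subgroup.finiteIndex_of_le ker_le_GL2

end Pool.Agent.MP_692752_al

end

section

/-! The structure of the vertex group, and an equation in the free group of rank two. -/

set_option autoImplicit false

namespace Pool.Agent.MP_692752_al

open FreeGroup

/-- the exchange of the two generators -/
def sw_VAnnO : F2 →* F2 := FreeGroup.lift ![of 1, of 0]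

theorem sw_sw_VAnnO (w : F2) : sw_VAnnO (sw_VAnnO w) = w := by
  have h : sw_VAnnO.comp sw_VAnnO = MonoidHom.id F2 := by
    ext i
    fin_cases i <;> simp [sw_VAnnO]
  exact DFunLike.congr_fun h w

/-- the action of the first generator -/
def X_VAnnO : Equiv.Perm (F2 × Bool) := (Equiv.mulLeft (of 0 : F2)).prodCongr (Equiv.refl Bool)

/-- the action of the cone point -/
def C_VAnnO : Equiv.Perm (F2 × Bool) :=
  Function.Involutive.toPerm (fun z => (sw_VAnnO z.1, !z.2)) fun z => by simp [sw_sw_VAnnO]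

theorem X_app_VAnnO (w : F2) (e : Bool) : X_VAnnO (w, e) = (of 0 * w, e) := rfl

theorem C_app_VAnnO (w : F2) (e : Bool) : C_VAnnO (w, e) = (sw_VAnnO w, !e) := rfl

theorem CC_VAnnO : C_VAnnO * C_VAnnO = 1 := by
  ext1 ⟨w, e⟩
  simp [C_app_VAnnO, sw_sw_VAnnO]

theorem Ci_VAnnO : C_VAnnO⁻¹ = C_VAnnO := inv_eq_of_mul_eq_one_right CC_VAnnO

theorem CCz_VAnnO (z : F2 × Bool) : C_VAnnO (C_VAnnO z) = z := DFunLike.congr_fun CC_VAnnO z

/-- the twisted action -/
def tau_VAnnO : F2 →* Equiv.Perm (F2 × Bool) :=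
  FreeGroup.lift ![C_VAnnO * X_VAnnO, X_VAnnO * C_VAnnO]

/-- the regular action -/
def lam_VAnnO : F2 →* Equiv.Perm (F2 × Bool) :=
  FreeGroup.lift ![X_VAnnO, C_VAnnO * X_VAnnO * C_VAnnO]

theorem lam_app_VAnnO (w v : F2) (e : Bool) : lam_VAnnO w (v, e) = (w * v, e) := by
  induction w using FreeGroup.induction_on generalizing v with
  | C1 => simp
  | of i =>
    fin_cases i
    · simp [lam_VAnnO, X_app_VAnnO]
    · simp [lam_VAnnO, X_app_VAnnO, C_app_VAnnO, sw_sw_VAnnO,
        show sw_VAnnO (of 0) = of 1 by simp [sw_VAnnO]]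
  | inv_of i hi => rw [_root_.map_inv, Equiv.Perm.inv_eq_iff_eq, hi, mul_inv_cancel_left]
  | mul a b ha hb => rw [_root_.map_mul, Equiv.Perm.mul_apply, hb, ha, mul_assoc]

theorem tau_sw_VAnnO (w : F2) : tau_VAnnO (sw_VAnnO w) = C_VAnnO * tau_VAnnO w * C_VAnnO := by
  have h : tau_VAnnO.comp sw_VAnnO = (MulAut.conj C_VAnnO).toMonoidHom.comp tau_VAnnO := by
    ext1 i
    fin_cases i
    · simp [tau_VAnnO, sw_VAnnO, Ci_VAnnO, ← mul_assoc, CC_VAnnO]
    · simp [tau_VAnnO, sw_VAnnO, Ci_VAnnO, mul_assoc, CC_VAnnO]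
  simpa [Ci_VAnnO] using DFunLike.congr_fun h w

/-- the action of the second generator -/
def Y0_VAnnO (z : F2 × Bool) : F2 × Bool := tau_VAnnO z.1 (1, z.2)

theorem YX_VAnnO (z : F2 × Bool) : Y0_VAnnO (X_VAnnO z) = C_VAnnO (X_VAnnO (Y0_VAnnO z)) := by
  obtain ⟨w, e⟩ := z
  simp [X_app_VAnnO, Y0_VAnnO, tau_VAnnO]

theorem YC_VAnnO (z : F2 × Bool) : Y0_VAnnO (C_VAnnO z) = C_VAnnO (Y0_VAnnO z) := by
  obtain ⟨w, e⟩ := z
  simp [C_app_VAnnO, Y0_VAnnO, tau_sw_VAnnO]

theorem Yt_VAnnO (w : F2) (z : F2 × Bool) :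
    Y0_VAnnO (tau_VAnnO w z) = lam_VAnnO w (Y0_VAnnO z) := by
  induction w using FreeGroup.induction_on generalizing z with
  | C1 => simp
  | of i => fin_cases i <;> simp [tau_VAnnO, lam_VAnnO, YX_VAnnO, YC_VAnnO, CCz_VAnnO]
  | inv_of i hi =>
    rw [_root_.map_inv, _root_.map_inv, Equiv.Perm.eq_inv_iff_eq, ← hi]
    simp
  | mul a b ha hb =>
    rw [_root_.map_mul, _root_.map_mul, Equiv.Perm.mul_apply, Equiv.Perm.mul_apply, ha, hb]

theorem YY_VAnnO : Function.Involutive Y0_VAnnO := fun z => by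
  rw [show Y0_VAnnO z = tau_VAnnO z.1 (1, z.2) from rfl, Yt_VAnnO]
  simp [Y0_VAnnO, lam_app_VAnnO]

theorem annO_ok : AnnO_st := by
  have h1 : YY_VAnnO.toPerm _ * X_VAnnO = C_VAnnO * X_VAnnO * YY_VAnnO.toPerm _ :=
    Equiv.ext YX_VAnnO
  generalize YY_VAnnO.toPerm _ = Y at h1
  have h2 : (FreeGroup.lift ![X_VAnnO, Y] : F2 →* _) cc = C_VAnnO := by
    have h3 : C_VAnnO = Y * X_VAnnO * Y⁻¹ * X_VAnnO⁻¹ := by rw [h1]; group
    rw [← Ci_VAnnO, h3]
    simp [cc, mul_assoc]
  obtain ⟨ρ, r1, r2⟩ : ∃ ρ : Orb →* Equiv.Perm (F2 × Bool), ρ xo = X_VAnnO ∧ ρ co = C_VAnnO :=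
    ⟨oLift (FreeGroup.lift ![X_VAnnO, Y]) (by rw [h2, CC_VAnnO]), by simp [xo, oLift_pr],
      by rw [co, oLift_pr, h2]⟩
  have h3 : ρ.comp mu = lam_VAnnO := by
    ext1 i
    fin_cases i <;> simp [mu, lam_VAnnO, r1, r2]
  have h4 : ∀ w, ρ (mu w) (1, false) = (w, false) := fun w => by
    rw [show ρ (mu w) = _ from DFunLike.congr_fun h3 w, lam_app_VAnnO, mul_one]
  refine ⟨fun a b h => ?_, fun ⟨w, h⟩ => ?_⟩
  · have h5 := h4 a
    rw [h, h4] at h5
    exact (congrArg Prod.fst h5).symm
  · have h5 := h4 w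
    rw [h, r2, C_app_VAnnO] at h5
    simp at h5

/-- a faithful representation -/
def f_VAnnO : F2 →* GL (Fin 2) ℤ := FreeGroup.lift ![A_GL2, B_GL2⁻¹]

theorem inj_VAnnO : Function.Injective f_VAnnO := by
  have h1 : f_VAnnO = (FreeGroup.lift gen_GL2).comp
      (FreeGroup.lift ![of 0, (of 1)⁻¹] : F2 →* F2) := by
    ext1 i
    fin_cases i <;> simp [f_VAnnO, gen_GL2]
  have h2 : (FreeGroup.lift ![of 0, (of 1)⁻¹] : F2 →* F2).comp
      (FreeGroup.lift ![of 0, (of 1)⁻¹]) = MonoidHom.id F2 := by
    ext1 i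
    fin_cases i <;> simp
  rw [h1]
  exact inj_GL2.comp (Function.LeftInverse.injective (DFunLike.congr_fun h2))

theorem form_VAnnO (g : F2) : ∃ a b c d : ℤ,
    (f_VAnnO g).val = !![4 * a + 1, 2 * b; 2 * c, 4 * d + 1] ∧
      (4 * a + 1) * (4 * d + 1) - 2 * b * (2 * c) = 1 := by
  induction g using FreeGroup.induction_on with
  | C1 => exact ⟨0, 0, 0, 0, by simp [Matrix.one_fin_two], by ring⟩
  | of i =>
    fin_cases i
    · exact ⟨0, 1, 0, 0, by simp [f_VAnnO, A_GL2], by ring⟩
    · exact ⟨0, 0, -1, 0, by simp [f_VAnnO, show (B_GL2⁻¹).val = !![1, 0; -2, 1] from rfl], by ring⟩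
  | inv_of i _ =>
    fin_cases i
    · exact ⟨0, -1, 0, 0, by simp [f_VAnnO, show (A_GL2⁻¹).val = !![1, -2; 0, 1] from rfl], by ring⟩
    · exact ⟨0, 0, 1, 0, by simp [f_VAnnO, B_GL2], by ring⟩
  | mul x y hx hy =>
    obtain ⟨a, b, c, d, h, e⟩ := hx
    obtain ⟨a', b', c', d', h', e'⟩ := hy
    refine ⟨4 * a * a' + a + a' + b * c', (4 * a + 1) * b' + b * (4 * d' + 1),
      c * (4 * a' + 1) + (4 * d + 1) * c', c * b' + 4 * d * d' + d + d', ?_, ?_⟩
    · rw [_root_.map_mul, Units.val_mul, h, h', Matrix.mul_fin_two]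
      congr 1
      ext i j
      fin_cases i <;> fin_cases j <;> simp <;> ring
    · linear_combination ((4 * a' + 1) * (4 * d' + 1) - 2 * b' * (2 * c')) * e + e'

theorem Az_VAnnO (k : ℤ) : (A_GL2 ^ k).val = !![1, 2 * k; 0, 1] := by
  induction k using Int.induction_on with
  | zero => simp [Matrix.one_fin_two]
  | succ k ih =>
    rw [zpow_add_one, Units.val_mul, ih, show A_GL2.val = !![1, 2; 0, 1] from rfl,
      Matrix.mul_fin_two]
    ring_nf
  | pred k ih =>
    rw [zpow_sub_one, Units.val_mul, ih, show (A_GL2⁻¹).val = !![1, -2; 0, 1] from rfl,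
      Matrix.mul_fin_two]
    ring_nf

theorem Bz_VAnnO (k : ℤ) : (B_GL2 ^ k).val = !![1, 0; 2 * k, 1] := by
  induction k using Int.induction_on with
  | zero => simp [Matrix.one_fin_two]
  | succ k ih =>
    rw [zpow_add_one, Units.val_mul, ih, show B_GL2.val = !![1, 0; 2, 1] from rfl,
      Matrix.mul_fin_two]
    ring_nf
  | pred k ih =>
    rw [zpow_sub_one, Units.val_mul, ih, show (B_GL2⁻¹).val = !![1, 0; -2, 1] from rfl,
      Matrix.mul_fin_two]
    ring_nf

theorem pp_ok : PP_st := by
  intro g k h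
  obtain ⟨a, b, c, d, h1, e⟩ := form_VAnnO g
  have h2 : (f_VAnnO g)⁻¹.val = !![4 * d + 1, -(2 * b); -(2 * c), 4 * a + 1] := by
    refine Units.inv_eq_of_mul_eq_one_right ?_
    rw [h1, Matrix.mul_fin_two, Matrix.one_fin_two]
    ext i j
    fin_cases i <;> fin_cases j <;> simp <;> linarith
  have x0 : (f_VAnnO (of 0)).val = !![1, 2; 0, 1] := by simp [f_VAnnO, A_GL2]
  have x1 : (f_VAnnO (of 1)).val = !![1, 0; -2, 1] := by
    simp [f_VAnnO, show (B_GL2⁻¹).val = !![1, 0; -2, 1] from rfl]
  have h3 := congrArg (fun z => (f_VAnnO z).val.trace) h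
  simp only [_root_.map_mul, _root_.map_inv, Units.val_mul] at h3
  rw [Matrix.trace_units_conj, h1, h2, x0, x1] at h3
  simp only [Matrix.mul_fin_two, Matrix.trace_fin_two_of] at h3
  have h4 : d * (2 * d + 1) = 0 := by linarith
  obtain rfl : d = 0 := by
    rcases mul_eq_zero.1 h4 with h5 | h5 <;> omega
  refine ⟨b, -c, inj_VAnnO (Units.ext ?_)⟩
  rw [h1, _root_.map_mul, map_zpow, map_zpow, show f_VAnnO (of 0) = A_GL2 by simp [f_VAnnO],
    show f_VAnnO (of 1) = B_GL2⁻¹ by simp [f_VAnnO], inv_zpow', neg_neg, Units.val_mul, Az_VAnnO,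
    Bz_VAnnO, Matrix.mul_fin_two]
  ext i j
  fin_cases i <;> fin_cases j <;> simp
  linarith

end Pool.Agent.MP_692752_al

end
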