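import Pool.Agent.Mg.F692752.G94411f
import Pool.Agent.Mg.F692752.Gc65e5a
import Pool.Agent.Mg.F692752.Ge7ea3c

section

/-! The tree of the splitting of the orbifold group. -/

set_option autoImplicit false

namespace Pool.Agent.MP_692752_al

open FreeGroup

/-- the edges -/
abbrev E_VOT : Type := Orb ⧸ Subgroup.zpowers xo

noncomputable instance dec_VOT : DecidableEq E_VOT := Classical.decEq _

/-- the base edge -/
def e0_VOT : E_VOT := ((1 : Orb) : E_VOT)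

theorem fix_VOT {a : Orb} : a • e0_VOT = e0_VOT ↔ a ∈ Subgroup.zpowers xo := by
  rw [e0_VOT, MulAction.Quotient.smul_mk, QuotientGroup.eq]
  simp

/-- the action on words -/
def act_VOT : Orb →* MulAut (FreeGroup E_VOT) where
  toFun g := FreeGroup.freeGroupCongr (MulAction.toPerm g)
  map_one' := MulEquiv.toMonoidHom_injective (FreeGroup.ext_hom _ _ fun e => by simp)
  map_mul' g h := MulEquiv.toMonoidHom_injective (FreeGroup.ext_hom _ _ fun e => by
    simp [mul_smul])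

theorem act_mk_VOT (g : Orb) (L : List (E_VOT × Bool)) :
    act_VOT g (mk L) = mk (L.map fun x => (g • x.1, x.2)) := FreeGroup.map.mk

theorem act_of_VOT (g : Orb) (e : E_VOT) : act_VOT g (of e) = of (g • e) := FreeGroup.map.of

theorem act_norm_VOT (g : Orb) (w : FreeGroup E_VOT) : (act_VOT g w).norm = w.norm := by
  have k : ∀ (g : Orb) (w : FreeGroup E_VOT), (act_VOT g w).norm ≤ w.norm := fun g w => by
    conv_lhs => rw [← mk_toWord (x := w), act_mk_VOT]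
    exact norm_mk_le.trans (List.length_map _).le
  refine le_antisymm (k g w) ?_
  have := k g⁻¹ (act_VOT g w)
  rwa [← MulAut.mul_apply, ← _root_.map_mul, inv_mul_cancel, _root_.map_one, MulAut.one_apply]
    at this

/-- the section over the free group -/
def rho_VOT : F2 →* FreeGroup E_VOT ⋊[act_VOT] Orb :=
  FreeGroup.lift ![⟨1, xo⟩, ⟨of (yo • e0_VOT), yo⟩]

theorem x0_VOT : xo • e0_VOT = e0_VOT := fix_VOT.2 (Subgroup.mem_zpowers _)

theorem rho_cc_VOT : rho_VOT cc = ⟨1, co⟩ := by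
  have e0 : rho_VOT (of 0) = ⟨1, xo⟩ := FreeGroup.lift_apply_of
  have e1 : rho_VOT (of 1) = ⟨of (yo • e0_VOT), yo⟩ := FreeGroup.lift_apply_of
  rw [cc, _root_.map_mul, _root_.map_mul, _root_.map_mul, _root_.map_inv, _root_.map_inv, e0, e1,
    mul_inv_eq_iff_eq_mul, mul_inv_eq_iff_eq_mul]
  have e : co * yo * xo = xo * yo := by rw [co_eq]; group
  have e' : co • yo • e0_VOT = xo • yo • e0_VOT := by
    rw [← mul_smul xo, ← e, mul_smul, x0_VOT, mul_smul]
  refine SemidirectProduct.ext ?_ e.symm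
  simp only [SemidirectProduct.mul_left, _root_.map_one, one_mul, mul_one, act_of_VOT, e']

/-- the section -/
def Z_VOT : Orb →* FreeGroup E_VOT ⋊[act_VOT] Orb :=
  oLift rho_VOT (by
    rw [rho_cc_VOT]
    ext
    · simp
    · simp [co_co])

/-- the cocycle -/
def z_VOT (g : Orb) : FreeGroup E_VOT := (Z_VOT g).left

theorem z_mul_VOT (g h : Orb) : z_VOT (g * h) = z_VOT g * act_VOT g (z_VOT h) := by
  have k : SemidirectProduct.rightHom.comp Z_VOT = MonoidHom.id Orb :=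
    orb_ext (by simp [Z_VOT, xo, oLift_pr, rho_VOT]) (by simp [Z_VOT, yo, oLift_pr, rho_VOT])
  have k1 : (Z_VOT g).right = g := DFunLike.congr_fun k g
  rw [z_VOT, _root_.map_mul, SemidirectProduct.mul_left, k1]
  rfl

theorem z_one_VOT : z_VOT 1 = 1 := by rw [z_VOT, _root_.map_one]; rfl

theorem z_inv_VOT (g h : Orb) : act_VOT g (z_VOT (g⁻¹ * h)) = (z_VOT g)⁻¹ * z_VOT h := by
  rw [eq_inv_mul_iff_mul_eq, ← z_mul_VOT, mul_inv_cancel_left]

theorem z_y_VOT : z_VOT yo = of (yo • e0_VOT) := by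
  rw [z_VOT, Z_VOT]
  conv_lhs => rw [yo, oLift_pr]
  simp [rho_VOT]

theorem z_y'_VOT : z_VOT yo⁻¹ = (of e0_VOT)⁻¹ := by
  have := z_inv_VOT yo 1
  rw [mul_one, z_one_VOT, mul_one, z_y_VOT, ← act_of_VOT, ← _root_.map_inv] at this
  exact (act_VOT yo).injective this

theorem z_A_VOT {a : Orb} (ha : a ∈ AO) : z_VOT a = 1 := by
  induction ha using Subgroup.closure_induction with
  | mem x hx =>
    rcases hx with rfl | rfl
    · rw [z_VOT, Z_VOT, xo, oLift_pr]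
      simp [rho_VOT]
    · rw [z_VOT, Z_VOT, co, oLift_pr, rho_cc_VOT]
  | one => exact z_one_VOT
  | mul x y _ _ hx hy => rw [z_mul_VOT, hx, hy, _root_.map_one, mul_one]
  | inv x _ hx =>
    have := z_inv_VOT x 1
    rw [mul_one, z_one_VOT, hx, inv_one, mul_one] at this
    exact (act_VOT x).injective (this.trans (_root_.map_one _).symm)

theorem x_A_VOT : xo ∈ AO := Subgroup.subset_closure (by simp)

theorem c_A_VOT : co ∈ AO := Subgroup.subset_closure (by simp)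

theorem zp_A_VOT {a : Orb} (h : a ∈ Subgroup.zpowers xo) : a ∈ AO ∧ yo * a * yo⁻¹ ∈ AO := by
  obtain ⟨k, rfl⟩ := Subgroup.mem_zpowers_iff.1 h
  refine ⟨AO.zpow_mem x_A_VOT k, ?_⟩
  rw [← conj_zpow, yxy]
  exact AO.zpow_mem (AO.mul_mem c_A_VOT x_A_VOT) k

/-- the stable letter or its inverse -/
def yb_VOT (b : Bool) : Orb := cond b yo yo⁻¹

/-- the edge that is crossed -/
def eb_VOT (b : Bool) : E_VOT := cond b (yo • e0_VOT) e0_VOT

theorem z_step_VOT {a : Orb} (ha : a ∈ AO) (b : Bool) (h : Orb) :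
    z_VOT (a * yb_VOT b * h) = mk [(a • eb_VOT b, b)] * act_VOT (a * yb_VOT b) (z_VOT h) := by
  have k : z_VOT (yb_VOT b) = mk [(eb_VOT b, b)] := by
    cases b
    · exact z_y'_VOT
    · exact z_y_VOT
  rw [z_mul_VOT, z_mul_VOT, z_A_VOT ha, one_mul, k, act_mk_VOT]
  rfl

/-- words with `n` stable letters -/
def Rep_VOT : ℕ → Orb → Prop
  | 0, g => g ∈ AO
  | n + 1, g => ∃ a ∈ AO, ∃ b h, Rep_VOT n h ∧ g = a * yb_VOT b * h

theorem left_VOT {n : ℕ} {a g : Orb} (ha : a ∈ AO) (h : Rep_VOT n g) : Rep_VOT n (a * g) := by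
  cases n with
  | zero => exact AO.mul_mem ha h
  | succ n =>
    obtain ⟨a', ha', b, h, k, rfl⟩ := h
    exact ⟨a * a', AO.mul_mem ha ha', b, h, k, by simp only [mul_assoc]⟩

theorem ex_VOT (g : Orb) : ∃ n, Rep_VOT n g := by
  obtain ⟨w, rfl⟩ := pr_sur g
  have key : ∀ h, (∃ n, Rep_VOT n h) → ∃ n, Rep_VOT n (pr w * h) := by
    induction w using FreeGroup.induction_on with
    | C1 => intro h k; rwa [_root_.map_one, one_mul]
    | of i =>
      rintro h ⟨n, k⟩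
      fin_cases i
      · exact ⟨n, left_VOT x_A_VOT k⟩
      · exact ⟨n + 1, 1, AO.one_mem, true, h, k, by rw [one_mul]; rfl⟩
    | inv_of i _ =>
      rintro h ⟨n, k⟩
      rw [_root_.map_inv]
      fin_cases i
      · exact ⟨n, left_VOT (AO.inv_mem x_A_VOT) k⟩
      · exact ⟨n + 1, 1, AO.one_mem, false, h, k, by rw [one_mul]; rfl⟩
    | mul a b ha hb =>
      intro h k
      rw [_root_.map_mul, mul_assoc]
      exact ha _ (hb h k)
  simpa using key 1 ⟨0, AO.one_mem⟩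

theorem red_VOT (n : ℕ) : ∀ a ∈ AO, ∀ b h, Rep_VOT n h →
    (∀ m < n + 1, ¬ Rep_VOT m (a * yb_VOT b * h)) → ∃ L, L.length = n ∧
      IsReduced ((a • eb_VOT b, b) :: L) ∧
        z_VOT (a * yb_VOT b * h) = mk ((a • eb_VOT b, b) :: L) := by
  induction n with
  | zero =>
    intro a ha b h k _
    exact ⟨[], rfl, IsReduced.singleton, by
      rw [z_step_VOT ha, z_A_VOT k, _root_.map_one, mul_one]⟩
  | succ n ih =>
    rintro a ha b _ ⟨a', ha', b', h, k, rfl⟩ hm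
    obtain ⟨L, h1, h2, h3⟩ := ih a' ha' b' h k fun m hlt e =>
      hm (m + 1) (by omega) ⟨a, ha, b, _, e, rfl⟩
    refine ⟨((a' • eb_VOT b', b') :: L).map fun x => ((a * yb_VOT b) • x.1, x.2),
      by simp [h1], ?_, by rw [z_step_VOT ha, h3, act_mk_VOT, mul_mk]; rfl⟩
    refine List.isChain_cons.2 ⟨?_, (List.isChain_map _).2 (h2.imp fun x y e e' =>
      e (smul_left_cancel _ e'))⟩
    rintro _ ⟨⟩ e
    by_contra hb
    have e1 : eb_VOT b = yb_VOT b • a' • eb_VOT b' :=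
      smul_left_cancel a (e.trans (mul_smul _ _ _))
    have e2 : yb_VOT b * a' * yb_VOT b' ∈ AO := by
      cases b <;> cases b'
      · exact absurd rfl hb
      · refine (zp_A_VOT (fix_VOT.1 ?_)).1
        rw [mul_smul, mul_smul]
        exact e1.symm
      · exact (zp_A_VOT (fix_VOT.1 (smul_left_cancel yo e1).symm)).2
      · exact absurd rfl hb
    refine hm n (by omega) ?_
    simpa only [mul_assoc] using left_VOT ha (left_VOT e2 k)

theorem len_VOT (g : Orb) :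
    Rep_VOT (z_VOT g).norm g ∧ ∀ n, Rep_VOT n g → (z_VOT g).norm ≤ n := by
  classical
  have h1 := Nat.find_spec (ex_VOT g)
  have h2 : ∀ m < Nat.find (ex_VOT g), ¬ Rep_VOT m g := fun m => Nat.find_min _
  have h3 : (z_VOT g).norm = Nat.find (ex_VOT g) := by
    generalize Nat.find (ex_VOT g) = n at h1 h2
    cases n with
    | zero => rw [z_A_VOT h1, FreeGroup.norm_one]
    | succ n =>
      obtain ⟨a, ha, b, h, k, rfl⟩ := h1
      obtain ⟨L, e1, e2, e3⟩ := red_VOT n a ha b h k h2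
      rw [e3, FreeGroup.norm, toWord_mk, e2.reduce_eq, List.length_cons, e1]
  rw [h3]
  exact ⟨h1, fun n h => Nat.find_min' _ h⟩

theorem cut_VOT (k m : ℕ) : ∀ g, Rep_VOT (m + k) g →
    ∃ p q, Rep_VOT k p ∧ Rep_VOT m q ∧ g = p * q := by
  induction k with
  | zero => exact fun g h => ⟨1, g, AO.one_mem, h, (one_mul g).symm⟩
  | succ k ih =>
    rintro _ ⟨a, ha, b, h, e, rfl⟩
    obtain ⟨p, q, h1, h2, rfl⟩ := ih h e
    exact ⟨_, q, ⟨a, ha, b, p, h1, rfl⟩, h2, by simp only [mul_assoc]⟩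

theorem ey_A_VOT {a : Orb} (ha : a ∈ AO) : ey a = 1 :=
  (Subgroup.closure_le (K := ey.ker)).2 (by
    rintro x (rfl | rfl)
    exacts [ey_x, ey_c]) ha

theorem ot_ok (h4 : FourP_st) (hq : Par_st) : OT_st := by
  have d : ∀ g h, (z_VOT (g⁻¹ * h)).norm = ((z_VOT g)⁻¹ * z_VOT h).norm := fun g h => by
    rw [← z_inv_VOT, act_norm_VOT]
  have l0 : ∀ g, (z_VOT g).norm = 0 ↔ g ∈ AO := fun g =>
    ⟨fun h => show Rep_VOT 0 g from h ▸ (len_VOT g).1, fun h => by rw [z_A_VOT h, FreeGroup.norm_one]⟩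
  have l1 : ∀ g, (z_VOT g).norm = 1 →
      ∃ a ∈ AO, ∃ a' ∈ AO, g = a * yo * a' ∨ g = a * yo⁻¹ * a' := fun g h => by
    obtain ⟨a, ha, b, a', ha', e⟩ : Rep_VOT 1 g := h ▸ (len_VOT g).1
    refine ⟨a, ha, a', ha', ?_⟩
    cases b
    exacts [Or.inr e, Or.inl e]
  refine ⟨fun a ha h => ?_, ⟨fun g => (z_VOT g).norm, by rw [z_one_VOT, FreeGroup.norm_one], fun g => ?_,
    fun a b c e => ?_, fun a k hk => ?_, fun a b => ?_, fun a h h' => ?_⟩, l0, l1⟩
  · have := z_A_VOT h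
    rw [z_mul_VOT, z_mul_VOT, z_A_VOT ha, _root_.map_one, mul_one, z_y_VOT, z_y'_VOT,
      _root_.map_inv, act_of_VOT, mul_inv_eq_one, mul_smul] at this
    exact fix_VOT.1 (smul_left_cancel yo (of_injective this)).symm
  · have := d g 1
    rwa [mul_one, z_one_VOT, mul_one, norm_inv_eq] at this
  · simp only [d]
    exact h4 _ _ _ _ _
  · obtain ⟨m, hm⟩ : ∃ m, (z_VOT a).norm = m + k := ⟨(z_VOT a).norm - k, by omega⟩
    obtain ⟨p, q, h1, h2, rfl⟩ := cut_VOT k m a (hm ▸ (len_VOT a).1)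
    have e1 := (len_VOT p).2 k h1
    have e2 := (len_VOT q).2 m h2
    have e3 := norm_mul_le (z_VOT p) (act_VOT p (z_VOT q))
    rw [← z_mul_VOT, act_norm_VOT] at e3
    refine ⟨p, by omega, ?_⟩
    rw [inv_mul_cancel_left]
    omega
  · have := hq _ (z_VOT a) (act_VOT a (z_VOT b))
    rwa [← z_mul_VOT, act_norm_VOT] at this
  · have e := congrArg Multiplicative.toAdd (ey_A_VOT ((l0 _).1 h'))
    obtain ⟨b, hb, b', hb', rfl | rfl⟩ := l1 a h <;>
      simp [ey_A_VOT hb, ey_A_VOT hb', ey_y] at e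

end Pool.Agent.MP_692752_al

end

section

/-! Maps with an image of finite index that are conjugate at all levels are conjugate. -/

set_option autoImplicit false

namespace Pool.Agent.MP_692752_al

open FreeGroup

/-- conjugate at every level -/
def H_VPIk {G F : Type} [Group G] [Group F] (f f' : G →* F) : Prop :=
  ∀ m, ∃ w, ∀ x, Eqv m (f' x) (w * f x * w⁻¹)

theorem conj_VPIk {G F : Type} [Group G] [Group F] {f f' : G →* F} (H : H_VPIk f f') (v : F) :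
    H_VPIk f ((MulAut.conj v).toMonoidHom.comp f') := by
  intro m
  obtain ⟨w, hw⟩ := H m
  refine ⟨v * w, fun z => (((Eqv.refl v).mul (hw z)).mul (Eqv.refl v⁻¹)).trans (Eqv.of_eq ?_)⟩
  group

theorem comm_VPIk {F : Type} [Group F] {m : ℕ} {w a : F} (h : Eqv m a (w * a * w⁻¹)) :
    Eqv m (w * a) (a * w) :=
  ((h.mul (Eqv.refl w)).trans (Eqv.of_eq (by group))).symm

theorem hom_VPIk {G F : Type} [Group G] [Group F] {f f' : G →* F} (H : H_VPIk f f')
    (φ : F →* Multiplicative ℤ) (g : G) : (φ (f' g)).toAdd = (φ (f g)).toAdd := by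
  obtain ⟨w, hw⟩ := H (((φ (f g)).toAdd - (φ (f' g)).toAdd).natAbs + 1)
  have h1 := (Eqv.modEq (Nat.succ_ne_zero _) le_rfl φ (hw g)).dvd
  rw [φ.map_mul, φ.map_mul, φ.map_inv, mul_inv_cancel_comm] at h1
  have h2 := Int.eq_zero_of_dvd_of_natAbs_lt_natAbs h1 (by
    rw [Int.natAbs_natCast]; exact Nat.lt_succ_self _)
  omega

theorem second_VPIk (h : CPk_st) (hZ : Centk_st) {ι G : Type} [Finite ι] [Group G] (i j : ι)
    {k : ℕ} (hk : k ≠ 0) {f f' : G →* FreeGroup ι} (H : H_VPIk f f') {g1 g2 : G}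
    (e1 : f g1 = of i ^ k) (e2 : f g2 = of j ^ k) (e3 : f' g1 = of i ^ k) :
    ∃ l : ℤ, (of i) ^ l * f' g2 * ((of i) ^ l)⁻¹ = of j ^ k := by
  classical
  obtain ⟨S, _, π, e, he, h1, h2, h3⟩ := h ι (FreeGroup ι ⧸ Subgroup.zpowers (f' g2)) j k
    {(f' g2, ((1 : FreeGroup ι) : FreeGroup ι ⧸ Subgroup.zpowers (f' g2)))}
    (Set.finite_singleton _)
  obtain ⟨q, hq, hq'⟩ := h1 _ rfl
  have hfix : π (f' g2) q = q := by
    apply he
    rw [hq, hq']
    show ((f' g2 * 1 : FreeGroup ι) : FreeGroup ι ⧸ Subgroup.zpowers (f' g2)) = _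
    rw [QuotientGroup.eq]
    simp
  obtain ⟨m', hm'⟩ := hZ ι i k hk (Nat.card S)
  obtain ⟨w, hw⟩ := H (max (Nat.card S) m')
  have c1 := (hw g1).anti (le_max_right _ _)
  rw [e1, e3] at c1
  obtain ⟨a, ha⟩ := hm' w (comm_VPIk c1)
  have hm : π w = π (of i) ^ a := by rw [ha.perm le_rfl π, map_zpow]
  have hq2 : π (of j ^ k) ((π (of i) ^ (-a)) q) = (π (of i) ^ (-a)) q := by
    have h5 : π (of j ^ k) * π (of i) ^ (-a) = π (of i) ^ (-a) * π (f' g2) := by
      rw [(hw g2).perm (le_max_left _ _) π, e2, _root_.map_mul, _root_.map_mul, _root_.map_inv,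
        hm]
      group
    rw [← Equiv.Perm.mul_apply, h5, Equiv.Perm.mul_apply, hfix]
  obtain ⟨l, hl⟩ := orbit_PI π e i (h3 i) (-a) q
  have h6 := h2 _ hq2
  rw [hl, hq] at h6
  have h7 : ((of j ^ k * (of i ^ l * 1) : FreeGroup ι) :
      FreeGroup ι ⧸ Subgroup.zpowers (f' g2)) =
      ((of i ^ l * 1 : FreeGroup ι) : FreeGroup ι ⧸ Subgroup.zpowers (f' g2)) := h6
  obtain ⟨r, hr⟩ := Subgroup.mem_zpowers_iff.mp (QuotientGroup.eq.mp h7.symm)
  let φ : FreeGroup ι →* Multiplicative ℤ :=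
    FreeGroup.lift fun k => if k = j then Multiplicative.ofAdd 1 else 1
  have hφ : φ (of j) = Multiplicative.ofAdd 1 := by simp [φ]
  have h9 : (φ (f' g2)).toAdd = k := by
    rw [hom_VPIk H φ g2, e2, _root_.map_pow, hφ, toAdd_pow, toAdd_ofAdd, nsmul_one]
  have h8 : r * (k : ℤ) = 1 * k := by
    have := congrArg (fun x => Multiplicative.toAdd (φ x)) hr
    simp only [map_zpow, _root_.map_pow, MonoidHom.map_mul, MonoidHom.map_inv, toAdd_mul,
      toAdd_inv, toAdd_zpow, toAdd_pow, hφ, h9, toAdd_ofAdd, smul_eq_mul, mul_one,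
      nsmul_one] at this
    rw [this]
    ring
  rw [mul_right_cancel₀ (Int.natCast_ne_zero.2 hk) h8, zpow_one] at hr
  refine ⟨l, ?_⟩
  rw [hr]
  group

theorem fix_VPIk (hR : RF_st) (hF : CFk_st) {ι G : Type} [Finite ι] [Group G] {i j : ι}
    (hij : i ≠ j) {k : ℕ} (hk : k ≠ 0) {f f' : G →* FreeGroup ι} (H : H_VPIk f f') {g1 g2 : G}
    (e1 : f g1 = of i ^ k) (e2 : f g2 = of j ^ k) (e3 : f' g1 = of i ^ k)
    (e4 : f' g2 = of j ^ k) (z : G) : f' z = f z := by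
  refine inv_mul_eq_one.1 (rfl_free hR ι _ fun m => eqv_iff.1 ?_)
  obtain ⟨m', hm'⟩ := hF ι i j hij k hk m
  obtain ⟨w, hw⟩ := H (max m m')
  have c1 := (hw g1).anti (le_max_right _ _)
  have c2 := (hw g2).anti (le_max_right _ _)
  rw [e1, e3] at c1
  rw [e2, e4] at c2
  have h1 := eqv_one.2 (hm' w (comm_VPIk c1) (comm_VPIk c2))
  exact ((hw z).anti (le_max_left _ _)).trans
    (((h1.mul (Eqv.refl _)).mul h1.inv).trans (Eqv.of_eq (by group)))

theorem pik_ok (h : CPk_st) (hR : RF_st) (hC : CSk_st) (hZ : Centk_st) (hF : CFk_st) :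
    PIk_st := by
  intro ι _ i j hij G _ f f' hf H
  have hk : f.range.normalCore.index ≠ 0 := Subgroup.FiniteIndex.index_ne_zero
  have hp : ∀ a, a ^ f.range.normalCore.index ∈ f.range :=
    fun a => f.range.normalCore_le (Subgroup.pow_index_mem _ a)
  generalize f.range.normalCore.index = k at hk hp
  obtain ⟨g1, e1⟩ := hp (of i)
  obtain ⟨g2, e2⟩ := hp (of j)
  obtain ⟨c, hc⟩ := hC ι i k hk (f' g1) fun m => by
    obtain ⟨w, hw⟩ := H m
    exact ⟨w, e1 ▸ hw g1⟩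
  have H1 := conj_VPIk H c⁻¹
  have a1 : ∀ z, ((MulAut.conj c⁻¹).toMonoidHom.comp f') z = c⁻¹ * f' z * c⁻¹⁻¹ := fun _ => rfl
  have hi1 : ((MulAut.conj c⁻¹).toMonoidHom.comp f') g1 = of i ^ k := by
    rw [a1, hc]
    group
  obtain ⟨l, hl⟩ := second_VPIk h hZ i j hk H1 e1 e2 hi1
  have H2 := conj_VPIk H1 (of i ^ l)
  have a2 : ∀ z, ((MulAut.conj (of i ^ l)).toMonoidHom.comp
      ((MulAut.conj c⁻¹).toMonoidHom.comp f')) z =
      of i ^ l * ((MulAut.conj c⁻¹).toMonoidHom.comp f') z * (of i ^ l)⁻¹ := fun _ => rfl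
  have h1 := fix_VPIk hR hF hij hk H2 e1 e2 (by rw [a2, hi1]; group) (by rw [a2, hl])
  refine ⟨c * (of i ^ l)⁻¹, fun z => ?_⟩
  have h2 := h1 z
  rw [a2, a1] at h2
  calc f' z = c * (of i ^ l)⁻¹ * (of i ^ l * (c⁻¹ * f' z * c⁻¹⁻¹) * (of i ^ l)⁻¹) *
      (c * (of i ^ l)⁻¹)⁻¹ := by group
    _ = _ := by rw [h2]

end Pool.Agent.MP_692752_al

end

section

/-! Maps of subgroups of finite index that are inner at every level are inner. -/

set_option autoImplicit false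

namespace Pool.Agent.MP_692752_al

open FreeGroup

theorem e2p_ok (h4 : FourP_st) (hG : BG_st) (hC : CycF_st) : E2p_st := by
  classical
  intro G ι _ d γ B' h
  rcases hC G ι d γ with h0 | ⟨δ, L, hne, rfl, hc⟩
  · exact h0
  exfalso
  have hc' := chain_EE d hc
  rw [List.map_append] at hc'
  obtain ⟨N, hN⟩ := hG ι (L.map (tm_EE d)) (L.map (tm_EE d)) (by simpa using hne) hc'
    (by
      intro τ hτ
      rw [← List.map_append] at hτ
      obtain ⟨σ, -, rfl⟩ := List.mem_map.mp hτ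
      rw [tm_u_EE]; exact d.c_ne) (B'.norm + 1)
  have h2 := hN N (by
    intro τ hτ
    rw [← List.map_append] at hτ
    obtain ⟨σ, -, rfl⟩ := List.mem_map.mp hτ
    rw [tm_μ_EE])
  rw [List.map_append, List.prod_append, ← val_EE] at h2
  obtain ⟨w₀, hw⟩ := h N
  rw [MonoidHom.map_mul, MonoidHom.map_mul, MonoidHom.map_inv] at hw
  generalize d.θ N (d.val L) = g at h2 hw
  obtain ⟨w, hg⟩ : ∃ w, g = w * B' * w⁻¹ := by
    refine ⟨(d.θ N δ)⁻¹ * w₀, ?_⟩
    calc g = (d.θ N δ)⁻¹ * (d.θ N δ * g * (d.θ N δ)⁻¹) * d.θ N δ := by group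
      _ = _ := by rw [hw]; group
  have h5 := h4 ι 1 (g * g) g (g * w)
  have e1 : (g * g)⁻¹ * (g * w) = w * B'⁻¹ := by rw [hg]; group
  have e2 : g * w = w * B' := by rw [hg]; group
  have e3 : (g * g)⁻¹ * g = g⁻¹ := by group
  rw [e1, e3, inv_mul_cancel_left, inv_one, one_mul, one_mul, one_mul, norm_inv_eq, e2] at h5
  have l1 := norm_mul_le w B'
  have l2 := norm_mul_le w B'⁻¹
  rw [norm_inv_eq] at l2
  omega

theorem root_VGrH {ι : Type} {z b : FreeGroup ι} {k : ℕ} (hk : k ≠ 0) (h : Commute z (b ^ k)) :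
    Commute z b := by
  have h1 : (z * b * z⁻¹) ^ k = b ^ k := by
    rw [conj_pow, h.eq, mul_inv_cancel_right]
  exact mul_inv_eq_iff_eq_mul.1 (pow_left_injective hk h1)

theorem mal_VGrH {ι : Type} {c f : FreeGroup ι} (hc : ∀ z, Commute z c → z ∈ Subgroup.zpowers c)
    (h0 : c ≠ 1) (h : Commute c (f * c * f⁻¹)) : Commute f c := by
  obtain ⟨k, hk⟩ := hc _ h.symm
  have h' : Commute (f⁻¹ * c * f) c := by
    have := h.conj f⁻¹
    simpa [mul_assoc] using this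
  obtain ⟨l, hl⟩ := hc _ h'
  simp only at hk hl
  have h1 : c ^ (k * l - 1) = 1 := by
    rw [zpow_sub_one, zpow_mul, hk, conj_zpow, hl]; group
  have h2 : k * l = 1 := by
    by_contra hne
    exact h0 (zpow_left_injective (sub_ne_zero.mpr hne) (h1.trans (one_zpow _).symm))
  rcases Int.eq_one_or_neg_one_of_mul_eq_one h2 with rfl | rfl
  · rw [zpow_one] at hk
    exact (eq_mul_inv_iff_mul_eq.mp hk).symm
  · rw [zpow_neg_one] at hk
    refine (root_VGrH two_ne_zero (?_ : Commute c (f ^ 2))).symm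
    have h4 : f * c = c⁻¹ * f := by rw [hk]; group
    have h5 : f * c⁻¹ = c * f := by
      calc f * c⁻¹ = (f * c * f⁻¹)⁻¹ * f := by group
        _ = c * f := by rw [← hk, inv_inv]
    calc c * f ^ 2 = (c * f) * f := by rw [pow_two, mul_assoc]
      _ = f * (c⁻¹ * f) := by rw [← h5, mul_assoc]
      _ = f ^ 2 * c := by rw [← h4, pow_two, mul_assoc]

theorem nY_VGrH {G ι : Type} [Group G] (d : HD G ι) {k : ℕ} (hk : k ≠ 0) :
    ¬ Commute d.B ((d.Y ^ k)⁻¹ * d.B * d.Y ^ k) := by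
  intro h
  have h1 : Commute (d.Y ^ k)⁻¹ d.B := mal_VGrH d.cent_B d.B_ne (by rwa [inv_inv])
  have h2 : Commute d.B d.Y := root_VGrH hk (by simpa using h1.symm.inv_right)
  apply d.nY
  rw [mul_assoc, h2.eq, inv_mul_cancel_left]

theorem int_VGrH {G : Type} [Group G] (lz : G →* Multiplicative ℤ) {a b : G}
    (h : ∀ m, ∃ γ : G, Eqv m a (γ * b * γ⁻¹)) : lz a = lz b := by
  obtain ⟨γ, hγ⟩ := h (((lz b).toAdd - (lz a).toAdd).natAbs + 1)
  have h1 := (hγ.modEq (Nat.succ_ne_zero _) le_rfl lz).dvd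
  rw [lz.map_mul, lz.map_mul, lz.map_inv, mul_inv_cancel_comm] at h1
  have h2 := Int.eq_zero_of_dvd_of_natAbs_lt_natAbs h1
    (by rw [Int.natAbs_natCast]; exact Nat.lt_succ_self _)
  exact Multiplicative.toAdd.injective (sub_eq_zero.1 h2).symm

theorem conj_VGrH {G ι : Type} [Group G] (d : HD G ι) (h2 : E2p_st) (lz : G →* Multiplicative ℤ)
    (hz : lz (d.s ⟨d.B, d.hB⟩) ≠ lz (d.s ⟨d.x * d.B * d.x⁻¹, d.hB'⟩)) {k : ℕ} (hk : k ≠ 0) (a : G)
    (hw : ∀ n, ∃ w, d.θ n a = w * d.B ^ k * w⁻¹) (hl : lz a = lz (d.s ⟨d.B, d.hB⟩ ^ k)) :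
    ∃ δ : G, a = δ * d.s ⟨d.B, d.hB⟩ ^ k * δ⁻¹ := by
  obtain ⟨δ, e, he⟩ := h2 G ι d a (d.B ^ k) hw
  obtain ⟨w, h0⟩ := hw 0
  rw [he, MonoidHom.map_mul, MonoidHom.map_mul, MonoidHom.map_inv, d.θs] at h0
  have hz' : (e : FreeGroup ι) =
      ((d.θ 0 δ)⁻¹ * w) * d.B ^ k * ((d.θ 0 δ)⁻¹ * w)⁻¹ := by
    have : (e : FreeGroup ι) = (d.θ 0 δ)⁻¹ * (d.θ 0 δ * e * (d.θ 0 δ)⁻¹) * d.θ 0 δ := by group
    rw [this, h0]
    group
  generalize (d.θ 0 δ)⁻¹ * w = z at hz'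
  rcases d.hE z with hE | hE
  · have h3 : e = (⟨z, hE⟩ : d.E) * ⟨d.B, d.hB⟩ ^ k * (⟨z, hE⟩ : d.E)⁻¹ := Subtype.ext hz'
    refine ⟨δ * d.s ⟨z, hE⟩, ?_⟩
    rw [he, h3, MonoidHom.map_mul, MonoidHom.map_mul, MonoidHom.map_inv, MonoidHom.map_pow]
    group
  · exfalso
    have h3 : e = (⟨z * d.x⁻¹, hE⟩ : d.E) * ⟨d.x * d.B * d.x⁻¹, d.hB'⟩ ^ k *
        (⟨z * d.x⁻¹, hE⟩ : d.E)⁻¹ := by
      apply Subtype.ext
      rw [hz']
      simp only [Subgroup.coe_mul, Subgroup.coe_inv, Subgroup.coe_pow, conj_pow]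
      group
    apply hz
    apply pow_left_injective hk
    rw [he, h3] at hl
    simpa only [MonoidHom.map_mul, MonoidHom.map_inv, MonoidHom.map_pow, mul_inv_cancel_comm]
      using hl.symm

theorem grH_ok (hP : PIk_st) (h1 : E1_st) (h2 : E2p_st) (h3 : E3_st) : GrH_st := by
  intro G ι _ _ d lz hz U hU f hf
  have hw : ∀ n, ∃ w, ∀ u : U, d.θ n (f u) = w * d.θ n u * w⁻¹ := by
    intro n
    refine hP ι d.i0 d.i1 d.hi U ((d.θ n).comp U.subtype) ((d.θ n).comp f) ?_ fun m => ?_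
    · rw [MonoidHom.range_comp, Subgroup.range_subtype]
      exact ⟨fun h0 => hU.index_ne_zero (Nat.eq_zero_of_zero_dvd
        (h0 ▸ Subgroup.index_map_dvd U (surj_Gross d n)))⟩
    · obtain ⟨γ, hγ⟩ := hf m
      refine ⟨d.θ n γ, fun u => ?_⟩
      simpa using (hγ u).map (d.θ n)
  choose w hw using hw
  obtain ⟨q, hq, hU'⟩ : ∃ q : ℕ, q ≠ 0 ∧ ∀ g : G, g ^ q ∈ U :=
    ⟨U.normalCore.index, Subgroup.FiniteIndex.index_ne_zero,
      fun g => U.normalCore_le (U.normalCore.pow_index_mem g)⟩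
  obtain ⟨δ, hδ⟩ := conj_VGrH d h2 lz hz hq (f ⟨_, hU' (d.s ⟨d.B, d.hB⟩)⟩)
    (fun n => ⟨w n, by rw [hw, MonoidHom.map_pow, d.θs]⟩)
    (int_VGrH lz fun m => (hf m).imp fun γ hγ => hγ _)
  have hw' : ∀ n (u : U), d.θ n (δ⁻¹ * f u * δ) =
      ((d.θ n δ)⁻¹ * w n) * d.θ n u * ((d.θ n δ)⁻¹ * w n)⁻¹ := by
    intro n z
    rw [MonoidHom.map_mul, MonoidHom.map_mul, MonoidHom.map_inv, hw]
    group
  have hk : ∀ n, ∃ k : ℤ, d.B ^ k = (d.θ n δ)⁻¹ * w n := by
    intro n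
    apply d.cent_B
    have h := hw' n ⟨_, hU' (d.s ⟨d.B, d.hB⟩)⟩
    have hb : δ⁻¹ * f ⟨_, hU' (d.s ⟨d.B, d.hB⟩)⟩ * δ = d.s ⟨d.B, d.hB⟩ ^ q := by
      rw [hδ]
      group
    rw [hb, MonoidHom.map_pow, d.θs] at h
    exact root_VGrH hq (eq_mul_inv_iff_mul_eq.mp h).symm
  choose k hk using hk
  obtain ⟨N, hN⟩ := h3 G ι
    { d with Y := d.Y ^ q, hY := d.E.pow_mem d.hY q, nY := nY_VGrH d hq }
    (δ⁻¹ * f ⟨_, hU' (d.s ⟨d.Y, d.hY⟩)⟩ * δ) k (fun n => by
      change d.θ n _ = d.B ^ k n * d.Y ^ q * (d.B ^ k n)⁻¹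
      rw [hw', ← hk, MonoidHom.map_pow, d.θs])
  obtain ⟨k0, hk0⟩ := pig_Gross k N hN
  refine ⟨δ * d.s ⟨d.B, d.hB⟩ ^ k0, fun z => ?_⟩
  have h := h1 G ι d ((δ⁻¹ * f z * δ) *
      (d.s ⟨d.B, d.hB⟩ ^ k0 * z * (d.s ⟨d.B, d.hB⟩ ^ k0)⁻¹)⁻¹) (fun M => by
    obtain ⟨n, hn, he⟩ := hk0 M
    refine ⟨n, hn, ?_⟩
    rw [MonoidHom.map_mul, hw', ← hk, he, MonoidHom.map_inv, MonoidHom.map_mul,
      MonoidHom.map_mul, MonoidHom.map_inv, MonoidHom.map_zpow, d.θs, mul_inv_cancel])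
  have h' := mul_inv_eq_one.mp h
  have : f z = δ * (δ⁻¹ * f z * δ) * δ⁻¹ := by group
  rw [this, h']
  group

theorem rel_VGrH {A : Type} [CommGroup A] (g : ℕ) (a : Fin g ⊕ Fin g → A) :
    ∀ r ∈ ({surfRel g} : Set (FreeGroup (Fin g ⊕ Fin g))), FreeGroup.lift a r = 1 := by
  rintro r rfl
  rw [surfRel, map_list_prod]
  refine List.prod_eq_one fun x hx => ?_
  obtain ⟨y, hy, rfl⟩ := List.mem_map.1 hx
  obtain ⟨i, rfl⟩ := List.mem_ofFn.1 hy
  simp

theorem lift_VGrH (g : ℕ) (lam : Surf g →* Multiplicative (ZMod 2)) :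
    ∃ lz : Surf g →* Multiplicative ℤ,
      (Int.castAddHom (ZMod 2)).toMultiplicative.comp lz = lam := by
  refine ⟨PresentedGroup.toGroup (rel_VGrH g fun i =>
    Multiplicative.ofAdd ((lam (PresentedGroup.of i :
      PresentedGroup ({surfRel g} : Set (FreeGroup (Fin g ⊕ Fin g))))).toAdd.val : ℤ)), ?_⟩
  refine PresentedGroup.ext fun i => ?_
  refine (congrArg (Int.castAddHom (ZMod 2)).toMultiplicative
    (PresentedGroup.toGroup.of _)).trans ?_
  simp only [AddMonoidHom.toMultiplicative_apply_apply, toAdd_ofAdd, Int.coe_castAddHom,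
    Int.cast_natCast, ZMod.natCast_zmod_val, ofAdd_toAdd]
  rfl

theorem surf2_ok (hS : SurfHD_st) (hH : GrH_st) (h1 : E1_st) (hR : RF_st) : Surf2_st := by
  obtain ⟨d⟩ := hS 1 le_rfl
  obtain ⟨lz, hl⟩ := lift_VGrH _ d.lam
  refine ⟨hH _ _ d lz fun h => d.hlam ?_, fun z hz => h1 _ _ d z fun N => ⟨N, le_rfl, ?_⟩⟩
  · rw [← hl, MonoidHom.comp_apply, MonoidHom.comp_apply, h]
  · exact rfl_free hR _ _ fun m => Lv_map _ (hz m)

end Pool.Agent.MP_692752_al

end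

section

/-! Conjugacy of the two edge groups in the vertex group. -/

set_option autoImplicit false

namespace Pool.Agent.MP_692752_al

open FreeGroup

/-- the exchange of the two generators -/
def sw_VAnnF : F2 →* F2 := FreeGroup.lift ![of 1, of 0]

/-- the exponent sums -/
def e0_VAnnF : F2 →* Multiplicative ℤ := FreeGroup.lift ![Multiplicative.ofAdd 1, 1]

def e1_VAnnF : F2 →* Multiplicative ℤ := FreeGroup.lift ![1, Multiplicative.ofAdd 1]

theorem mu0_VAnnF : mu (of 0) = xo := by simp [mu]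

theorem mu1_VAnnF : mu (of 1) = co * xo * co := by simp [mu]

theorem cc_VAnnF (z : Orb) : co * (co * z) = z := by rw [← mul_assoc, co_co, one_mul]

theorem co_mu_VAnnF (w : F2) : co * mu w = mu (sw_VAnnF w) * co := by
  have h : (MulAut.conj co).toMonoidHom.comp mu = mu.comp sw_VAnnF := by
    ext i
    fin_cases i <;> simp [mu, sw_VAnnF, co_inv, mul_assoc, cc_VAnnF, co_co]
  have h1 := DFunLike.congr_fun h w
  simp only [MonoidHom.comp_apply, MulEquiv.coe_toMonoidHom, MulAut.conj_apply] at h1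
  rw [← h1, inv_mul_cancel_right]

theorem mem_VAnnF {a : Orb} (ha : a ∈ AO) : ∃ w, a = mu w ∨ a = mu w * co := by
  induction ha using Subgroup.closure_induction with
  | mem x hx =>
    rcases hx with rfl | rfl
    · exact ⟨of 0, Or.inl mu0_VAnnF.symm⟩
    · exact ⟨1, Or.inr (by simp)⟩
  | one => exact ⟨1, Or.inl (by simp)⟩
  | mul x y _ _ hx hy =>
    obtain ⟨w, rfl | rfl⟩ := hx <;> obtain ⟨w', rfl | rfl⟩ := hy
    · exact ⟨w * w', Or.inl (by simp)⟩
    · exact ⟨w * w', Or.inr (by simp [mul_assoc])⟩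
    · exact ⟨w * sw_VAnnF w', Or.inr (by simp [mul_assoc, co_mu_VAnnF])⟩
    · refine ⟨w * sw_VAnnF w', Or.inl ?_⟩
      rw [mul_assoc, ← mul_assoc co, co_mu_VAnnF, mul_assoc, co_co, mul_one, _root_.map_mul]
  | inv x _ hx =>
    obtain ⟨w, rfl | rfl⟩ := hx
    · exact ⟨w⁻¹, Or.inl (by simp)⟩
    · refine ⟨sw_VAnnF w⁻¹, Or.inr ?_⟩
      rw [← co_mu_VAnnF, mul_inv_rev, co_inv, _root_.map_inv]

theorem sq_VAnnF (k : ℤ) : (co * xo) ^ k * (co * xo) ^ k = mu ((of 1 * of 0) ^ k) := by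
  rw [← (Commute.refl _).mul_zpow, map_zpow, _root_.map_mul, mu0_VAnnF, mu1_VAnnF]
  simp only [mul_assoc]

theorem two_VAnnF {G : Type} [Group G] {s t a : G} (h : s * a = a * t) :
    s * s * a = a * (t * t) := by
  rw [mul_assoc, h, ← mul_assoc, h, mul_assoc]

theorem root_VAnnF {w u : F2} {k : ℤ} (hk : k ≠ 0) (h : u ^ k * w = w * u ^ k) : Commute w u := by
  have h1 : (w * u * w⁻¹) ^ k = u ^ k := by rw [conj_zpow, ← h, mul_inv_cancel_right]
  exact mul_inv_eq_iff_eq_mul.1 (zpow_left_injective hk h1)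

theorem f2_VAnnF (hO : AnnO_st) (hD : CentD_st) (w : F2) {k j : ℤ} (hk : k ≠ 0)
    (h : (co * xo) ^ k * mu w = mu w * (co * xo) ^ j) : mu w ∈ Subgroup.zpowers (co * xo) := by
  have h1 := two_VAnnF h
  rw [sq_VAnnF, sq_VAnnF, ← _root_.map_mul, ← _root_.map_mul] at h1
  have h2 := hO.1 h1
  have h3 := congrArg (fun z => (e0_VAnnF z).toAdd) h2
  simp [e0_VAnnF, add_comm] at h3
  subst h3
  have h4 := (root_VAnnF hk h2).map (FreeGroup.lift ![of 0, of 1 * (of 0)⁻¹] : F2 →* F2)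
  obtain ⟨i, hi⟩ := hD (Fin 2) 1 _ (by simpa using h4)
  have h5 : (FreeGroup.lift ![of 0, of 1 * of 0] : F2 →* F2).comp
      (FreeGroup.lift ![of 0, of 1 * (of 0)⁻¹]) = MonoidHom.id F2 := by
    ext i
    fin_cases i <;> simp
  have h6 := (congrArg (FreeGroup.lift ![of 0, of 1 * of 0] : F2 →* F2) hi).trans
    (DFunLike.congr_fun h5 w)
  refine ⟨i + i, ?_⟩
  simp only [zpow_add, sq_VAnnF]
  exact congrArg mu (by simpa using h6)

theorem annF_ok (hO : AnnO_st) (hD : CentD_st) : AnnF_st := by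
  refine ⟨fun a ha k j hk h => ?_, fun a ha k j hk h => ?_, fun a ha k j h => ?_⟩
  · obtain ⟨w, rfl | rfl⟩ := mem_VAnnF ha
    · rw [← mu0_VAnnF, ← map_zpow, ← map_zpow, ← _root_.map_mul, ← _root_.map_mul] at h
      have h2 := hO.1 h
      have h3 := congrArg (fun z => (e0_VAnnF z).toAdd) h2
      simp [e0_VAnnF, add_comm] at h3
      subst h3
      obtain ⟨i, rfl⟩ := hD (Fin 2) 0 _ (root_VAnnF hk h2)
      exact ⟨i, by simp [mu0_VAnnF]⟩
    · rw [← mu0_VAnnF, ← map_zpow, ← map_zpow, mul_assoc, co_mu_VAnnF, ← mul_assoc, ← mul_assoc,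
        mul_left_inj, ← _root_.map_mul, ← _root_.map_mul] at h
      have h3 := congrArg (fun z => (e0_VAnnF z).toAdd) (hO.1 h)
      simp [e0_VAnnF, sw_VAnnF, hk] at h3
  · obtain ⟨w, rfl | rfl⟩ := mem_VAnnF ha
    · exact f2_VAnnF hO hD w hk h
    · have e : mu (w * of 0) = mu w * co * (co * xo) := by
        rw [_root_.map_mul, mu0_VAnnF, mul_assoc, cc_VAnnF]
      have h1 := f2_VAnnF hO hD (w * of 0) hk (j := j) (by
        rw [e, ← mul_assoc, h, mul_assoc, mul_assoc _ (co * xo), ← zpow_add_one, ← zpow_one_add,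
          add_comm])
      rw [e] at h1
      exact (Subgroup.mul_mem_cancel_right _ (Subgroup.mem_zpowers _)).1 h1
  · have h1 := two_VAnnF h
    rw [sq_VAnnF, ← mu0_VAnnF, ← map_zpow, ← _root_.map_mul] at h1
    obtain ⟨w, rfl | rfl⟩ := mem_VAnnF ha
    · rw [← _root_.map_mul, ← _root_.map_mul] at h1
      have h3 := congrArg (fun z => (e0_VAnnF z).toAdd) (hO.1 h1)
      have h4 := congrArg (fun z => (e1_VAnnF z).toAdd) (hO.1 h1)
      simp [e0_VAnnF] at h3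
      simp [e1_VAnnF] at h4
      omega
    · rw [mul_assoc, co_mu_VAnnF, ← mul_assoc, ← mul_assoc, mul_left_inj, ← _root_.map_mul,
        ← _root_.map_mul] at h1
      have h3 := congrArg (fun z => (e0_VAnnF z).toAdd) (hO.1 h1)
      have h4 := congrArg (fun z => (e1_VAnnF z).toAdd) (hO.1 h1)
      simp [e0_VAnnF, sw_VAnnF] at h3
      simp [e1_VAnnF, sw_VAnnF] at h4
      omega

theorem annE_ok (hO : AnnO_st) (hP : PP_st) (hF : AnnF_st) : AnnE_st := by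
  intro a ha h
  have hx : xo ∈ AO := Subgroup.subset_closure (by simp)
  obtain ⟨b, hb⟩ : ∃ b, b = a * (co * xo) * a⁻¹ := ⟨_, rfl⟩
  have e1 : cm xo (a * yo) = xo * b⁻¹ := by
    rw [hb, ← yxy, cm]
    group
  obtain ⟨k, hk⟩ : ∃ k, b = mu k * (co * xo) * (mu k)⁻¹ := by
    obtain ⟨w, rfl | rfl⟩ := mem_VAnnF ha
    · exact ⟨w, hb⟩
    · refine ⟨w * of 0, ?_⟩
      rw [_root_.map_mul, mu0_VAnnF, show mu w * xo = mu w * co * (co * xo) by
        rw [mul_assoc, cc_VAnnF], hb]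
      group
  obtain ⟨g, hg⟩ : ∃ g, xo * b⁻¹ = mu g * co := by
    refine ⟨of 0 * k * (of 0)⁻¹ * sw_VAnnF k⁻¹, ?_⟩
    rw [_root_.map_mul, mul_assoc, ← co_mu_VAnnF, hk]
    simp only [_root_.map_mul, _root_.map_inv, mu0_VAnnF, mul_inv_rev, inv_inv, co_inv, mul_assoc]
  rw [e1] at h
  have e2 : b = mu g * co * xo := by
    rw [← hg, eq_inv_of_mul_eq_one_left h]
    group
  rw [hg] at h
  have e3 : mu g * co = co * (mu g)⁻¹ := by
    rw [eq_inv_of_mul_eq_one_left h, mul_inv_rev, co_inv]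
  obtain ⟨i, j, rfl⟩ := hP g k (hO.1 (by
    have h1 : b * b = mu g * co * xo * (co * (mu g)⁻¹ * xo) := by rw [← e3, ← e2]
    have h2 : b * b = mu k * (co * xo) * (mu k)⁻¹ * (mu k * (co * xo) * (mu k)⁻¹) := by rw [← hk]
    simp only [_root_.map_mul, _root_.map_inv, mu0_VAnnF, mu1_VAnnF]
    calc _ = b * b := by rw [h1]; group
      _ = _ := by rw [h2]; group))
  rw [mul_assoc, ← mul_assoc co, co_mu_VAnnF, mul_assoc, co_co, mul_one, ← _root_.map_mul,
    ← _root_.map_one mu] at h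
  have h3 := congrArg (fun z => (e0_VAnnF z).toAdd) (hO.1 h)
  simp [e0_VAnnF, sw_VAnnF] at h3
  obtain rfl : j = -i := by omega
  have e4 : b = xo ^ i * (co * xo) * (xo ^ i)⁻¹ := by
    have h1 := co_mu_VAnnF (of 0 ^ (-i))
    simp only [map_zpow, sw_VAnnF, FreeGroup.lift_apply_of, Matrix.cons_val_zero] at h1
    rw [e2, _root_.map_mul, map_zpow, map_zpow, mul_assoc _ _ co, ← h1, mu0_VAnnF]
    group
  obtain ⟨j, hj⟩ := hF.2.1 ((xo ^ i)⁻¹ * a) (AO.mul_mem (AO.inv_mem (AO.zpow_mem hx i)) ha) 1 1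
    one_ne_zero (by
      rw [zpow_one]
      calc _ = (xo ^ i)⁻¹ * b * a := by rw [e4]; group
        _ = _ := by rw [hb]; group)
  refine ⟨i, j, ?_⟩
  rw [← yxy] at hj
  simp only [conj_zpow] at hj
  rw [show a = xo ^ i * ((xo ^ i)⁻¹ * a) by group, ← hj]
  group

end Pool.Agent.MP_692752_al

end
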