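import Pool.Agent.Mg.F692752.Ge7ea3c
import Pool.Agent.Mg.F692752.Ge61853
import Pool.Agent.Mg.F692752.Gc65e5a
import Pool.Agent.Mg.F692752.Gc927a6
import Pool.Agent.Mg.F692752.G923e6d
import Pool.Agent.Mg.F692752.G94411f
import Pool.Agent.Mg.F692752.Ga2eedf
import Pool.Agent.Mg.F692752.G012e4b
import Pool.Agent.Mg.F692752.Gedee7c

section

/-! Products of large powers are long. -/

namespace Pool.Agent.MP_692752_al

open FreeGroup

section
variable {α : Type} [DecidableEq α]

theorem n3_BG (a x b : FreeGroup α) : (a * x * b).norm ≤ a.norm + x.norm + b.norm :=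
  (FreeGroup.norm_mul_le _ _).trans (Nat.add_le_add_right (FreeGroup.norm_mul_le _ _) _)

theorem n4_BG (a x b : FreeGroup α) : x.norm ≤ a.norm + (a * x * b).norm + b.norm := by
  have := n3_BG a⁻¹ (a * x * b) b⁻¹
  rwa [norm_inv_eq, norm_inv_eq, show a⁻¹ * (a * x * b) * b⁻¹ = x by group] at this

theorem pw_BG (hs : Sq_st) (hw : Pow_st) {u : FreeGroup α} (hu : u ≠ 1) (m : ℤ) :
    m.natAbs ≤ (u ^ m).norm := by
  have k : ∀ j : ℕ, j ≤ (u ^ j).norm := by
    rintro (_ | j)
    · exact Nat.zero_le _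
    have h1 := hw α u j
    have h2 := Nat.mul_le_mul_left j (Nat.succ_le_of_lt (hs α u hu))
    have h3 := mt FreeGroup.norm_eq_zero.1 hu
    rw [Nat.mul_succ] at h2
    omega
  obtain ⟨j, rfl | rfl⟩ := m.eq_nat_or_neg <;> simpa using k j

/-- bounded cancellation -/
def R_BG (K : ℕ) (z z' : FreeGroup α) : Prop := z.norm + z'.norm ≤ (z * z').norm + K

theorem pair_BG (hb : BP_st) {τ τ' : Tm α} (h : τ.Gd τ') :
    ∃ K, ∀ n, R_BG K (τ.ev n) (τ'.ev n) := by
  obtain ⟨C, hC⟩ := hb α _ _ h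
  set f := τ.g' * τ'.g with hf
  refine ⟨C + 2 * τ.g.norm + τ.g'.norm + (τ'.g * f⁻¹).norm + 2 * (f * τ'.g').norm, fun n => ?_⟩
  have h1 := hC (τ.μ n) (τ'.μ n)
  have h2 := n4_BG τ.g (τ.u ^ τ.μ n * (f * τ'.u * f⁻¹) ^ τ'.μ n) (f * τ'.g')
  have h3 := n3_BG τ.g (τ.u ^ τ.μ n) τ.g'
  have h4 := n3_BG (τ'.g * f⁻¹) ((f * τ'.u * f⁻¹) ^ τ'.μ n) (f * τ'.g')
  have e1 : τ.g * (τ.u ^ τ.μ n * (f * τ'.u * f⁻¹) ^ τ'.μ n) * (f * τ'.g') = τ.ev n * τ'.ev n := by
    rw [conj_zpow]
    simp only [Tm.ev, mul_assoc, inv_mul_cancel_left]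
    simp only [hf, mul_assoc]
  have e2 : τ'.g * f⁻¹ * (f * τ'.u * f⁻¹) ^ τ'.μ n * (f * τ'.g') = τ'.ev n := by
    rw [conj_zpow]
    simp only [Tm.ev, mul_assoc, inv_mul_cancel_left]
  rw [e1] at h2
  rw [e2] at h4
  change (τ.ev n).norm ≤ _ at h3
  unfold R_BG
  omega

theorem chain_BG (hb : BP_st) {L : List (Tm α)} (h : L.IsChain Tm.Gd) :
    ∃ K, ∀ n, (L.map (Tm.ev n)).IsChain (R_BG K) := by
  induction h with
  | nil => exact ⟨0, fun _ => .nil⟩
  | singleton τ => exact ⟨0, fun _ => .singleton _⟩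
  | cons_cons h _ ih =>
    obtain ⟨K, hK⟩ := pair_BG hb h
    obtain ⟨K', hK'⟩ := ih
    refine ⟨K + K', fun n => .cons_cons ?_ ((hK' n).imp fun a b c => ?_)⟩
    · exact (hK n).trans (by omega)
    · exact c.trans (by omega)

theorem low_BG (hs : Sq_st) (hw : Pow_st) (L : List (Tm α)) (h : ∀ τ ∈ L, τ.u ≠ 1) :
    ∃ C, ∀ τ ∈ L, ∀ n, (τ.μ n).natAbs ≤ (τ.ev n).norm + C := by
  refine ⟨(L.map fun τ => τ.g.norm + τ.g'.norm).sum, fun τ hτ n => ?_⟩
  have h1 := List.single_le_sum (l := L.map fun τ => τ.g.norm + τ.g'.norm)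
    (fun _ _ => Nat.zero_le _) _ (List.mem_map_of_mem hτ)
  have h2 := pw_BG hs hw (h τ hτ) (τ.μ n)
  have h3 := n4_BG τ.g (τ.u ^ τ.μ n) τ.g'
  change _ ≤ _ + (τ.ev n).norm + _ at h3
  omega

theorem step_BG (h4 : Four_st) {K : ℕ} {w z z' : FreeGroup α} (h : R_BG K w z) (h' : R_BG K z z')
    (hz : K < z.norm) : R_BG K (w * z) z' := by
  have := (h4 α w z z').2.2
  unfold R_BG at *
  omega

theorem grow_BG (h4 : Four_st) {K D : ℕ} (A Z : List (FreeGroup α)) (w : FreeGroup α)
    (hc : (A ++ Z).IsChain (R_BG K)) (hb : ∀ z ∈ A ++ Z, K + D < z.norm)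
    (hw : ∀ z ∈ (A ++ Z).head?, R_BG K w z) (hZ : Z ≠ []) :
    (w * A.prod).norm + D ≤ (w * (A ++ Z).prod).norm := by
  have tl : ∀ (Z : List (FreeGroup α)) (w : FreeGroup α), Z.IsChain (R_BG K) →
      (∀ z ∈ Z, K + D < z.norm) → (∀ z ∈ Z.head?, R_BG K w z) →
      w.norm + (if Z = [] then 0 else D) ≤ (w * Z.prod).norm := by
    intro Z
    induction Z with
    | nil => simp
    | cons z Z ih =>
      intro w hc hb hw
      rw [List.isChain_cons] at hc
      have h1 : R_BG K w z := hw z rfl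
      have h2 := hb z List.mem_cons_self
      have h3 := ih (w * z) hc.2 (fun y hy => hb y (List.mem_cons_of_mem _ hy))
        fun y hy => step_BG h4 h1 (hc.1 y hy) (by omega)
      rw [List.prod_cons, ← mul_assoc, if_neg (List.cons_ne_nil _ _)]
      unfold R_BG at h1
      omega
  induction A generalizing w with
  | nil => simpa [hZ] using tl Z w hc hb hw
  | cons z A ih =>
    rw [List.cons_append, List.isChain_cons] at hc
    have h2 := hb z List.mem_cons_self
    have h3 := ih (w * z) hc.2 (fun y hy => hb y (List.mem_cons_of_mem _ hy))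
      fun y hy => step_BG h4 (hw z rfl) (hc.1 y hy) (by omega)
    rwa [List.cons_append, List.prod_cons, List.prod_cons, ← mul_assoc, ← mul_assoc]

end

theorem bg_ok (h4 : Four_st) (hs : Sq_st) (hw : Pow_st) (hb : BP_st) : BG_st := by
  intro α _ L₁ L₂ h2 hc hu D
  obtain ⟨K, hK⟩ := chain_BG hb hc
  obtain ⟨C, hC⟩ := low_BG hs hw _ hu
  refine ⟨K + D + C + 1, fun n hn => ?_⟩
  have h := hK n
  rw [List.map_append] at h ⊢
  have := grow_BG h4 (D := D) _ _ 1 h (fun z hz => by
    rw [← List.map_append] at hz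
    obtain ⟨τ, hτ, rfl⟩ := List.mem_map.1 hz
    have h1 := hC τ hτ n
    have h3 := hn τ hτ
    omega) (fun z _ => by simp [R_BG]) (by simpa using h2)
  rwa [one_mul, one_mul] at this

end Pool.Agent.MP_692752_al

end

section

/-! Grossman's theorem and the transfer theorem without hypotheses. -/

set_option autoImplicit false

namespace Pool.Agent.MP_692752_al

theorem bg_all : BG_st := bg_ok four_ok sq_ok pow_ok (bp_ok fourP_ok pre_ok par_ok sq_ok pow_ok)

theorem pi_all : PI_st := pi_ok cp_ok (rf_ok cp_ok) (cs_ok cp_ok) cent_ok cf_ok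

theorem gr_all (g : ℕ) (hg : 2 ≤ g) : Gr (Surf g) :=
  gr_surf (surfHD_ok centD_ok)
    (gross_ok pi_all (e1_ok bg_all lin_ok) (e2_ok fourP_ok bg_all cycF_ok) (e3_ok bg_all lin_ok))
    g hg

theorem out_all : Out_st := out_ok cong_ok (at_ok (hall_ok cp_ok))

end Pool.Agent.MP_692752_al

end

section

/-! The data of the fourfold cover. -/

set_option autoImplicit false

namespace Pool.Agent.MP_692752_al

open FreeGroup

def e3W : Fin 3 → Wd 2 :=
    ![[(0, true)], [(1, true), (1, true)], [(1, true), (0, true), (1, false)]]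

def ioW : Fin 5 → Wd 2 :=
    ![[(0, true), (0, true), (0, true), (0, true)], [(0, false), (1, true), (0, false)], [(0,
    false), (0, false), (0, false), (1, true), (0, true), (1, false), (0, true), (0, true), (0,
    true), (0, true)], [(0, false), (1, true), (0, true), (1, false), (0, true), (0, true)], [(0,
    false), (0, false), (1, true), (0, true), (1, false), (0, true), (0, true), (0, true)]]

def qW : Fin 5 → Wd 4 :=
    ![[(0, true)], [(2, false), (3, true), (2, true), (1, true), (0, false)], [(2, true), (0,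
    true)], [(2, false)], [(3, true)]]

def sgW : Fin 4 → Wd 5 :=
    ![[(0, true)], [(0, true), (2, false), (4, false), (3, false), (1, true), (0, true)], [(3,
    false)], [(4, true)]]

def tauW : Fin 5 → Wd 5 :=
    ![[(0, true), (2, false), (0, true), (2, true), (0, false)], [(0, true), (2, false), (4,
    false), (3, false), (1, true), (0, true), (2, true), (0, false)], [(0, true), (2, false), (0,
    false), (3, true), (0, true), (2, true), (0, false)], [(0, true), (2, true), (0, false)],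
    [(0, true), (2, false), (2, false), (4, false), (3, false), (1, true), (0, true), (1, false),
    (0, true), (2, true), (0, false)]]

def swW : Fin 4 → Wd 4 :=
    ![[(0, true), (2, true)], [(1, true)], [(2, false)], [(2, false), (3, true), (2, true), (1,
    true), (2, true)]]

def swiW : Fin 4 → Wd 4 :=
    ![[(0, true), (2, true)], [(1, true)], [(2, false)], [(2, false), (3, true), (2, true), (1,
    false), (2, true)]]

theorem okSw : ∀ i, apW swW (swiW i) = [(i, true)] ∧ apW swiW (swW i) = [(i, true)] := by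
  decide +kernel

def alC : Fin 3 → Fin 5 → Wd 5 :=
    ![![[(0, true), (4, false), (3, false), (1, true), (0, true), (1, true), (0, true), (3,
    false), (1, true), (0, true), (3, false), (1, true), (0, true), (1, true), (0, true), (4,
    false), (3, false), (1, true), (0, true), (0, true), (2, false), (4, false), (3, false), (1,
    true), (0, true), (0, true), (2, false), (4, false), (3, false), (1, true), (0, true)], [(0,
    false), (1, false), (3, true), (4, true), (2, true), (0, false), (0, false), (1, false), (3,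
    true), (4, true), (2, true), (0, false), (0, false), (1, false), (3, true), (4, true), (0,
    false)], [(0, false), (1, false), (3, true), (4, true), (2, true), (0, false), (0, false),
    (1, false), (3, true), (4, true), (2, true), (0, false), (0, false), (1, false), (3, true),
    (4, true), (0, false), (1, false), (0, false), (1, false), (3, true), (0, false), (1, false),
    (3, true), (4, false), (3, false), (1, true), (0, true), (0, true), (2, false), (4, false),
    (3, false), (1, true), (0, true), (0, true), (4, false), (3, false), (1, true), (0, true),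
    (1, true), (0, true), (3, false), (1, true), (0, true), (3, false), (1, true), (0, true), (1,
    true), (0, true), (4, false), (3, false), (1, true), (0, true), (0, true), (2, false), (4,
    false), (3, false), (1, true), (0, true), (0, true), (2, false), (4, false), (3, false), (1,
    true), (0, true)], [(0, false), (1, false), (3, true), (4, true), (2, true), (0, false), (0,
    false), (1, false), (3, true), (4, true), (2, true), (0, false), (1, true), (0, true), (3,
    false), (1, true), (0, true), (1, true), (0, true), (4, false), (3, false), (1, true), (0,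
    true), (0, true), (2, false), (4, false), (3, false), (1, true), (0, true), (0, true), (2,
    false), (4, false), (3, false), (1, true), (0, true)], [(0, false), (1, false), (3, true),
    (4, true), (2, true), (0, false), (0, false), (1, false), (3, true), (4, true), (2, true),
    (0, false), (0, false), (1, false), (3, true), (4, true), (0, false), (1, false), (3, false),
    (1, true), (0, true), (1, true), (0, true), (3, false), (1, true), (0, true), (3, false), (1,
    true), (0, true), (1, true), (0, true), (4, false), (3, false), (1, true), (0, true), (0,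
    true), (2, false), (4, false), (3, false), (1, true), (0, true), (0, true), (2, false), (4,
    false), (3, false), (1, true), (0, true)]], ![[(0, true)], [(1, true), (0, true)], [(2,
    true)], [(3, true)], [(4, true)]], ![[(0, true), (4, false), (3, false), (1, true), (0,
    true), (0, true), (4, false), (3, false), (1, true), (0, true), (0, true), (3, false), (1,
    true), (0, true), (0, true), (2, false), (4, false), (3, false), (1, true), (0, true), (0,
    true), (1, true), (0, true), (1, true), (0, true), (0, true), (2, false), (4, false), (3,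
    false), (1, true), (0, true), (0, true), (3, false), (1, true), (0, true)], [(0, false), (1,
    false), (3, true), (0, false), (0, false), (1, false), (3, true), (4, true), (2, true), (0,
    false), (0, false), (1, false), (0, false), (0, false), (1, false), (3, true), (4, true), (2,
    true), (0, false), (0, false), (1, false), (3, true), (0, false), (0, false), (1, false), (3,
    true), (4, true), (0, false), (0, false), (1, false), (3, true), (4, true), (0, false)], [(0,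
    false), (1, false), (3, true), (0, false), (0, false), (1, false), (3, true), (4, true), (2,
    true), (0, false), (0, false), (1, false), (0, false), (1, false), (0, false), (0, false),
    (1, false), (3, true), (4, true), (2, true), (0, false), (0, false), (1, false), (3, true),
    (4, false), (3, false), (1, true), (0, true), (0, true), (3, false), (1, true), (0, true),
    (0, true), (4, false), (3, false), (1, true), (0, true), (0, true), (4, false), (3, false),
    (1, true), (0, true), (0, true), (3, false), (1, true), (0, true), (0, true), (2, false), (4,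
    false), (3, false), (1, true), (0, true), (0, true), (1, true), (0, true), (1, true), (0,
    true), (0, true), (2, false), (4, false), (3, false), (1, true), (0, true), (0, true), (3,
    false), (1, true), (0, true)], [(0, false), (1, false), (3, true), (0, false), (0, false),
    (1, false), (3, true), (4, true), (2, true), (0, false), (1, true), (0, true), (0, true), (2,
    false), (4, false), (3, false), (1, true), (0, true), (0, true), (1, true), (0, true), (1,
    true), (0, true), (0, true), (2, false), (4, false), (3, false), (1, true), (0, true), (0,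
    true), (3, false), (1, true), (0, true)], [(0, false), (1, false), (3, true), (0, false), (0,
    false), (1, false), (3, true), (4, true), (2, true), (0, false), (0, false), (1, false), (0,
    false), (1, false), (3, false), (1, true), (0, true), (0, true), (4, false), (3, false), (1,
    true), (0, true), (0, true), (3, false), (1, true), (0, true), (0, true), (2, false), (4,
    false), (3, false), (1, true), (0, true), (0, true), (1, true), (0, true), (1, true), (0,
    true), (0, true), (2, false), (4, false), (3, false), (1, true), (0, true), (0, true), (3,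
    false), (1, true), (0, true)]]]

def aliC : Fin 3 → Fin 5 → Wd 5 :=
    ![![[(1, false), (0, false), (1, false), (3, true), (4, true), (0, false), (1, false), (3,
    true), (0, false), (1, false), (3, true), (0, false), (1, false), (3, true), (4, true), (0,
    false), (1, false), (0, false), (1, false), (3, true), (4, true), (2, true), (0, false), (0,
    false), (1, false), (3, true), (4, true), (2, true), (0, false)], [(0, true), (2, false), (4,
    false), (3, false), (1, true), (0, true), (0, true), (2, false), (4, false), (3, false), (1,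
    true), (0, true), (1, true), (0, true), (4, false), (3, false), (1, true), (0, true), (1,
    true)], [(0, true), (2, false), (4, false), (3, false), (1, true), (0, true), (0, true), (2,
    false), (4, false), (3, false), (1, true), (0, true), (1, true), (0, true), (4, false), (3,
    false), (1, true), (0, true), (3, false), (1, true), (0, true), (3, false), (1, true), (0,
    true), (2, true), (0, false), (0, false), (1, false), (3, true), (4, true), (2, true), (0,
    false), (0, false), (1, false), (3, true), (4, true), (2, true), (0, false), (1, false), (0,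
    false), (1, false), (3, true), (4, true), (0, false), (1, false), (3, true), (0, false), (1,
    false), (3, true), (0, false), (1, false), (3, true), (4, true), (0, false), (1, false), (0,
    false), (1, false), (3, true), (4, true), (2, true), (0, false), (0, false), (1, false), (3,
    true), (4, true), (2, true), (0, false)], [(0, true), (2, false), (4, false), (3, false), (1,
    true), (0, true), (0, true), (2, false), (4, false), (3, false), (1, true), (0, true), (3,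
    true), (0, false), (1, false), (3, true), (0, false), (1, false), (3, true), (0, false), (1,
    false), (3, true), (4, true), (0, false), (1, false), (0, false), (1, false), (3, true), (4,
    true), (2, true), (0, false), (0, false), (1, false), (3, true), (4, true), (2, true), (0,
    false)], [(0, true), (2, false), (4, false), (3, false), (1, true), (0, true), (0, true), (2,
    false), (4, false), (3, false), (1, true), (0, true), (1, true), (0, true), (4, false), (3,
    false), (1, true), (0, true), (4, true), (0, false), (1, false), (0, false), (1, false), (3,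
    true), (4, true), (0, false), (1, false), (3, true), (0, false), (1, false), (3, true), (0,
    false), (1, false), (3, true), (4, true), (0, false), (1, false), (0, false), (1, false), (3,
    true), (4, true), (2, true), (0, false), (0, false), (1, false), (3, true), (4, true), (2,
    true), (0, false)]], ![[(0, true)], [(1, true), (0, false)], [(2, true)], [(3, true)], [(4,
    true)]], ![[(0, false), (1, false), (3, true), (4, true), (0, false), (0, false), (1, false),
    (3, true), (4, true), (0, false), (0, false), (1, false), (3, true), (4, true), (2, true),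
    (0, false), (0, false), (1, false), (3, true), (0, false), (1, false), (0, false), (1,
    false), (0, false), (1, false), (3, true), (0, false), (0, false), (1, false), (3, true), (4,
    true), (2, true), (0, false)], [(0, true), (2, false), (4, false), (3, false), (1, true), (0,
    true), (0, true), (3, false), (1, true), (0, true), (1, true), (0, true), (1, true), (0,
    true), (1, true), (0, true), (3, false), (1, true), (0, true), (0, true), (2, false), (4,
    false), (3, false), (1, true), (0, true), (0, true), (4, false), (3, false), (1, true), (0,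
    true), (0, true), (4, false), (3, false), (1, true), (0, true)], [(0, true), (2, false), (4,
    false), (3, false), (1, true), (0, true), (0, true), (3, false), (1, true), (0, true), (1,
    true), (0, true), (1, true), (0, true), (3, false), (1, true), (0, true), (0, true), (2,
    false), (4, false), (3, false), (1, true), (0, true), (0, true), (2, true), (0, false), (0,
    false), (1, false), (3, true), (0, false), (0, false), (1, false), (3, true), (4, true), (2,
    true), (0, false), (0, false), (1, false), (3, true), (4, true), (0, false), (0, false), (1,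
    false), (3, true), (4, true), (0, false), (0, false), (1, false), (3, true), (4, true), (2,
    true), (0, false), (0, false), (1, false), (3, true), (0, false), (1, false), (0, false), (1,
    false), (0, false), (1, false), (3, true), (0, false), (0, false), (1, false), (3, true), (4,
    true), (2, true), (0, false)], [(0, true), (2, false), (4, false), (3, false), (1, true), (0,
    true), (0, true), (3, false), (1, true), (0, true), (3, true), (0, false), (0, false), (1,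
    false), (3, true), (4, true), (2, true), (0, false), (0, false), (1, false), (3, true), (0,
    false), (1, false), (0, false), (1, false), (0, false), (1, false), (3, true), (0, false),
    (0, false), (1, false), (3, true), (4, true), (2, true), (0, false)], [(0, true), (2, false),
    (4, false), (3, false), (1, true), (0, true), (0, true), (3, false), (1, true), (0, true),
    (1, true), (0, true), (1, true), (0, true), (4, true), (0, false), (0, false), (1, false),
    (3, true), (4, true), (0, false), (0, false), (1, false), (3, true), (4, true), (0, false),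
    (0, false), (1, false), (3, true), (4, true), (2, true), (0, false), (0, false), (1, false),
    (3, true), (0, false), (1, false), (0, false), (1, false), (0, false), (1, false), (3, true),
    (0, false), (0, false), (1, false), (3, true), (4, true), (2, true), (0, false)]]]

theorem okAC : ∀ j i, apW (alC j) (aliC j i) = [(i, true)] ∧ apW (aliC j) (alC j i) = [(i, true)] := by
  decide +kernel

def labW : Fin 2 → Fin 4 → Wd 5 :=
    ![![[], [], [], [(0, true)]], ![[(0, true), (2, false), (4, false), (3, false), (1, true),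
    (0, true)], [(4, false), (3, false), (1, true), (0, true)], [(3, false), (1, true), (0,
    true)], [(1, true), (0, true)]]]

def gsW : Fin 3 → Wd 5 :=
    ![[(0, false), (1, false), (3, true), (4, true), (2, true), (0, false), (0, false), (1,
    false), (3, true), (4, true), (2, true), (0, false)], [], [(0, false), (1, false), (3, true),
    (0, false), (0, false), (1, false), (3, true), (4, true), (2, true), (0, false)]]

def secW : Fin 5 → Wd 5 :=
    ![[], [(1, false), (3, true), (4, true), (2, true), (0, false)], [(0, false)], [], []]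

def cocW : Fin 4 → Wd 4 :=
    ![[], [], [(3, true), (0, false)], []]

def chatW : Wd 5 :=
    [(0, true), (4, false), (1, true), (0, false), (1, false), (3, true), (4, true), (2, true),
    (0, false)]

def sigC : Fin 2 → Equiv.Perm (Fin 4) :=
  ![⟨![1, 2, 3, 0], ![3, 0, 1, 2], by decide, by decide⟩,
    ⟨![0, 3, 2, 1], ![0, 3, 2, 1], by decide, by decide⟩]

def labC (i : Fin 2) (v : Fin 4) : F5 := mk (labW i v)

theorem e3_cm_C (w : F2) : cm w (of 1 ^ 2) ∈ (hmW e3W).range := by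
  let σ : Fin 2 → Equiv.Perm (Fin 2) := ![1, Equiv.swap 0 1]
  have h := schreier σ (![![of 0, of 2], ![of 1, 1]] : Fin 2 → Fin 2 → F3) (hmW e3W)
    ![1, (of 1)⁻¹] (by decide +kernel) (cm w (of 1 ^ 2)) 0
  have h2 : FreeGroup.lift σ (of 1 ^ 2 : F2) = 1 := by decide +kernel
  have h3 : FreeGroup.lift σ (cm w (of 1 ^ 2)) = 1 := by rw [map_cm, h2]; simp [cm]
  rw [h3] at h
  exact ⟨_, by simpa using h⟩

theorem io_sur_C (z : F2) (hz : FreeGroup.lift sigC z 0 = 0) : z ∈ (hmW ioW).range := by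
  have h := schreier sigC labC (hmW ioW) ![1, of 0, of 0 * of 0, of 0 * of 0 * of 0]
    (by decide +kernel) z 0
  rw [hz] at h
  exact ⟨_, by simpa using h⟩

theorem io_c_C : pr (hmW ioW puB.c) = 1 := by
  have h : hmW ioW puB.c = (of 0)⁻¹ * (cc * cc) * of 0 := by decide +kernel
  have h1 : pr (cc * cc) = 1 := by rw [_root_.map_mul]; exact co_co
  rw [h, _root_.map_mul, _root_.map_mul, h1]
  simp

theorem sec_C (u : F5) : u⁻¹ * hmW sgW (hmW qW u) ∈ Subgroup.normalClosure {puB.c} :=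
  sec_of _ ((hmW sgW).comp (hmW qW)) (fun i => mem_ncl (mk (secW i))
    ((![0, 1, 1, 0, 0] : Fin 5 → ℤ) i) (by revert i; decide +kernel)) u

theorem io_sec_C (u : F5) : pr (hmW ioW (hmW sgW (hmW qW u))) = pr (hmW ioW u) := by
  have h : Subgroup.normalClosure {puB.c} ≤ (pr.comp (hmW ioW)).ker :=
    Subgroup.normalClosure_le_normal (by rintro _ rfl; exact io_c_C)
  have h1 := h (sec_C u)
  rw [MonoidHom.mem_ker, _root_.map_mul, _root_.map_inv, inv_mul_eq_one] at h1
  exact h1.symm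

abbrev G2 := FreeGroup (Fin 2 ⊕ Fin 2)

def jC : F4 →* G2 :=
  FreeGroup.lift ![(of (.inr 1))⁻¹, of (.inl 1), (of (.inr 0))⁻¹, (of (.inl 0))⁻¹]

def jiC : G2 →* F4 :=
  FreeGroup.lift (Sum.elim ![(of 3)⁻¹, of 1] ![(of 2)⁻¹, (of 0)⁻¹])

def mkS : G2 →* Surf 2 := PresentedGroup.mk _

theorem ji_j_C (u : F4) : jiC (jC u) = u :=
  DFunLike.congr_fun (FreeGroup.ext_hom (jiC.comp jC) (MonoidHom.id _) (by decide +kernel)) u

theorem j_ji_C (u : G2) : jC (jiC u) = u :=
  DFunLike.congr_fun (FreeGroup.ext_hom (jC.comp jiC) (MonoidHom.id _) (by decide +kernel)) u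

def iC : G2 →* Orb := pr.comp ((hmW ioW).comp ((hmW sgW).comp jiC))

theorem iRel_C : ∀ r ∈ ({surfRel 2} : Set G2), FreeGroup.lift (fun i => iC (of i)) r = 1 := by
  rintro r rfl
  have h0 : FreeGroup.lift (fun i => iC (of i)) = iC := by ext i; simp
  have h1 : jiC (surfRel 2) = hmW qW ((of 0)⁻¹ * mk chatW * of 0) := by decide +kernel
  have h2 : hmW ioW (mk chatW) = cc * cc := by decide +kernel
  have h3 : pr (cc * cc) = 1 := by rw [_root_.map_mul]; exact co_co
  rw [h0]
  change pr (hmW ioW (hmW sgW (jiC (surfRel 2)))) = 1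
  rw [h1, io_sec_C, (hmW ioW).map_mul, (hmW ioW).map_mul, h2, pr.map_mul, pr.map_mul, h3]
  simp

def i0C : Surf 2 →* Orb := PresentedGroup.toGroup iRel_C

theorem i0_mk_C (u : G2) : i0C (mkS u) = iC u :=
  DFunLike.congr_fun (FreeGroup.ext_hom (i0C.comp mkS) iC fun _ =>
    PresentedGroup.toGroup.of iRel_C) u

/-- the data of the cover -/
def cdC : CD where
  d1 := puA
  d2 := puB
  e3 := hmW e3W
  e3_1 := by decide +kernel
  e3_cm := e3_cm_C
  σ := sigC
  lab := labC
  io := hmW ioW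
  io_fix u := (coc_sec sigC labC (hmW ioW) 0 (by decide +kernel) u).1
  io_coc u := (coc_sec sigC labC (hmW ioW) 0 (by decide +kernel) u).2
  io_sur := io_sur_C
  io_c := io_c_C
  q := hmW qW
  sg := hmW sgW
  q_sg u := DFunLike.congr_fun (FreeGroup.ext_hom ((hmW qW).comp (hmW sgW)) (MonoidHom.id _)
    (by decide +kernel)) u
  q_c := by decide +kernel
  sec := sec_C
  σ_cc := by decide +kernel
  coc_cc v := mem_ncl (mk (cocW v)) ((![1, 0, 1, 0] : Fin 4 → ℤ) v) (by revert v; decide +kernel)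
  α1 := luW alA aliA okAA
  α2 := luW alC aliC okAC
  α3 := luW alB aliB okAB
  io_α := twine_of (luW alC aliC okAC) (jj.comp (hmW e3W)) (hmW ioW) (by decide +kernel)
  q_α := twine_of (luW alC aliC okAC) (luW alA aliA okAA) (hmW qW) (by decide +kernel)
  α23 := inner_of _ _ fun j => ⟨mk (gsW j), by revert j; decide +kernel⟩
  τ := hmW tauW
  sw := auW swW swiW okSw
  q_τ u := DFunLike.congr_fun (FreeGroup.ext_hom ((hmW qW).comp (hmW tauW))
    ((hmW swW).comp (fs.comp ((hmW swiW).comp (hmW qW)))) (by decide +kernel)) u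
  α_τ v u := (twine_of (luW alB aliB okAB) (luW alB aliB okAB) (hmW tauW)
    (by decide +kernel) v u).symm
  α1_T := luW_of _ _ _ _
  α3_T := luW_of _ _ _ _
  α1_cp := cpA
  α3_cp := cpB
  j4 := mkS.comp jC
  j4_c := by
    have h : jC puA.c = (of (.inr 1))⁻¹ * surfRel 2 * of (.inr 1) := by decide +kernel
    have h1 : mkS (surfRel 2) = 1 := PresentedGroup.one_of_mem rfl
    rw [MonoidHom.comp_apply, h, _root_.map_mul, _root_.map_mul, h1]
    simp
  j4_sur z := by
    obtain ⟨u, rfl⟩ := PresentedGroup.mk_surjective _ z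
    exact ⟨jiC u, congrArg mkS (j_ji_C u)⟩
  i0 := i0C
  i0_j u := by
    rw [MonoidHom.comp_apply, i0_mk_C]
    change pr (hmW ioW (hmW sgW (jiC (jC u)))) = _
    rw [ji_j_C]

end Pool.Agent.MP_692752_al

end

section

/-! The twisted conjugacy relation keeps the pair of pants, even case. -/

set_option autoImplicit false

namespace Pool.Agent.MP_692752_al

open FreeGroup

theorem key_VW0 {ι : Type} (d : HM ι) {m r : ℕ} {h u b w x y : FreeGroup ι}
    (h1 : Eqv m ((d.ψ h)^[r] u) (u * x)) (h2 : Eqv m (u * b) w)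
    (h3 : Eqv m ((d.ψ h)^[r] w) (w * y)) (z : FreeGroup ι) :
    Eqv m (x * (d.D ^ r) b * z) (b * y * z) := by
  have h4 := (d.ψ_eqv h h2 r).trans (h3.trans (h2.symm.mul (Eqv.refl y)))
  rw [d.ψ_mul] at h4
  have h5 := (Eqv.refl u⁻¹).mul ((h1.symm.mul (Eqv.refl _)).trans h4)
  simpa only [mul_assoc, inv_mul_cancel_left] using h5.mul (Eqv.refl z)

theorem w0_ok (hC : Conn_st) (hF : HMF_st) : W0_st := by
  intro ι _ d m
  obtain ⟨m1, hm, h2, F1, F2, F3, F4⟩ := hF ι d m
  obtain ⟨m', hC'⟩ := hC ι d m1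
  refine ⟨m', fun h hh hη g p hp hg => ?_⟩
  obtain ⟨r, hr, H⟩ := hC' h hh
  have hr' : Odd (r : ℤ) := by exact_mod_cast hr
  have par : ∀ (u x : FreeGroup ι) (k : ℤ), (d.η x).toAdd = 1 ∨ (d.η x).toAdd = -1 →
      Eqv m1 ((d.ψ h)^[r] u) (u * x ^ k) → Even k := fun u x k hx e => by
    have e1 := e.modEq (N := 2) two_ne_zero h2 d.η
    rw [d.η_ψ, _root_.map_mul, map_zpow, toAdd_mul, toAdd_zpow, smul_eq_mul] at e1
    have e2 := Int.even_iff.1 (hη.mul_left r)
    rw [Int.even_iff]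
    unfold Int.ModEq at e1
    rcases hx with hx | hx <;> rw [hx] at e1 <;> omega
  have pn := fun u k => par u d.n k (Or.inr (by rw [d.η_n]; rfl))
  have pg := fun u k => par u d.γ k (Or.inl (by rw [d.η_g]; rfl))
  have sp : ∀ {u b w x : FreeGroup ι}, (∃ q ∈ d.P, Eqv m u q) → Eqv m1 (u * b) w → x ∈ d.P →
      Eqv m b x → ∃ q ∈ d.P, Eqv m w q := fun ⟨q, hq, e⟩ e1 hx e2 =>
    ⟨_, d.P.mul_mem hq hx, (e1.anti hm).symm.trans (e.mul e2)⟩
  refine (H (fun u => ∃ q ∈ d.P, Eqv m u q) (fun w => ∃ u, (∃ q ∈ d.P, Eqv m u q) ∧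
    ((∃ k : ℤ, Eqv m1 ((d.ψ h)^[r] u) (u * d.n ^ k)) ∧ (∃ a ∈ d.A, Eqv m1 (u * a) w) ∨
      (∃ k : ℤ, Eqv m1 ((d.ψ h)^[r] u) (u * d.γ ^ k)) ∧ ∃ a ∈ d.A, Eqv m1 (u * (d.s⁻¹ * a)) w))
    ?_ ?_ ?_ ?_ ?_ ?_).1 g p hp hg ⟨1, d.P.one_mem, Eqv.refl _⟩
  · exact fun u v p hp e hu => sp hu e hp (Eqv.refl _)
  · rintro w v b hb e ⟨u, hu, ⟨hk, a, ha, e1⟩ | ⟨hk, a, ha, e1⟩⟩
    · exact ⟨u, hu, Or.inl ⟨hk, a * b, d.A.mul_mem ha hb,
        (Eqv.of_eq (by group)).trans ((e1.mul (Eqv.refl b)).trans e)⟩⟩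
    · exact ⟨u, hu, Or.inr ⟨hk, a * b, d.A.mul_mem ha hb,
        (Eqv.of_eq (by group)).trans ((e1.mul (Eqv.refl b)).trans e)⟩⟩
  · rintro u ⟨q, hq, e⟩
    exact ⟨_, d.P.mul_mem (d.P.inv_mem (d.P.pow_mem hh r)) hq, d.ψ_P hh hq r ▸ d.ψ_eqv h e r⟩
  · rintro w ⟨u, hu, ⟨⟨k, hk⟩, a, ha, e1⟩ | ⟨⟨k, hk⟩, a, ha, e1⟩⟩ <;>
      have e2 := d.ψ_eqv h e1 r <;> rw [d.ψ_mul] at e2 <;>
      have e3 := (hk.symm.mul (Eqv.refl _)).trans e2
    · rw [d.Dr_A ha] at e3
      exact ⟨u, hu, Or.inl ⟨⟨k, hk⟩, d.n ^ k * (d.n ^ r * a * (d.n ^ r)⁻¹),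
        d.A.mul_mem (d.A.zpow_mem d.n_A k) (d.A.mul_mem (d.A.mul_mem (d.A.pow_mem d.n_A r) ha)
          (d.A.inv_mem (d.A.pow_mem d.n_A r))), (Eqv.of_eq (by group)).trans e3⟩⟩
    · rw [_root_.map_mul, _root_.map_inv, d.Dr_A ha, d.Dr_s] at e3
      exact ⟨u, hu, Or.inr ⟨⟨k, hk⟩, (d.s * d.γ * d.s⁻¹) ^ (k - r) * (a * (d.n ^ r)⁻¹),
        d.A.mul_mem (d.A.zpow_mem d.sγ_A _) (d.A.mul_mem ha (d.A.inv_mem (d.A.pow_mem d.n_A r))),
        (Eqv.of_eq (by rw [conj_zpow]; group)).trans e3⟩⟩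
  · refine fun w j e => ⟨fun hw => ⟨w, hw, Or.inl ⟨⟨j, e⟩, 1, d.A.one_mem,
      Eqv.of_eq (mul_one _)⟩⟩, ?_⟩
    rintro ⟨u, hu, ⟨⟨k, hk⟩, a, ha, e1⟩ | ⟨⟨k, hk⟩, a, ha, e1⟩⟩ <;>
      have e2 := key_VW0 d hk e1 e (d.n ^ r)
    · rw [d.Dr_A ha] at e2
      obtain ⟨l, hl⟩ := F1 a (k + r) (j + r) ((pn u k hk).add_odd hr')
        (by convert e2 using 1 <;> group)
      exact sp hu e1 (d.P.zpow_mem d.n_P l) hl
    · rw [_root_.map_mul, _root_.map_inv, d.Dr_A ha, d.Dr_s] at e2
      exact absurd (by convert e2 using 1 <;> group)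
        (F4 (d.s⁻¹ * a) (k - r) (j + r) ((pg u k hk).sub_odd hr'))
  · refine fun w j e => ⟨fun hw => ⟨w, hw, Or.inr ⟨⟨j, e⟩, 1, d.A.one_mem,
      Eqv.of_eq (by rw [mul_one])⟩⟩, ?_⟩
    rintro ⟨u, hu, ⟨⟨k, hk⟩, a, ha, e1⟩ | ⟨⟨k, hk⟩, a, ha, e1⟩⟩ <;>
      have e3 := e1.mul (Eqv.refl d.s) <;> rw [inv_mul_cancel_right, mul_assoc] at e3 <;>
      have e2 := key_VW0 d hk e3 e (d.γ ^ r)⁻¹
    · rw [_root_.map_mul, d.Dr_A ha, d.Dr_s] at e2
      exact absurd (by convert e2 using 1 <;> group)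
        (F3 (a * d.s) (k + r) (j - r) ((pn u k hk).add_odd hr'))
    · rw [_root_.map_mul, _root_.map_mul, _root_.map_inv, d.Dr_A ha, d.Dr_s] at e2
      obtain ⟨l, hl⟩ := F2 (d.s⁻¹ * a * d.s) (k - r) (j - r) ((pg u k hk).sub_odd hr')
        (by convert e2 using 1 <;> group)
      exact sp hu e3 (d.P.zpow_mem d.γ_P l) hl

end Pool.Agent.MP_692752_al

end

section

set_option autoImplicit false

namespace Pool.Agent.MP_692752_al

open FreeGroup

theorem cancel_VW1 {G : Type} [Group G] {m : ℕ} {u a b : G} (h : Eqv m (u * a) (u * b)) :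
    Eqv m a b := fun f => by
  have := h f
  rw [_root_.map_mul, _root_.map_mul] at this
  exact mul_left_cancel this

variable {ι : Type} (d : HM ι) {m r : ℕ}

theorem psiP_VW1 (u : FreeGroup ι) {p : FreeGroup ι} (hp : p ∈ d.P) :
    (d.ψ d.n)^[r] (u * p) = (d.ψ d.n)^[r] u * p := by rw [d.ψ_mul, d.Dr_P hp]

theorem psiA_VW1 {b : FreeGroup ι} (hb : b ∈ d.A) : (d.ψ d.n)^[r] b = b * (d.n ^ r)⁻¹ := by
  conv_lhs => rw [← one_mul b, d.ψ_mul, d.ψ_P d.n_P d.P.one_mem, d.Dr_A hb]
  group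

/-- the exponent of a fixed edge is odd -/
theorem odd_VW1 (hm : 2 ≤ m) (hr : Odd r) {u x : FreeGroup ι} {k : ℤ}
    (hx : (d.η x).toAdd = 1 ∨ (d.η x).toAdd = -1)
    (h : Eqv m ((d.ψ d.n)^[r] u) (u * x ^ k)) : Odd k := by
  have h1 := h.modEq (N := 2) two_ne_zero hm d.η
  rw [d.η_ψ, d.η_n, _root_.map_mul, map_zpow, toAdd_mul, toAdd_zpow, toAdd_ofAdd, smul_eq_mul]
    at h1
  obtain ⟨t, rfl⟩ := hr
  obtain ⟨c, hc⟩ := h1.dvd
  rw [Int.odd_iff]
  push_cast at hc
  rcases hx with e | e <;> rw [e] at hc <;> omega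

/-- moving along the vertex group -/
theorem step_VW1 {u w p x : FreeGroup ι} {k : ℤ} (hp : p ∈ d.P)
    (h : Eqv m ((d.ψ d.n)^[r] u) (u * x ^ k)) (e : Eqv m (u * p) w) :
    Eqv m (u * (x ^ k * p)) ((d.ψ d.n)^[r] w) := by
  have h1 := d.ψ_eqv d.n e r
  rw [psiP_VW1 d u hp] at h1
  rw [← mul_assoc]
  exact (h.symm.mul (Eqv.refl p)).trans h1

theorem edge_VW1 {u w p x y : FreeGroup ι} {k j : ℤ} (hp : p ∈ d.P)
    (h : Eqv m ((d.ψ d.n)^[r] u) (u * x ^ k)) (e : Eqv m (u * p) w)
    (h' : Eqv m ((d.ψ d.n)^[r] w) (w * y ^ j)) : Eqv m (x ^ k * p) (p * y ^ j) := by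
  refine cancel_VW1 (u := u) (((step_VW1 d hp h e).trans h').trans ?_)
  rw [← mul_assoc]
  exact e.symm.mul (Eqv.refl _)

theorem w1_ok (hC : Conn_st) (hF : HMF_st) : W1_st := by
  intro ι _ d m
  obtain ⟨m1, l1, l2, F1, F2, F3, F4⟩ := hF ι d m
  obtain ⟨m', hm'⟩ := hC ι d m1
  obtain ⟨r, hr, H⟩ := hm' d.n d.n_P
  have on : ∀ {u : FreeGroup ι} {k : ℤ}, Eqv m1 ((d.ψ d.n)^[r] u) (u * d.n ^ k) → Odd k :=
    odd_VW1 d l2 hr (Or.inr (by rw [d.η_n, toAdd_ofAdd]))
  have og : ∀ {u : FreeGroup ι} {k : ℤ}, Eqv m1 ((d.ψ d.n)^[r] u) (u * d.γ ^ k) → Odd k :=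
    odd_VW1 d l2 hr (Or.inl (by rw [d.η_g, toAdd_ofAdd]))
  refine ⟨m', fun g a ha e => (H
    (fun w => ∃ u, (∃ b ∈ d.A, Eqv m u b) ∧
      (((∃ k : ℤ, Eqv m1 ((d.ψ d.n)^[r] u) (u * d.n ^ k)) ∧ ∃ p ∈ d.P, Eqv m1 (u * p) w) ∨
      ((∃ k : ℤ, Eqv m1 ((d.ψ d.n)^[r] (u * d.s)) (u * d.s * d.γ ^ k)) ∧
        ∃ p ∈ d.P, Eqv m1 (u * d.s * p) w)))
    (fun u => ∃ b ∈ d.A, Eqv m u b) ?_ ?_ ?_ ?_ ?_ ?_).2 d.n_A g a ha e
      ⟨1, d.A.one_mem, Eqv.refl _⟩⟩
  · rintro w v p hp e ⟨u, hu, ⟨k, q, hq, e'⟩ | ⟨k, q, hq, e'⟩⟩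
    · exact ⟨u, hu, Or.inl ⟨k, q * p, d.P.mul_mem hq hp,
        mul_assoc u q p ▸ (e'.mul (Eqv.refl p)).trans e⟩⟩
    · exact ⟨u, hu, Or.inr ⟨k, q * p, d.P.mul_mem hq hp,
        mul_assoc (u * d.s) q p ▸ (e'.mul (Eqv.refl p)).trans e⟩⟩
  · rintro u v a ha e ⟨b, hb, e'⟩
    exact ⟨b * a, d.A.mul_mem hb ha, (e.anti l1).symm.trans (e'.mul (Eqv.refl a))⟩
  · rintro w ⟨u, hu, ⟨⟨k, hk⟩, q, hq, e'⟩ | ⟨⟨k, hk⟩, q, hq, e'⟩⟩
    · exact ⟨u, hu, Or.inl ⟨⟨k, hk⟩, _, d.P.mul_mem (d.P.zpow_mem d.n_P k) hq,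
        step_VW1 d hq hk e'⟩⟩
    · exact ⟨u, hu, Or.inr ⟨⟨k, hk⟩, _, d.P.mul_mem (d.P.zpow_mem d.γ_P k) hq,
        step_VW1 d hq hk e'⟩⟩
  · rintro u ⟨b, hb, e'⟩
    exact ⟨_, d.A.mul_mem hb (d.A.inv_mem (d.A.pow_mem d.n_A r)),
      psiA_VW1 d hb ▸ d.ψ_eqv d.n e' r⟩
  · refine fun w j hj => ⟨?_, fun hw => ⟨w, hw, Or.inl ⟨⟨j, hj⟩, 1, d.P.one_mem,
      Eqv.of_eq (mul_one w)⟩⟩⟩
    rintro ⟨u, ⟨b, hb, eb⟩, ⟨⟨k, hk⟩, q, hq, e'⟩ | ⟨⟨k, hk⟩, q, hq, e'⟩⟩
    · obtain ⟨l, hl⟩ := F1 q k j (on hk) (edge_VW1 d hq hk e' hj)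
      exact ⟨b * d.n ^ l, d.A.mul_mem hb (d.A.zpow_mem d.n_A l),
        (e'.anti l1).symm.trans (eb.mul hl)⟩
    · exact absurd (edge_VW1 d hq hk e' hj) (F4 q k j (og hk))
  · refine fun w j hj => ⟨?_, fun hw => ⟨w * d.s⁻¹, hw, Or.inr ⟨⟨j, ?_⟩, 1, d.P.one_mem,
      Eqv.of_eq (by rw [mul_one, inv_mul_cancel_right])⟩⟩⟩
    · rintro ⟨u, ⟨b, hb, eb⟩, ⟨⟨k, hk⟩, q, hq, e'⟩ | ⟨⟨k, hk⟩, q, hq, e'⟩⟩
      · exact absurd (edge_VW1 d hq hk e' hj) (F3 q k j (on hk))
      · obtain ⟨l, hl⟩ := F2 q k j (og hk) (edge_VW1 d hq hk e' hj)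
        refine ⟨b * (d.s * d.γ * d.s⁻¹) ^ l, d.A.mul_mem hb (d.A.zpow_mem d.sγ_A l), ?_⟩
        rw [conj_zpow, ← mul_assoc, ← mul_assoc]
        exact ((e'.anti l1).symm.trans ((eb.mul (Eqv.refl _)).mul hl)).mul (Eqv.refl _)
    · rwa [inv_mul_cancel_right]

end Pool.Agent.MP_692752_al

end

section

/-! The first and the third step of the commutation with the twists. -/

namespace Pool.Agent.MP_692752_al

open FreeGroup

theorem hm1_ok (h0 : W0_st) (hZ : Centk_st) : HM1_st := by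
  intro ι _ d m
  obtain ⟨mZ, hmZ⟩ := hZ ι d.ig 1 one_ne_zero (max m m.factorial)
  obtain ⟨m0, hm0⟩ := h0 ι d (max mZ m)
  refine ⟨max m0 (max mZ m), fun φ hc ⟨k, H⟩ => ?_⟩
  have hk : d.c ^ k ∈ d.P := d.P.zpow_mem d.c_P k
  have hη : d.η (d.c ^ k) = 1 := by rw [map_zpow, d.η_c, one_zpow]
  have a1 : ∀ z ∈ d.P, ∃ q ∈ d.P, Eqv (max mZ m) (φ z) q := fun z hz => by
    refine hm0 (d.c ^ k)⁻¹ (d.P.inv_mem hk) (by rw [_root_.map_inv, hη]; simp) (φ z) _ hk
      (Eqv.anti (le_max_left m0 (max mZ m)) fun f => ?_)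
    have h1 := H z f
    rw [d.D_P hz] at h1
    simp only [_root_.map_mul, _root_.map_inv] at h1 ⊢
    rw [h1]
    group
  obtain ⟨q, hq, a2⟩ := a1 d.γ d.γ_P
  have a3 : Eqv (max mZ m) (d.D (φ d.γ)) (φ d.γ) :=
    (a2.aut d.D).trans ((Eqv.of_eq (d.D_P hq)).trans a2.symm)
  have a4 : Eqv (max mZ m) (φ d.γ) (φ (d.c ^ k * d.γ * (d.c ^ k)⁻¹)) := by
    have h1 := (H d.γ).anti (le_max_right m0 (max mZ m))
    rw [d.D_P d.γ_P] at h1
    rw [_root_.map_mul, _root_.map_mul, _root_.map_inv, map_zpow, hc]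
    exact h1.trans (((Eqv.refl _).mul a3).mul (Eqv.refl _))
  have a5 : Eqv (max mZ m) d.γ (d.c ^ k * d.γ * (d.c ^ k)⁻¹) := by
    simpa only [MulEquiv.symm_apply_apply] using a4.aut φ.symm
  obtain ⟨j, a6⟩ := hmZ (d.c ^ k) (by
    rw [pow_one]
    refine Eqv.anti (le_max_left mZ m) ?_
    have h1 := (a5.mul (Eqv.refl (d.c ^ k))).symm
    rwa [inv_mul_cancel_right] at h1)
  have a7 := a6.modEq m.factorial_ne_zero (le_max_right _ _) d.η
  rw [hη, map_zpow, d.η_g, toAdd_one, toAdd_zpow, toAdd_ofAdd, smul_eq_mul, mul_one] at a7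
  have a8 : Eqv m (d.c ^ k) 1 := (a6.anti (le_max_left _ _)).trans
    (eqv_one.2 (zpow_mem_Lv _ (by simpa using a7.dvd)))
  obtain ⟨q', hq', a9⟩ := a1 d.n d.n_P
  refine ⟨fun z => ?_, ⟨q, hq, a2.anti (le_max_right _ _)⟩, q', hq', a9.anti (le_max_right _ _)⟩
  have h1 := ((H z).anti ((le_max_right mZ m).trans (le_max_right m0 _))).trans
    ((a8.mul (Eqv.refl _)).mul a8.inv)
  rwa [one_mul, inv_one, mul_one] at h1

theorem hm3_ok (h1 : W1_st) : HM3_st := by
  intro ι _ d m
  obtain ⟨m1, hm1⟩ := h1 ι d m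
  refine ⟨max m1 m, fun φ H ⟨p', hp', hγ⟩ ⟨p, hp, hn⟩ z f => ?_⟩
  have hγ' := hγ.anti (le_max_right m1 m)
  have key : ∀ i, Eqv m (φ (d.T (of i))) (d.T (φ (of i))) := by
    intro i
    by_cases hg : i = d.ig
    · subst hg
      rw [d.T_o _ d.gs]
      refine hγ'.trans (Eqv.trans (Eqv.of_eq ?_) (hγ'.aut d.T).symm)
      rw [d.T_P (d.P.mul_mem (d.P.mul_mem hp' d.γ_P) (d.P.inv_mem hp'))]
    by_cases hs : i = d.is
    · subst hs
      obtain ⟨b, hb, a1⟩ := hm1 (p⁻¹ * φ d.s * p' * d.s⁻¹) d.n⁻¹ (d.A.inv_mem d.n_A)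
        (Eqv.anti (le_max_left m1 m) fun f => by
          have e1 := H d.s f
          have e2 := hγ f
          have e3 := hn f
          rw [d.D_s] at e1
          simp only [_root_.map_mul, _root_.map_inv, d.D_P hp, d.D_P hp', d.D_s] at e1 e2 e3 ⊢
          rw [← e1, e2, e3]
          group)
      have a2 : Eqv m (φ d.s) (p * b * d.s * p'⁻¹) := by
        have e1 := (((Eqv.refl p).mul a1).mul (Eqv.refl d.s)).mul (Eqv.refl p'⁻¹)
        rwa [show p * (p⁻¹ * φ d.s * p' * d.s⁻¹) * d.s * p'⁻¹ = φ d.s by group] at e1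
      rw [d.T_s, _root_.map_mul]
      refine (a2.mul hγ').trans (Eqv.trans (Eqv.of_eq ?_) (a2.aut d.T).symm)
      simp only [_root_.map_mul, _root_.map_inv, d.T_P hp, d.T_P hp', d.T_A hb, d.T_s]
      group
    · obtain ⟨b, hb, a1⟩ := hm1 (p⁻¹ * φ (of i) * p) d.n⁻¹ (d.A.inv_mem d.n_A)
        (Eqv.anti (le_max_left m1 m) fun f => by
          have e1 := H (of i) f
          have e3 := hn f
          rw [d.D_a i hg hs] at e1
          simp only [_root_.map_mul, _root_.map_inv, d.D_P hp] at e1 e3 ⊢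
          rw [← e1, e3]
          group)
      have a2 : Eqv m (φ (of i)) (p * b * p⁻¹) := by
        have e1 := ((Eqv.refl p).mul a1).mul (Eqv.refl p⁻¹)
        rwa [show p * (p⁻¹ * φ (of i) * p) * p⁻¹ = φ (of i) by group] at e1
      rw [d.T_o i hs]
      refine a2.trans (Eqv.trans (Eqv.of_eq ?_) (a2.aut d.T).symm)
      simp only [_root_.map_mul, _root_.map_inv, d.T_P hp, d.T_A hb]
  have e : f.comp (φ.toMonoidHom.comp d.T.toMonoidHom) =
      f.comp (d.T.toMonoidHom.comp φ.toMonoidHom) := FreeGroup.ext_hom _ _ fun i => key i f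
  exact DFunLike.congr_fun e z

end Pool.Agent.MP_692752_al

end

section

/-! The centraliser of the cone point, level by level. -/

set_option autoImplicit false

namespace Pool.Agent.MP_692752_al

open FreeGroup

theorem act_VCO {V : Type} [Finite V] (τ : Orb →* Equiv.Perm V) (u u' : V) (M : ℕ)
    (h1 : (τ (yo * xo * yo⁻¹) ^ M) u = u') (hu : τ co u = u) (hu' : τ co u' = u') (hne : u' ≠ u) :
    ∃ m', ∀ w : Orb, Eqv m' (w * co) (co * w) → τ w u' = u' ∨ τ w u' = u := by
  classical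
  let σ : Fin 2 → Equiv.Perm V := fun i => τ (pr (of i))
  have hσ : FreeGroup.lift σ = τ.comp pr := by ext i; simp [σ]
  let hh : V → ZMod 2 := fun v =>
    ∑ i ∈ Finset.range M, if v = (τ (yo * xo * yo⁻¹) ^ i) u then 1 else 0
  let k : Fin 2 → V → Multiplicative (ZMod 2) :=
    ![fun _ => 1, fun v => Multiplicative.ofAdd (hh (τ yo v))]
  let F : V → ZMod 2 := fun v => (if v = u' then 1 else 0) - if v = u then 1 else 0
  have hF : ∀ v, coc σ k cc v = Multiplicative.ofAdd (F v) := fun v => by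
    have e1 : hh ((τ (yo * xo * yo⁻¹))⁻¹ v) - hh v = F v := by
      have e2 := Finset.sum_range_sub
        (fun i => if v = (τ (yo * xo * yo⁻¹) ^ i) u then (1 : ZMod 2) else 0) M
      rw [h1, Finset.sum_sub_distrib] at e2
      simpa only [hh, F, pow_succ', Equiv.Perm.mul_apply, Equiv.Perm.inv_eq_iff_eq, pow_zero,
        Equiv.Perm.one_apply] using e2
    rw [← e1, sub_eq_add_neg, ofAdd_add, ofAdd_neg]
    simp [cc, coc_mul, coc_inv, coc_of, k, hσ, xo, yo]
  have hc : ∀ v g, cocP σ k cc (v, g) = (τ co v, Multiplicative.ofAdd (F v) * g) := fun v g => by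
    rw [cocP_apply, hF, hσ]
    rfl
  have hcc : cocP σ k cc * cocP σ k cc = 1 := by
    refine Equiv.ext fun ⟨v, g⟩ => ?_
    have e : F (τ co v) = F v := by
      simp only [F, (τ co).injective.eq_iff' hu', (τ co).injective.eq_iff' hu]
    rw [Equiv.Perm.mul_apply, hc, hc, e, ← Equiv.Perm.mul_apply, ← _root_.map_mul, co_co,
      _root_.map_one, ← mul_assoc, ← ofAdd_add, CharTwo.add_self_eq_zero]
    simp
  refine ⟨Nat.card (V × Multiplicative (ZMod 2)), fun w hw => ?_⟩
  obtain ⟨w, rfl⟩ := pr_sur w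
  have h2 := DFunLike.congr_fun (hw.perm le_rfl (oLift _ hcc)) (u', 1)
  simp only [_root_.map_mul, co, oLift_pr, Equiv.Perm.mul_apply] at h2
  rw [hc, hu', cocP_apply, cocP_apply σ k w, hc, hσ, mul_one, mul_one, mul_comm] at h2
  have h3 := Multiplicative.ofAdd.injective (mul_right_cancel (congrArg Prod.snd h2))
  by_contra hn
  rw [not_or] at hn
  simp [F, hne, hn.1, hn.2] at h3

theorem co_ok : CO_st := by
  intro m
  have := Lv_fi orb_fg m
  let M := Nat.card (Orb ⧸ Lv Orb m)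
  have hM : 0 < M := Nat.card_pos
  let t : Multiplicative (ZMod (M + 1)) := Multiplicative.ofAdd 1
  let φ : Orb →* (Orb ⧸ Lv Orb m) × Multiplicative (ZMod (M + 1)) :=
    (QuotientGroup.mk' _).prod ((Int.castAddHom _).toMultiplicative.comp ex)
  have hz : ∀ z ∈ Subgroup.zpowers (φ co), z = 1 ∨ z = φ co := by
    rintro _ ⟨j, rfl⟩
    have e : φ co ^ (2 : ℤ) = 1 := by rw [zpow_two, ← _root_.map_mul, co_co, _root_.map_one]
    obtain ⟨i, rfl | rfl⟩ := Int.even_or_odd' j <;> simp [zpow_add, zpow_mul, e]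
  have hc : φ co = (↑co, 1) := by simp [φ, ex_c]
  have h0 : (QuotientGroup.mk (1, t) : _ ⧸ Subgroup.zpowers (φ co)) =
      φ co • QuotientGroup.mk (1, t) := by
    rw [MulAction.Quotient.smul_mk, QuotientGroup.eq]
    convert Subgroup.mem_zpowers _
    simp [hc]
  obtain ⟨m', h⟩ := act_VCO ((MulAction.toPermHom _ (_ ⧸ Subgroup.zpowers (φ co))).comp φ)
    (QuotientGroup.mk (1, t)) (QuotientGroup.mk 1) M (by
      rw [MonoidHom.comp_apply, ← _root_.map_pow]
      refine congrArg QuotientGroup.mk (Prod.ext ?_ ?_)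
      · exact (mul_one _).trans pow_card_eq_one'
      · simp [φ, t, ex_x, ex_y, ← ofAdd_nsmul, ← ofAdd_add, ← Nat.cast_succ]) h0.symm
    (QuotientGroup.eq.2 (by simp)) (fun e => by
      have : Fact (1 < M + 1) := ⟨by omega⟩
      rcases hz _ (QuotientGroup.eq.1 e) with e | e <;> simpa [hc, t] using congrArg Prod.snd e)
  refine ⟨m', fun w hw => ?_⟩
  have key : ∀ s, φ w • (QuotientGroup.mk 1 : _ ⧸ Subgroup.zpowers (φ co)) =
      QuotientGroup.mk (1, s) → Eqv m w 1 ∨ Eqv m w co := fun s e => by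
    refine (hz _ (QuotientGroup.eq.1 e.symm)).imp (fun e => ?_) fun e => ?_ <;>
      refine eqv_iff.2 (QuotientGroup.eq.1 ?_) <;> simpa [φ] using congrArg Prod.fst e
  exact (h w hw).elim (key 1) (key t)

end Pool.Agent.MP_692752_al

end

section

/-! The first step through the fourfold cover, and the cover itself. -/

set_option autoImplicit false

namespace Pool.Agent.MP_692752_al

open FreeGroup

/-- the induced action of the orbifold group -/
theorem ind_VStepA (d : CD) {Γ : Type} [Group Γ] (f : F4 →* Γ) (hf : f d.d1.c = 1) :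
    ∃ ρ : Orb →* Equiv.Perm (Fin 4 × Γ), ∀ u, ρ (pr (d.io u)) (0, 1) = (0, f (d.q u)) := by
  have hc : ∀ (a : F2) (v : Fin 4) (g : Γ),
      cocP d.σ (fun i v => (f.comp d.q) (d.lab i v)) a (v, g) =
        (FreeGroup.lift d.σ a v, f (d.q (coc d.σ d.lab a v)) * g) := by
    intro a v g
    rw [cocP_apply, coc_map_As]
    rfl
  have hk : Subgroup.normalClosure {d.d1.c} ≤ f.ker :=
    Subgroup.normalClosure_le_normal (by simpa using hf)
  have h2 : cocP d.σ (fun i v => (f.comp d.q) (d.lab i v)) cc *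
      cocP d.σ (fun i v => (f.comp d.q) (d.lab i v)) cc = 1 := by
    rw [← _root_.map_mul]
    refine Equiv.ext fun z => ?_
    obtain ⟨v, g⟩ := z
    have h3 : f (d.q (coc d.σ d.lab (cc * cc) v)) = 1 := hk (d.coc_cc v)
    rw [hc, d.σ_cc, h3]
    simp
  refine ⟨oLift _ h2, fun u => ?_⟩
  rw [oLift_pr, hc, d.io_fix, d.io_coc, mul_one]

theorem stepA_ok (h : HP_st) : StepA_st := by
  intro d m
  obtain ⟨m1, h1⟩ := h (Fin 4) d.d1 m
  refine ⟨Nat.card (Fin 4 × Equiv.Perm (Fin m1)), fun v hv u => ?_⟩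
  have hL : ∀ z, z⁻¹ * d.α1 v z ∈ Lv0 d.d1.c m1 := by
    intro z
    refine mem_Lv0.2 fun f hf => ?_
    obtain ⟨ρ, hρ⟩ := ind_VStepA d f hf
    have h2 := (hv (pr (d.io (d.sg z)))).perm le_rfl ρ
    rw [jjO_pr, ← d.io_α] at h2
    have h3 := hρ (d.α2 v (d.sg z))
    rw [h2, hρ, d.q_α, d.q_sg] at h3
    rw [_root_.map_mul, _root_.map_inv, inv_mul_eq_one]
    exact congrArg Prod.snd h3
  have h2 := h1 (d.α1 v) (d.α1_cp v) hL ((d.α1 v)⁻¹ (d.d1.T⁻¹ u))
  rw [map_cm, d.α1_T]
  simpa [cm, MulAut.mul_apply] using h2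

theorem cover_ok (d : CD) : Cover_st := by
  obtain ⟨ρ, hρ⟩ := ind_VStepA d d.j4 d.j4_c
  refine ⟨d.i0, (injective_iff_map_eq_one _).2 fun s hs => ?_, ?_⟩
  · obtain ⟨u, rfl⟩ := d.j4_sur s
    have h1 := hρ (d.sg u)
    rw [← d.i0_j, hs, d.q_sg, _root_.map_one] at h1
    exact (congrArg Prod.snd h1).symm
  · let S : Subgroup F2 :=
      (MulAction.stabilizer (Equiv.Perm (Fin 4)) (0 : Fin 4)).comap (FreeGroup.lift d.σ)
    have hS : S.FiniteIndex :=
      Subgroup.finiteIndex_of_le (H := (FreeGroup.lift d.σ).ker) fun z hz => by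
        have h0 : FreeGroup.lift d.σ z = 1 := hz
        simp [S, h0]
    have hS' : (S.map pr).FiniteIndex :=
      ⟨fun h0 => hS.index_ne_zero (Nat.eq_zero_of_zero_dvd
        (h0 ▸ Subgroup.index_map_dvd S pr_sur)) ⟩
    refine Subgroup.finiteIndex_of_le (H := S.map pr) ?_
    rintro _ ⟨z, hz, rfl⟩
    obtain ⟨u, rfl⟩ := d.io_sur z hz
    refine ⟨d.j4 (d.q u), ?_⟩
    have hk : Subgroup.normalClosure {d.d2.c} ≤ (pr.comp d.io).ker :=
      Subgroup.normalClosure_le_normal (by simpa using d.io_c)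
    have h1 : (pr.comp d.io) (u⁻¹ * d.sg (d.q u)) = 1 := hk (d.sec u)
    rw [_root_.map_mul, _root_.map_inv, inv_mul_eq_one] at h1
    rw [d.i0_j]
    exact h1.symm

end Pool.Agent.MP_692752_al

end

section

set_option autoImplicit false

namespace Pool.Agent.MP_692752_al

open FreeGroup

theorem fs_VStepB (u : F4) : fs (fs u) = u := by
  have : fs.comp fs = MonoidHom.id F4 := by
    ext i
    fin_cases i <;> simp [fs]
  exact DFunLike.congr_fun this u

theorem stepB_ok (h : HP_st) (hF : CFF_st) (hX : FixSwap_st) : StepB_st := by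
  intro d m
  obtain ⟨m3, h3⟩ := h (Fin 5) d.d2 m
  obtain ⟨m2, h2⟩ := hX m3
  obtain ⟨m1, h1⟩ := hF (Fin 4) 0 1 (by decide) ⊤ inferInstance m2
  refine ⟨max m1 m3, fun v hv => ?_⟩
  obtain ⟨g, hg⟩ := d.α23 v
  have E : ∀ u, Eqv (max m1 m3) (d.q g * d.q (d.α3 v u) * (d.q g)⁻¹) (d.q u) := fun u => by
    have := hv (d.q u)
    rwa [← d.q_α, hg, _root_.map_mul, _root_.map_mul, _root_.map_inv] at this
  have a1 := h1 (d.sw (fs (d.sw⁻¹ (d.q g))) * (d.q g)⁻¹) fun x _ f => by
    have e1 := (E (d.τ (d.sg (d.sw (fs (d.sw⁻¹ x)))))).anti (le_max_left _ _) f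
    have e2 := (((((E (d.sg (d.sw (fs (d.sw⁻¹ x))))).aut d.sw⁻¹).map fs).aut d.sw).anti
      (le_max_left _ _)) f
    rw [d.α_τ, d.q_τ, d.q_τ] at e1
    simp only [_root_.map_mul, _root_.map_inv, d.q_sg, MulAut.inv_apply_self, fs_VStepB,
      MulAut.apply_inv_self] at e1 e2 ⊢
    nth_rw 1 [← e1]
    rw [← e2]
    group
  have a2 : d.q g ∈ Lv F4 m3 := by
    have := Lv_map d.sw.toMonoidHom (h2 (d.sw⁻¹ (d.q g)) fun f => by
      have := mem_Lv.1 (Lv_map (d.sw⁻¹ : MulAut F4).toMonoidHom a1) f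
      simpa only [MulEquiv.coe_toMonoidHom, _root_.map_mul, _root_.map_inv, MulAut.inv_apply_self,
        mul_inv_eq_one] using this)
    simpa only [MulEquiv.coe_toMonoidHom, MulAut.apply_inv_self] using this
  have a3 := h3 _ (d.α3_cp v) fun u => mem_Lv0.2 fun f hf => by
    have e0 : ∀ u, f u = f (d.sg (d.q u)) := fun u => by
      have := Subgroup.normalClosure_le_normal (N := f.ker) (by simpa using hf) (d.sec u)
      rwa [MonoidHom.mem_ker, _root_.map_mul, _root_.map_inv, inv_mul_eq_one] at this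
    have e1 := (E u).anti (le_max_right _ _) (f.comp d.sg)
    rw [_root_.map_mul, _root_.map_mul, _root_.map_inv, mem_Lv.1 a2, one_mul, inv_one,
      mul_one] at e1
    rw [_root_.map_mul, _root_.map_inv, inv_mul_eq_one, e0, e0 (d.α3 v u)]
    exact e1.symm
  obtain ⟨g', hg'⟩ := d.α23 (cm v (of 1))
  refine ⟨g', fun u => ?_⟩
  have := a3 ((d.α3 v)⁻¹ (d.d2.T⁻¹ u))
  rw [hg', map_cm, d.α3_T]
  simp only [MulAut.apply_inv_self] at this
  exact ((Eqv.refl _).mul this).mul (Eqv.refl _)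

theorem stepC_ok (hA : Asada_st) (hF : CFF_st) : StepC_st := by
  intro d m
  have := Lv_fi (free_fg (Fin 2)) m
  obtain ⟨Q, _, _, π, hπ⟩ := hA _ (QuotientGroup.mk' (Lv F2 m))
  obtain ⟨m', hm⟩ := ug_of (hF (Fin 2) 0 1 (by decide)) d.io.range
    (Subgroup.finiteIndex_of_le (H := (FreeGroup.lift d.σ).ker) fun z hz =>
      d.io_sur z (by rw [MonoidHom.mem_ker.1 hz]; rfl)) (Nat.card Q)
  refine ⟨m', fun v g hv => (QuotientGroup.eq_one_iff _).1 (hπ (d.io g)⁻¹ _ fun z => ?_)⟩
  refine (hm ((MulAut.conj (d.io g)⁻¹ * jj (d.e3 v) : MulAut F2).toMonoidHom) ?_ z).grp le_rfl π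
  rintro _ ⟨u, rfl⟩ f
  have := (hv u).map d.io f
  change f ((d.io g)⁻¹ * jj (d.e3 v) (d.io u) * (d.io g)⁻¹⁻¹) = _
  simp only [← d.io_α, _root_.map_mul, _root_.map_inv, this]
  group

end Pool.Agent.MP_692752_al

end

section

/-! Elements of the vertex group that fix a second vertex. -/

set_option autoImplicit false

namespace Pool.Agent.MP_692752_al

open FreeGroup

theorem ey_VFx {a : Orb} (ha : a ∈ AO) : ey a = 1 :=
  (Subgroup.closure_le (K := ey.ker)).2 (by
    rintro x (rfl | rfl)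
    exacts [ey_x, ey_c]) ha

theorem x_VFx : xo ∈ AO := Subgroup.subset_closure (by simp)

theorem c_VFx : co ∈ AO := Subgroup.subset_closure (by simp)

theorem pow_VFx (k : ℤ) : yo * xo ^ k * yo⁻¹ = (co * xo) ^ k := by rw [← yxy, conj_zpow]

theorem neg_VFx (hT : OT_st) {u a a₁ : Orb} (hu : u ∈ AO) (ha : a ∈ AO) (ha₁ : a₁ ∈ AO)
    (h : (a * yo⁻¹ * a₁)⁻¹ * u * (a * yo⁻¹ * a₁) ∈ AO) : ∃ k : ℤ, a⁻¹ * u * a = xo ^ k ∧
      (a * yo⁻¹ * a₁)⁻¹ * u * (a * yo⁻¹ * a₁) = a₁⁻¹ * (co * xo) ^ k * a₁ := by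
  obtain ⟨k, hk⟩ := hT.1 (a⁻¹ * u * a) (AO.mul_mem (AO.mul_mem (AO.inv_mem ha) hu) ha) (by
    rw [show yo * (a⁻¹ * u * a) * yo⁻¹ =
      a₁ * ((a * yo⁻¹ * a₁)⁻¹ * u * (a * yo⁻¹ * a₁)) * a₁⁻¹ by group]
    exact AO.mul_mem (AO.mul_mem ha₁ h) (AO.inv_mem ha₁))
  refine ⟨k, hk.symm, ?_⟩
  rw [← pow_VFx, show xo ^ k = _ from hk]
  group

theorem pos_VFx (hT : OT_st) {u a a₁ : Orb} (hu : u ∈ AO) (ha : a ∈ AO) (ha₁ : a₁ ∈ AO)
    (h : (a * yo * a₁)⁻¹ * u * (a * yo * a₁) ∈ AO) : ∃ k : ℤ, a⁻¹ * u * a = (co * xo) ^ k ∧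
      (a * yo * a₁)⁻¹ * u * (a * yo * a₁) = a₁⁻¹ * xo ^ k * a₁ := by
  obtain ⟨k, hk⟩ := hT.1 (yo⁻¹ * (a⁻¹ * u * a) * yo) (by
    rw [show yo⁻¹ * (a⁻¹ * u * a) * yo =
      a₁ * ((a * yo * a₁)⁻¹ * u * (a * yo * a₁)) * a₁⁻¹ by group]
    exact AO.mul_mem (AO.mul_mem ha₁ h) (AO.inv_mem ha₁)) (by
    rw [show yo * (yo⁻¹ * (a⁻¹ * u * a) * yo) * yo⁻¹ = a⁻¹ * u * a by group]
    exact AO.mul_mem (AO.mul_mem (AO.inv_mem ha) hu) ha)
  refine ⟨k, ?_, ?_⟩
  · rw [← pow_VFx, show xo ^ k = _ from hk]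
    group
  · rw [show xo ^ k = _ from hk]
    group

theorem conj_VFx {G : Type} [Group G] {s t a b : G} (h : b⁻¹ * (a⁻¹ * s * a) * b = t) :
    s * (a * b) = a * b * t := by
  rw [← h]
  group

theorem ne_VFx {u a s : Orb} {k : ℤ} (hu : u ≠ 1) (h : a⁻¹ * u * a = s ^ k) : k ≠ 0 := by
  rintro rfl
  exact hu (by simpa [mul_assoc] using congrArg (fun t => a * t * a⁻¹) h)

theorem two_VFx (hT : OT_st) (hF : AnnF_st) {u p q : Orb} (hu : u ∈ AO) (h1 : u ≠ 1)
    (hp : ∃ a ∈ AO, ∃ a' ∈ AO, p = a * yo * a' ∨ p = a * yo⁻¹ * a')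
    (hq : ∃ a ∈ AO, ∃ a' ∈ AO, q = a * yo * a' ∨ q = a * yo⁻¹ * a')
    (h2 : p⁻¹ * u * p ∈ AO) (h3 : q⁻¹ * (p⁻¹ * u * p) * q ∈ AO) : p * q ∈ AO := by
  obtain ⟨a, ha, a₁, ha₁, rfl | rfl⟩ := hp <;> obtain ⟨a₂, ha₂, a₃, ha₃, rfl | rfl⟩ := hq
  · obtain ⟨k, e1, e2⟩ := pos_VFx hT hu ha ha₁ h2
    obtain ⟨j, e3, -⟩ := pos_VFx hT h2 ha₂ ha₃ h3
    rw [e2] at e3
    exact absurd (hF.2.2 _ (AO.mul_mem ha₁ ha₂) k j (conj_VFx e3)).1 (ne_VFx h1 e1)
  · obtain ⟨k, e1, e2⟩ := pos_VFx hT hu ha ha₁ h2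
    obtain ⟨j, e3, -⟩ := neg_VFx hT h2 ha₂ ha₃ h3
    rw [e2] at e3
    obtain ⟨i, hi⟩ := hF.1 _ (AO.mul_mem ha₁ ha₂) k j (ne_VFx h1 e1) (conj_VFx e3)
    rw [show a * yo * a₁ * (a₂ * yo⁻¹ * a₃) = a * (yo * (a₁ * a₂) * yo⁻¹) * a₃ by group, ← hi,
      pow_VFx]
    exact AO.mul_mem (AO.mul_mem ha (AO.zpow_mem (AO.mul_mem c_VFx x_VFx) i)) ha₃
  · obtain ⟨k, e1, e2⟩ := neg_VFx hT hu ha ha₁ h2
    obtain ⟨j, e3, -⟩ := pos_VFx hT h2 ha₂ ha₃ h3
    rw [e2] at e3
    obtain ⟨i, hi⟩ := hF.2.1 _ (AO.mul_mem ha₁ ha₂) k j (ne_VFx h1 e1) (conj_VFx e3)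
    have e4 : a₁ * a₂ = yo * xo ^ i * yo⁻¹ := hi.symm.trans (pow_VFx i).symm
    rw [show a * yo⁻¹ * a₁ * (a₂ * yo * a₃) = a * (yo⁻¹ * (a₁ * a₂) * yo) * a₃ by group, e4,
      show yo⁻¹ * (yo * xo ^ i * yo⁻¹) * yo = xo ^ i by group]
    exact AO.mul_mem (AO.mul_mem ha (AO.zpow_mem x_VFx i)) ha₃
  · obtain ⟨k, e1, e2⟩ := neg_VFx hT hu ha ha₁ h2
    obtain ⟨j, e3, -⟩ := neg_VFx hT h2 ha₂ ha₃ h3
    rw [e2] at e3
    refine absurd (hF.2.2 _ (AO.inv_mem (AO.mul_mem ha₁ ha₂)) j k ?_).2 (ne_VFx h1 e1)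
    rw [← e3]
    generalize (co * xo) ^ k = s
    group

theorem fx_ok (hT : OT_st) (hG : Geo_st) (hF : AnnF_st) : Fx_st := by
  intro u hu h1 v hv he
  obtain ⟨l, l0, l1⟩ := hT.2
  obtain ⟨g, rfl⟩ : ∃ g, v = g⁻¹ := ⟨v⁻¹, (inv_inv v).symm⟩
  rw [inv_inv] at hv
  rcases Nat.lt_or_ge (l.len g) 2 with h | h
  · rcases (show l.len g = 0 ∨ l.len g = 1 by omega) with h | h
    · rw [_root_.map_inv, ey_VFx ((l0 g).1 h)] at he
      exact absurd he (by decide)
    · obtain ⟨a, ha, a₁, ha₁, rfl | rfl⟩ := l1 g h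
      · simp only [_root_.map_inv, _root_.map_mul, ey_VFx ha, ey_VFx ha₁, ey_y] at he
        exact absurd he (by decide)
      · obtain ⟨k, e1, -⟩ := neg_VFx hT hu ha ha₁ hv
        exact ⟨a⁻¹, k, _, AO.inv_mem (AO.mul_mem ha₁ ha), by rwa [inv_inv], by group⟩
  · obtain ⟨p₂, a1, a2⟩ := l.pre g 2 h
    obtain ⟨p₁, b1, b2⟩ := l.pre p₂ 1 (by omega)
    have c2 := hG Orb l u g p₂ ((l0 u).2 hu) ((l0 _).2 hv) (by omega)
    have c1 := hG Orb l u p₂ p₁ ((l0 u).2 hu) c2 (by omega)
    have c3 := two_VFx hT hF hu h1 (l1 p₁ b1) (l1 (p₁⁻¹ * p₂) (by omega)) ((l0 _).1 c1) (by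
      rw [show (p₁⁻¹ * p₂)⁻¹ * (p₁⁻¹ * u * p₁) * (p₁⁻¹ * p₂) = p₂⁻¹ * u * p₂ by group]
      exact (l0 _).1 c2)
    rw [mul_inv_cancel_left, ← l0] at c3
    omega

end Pool.Agent.MP_692752_al

end

section

/-! The parts for the orbifold target without hypotheses. -/

set_option autoImplicit false

namespace Pool.Agent.MP_692752_al

theorem cfk_all : CFk_st := cfk_ok centk_ok

theorem cff_all : CFF_st := cff_ok cfk_all

theorem conn_all : Conn_st := conn_ok smith_ok

theorem hmf_all : HMF_st := hmf_ok mal_ok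

theorem hp_all : HP_st :=
  hp_ok (push_ok cong_ok) (hm1_ok (w0_ok conn_all hmf_all) centk_ok)
    (hm2_ok (w2_ok conn_all hmf_all)) (hm3_ok (w1_ok conn_all hmf_all))

theorem asada2_all : Asada2_st :=
  asada2_ok (asT_ok cdC (stepO_ok co_ok) (stepA_ok hp_all) (stepB_ok hp_all cff_all fixSwap_ok)
    (stepC_ok (asada_ok cf_ok) cff_all) (stepD_ok centk_ok)) cfk_all

theorem pik_all : PIk_st := pik_ok cpk_ok (rf_ok cp_ok) (csk_ok cpk_ok) centk_ok cfk_all

theorem surf2_all : Surf2_st :=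
  surf2_ok (surfHD_ok centD_ok)
    (grH_ok pik_all (e1_ok bg_all lin_ok) (e2p_ok fourP_ok bg_all cycF_ok) (e3_ok bg_all lin_ok))
    (e1_ok bg_all lin_ok) (rf_ok cp_ok)

theorem cfo_all : CFG Orb := cfo_ok co_ok

theorem orb_all : RFL Orb ∧ GrP Orb := by
  obtain ⟨i, h1, h2⟩ := cover_ok cdC
  exact up_ok _ _ i h1 h2 (surf_fg 2) surf2_all.2 surf2_all.1 cfo_all

theorem no_all : NO_st :=
  no_ok (ot_ok fourP_ok par_ok) (s1_ok ell_ok) br_ok
    (fx_ok (ot_ok fourP_ok par_ok) geo_ok (annF_ok annO_ok centD_ok))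
    (annE_ok annO_ok pp_ok (annF_ok annO_ok centD_ok))

theorem coreV_all : CoreV_st :=
  coreV_ok cong_ok (rf_ok cp_ok) orb_all.1 cfo_all orb_all.2 ext_ok asada2_all
    (gam4O_ok no_all (gam4_ok (niel_ok fourP_ok four_ok pre_ok par_ok sq_ok)))

end Pool.Agent.MP_692752_al

end
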