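import Pool.Agent.Mg.F692752.Gce7750
import Pool.Agent.Mg.F692752.G012e4b
import Pool.Agent.Mg.F692752.Ge7ea3c
import Pool.Agent.Mg.F692752.Gf5a3e4

section

set_option autoImplicit false

namespace Pool.Agent.MP_692752_al

open FreeGroup

theorem sub_RGap {X : Type} {f g : X → ℝ} (hf : Summable fun x => f x ^ 2)
    (hg : Summable fun x => g x ^ 2) : Summable fun x => (f x - g x) ^ 2 :=
  Summable.of_nonneg_of_le (fun _ => sq_nonneg _)
    (fun x => by nlinarith [sq_nonneg (f x + g x)]) ((hf.mul_left 2).add (hg.mul_left 2))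

theorem fin_RGap {X : Type} {f : X → ℝ} (hf : (Function.support f).Finite) :
    Summable fun x => f x ^ 2 :=
  summable_of_hasFiniteSupport (hf.subset fun x hx h => hx (by simp [h]))

theorem comm_RGap {A B : F2} (h : Commute (A * A) (B * B)) : Commute A B := by
  have key : ∀ X Y : F2, Commute (X * X) Y → Commute X Y := by
    intro X Y h
    have h1 : (Y * X * Y⁻¹) ^ 2 = X ^ 2 := by
      rw [conj_pow, pow_two, ← h.eq, mul_inv_cancel_right]
    have h2 : Y * X * Y⁻¹ = X := pow_left_injective (two_ne_zero) h1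
    exact (mul_inv_eq_iff_eq_mul.1 h2).symm
  exact (key B A (key A (B * B) h).symm).symm

variable {S Q : Type} (d : WK S Q)

/-- running a word is a bijection -/
def eq_RGap (L : List S) : Q × F2 ≃ Q × F2 where
  toFun x := d.run x L
  invFun x := d.run x (d.rev L)
  left_inv x := d.run_rev x L
  right_inv x := by simpa [d.rev_rev] using d.run_rev x (d.rev L)

theorem run_RGap {f : Q × F2 → ℝ} (hf : Summable fun x => f x ^ 2) (L : List S) :
    Summable fun x => f (d.run x L) ^ 2 :=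
  (eq_RGap d L).summable_iff.2 hf

theorem ts_RGap (g : Q × F2 → ℝ) (L : List S) : ∑' x, g (d.run x L) = ∑' x, g x :=
  (eq_RGap d L).tsum_eq g

variable [Fintype S]

/-- the Dirichlet form -/
noncomputable def D_RGap (f : Q × F2 → ℝ) : ℝ :=
  ∑ s, ∑ t, ∑' x, (f (d.step x s) - f (d.step x t)) ^ 2

theorem D0_RGap (f : Q × F2 → ℝ) : 0 ≤ D_RGap d f :=
  Finset.sum_nonneg fun _ _ => Finset.sum_nonneg fun _ _ => tsum_nonneg fun _ => sq_nonneg _

theorem two_RGap (f : Q × F2 → ℝ) (s t : S) :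
    ∑' x, (f (d.run x [s, t]) - f x) ^ 2 ≤ D_RGap d f := by
  rw [← ts_RGap d _ [d.io s]]
  have e : ∀ x, d.run (d.run x [d.io s]) [s, t] = d.step x t := fun x =>
    congrArg (d.step · t) (d.step_io' x s)
  simp only [e]
  exact (Finset.single_le_sum (f := fun s' => ∑' x, (f (d.step x t) - f (d.step x s')) ^ 2)
    (fun _ _ => tsum_nonneg fun _ => sq_nonneg _) (Finset.mem_univ (d.io s))).trans
    (Finset.single_le_sum
      (f := fun t' => ∑ s', ∑' x, (f (d.step x t') - f (d.step x s')) ^ 2)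
      (fun _ _ => Finset.sum_nonneg fun _ _ => tsum_nonneg fun _ => sq_nonneg _)
      (Finset.mem_univ t))

theorem even_RGap (n : ℕ) : ∀ L : List S, L.length = 2 * n → ∃ C : ℝ, 0 ≤ C ∧
    ∀ f : Q × F2 → ℝ, (Summable fun x => f x ^ 2) →
      ∑' x, (f (d.run x L) - f x) ^ 2 ≤ C * D_RGap d f := by
  induction n with
  | zero =>
    intro L hL
    rw [List.length_eq_zero_iff.1 hL]
    exact ⟨0, le_rfl, fun f _ => by simp [WK.run_nil]⟩
  | succ n ih =>
    rintro (_ | ⟨s, _ | ⟨t, L⟩⟩) hL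
    · simp at hL
    · simp at hL; omega
    obtain ⟨C, h0, hC⟩ := ih L (by simp at hL; omega)
    refine ⟨2 * C + 2, by positivity, fun f hf => ?_⟩
    have h1 := sub_RGap (run_RGap d hf L) hf
    have h2 := sub_RGap (run_RGap d hf [s, t]) hf
    have h3 := run_RGap d (f := fun x => f (d.run x L) - f x) h1 [s, t]
    have h4 := ((sub_RGap (run_RGap d hf (s :: t :: L)) hf).tsum_le_tsum (fun x => by
      show (f (d.run (d.run x [s, t]) L) - f x) ^ 2 ≤ _
      nlinarith [sq_nonneg (f (d.run (d.run x [s, t]) L) - 2 * f (d.run x [s, t]) + f x)])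
      ((h3.mul_left 2).add (h2.mul_left 2)))
    rw [(h3.mul_left 2).tsum_add (h2.mul_left 2), tsum_mul_left, tsum_mul_left,
      ts_RGap d (fun x => (f (d.run x L) - f x) ^ 2)] at h4
    have := hC f hf
    have := two_RGap d f s t
    linarith

theorem fib_RGap (hK : Kes_st) (hN : d.NE) (q : Q) : ∃ C : ℝ, 0 ≤ C ∧
    ∀ f : Q × F2 → ℝ, (Function.support f).Finite → ∑' u, f (q, u) ^ 2 ≤ C * D_RGap d f := by
  obtain ⟨a, b, ha, hb, hab⟩ := hN q
  obtain ⟨δ, hδ, h⟩ := hK _ _ fun h => hab (comm_RGap h)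
  obtain ⟨C₁, c1, h1⟩ := even_RGap d a.length (a ++ a) (by simp; omega)
  obtain ⟨C₂, c2, h2⟩ := even_RGap d b.length (b ++ b) (by simp; omega)
  refine ⟨(C₁ + C₂) / δ, by positivity, fun f hf => ?_⟩
  have hs := fin_RGap hf
  have key : ∀ a : List S, (d.run (q, 1) a).1 = q →
      ∑' u, (f (q, u * ((d.run (q, 1) a).2 * (d.run (q, 1) a).2)) - f (q, u)) ^ 2 ≤
        ∑' x, (f (d.run x (a ++ a)) - f x) ^ 2 := by
    intro a ha
    have := tsum_comp_le_tsum_of_inj (sub_RGap (run_RGap d hs (a ++ a)) hs)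
      (fun _ => sq_nonneg _) (Prod.mk_right_injective q)
    refine le_trans (le_of_eq (tsum_congr fun u => ?_)) this
    show _ = (f (d.run (q, u) (a ++ a)) - f (q, u)) ^ 2
    rw [d.run_append, d.run_eq q u, ha, d.run_eq q (u * _), ha, mul_assoc]
  have h3 := h (fun u => f (q, u)) (hf.preimage (Prod.mk_right_injective q).injOn)
  have := key a ha
  have := key b hb
  have := h1 f hs
  have := h2 f hs
  rw [div_mul_eq_mul_div, le_div_iff₀ hδ]
  linarith

theorem id_RGap (f : Q × F2 → ℝ) (hf : Summable fun x => f x ^ 2) :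
    ∑' x, (∑ s, f (d.step x s)) ^ 2 =
      (Fintype.card S : ℝ) ^ 2 * ∑' x, f x ^ 2 - 1 / 2 * D_RGap d f := by
  have h1 : ∀ s, Summable fun x => f (d.step x s) ^ 2 := fun s => run_RGap d hf [s]
  have h2 : ∀ s t, Summable fun x => (f (d.step x s) - f (d.step x t)) ^ 2 := fun s t =>
    sub_RGap (h1 s) (h1 t)
  have h3 : ∀ s, ∑' x, f (d.step x s) ^ 2 = ∑' x, f x ^ 2 := fun s =>
    ts_RGap d (fun x => f x ^ 2) [s]
  have e : ∀ a : S → ℝ, (∑ s, a s) ^ 2 =
      (Fintype.card S : ℝ) * ∑ s, a s ^ 2 - 1 / 2 * ∑ s, ∑ t, (a s - a t) ^ 2 := by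
    intro a
    simp only [sub_sq, Finset.sum_add_distrib, Finset.sum_sub_distrib, Finset.sum_const,
      Finset.card_univ, nsmul_eq_mul, ← Finset.mul_sum, ← Finset.sum_mul]
    ring
  simp only [e]
  rw [((summable_sum fun s _ => h1 s).mul_left _).tsum_sub
      ((summable_sum fun s _ => summable_sum fun t _ => h2 s t).mul_left _),
    tsum_mul_left, tsum_mul_left, Summable.tsum_finsetSum fun s _ => h1 s,
    Summable.tsum_finsetSum fun s _ => summable_sum fun t _ => h2 s t, D_RGap,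
    Finset.sum_congr rfl fun s _ => Summable.tsum_finsetSum fun t _ => h2 s t]
  simp only [h3, Finset.sum_const, Finset.card_univ, nsmul_eq_mul]
  ring

theorem gap_ok (hK : Kes_st) : Gap_st := by
  intro S Q _ _ d hN
  choose C h0 hC using fib_RGap d hK hN
  rcases Nat.eq_zero_or_pos (Fintype.card S) with hS | hS
  · have := Fintype.card_eq_zero_iff.1 hS
    exact ⟨0, le_rfl, one_pos, fun f _ => by simp⟩
  have hc : (0 : ℝ) < Fintype.card S := by exact_mod_cast hS
  have hT : 0 < ∑ q, C q + 1 := by have := Finset.sum_nonneg fun q (_ : q ∈ Finset.univ) => h0 q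
                                   linarith
  refine ⟨max 0 (1 - 1 / (2 * (∑ q, C q + 1) * (Fintype.card S : ℝ) ^ 2)), le_max_left _ _,
    max_lt one_pos (sub_lt_self _ (by positivity)), fun f hf => ?_⟩
  have hs := fin_RGap hf
  have h1 : ∑' x, f x ^ 2 ≤ (∑ q, C q + 1) * D_RGap d f := by
    rw [hs.tsum_prod, tsum_fintype, add_mul, Finset.sum_mul]
    have := Finset.sum_le_sum fun q (_ : q ∈ Finset.univ) => hC q f hf
    have := D0_RGap d f
    linarith
  have h2 : 0 ≤ ∑' x, f x ^ 2 := tsum_nonneg fun _ => sq_nonneg _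
  rw [id_RGap d f hs]
  refine le_trans ?_ (mul_le_mul_of_nonneg_right
    (mul_le_mul_of_nonneg_right (le_max_right _ _) (by positivity)) h2)
  generalize ∑ q, C q + 1 = T at *
  have h3 : (1 - 1 / (2 * T * (Fintype.card S : ℝ) ^ 2)) * (Fintype.card S : ℝ) ^ 2 *
      ∑' x, f x ^ 2 = (Fintype.card S : ℝ) ^ 2 * ∑' x, f x ^ 2 - 1 / 2 * ((∑' x, f x ^ 2) / T) := by
    field_simp
  have h4 : (∑' x, f x ^ 2) / T ≤ D_RGap d f := by rw [div_le_iff₀ hT]; linarith
  rw [h3]
  linarith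

theorem dec_ok (hG : Gap_st) : Dec_st := by
  classical
  intro S Q _ _ d hN
  obtain ⟨ρ, h0, h1, h⟩ := hG S Q d hN
  refine ⟨√ρ, Real.sqrt_nonneg _, (Real.sqrt_lt' one_pos).2 (by simpa using h1), fun n x y => ?_⟩
  obtain ⟨p, hp⟩ : ∃ p : ℕ → Q × F2 → ℝ, ∀ n x,
      p n x = ∑ w : Fin n → S, if d.run x (List.ofFn w) = y then 1 else 0 := ⟨_, fun _ _ => rfl⟩
  have p0 : ∀ x, p 0 x = if x = y then 1 else 0 := fun x => by simp [hp, WK.run_nil]
  have p1 : ∀ n x, p (n + 1) x = ∑ s, p n (d.step x s) := fun n x => by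
    simp only [hp]
    rw [← (Fin.consEquiv fun _ => S).sum_comp, Fintype.sum_prod_type]
    simp [Fin.consEquiv, List.ofFn_succ, WK.run_cons]
  have key : ∀ n, (Function.support (p n)).Finite ∧
      ∑' x, p n x ^ 2 ≤ (ρ * (Fintype.card S : ℝ) ^ 2) ^ n := by
    intro n
    induction n with
    | zero =>
      refine ⟨(Set.finite_singleton y).subset fun x hx => by simpa [p0] using hx, ?_⟩
      simp [p0]
    | succ n ih =>
      refine ⟨(Set.finite_iUnion fun s => ih.1.preimage (eq_RGap d [s]).injective.injOn).subset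
        fun x hx => ?_, ?_⟩
      · rw [Function.mem_support, p1] at hx
        obtain ⟨s, -, hs⟩ := Finset.exists_ne_zero_of_sum_ne_zero hx
        exact Set.mem_iUnion.2 ⟨s, hs⟩
      · simp only [p1]
        rw [pow_succ']
        exact (h _ ih.1).trans (mul_le_mul_of_nonneg_left ih.2 (by positivity))
  have e : (Nat.card {w : Fin n → S // d.run x (List.ofFn w) = y} : ℝ) = p n x := by
    rw [hp, Nat.card_eq_fintype_card, Fintype.card_subtype]
    simp
  rw [e]
  refine le_of_sq_le_sq ?_ (by positivity)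
  rw [← pow_mul, mul_comm n, pow_mul, mul_pow, Real.sq_sqrt h0, mul_comm]
  exact ((fin_RGap (key n).1).le_tsum x fun _ _ => sq_nonneg _).trans (key n).2

end Pool.Agent.MP_692752_al

end

section

/-! A spectral gap for two elements of the free group that do not commute. -/

set_option autoImplicit false

namespace Pool.Agent.MP_692752_al

open FreeGroup

/-- the weights -/
noncomputable def w_RKes (u Z : F2) : ℝ := if (u * Z).norm ≤ u.norm then -1 else 1 / 2

theorem two_RKes (h4 : FourP_st) {u Z Z' : F2} (h : (u * Z).norm ≤ u.norm)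
    (h' : (u * Z').norm ≤ u.norm) : (Z⁻¹ * Z').norm ≤ max Z.norm Z'.norm := by
  have h1 := h4 _ u⁻¹ 1 Z Z'
  simp only [inv_inv, mul_one, inv_one, one_mul] at h1
  omega

theorem len_RKes (hs : Sq_st) (hw : Pow_st) {A : F2} (hA : A ≠ 1) (m : ℕ) :
    m + 1 ≤ (A ^ (m + 1)).norm := by
  have h1 := hs _ A hA
  have h2 := hw _ A m
  have h3 : A.norm ≠ 0 := fun h => hA (norm_eq_zero.1 h)
  have h5 : m * (A.norm + 1) ≤ m * (A * A).norm := Nat.mul_le_mul_left _ h1
  rw [mul_add, mul_one] at h5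
  omega

theorem sq_RKes {f : F2 → ℝ} (hf : (Function.support f).Finite) : Summable fun u => f u ^ 2 := by
  refine summable_of_ne_finset_zero (s := hf.toFinset) fun u hu => ?_
  have : f u = 0 := by simpa using hu
  simp [this]

theorem sh_RKes {g : F2 → ℝ} (hg : Summable g) (Z : F2) : Summable fun u => g (u * Z) :=
  (Equiv.mulRight Z).summable_iff.2 hg

theorem df_RKes {f : F2 → ℝ} (hf : Summable fun u => f u ^ 2) (Z : F2) :
    Summable fun u => (f (u * Z) - f u) ^ 2 :=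
  Summable.of_nonneg_of_le (fun _ => sq_nonneg _)
    (fun u => by nlinarith [sq_nonneg (f (u * Z) + f u)])
    (((sh_RKes hf Z).mul_left 2).add (hf.mul_left 2))

theorem wt_RKes {f : F2 → ℝ} (hf : Summable fun u => f u ^ 2) (Z : F2) :
    Summable fun u => w_RKes u Z * f u ^ 2 := by
  refine Summable.of_norm_bounded hf fun u => ?_
  rw [Real.norm_eq_abs, abs_mul, abs_of_nonneg (sq_nonneg (f u))]
  refine mul_le_of_le_one_left (sq_nonneg _) ?_
  unfold w_RKes
  split_ifs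
  · simp
  · rw [abs_of_pos] <;> norm_num

theorem low_RKes {f : F2 → ℝ} (hf : Summable fun u => f u ^ 2) (Z : F2) :
    ∑' u, w_RKes u Z * f u ^ 2 + ∑' u, w_RKes u Z⁻¹ * f u ^ 2 ≤ ∑' u, (f (u * Z) - f u) ^ 2 := by
  have h1 := sh_RKes (wt_RKes hf Z⁻¹) Z
  have h2 : ∑' u, w_RKes (u * Z) Z⁻¹ * f (u * Z) ^ 2 = ∑' u, w_RKes u Z⁻¹ * f u ^ 2 :=
    (Equiv.mulRight Z).tsum_eq fun u => w_RKes u Z⁻¹ * f u ^ 2
  rw [← h2, ← (wt_RKes hf Z).tsum_add h1]
  refine ((wt_RKes hf Z).add h1).tsum_le_tsum (fun u => ?_) (df_RKes hf Z)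
  unfold w_RKes
  rw [mul_inv_cancel_right]
  split_ifs with a b b
  · nlinarith [sq_nonneg (f (u * Z) - f u), sq_nonneg (f u), sq_nonneg (f (u * Z))]
  · nlinarith [sq_nonneg (f (u * Z) - 2 * f u)]
  · nlinarith [sq_nonneg (f u - 2 * f (u * Z))]
  · omega

theorem pw_RKes (m : ℕ) : ∃ c : ℝ, 0 < c ∧ ∀ (A : F2) (f : F2 → ℝ), (Summable fun u => f u ^ 2) →
    ∑' u, (f (u * A ^ m) - f u) ^ 2 ≤ c * ∑' u, (f (u * A) - f u) ^ 2 := by
  induction m with
  | zero =>
    refine ⟨1, one_pos, fun A f _ => ?_⟩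
    simp only [pow_zero, mul_one, sub_self, one_mul]
    simpa using tsum_nonneg fun u => sq_nonneg (f (u * A) - f u)
  | succ m ih =>
    obtain ⟨c, hc, h⟩ := ih
    refine ⟨2 + 2 * c, by positivity, fun A f hf => ?_⟩
    have h1 := sh_RKes (df_RKes hf A) (A ^ m)
    have h2 : ∑' u, (f (u * A ^ m * A) - f (u * A ^ m)) ^ 2 = ∑' u, (f (u * A) - f u) ^ 2 :=
      (Equiv.mulRight (A ^ m)).tsum_eq fun u => (f (u * A) - f u) ^ 2
    have h3 := df_RKes hf (A ^ m)
    have h5 := (df_RKes hf (A ^ (m + 1))).tsum_le_tsum (fun u => by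
      rw [pow_succ A m, ← mul_assoc]
      nlinarith [sq_nonneg (f (u * A ^ m * A) - 2 * f (u * A ^ m) + f u)])
      ((h1.mul_left 2).add (h3.mul_left 2))
    rw [(h1.mul_left 2).tsum_add (h3.mul_left 2), tsum_mul_left, tsum_mul_left, h2] at h5
    have h6 := h A f hf
    linarith

theorem kes_ok (h4 : FourP_st) (hs : Sq_st) (hw : Pow_st) (hb : BP_st) : Kes_st := by
  intro A B hAB
  obtain ⟨C, hC⟩ := hb _ A B hAB
  have hA : A ≠ 1 := fun h => hAB (h ▸ Commute.one_left B)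
  have hB : B ≠ 1 := fun h => hAB (h ▸ Commute.one_right A)
  have lA := len_RKes hs hw hA C
  have lB := len_RKes hs hw hB C
  obtain ⟨c, hc, hp⟩ := pw_RKes (C + 1)
  have c1 := hC ((C + 1 : ℕ) : ℤ) ((C + 1 : ℕ) : ℤ)
  have c2 := hC (-((C + 1 : ℕ) : ℤ)) ((C + 1 : ℕ) : ℤ)
  have c3 := hC ((C + 1 : ℕ) : ℤ) (-((C + 1 : ℕ) : ℤ))
  have c4 := hC (-((C + 1 : ℕ) : ℤ)) (-((C + 1 : ℕ) : ℤ))
  simp only [zpow_neg, zpow_natCast, norm_inv_eq] at c1 c2 c3 c4
  have hpA := hp A
  have hpB := hp B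
  generalize A ^ (C + 1) = X at lA c1 c2 c3 c4 hpA
  generalize B ^ (C + 1) = Y at lB c1 c2 c3 c4 hpB
  have same : ∀ Z : F2, C + 1 ≤ Z.norm → ∀ u : F2, (u * Z).norm ≤ u.norm →
      ¬ (u * Z⁻¹).norm ≤ u.norm := by
    intro Z hZ u h h'
    have h1 := two_RKes h4 h' h
    have h2 := hs _ Z fun e => by
      rw [e, FreeGroup.norm_one] at hZ
      omega
    rw [inv_inv, norm_inv_eq, max_self] at h1
    omega
  have key : ∀ u : F2, 1 / 2 ≤ w_RKes u X + w_RKes u X⁻¹ + (w_RKes u Y + w_RKes u Y⁻¹) := by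
    intro u
    have s1 := same X lA u
    have s2 := same Y lB u
    have t1 := two_RKes h4 (u := u) (Z := X) (Z' := Y)
    have t2 := two_RKes h4 (u := u) (Z := X⁻¹) (Z' := Y)
    have t3 := two_RKes h4 (u := u) (Z := X) (Z' := Y⁻¹)
    have t4 := two_RKes h4 (u := u) (Z := X⁻¹) (Z' := Y⁻¹)
    simp only [inv_inv, norm_inv_eq] at t1 t2 t3 t4
    unfold w_RKes
    split_ifs <;> first | (exfalso; omega) | norm_num
  refine ⟨1 / (2 * c), by positivity, fun f hf => ?_⟩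
  have h0 := sq_RKes hf
  have a1 := wt_RKes h0 X
  have a2 := wt_RKes h0 X⁻¹
  have a3 := wt_RKes h0 Y
  have a4 := wt_RKes h0 Y⁻¹
  have h1 := (h0.mul_left (1 / 2)).tsum_le_tsum
    (fun u => by nlinarith [mul_le_mul_of_nonneg_right (key u) (sq_nonneg (f u))])
    ((a1.add a2).add (a3.add a4))
  rw [(a1.add a2).tsum_add (a3.add a4), a1.tsum_add a2, a3.tsum_add a4, tsum_mul_left] at h1
  have h2 := low_RKes h0 X
  have h3 := low_RKes h0 Y
  have h5 := hpA f h0
  have h6 := hpB f h0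
  rw [div_mul_eq_mul_div, div_le_iff₀ (by positivity)]
  nlinarith

end Pool.Agent.MP_692752_al

end

section

/-! The virtual homomorphism on the outer automorphism group, and random subgroups. -/

set_option autoImplicit false

namespace Pool.Agent.MP_692752_al

open FreeGroup

theorem inn_RCore {G : Type} [Group G] {D : Subgroup G} (hD : D.FiniteIndex) {θ : D →* Orb}
    {α : MulAut G} (h : ActsInner D θ α) : α ∈ Stab D ∧ Rel_VCoreV θ α 1 := by
  obtain ⟨γ, h⟩ := h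
  have h1 : D.map (α : G →* G) ≤ D := by
    rintro _ ⟨x, hx, rfl⟩
    exact (h ⟨x, hx⟩).1
  have h2 := Subgroup.relIndex_mul_index h1
  rw [Subgroup.index_map_equiv, mul_eq_right₀ hD.index_ne_zero, Subgroup.relIndex_eq_one] at h2
  refine ⟨fun x => ⟨fun hx => ?_, fun hx => (h ⟨x, hx⟩).1⟩, γ, fun x hx => ?_⟩
  · obtain ⟨y, hy, e⟩ := h2 hx
    exact α.injective e ▸ hy
  · obtain ⟨a, e⟩ := h ⟨x, hx⟩
    rw [ex_mem_VCoreV θ a, ex_mem_VCoreV θ hx, e, _root_.map_one, MulAut.one_apply]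

theorem coreO_ok (hC : Cong_st) (hR : RF_st) (hF : CFG Orb) (hA : Asada2_st) (h4 : Gam4O_st) :
    CoreO_st := by
  intro G _ hfg D hD θ hθ
  obtain ⟨P, hP⟩ : ∃ P : T_VCoreV θ →* F2, ∀ t : T_VCoreV θ, Rel_VCoreV θ t (P t) :=
    ⟨MonoidHom.mk' (fun t => t.2.2.choose) fun a b => uniq_VCoreV hR hF hA hθ
      (a * b).2.2.choose_spec (mul_VCoreV a.2.2.choose_spec b.2.2.choose_spec b.2.1) (a * b).2.1,
      fun t => t.2.2.choose_spec⟩
  have h1 : ∀ t : T_VCoreV θ, P t = 1 ↔ ActsInner D θ t := fun t => by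
    refine ⟨fun ht => ?_, fun ht => uniq_VCoreV hR hF hA hθ (hP t) (inn_RCore hD ht).2 t.2.1⟩
    obtain ⟨γ, e⟩ : Rel_VCoreV θ t 1 := ht ▸ hP t
    refine ⟨γ, fun x => ⟨(t.2.1 x).2 x.2, ?_⟩⟩
    rw [← ex_mem_VCoreV, e x x.2, ex_mem_VCoreV θ x.2, _root_.map_one, MulAut.one_apply]
  have h2 : ((toOut G).subgroupMap (T_VCoreV θ)).ker ≤ P.ker := fun t ht => by
    obtain ⟨γ, e⟩ : (t : MulAut G) ∈ Inn G := ker_Out G ▸ congrArg Subtype.val ht
    obtain ⟨n, hn, -, hm⟩ := Subgroup.exists_pow_mem_of_index_ne_zero hD.index_ne_zero γ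
    have h3 : P (t ^ n) = 1 := (h1 _).2 ⟨θ ⟨_, hm⟩, fun x => by
      have e' : ((t ^ n : T_VCoreV θ) : MulAut G) x = γ ^ n * x * (γ ^ n)⁻¹ := by
        rw [Subgroup.coe_pow, ← e, ← _root_.map_pow, MulAut.conj_apply]
      refine ⟨e' ▸ D.mul_mem (D.mul_mem hm x.2) (D.inv_mem hm), ?_⟩
      rw [← _root_.map_mul, ← _root_.map_inv, ← _root_.map_mul]
      exact congrArg θ (Subtype.ext e')⟩
    rwa [_root_.map_pow, pow_eq_one_iff_left hn.ne'] at h3
  refine ⟨T_VCoreV θ, ((toOut G).subgroupMap (T_VCoreV θ)).liftOfSurjective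
    ((toOut G).subgroupMap_surjective _) ⟨P, h2⟩, fun c => ?_,
    fun α h => ⟨(inn_RCore hD h).1, 1, (inn_RCore hD h).2⟩, fun t h => ?_⟩
  · obtain ⟨m, hm⟩ := gam_VCoreV hF h4 hθ
    obtain ⟨Q', _, _, π', h⟩ := lev_VCoreV θ hD m
    obtain ⟨B, a1, a2⟩ := (hC G hfg Q' π').1
    have h3 := Subgroup.relIndex_eq_zero_of_le_left (H := B ⊓ Desc D θ) (K := T_VCoreV θ)
      (fun β hβ => ⟨hβ.2.1, hm β hβ.2 fun z hz => (h _ _ (a2 β hβ.1 z) hz).2⟩) c
    rw [Subgroup.inf_relIndex_right] at h3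
    exact Subgroup.FiniteIndex.index_ne_zero h3
  · refine Iff.trans ?_ (h1 ⟨t, h⟩)
    rw [← MonoidHom.liftOfRightInverse_comp_apply ((toOut G).subgroupMap (T_VCoreV θ)) _
      (Function.rightInverse_surjInv ((toOut G).subgroupMap_surjective _)) ⟨P, h2⟩ ⟨t, h⟩]
    exact Iff.rfl

theorem lim_RCore {X : ℕ → Type} [∀ n, Finite (X n)] (p q : ∀ n, X n → Prop) (c : ℕ → ℝ)
    (hc : ∀ n, 0 < c n ∧ (Nat.card (X n) : ℝ) = c n) (h : ∀ n x, q n x → p n x)
    (hq : ∀ ε : ℝ, 0 < ε → ∃ N : ℕ, ∀ n, N ≤ n → (Nat.card {x // ¬ q n x} : ℝ) ≤ ε * c n) :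
    Filter.Tendsto (fun n => (Nat.card {x // p n x} : ℝ) / c n) Filter.atTop (nhds 1) := by
  classical
  refine Metric.tendsto_atTop.2 fun ε hε => ?_
  obtain ⟨N, hN⟩ := hq (ε / 2) (half_pos hε)
  refine ⟨N, fun n hn => ?_⟩
  obtain ⟨c0, c1⟩ := hc n
  have e1 : (Nat.card {x // p n x} : ℝ) + Nat.card {x // ¬ p n x} = c n := by
    rw [← c1, ← Nat.card_congr (Equiv.sumCompl (p n)), Nat.card_sum, Nat.cast_add]
  have e2 : (Nat.card {x // ¬ p n x} : ℝ) ≤ Nat.card {x // ¬ q n x} := Nat.cast_le.2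
    (Nat.card_le_card_of_injective (Subtype.map id fun x hx hy => hx (h n x hy))
      (Subtype.map_injective _ Function.injective_id))
  have e3 := hN n hn
  have e4 : (0 : ℝ) ≤ Nat.card {x // ¬ p n x} := Nat.cast_nonneg _
  have e5 := mul_pos hε c0
  rw [Real.dist_eq, div_sub_one c0.ne', abs_div, abs_of_pos c0, div_lt_iff₀ c0, abs_lt]
  constructor <;> linarith

theorem r0_ok (hO : CoreO_st) (hR : Rand_st) (hV : V2_st) : R0_st := by
  intro g hg D hD θ hθ S hS hrel ⟨α, a1, α', a2, a3, a4, a5⟩ k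
  obtain ⟨T, ρ, h1, h2, h3⟩ := hO (Surf g) (surf_fg g) D hD θ hθ
  have h4 : (T.map (toOut (Surf g))).relIndex (Subgroup.closure (S : Set (Out (Surf g)))) ≠ 0 := by
    rw [← Subgroup.map_comap_eq_self_of_surjective (surj_Out _) (Subgroup.closure _),
      ← Subgroup.relIndex_comap]
    exact fun c => Subgroup.relIndex_ne_zero_trans h1 hrel
      (Subgroup.relIndex_eq_zero_of_le_left (Subgroup.le_comap_map _ _) c)
  obtain ⟨n, n0, -, b1, -⟩ := Subgroup.exists_pow_mem_of_relIndex_ne_zero h1 a1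
  obtain ⟨n', n1, -, b2, -⟩ := Subgroup.exists_pow_mem_of_relIndex_ne_zero h1 a2
  have b3 : α ^ (n * n') ∈ T := pow_mul α n n' ▸ T.pow_mem b1 n'
  have b4 : α' ^ (n * n') ∈ T := pow_mul' α' n n' ▸ T.pow_mem b2 n
  have h5 : ∃ a b : T.map (toOut (Surf g)), (a : Out (Surf g)) ∈ Subgroup.closure (S : Set _) ∧
      (b : Out (Surf g)) ∈ Subgroup.closure (S : Set _) ∧ ¬ Commute (ρ a) (ρ b) := by
    refine ⟨⟨_, _, b3, rfl⟩, ⟨_, _, b4, rfl⟩, ?_, ?_, fun c => a5 _ (mul_pos n0 n1).ne' ?_⟩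
    · exact Subgroup.mem_comap.1 (pow_mem (Subgroup.mem_comap.2 a3) _)
    · exact Subgroup.mem_comap.1 (pow_mem (Subgroup.mem_comap.2 a4) _)
    · have b5 : cm (α ^ (n * n')) (α' ^ (n * n')) ∈ T :=
        mul_mem (mul_mem (mul_mem b3 b4) (inv_mem b3)) (inv_mem b4)
      refine (h3 _ b5).1 (Eq.trans (congrArg ρ (Subtype.ext (map_cm (toOut _) _ _)))
        ((map_cm ρ ⟨_, _, b3, rfl⟩ ⟨_, _, b4, rfl⟩).trans ?_))
      rw [cm, c.eq, mul_inv_cancel_right, mul_inv_cancel]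
  have h6 : (0 : ℝ) < S.card := by
    refine Nat.cast_pos.2 (Finset.card_pos.2 (S.eq_empty_or_nonempty.resolve_left fun e => ?_))
    obtain ⟨a, b, ha, -, c⟩ := h5
    rw [e, Finset.coe_empty, Subgroup.closure_empty, Subgroup.mem_bot] at ha
    exact c (by rw [show a = 1 from Subtype.ext ha, _root_.map_one]; exact Commute.one_left _)
  refine lim_RCore (X := fun n => Fin k → Fin n → S) (fun _ w => Separable (genW w)) _ _
    (fun n => ⟨pow_pos h6 _, ?_⟩) (fun n w hw => ?_) (hR _ S hS _ ρ h4 h5 k)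
  · rw [Nat.card_fun, Nat.card_fun, Nat.card_fin, Nat.card_fin, Nat.card_eq_finsetCard, ← pow_mul,
      mul_comm, Nat.cast_pow]
  · have hle : genW w ≤ Subgroup.closure (S : Set (Out (Surf g))) := by
      refine (Subgroup.closure_le _).2 ?_
      rintro _ ⟨i, rfl⟩
      refine list_prod_mem fun x hx => ?_
      obtain ⟨l, rfl⟩ := List.mem_ofFn.1 hx
      exact Subgroup.subset_closure (w i l).2
    refine hV g hg D hD θ hθ _ ((Subgroup.fg_iff _).2 ⟨_, rfl, Set.finite_range _⟩)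
      (fun c => hrel (Subgroup.relIndex_eq_zero_of_le_right (Subgroup.comap_mono hle) c))
      ((Set.finite_singleton 1).subset ?_)
    rintro _ ⟨b5, β, rfl, b6⟩
    exact congrArg Subtype.val (hw ⟨_, β, h2 β b6, rfl⟩ b5 ((h3 β (h2 β b6)).2 b6))

end Pool.Agent.MP_692752_al

end

section

/-! Involutions in an amalgam are conjugate into a vertex group. -/

set_option autoImplicit false

namespace Pool.Agent.MP_692752_al

open FreeGroup

section gen

variable {G : Type} [Group G]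

/-- the action on words in the edges -/
def act_RTorA (H : Subgroup G) : G →* MulAut (FreeGroup (G ⧸ H)) where
  toFun g := FreeGroup.freeGroupCongr (MulAction.toPerm g)
  map_one' := MulEquiv.toMonoidHom_injective (FreeGroup.ext_hom _ _ fun e => by simp)
  map_mul' g h := MulEquiv.toMonoidHom_injective (FreeGroup.ext_hom _ _ fun e => by
    simp [mul_smul])

theorem act_mk_RTorA (H : Subgroup G) (g : G) (L : List ((G ⧸ H) × Bool)) :
    act_RTorA H g (mk L) = mk (L.map fun x => (g • x.1, x.2)) := FreeGroup.map.mk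

theorem act_of_RTorA (H : Subgroup G) (g : G) (e : G ⧸ H) : act_RTorA H g (of e) = of (g • e) :=
  FreeGroup.map.of

theorem fix_RTorA {H : Subgroup G} {a : G} : a • ((1 : G) : G ⧸ H) = (1 : G) ↔ a ∈ H := by
  rw [MulAction.Quotient.smul_mk, QuotientGroup.eq]
  simp

/-- the product over a list of pairs -/
def pr_RTorA (L : List (G × G)) : G := (L.map fun p => p.1 * p.2).prod

theorem pr_cons_RTorA (p : G × G) (L : List (G × G)) :
    pr_RTorA (p :: L) = p.1 * p.2 * pr_RTorA L := by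
  rw [pr_RTorA, List.map_cons, List.prod_cons, pr_RTorA]

theorem pr_app_RTorA (L L' : List (G × G)) : pr_RTorA (L ++ L') = pr_RTorA L * pr_RTorA L' := by
  rw [pr_RTorA, List.map_append, List.prod_append, pr_RTorA, pr_RTorA]

variable {A B H : Subgroup G} {z : G → FreeGroup (G ⧸ H)}

theorem red_RTorA (hz : ∀ g h, z (g * h) = z g * act_RTorA H g (z h))
    (hA : ∀ a ∈ A, z a = mk [(((1 : G) : G ⧸ H), true), (a • ((1 : G) : G ⧸ H), false)])
    (hB : ∀ b ∈ B, z b = 1) (L : List (G × G))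
    (hL : ∀ p ∈ L, (p.1 ∈ A ∧ p.2 ∈ B) ∧ p.1 ∉ H ∧ p.2 ∉ H) :
    ∃ W, W.length = 2 * L.length ∧ IsReduced W ∧ z (pr_RTorA L) = mk W ∧
      ∀ x ∈ W.head?, x = (((1 : G) : G ⧸ H), true) := by
  induction L with
  | nil => exact ⟨[], rfl, IsReduced.nil, hB 1 B.one_mem, by simp⟩
  | cons p L ih =>
    obtain ⟨W, h1, h2, h3, h4⟩ := ih fun q hq => hL q (List.mem_cons_of_mem _ hq)
    obtain ⟨⟨a1, a2⟩, a3, a4⟩ := hL p List.mem_cons_self
    refine ⟨(((1 : G) : G ⧸ H), true) :: (p.1 • ((1 : G) : G ⧸ H), false) ::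
      W.map fun x => ((p.1 * p.2) • x.1, x.2), by simp [h1]; ring, ?_, ?_, by simp⟩
    · refine List.isChain_cons_cons.2 ⟨fun e => absurd (fix_RTorA.1 e.symm) a3,
        List.isChain_cons.2 ⟨?_, (List.isChain_map _).2 (h2.imp fun x y e e' =>
          e (smul_left_cancel _ e'))⟩⟩
      intro y hy e
      rw [List.head?_map, Option.mem_def, Option.map_eq_some_iff] at hy
      obtain ⟨x, hx, rfl⟩ := hy
      obtain rfl := h4 x hx
      have e1 : p.1 • ((1 : G) : G ⧸ H) = p.1 • p.2 • ((1 : G) : G ⧸ H) :=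
        e.trans (mul_smul _ _ _)
      exact absurd (fix_RTorA.1 (smul_left_cancel _ e1).symm) a4
    · rw [pr_cons_RTorA, hz, hz, hA _ a1, hB _ a2, _root_.map_one, mul_one, h3, act_mk_RTorA,
        mul_mk]
      rfl

theorem main_RTorA (hz : ∀ g h, z (g * h) = z g * act_RTorA H g (z h))
    (hA : ∀ a ∈ A, z a = mk [(((1 : G) : G ⧸ H), true), (a • ((1 : G) : G ⧸ H), false)])
    (hB : ∀ b ∈ B, z b = 1) (h1 : H ≤ A) (h2 : H ≤ B) (n : ℕ) : ∀ L : List (G × G), L.length = n →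
    (∀ p ∈ L, p.1 ∈ A ∧ p.2 ∈ B) → pr_RTorA L * pr_RTorA L = 1 →
    ∃ g, g⁻¹ * pr_RTorA L * g ∈ A ∨ g⁻¹ * pr_RTorA L * g ∈ B := by
  classical
  induction n using Nat.strong_induction_on with
  | _ n ih =>
  intro L hn hL hq
  by_cases hc : ∀ p ∈ L, p.1 ∉ H ∧ p.2 ∉ H
  · obtain ⟨W, a1, a2, a3, -⟩ := red_RTorA hz hA hB (L ++ L) fun p hp => by
      have := (List.mem_append.1 hp).elim id id
      exact ⟨hL p this, hc p this⟩
    rw [pr_app_RTorA, hq, hB 1 B.one_mem] at a3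
    have a4 := congrArg toWord a3
    rw [toWord_one, toWord_mk, a2.reduce_eq] at a4
    subst a4
    obtain rfl : L = [] := by
      rw [List.length_append, List.length_nil] at a1
      exact List.length_eq_zero_iff.1 (by omega)
    exact ⟨1, Or.inl (by simp [pr_RTorA])⟩
  push Not at hc
  obtain ⟨p, hp, hc⟩ := hc
  obtain ⟨L₁, L₂, rfl⟩ := List.append_of_mem hp
  have hM : ∀ q ∈ L₂ ++ L₁, q.1 ∈ A ∧ q.2 ∈ B := fun q hq => hL q (by
    simp only [List.mem_append, List.mem_cons] at hq ⊢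
    tauto)
  have hl : (L₂ ++ L₁).length + 1 = n := by
    simp only [List.length_append, List.length_cons] at hn ⊢
    omega
  have key : ∀ (k : G) (M : List (G × G)), M.length < n → (∀ q ∈ M, q.1 ∈ A ∧ q.2 ∈ B) →
      pr_RTorA M = k⁻¹ * pr_RTorA (L₁ ++ p :: L₂) * k →
      ∃ g, g⁻¹ * pr_RTorA (L₁ ++ p :: L₂) * g ∈ A ∨ g⁻¹ * pr_RTorA (L₁ ++ p :: L₂) * g ∈ B := by
    intro k M b1 b2 b3
    obtain ⟨g, hg⟩ := ih _ b1 M rfl b2 (by
      rw [b3]
      calc _ = k⁻¹ * (pr_RTorA (L₁ ++ p :: L₂) * pr_RTorA (L₁ ++ p :: L₂)) * k := by group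
        _ = 1 := by rw [hq]; group)
    refine ⟨k * g, ?_⟩
    rwa [b3, show g⁻¹ * (k⁻¹ * pr_RTorA (L₁ ++ p :: L₂) * k) * g =
      (k * g)⁻¹ * pr_RTorA (L₁ ++ p :: L₂) * (k * g) by group] at hg
  have e1 : (pr_RTorA L₁)⁻¹ * pr_RTorA (L₁ ++ p :: L₂) * pr_RTorA L₁ =
      p.1 * p.2 * pr_RTorA (L₂ ++ L₁) := by
    rw [pr_app_RTorA, pr_app_RTorA, pr_cons_RTorA]
    group
  have e2 : (pr_RTorA L₂)⁻¹⁻¹ * pr_RTorA (L₁ ++ p :: L₂) * (pr_RTorA L₂)⁻¹ =
      pr_RTorA (L₂ ++ L₁) * (p.1 * p.2) := by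
    rw [pr_app_RTorA, pr_app_RTorA, pr_cons_RTorA]
    group
  obtain ⟨p1, p2⟩ := hL p hp
  generalize L₂ ++ L₁ = M at hM hl e1 e2
  by_cases h3 : p.1 ∈ H
  · have b := B.mul_mem (h2 h3) p2
    rcases List.eq_nil_or_concat' M with rfl | ⟨M, q, rfl⟩
    · exact ⟨pr_RTorA L₁, Or.inr (by rw [e1]; simpa [pr_RTorA] using b)⟩
    · obtain ⟨q1, q2⟩ := hM q (by simp)
      refine key (pr_RTorA L₂)⁻¹ (M ++ [(q.1, q.2 * (p.1 * p.2))]) (by simpa using hl.le)
        (fun r hr => ?_) ?_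
      · rcases List.mem_append.1 hr with hr | hr
        · exact hM r (List.mem_append_left _ hr)
        · obtain rfl := List.mem_singleton.1 hr
          exact ⟨q1, B.mul_mem q2 b⟩
      · rw [e2]
        simp [pr_RTorA, mul_assoc]
  · have b := A.mul_mem p1 (h1 (hc h3))
    cases M with
    | nil => exact ⟨pr_RTorA L₁, Or.inl (by rw [e1]; simpa [pr_RTorA] using b)⟩
    | cons q M =>
      obtain ⟨q1, q2⟩ := hM q (by simp)
      refine key (pr_RTorA L₁) ((p.1 * p.2 * q.1, q.2) :: M) (by simpa using hl.le)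
        (fun r hr => ?_) ?_
      · rcases List.mem_cons.1 hr with rfl | hr
        · exact ⟨A.mul_mem b q1, q2⟩
        · exact hM r (List.mem_cons_of_mem _ hr)
      · rw [e1]
        simp [pr_RTorA, mul_assoc]

end gen

open SemidirectProduct in
theorem torA_ok : TorA_st := by
  intro m x hx
  set A := Subgroup.closure ({cs 0, cs 1} : Set (Sph (m + 5))) with hA
  set B := Subgroup.closure {w : Sph (m + 5) | ∃ i : Fin (m + 5), 2 ≤ i.val ∧ w = cs i} with hB
  set H := Subgroup.zpowers (cs 0 * cs 1 : Sph (m + 5)) with hH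
  have p1 := cs_prod (m + 5)
  rw [List.ofFn_succ, List.ofFn_succ, List.prod_cons, List.prod_cons, ← mul_assoc] at p1
  have h1 : H ≤ A := (Subgroup.zpowers_le (G := Sph (m + 5))).2
    (A.mul_mem (Subgroup.subset_closure (by simp)) (Subgroup.subset_closure (by simp)))
  have h2 : H ≤ B := by
    refine (Subgroup.zpowers_le (G := Sph (m + 5))).2 ?_
    have := eq_inv_of_mul_eq_one_left p1
    refine this ▸ B.inv_mem (B.list_prod_mem fun y hy => ?_)
    obtain ⟨i, rfl⟩ := List.mem_ofFn.1 hy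
    exact Subgroup.subset_closure ⟨_, by simp, rfl⟩
  let e : Sph (m + 5) ⧸ H := (1 : Sph (m + 5))
  let w : FreeGroup (Sph (m + 5) ⧸ H) ⋊[act_RTorA H] Sph (m + 5) := inl (of e)
  have hw : ∀ a : Sph (m + 5), w * inr a * w⁻¹ = ⟨mk [(e, true), (a • e, false)], a⟩ := by
    intro a
    refine SemidirectProduct.ext ?_ (by simp [w])
    simp only [w, ← _root_.map_inv, mul_left, mul_right, left_inl, right_inl, left_inr, right_inr,
      _root_.map_one, mul_one, one_mul]
    rw [_root_.map_inv, act_of_RTorA]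
    rfl
  let f : Fin (m + 5) → FreeGroup (Sph (m + 5) ⧸ H) ⋊[act_RTorA H] Sph (m + 5) := fun i =>
    if i.val < 2 then w * inr (cs i) * w⁻¹ else inr (cs i)
  have f1 : ∀ i, f i * f i = 1 := fun i => by
    simp only [f]
    split_ifs
    · rw [conj_mul, ← _root_.map_mul, cs_cs, _root_.map_one, mul_one, mul_inv_cancel]
    · rw [← _root_.map_mul, cs_cs, _root_.map_one]
  have f2 : (List.ofFn f).prod = 1 := by
    rw [List.ofFn_succ, List.ofFn_succ, List.prod_cons, List.prod_cons, ← mul_assoc]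
    have a1 : f 0 * f (Fin.succ 0) = inr (cs 0 * cs (Fin.succ 0)) := by
      change w * inr (cs 0) * w⁻¹ * (w * inr (cs 1) * w⁻¹) = inr (cs 0 * cs 1)
      rw [conj_mul, ← _root_.map_mul, hw, fix_RTorA.2 (Subgroup.mem_zpowers _)]
      exact SemidirectProduct.ext (mul_inv_cancel (of _)) rfl
    have a2 : (fun i : Fin (m + 3) => f i.succ.succ) = inr ∘ fun i => cs i.succ.succ :=
      funext fun i => if_neg (by simp)
    rw [a1, a2, ← List.map_ofFn, ← map_list_prod, ← _root_.map_mul, p1, _root_.map_one]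
  have zA : ∀ a ∈ A, sLift f f1 f2 a = w * inr a * w⁻¹ := fun a ha =>
    MonoidHom.eqOn_closure (g := (MulAut.conj w).toMonoidHom.comp inr) (by
      rintro _ (rfl | rfl) <;> exact sLift_cs _ _ _ _) ha
  have zB : ∀ b ∈ B, sLift f f1 f2 b = inr b := fun b hb =>
    MonoidHom.eqOn_closure (g := inr) (by
      rintro _ ⟨i, hi, rfl⟩
      exact (sLift_cs _ _ _ _).trans (if_neg (by omega))) hb
  have zR : ∀ g, (sLift f f1 f2 g).right = g := fun g =>
    DFunLike.congr_fun (sph_ext (f := rightHom.comp (sLift f f1 f2)) (g := MonoidHom.id _)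
      fun i => by
        simp only [MonoidHom.comp_apply, sLift_cs, f, hw]
        split_ifs <;> rfl) g
  obtain ⟨L, hL, rfl⟩ : ∃ L : List (Sph (m + 5) × Sph (m + 5)),
      (∀ p ∈ L, p.1 ∈ A ∧ p.2 ∈ B) ∧ x = pr_RTorA L := by
    clear hx
    induction x using sph_ind with
    | h1 => exact ⟨[], by simp, rfl⟩
    | hm i y ih =>
      obtain ⟨L, hL, rfl⟩ := ih
      by_cases hi : 2 ≤ i.val
      · exact ⟨(1, cs i) :: L, List.forall_mem_cons.2
          ⟨⟨A.one_mem, Subgroup.subset_closure ⟨i, hi, rfl⟩⟩, hL⟩, by rw [pr_cons_RTorA, one_mul]⟩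
      · refine ⟨(cs i, 1) :: L, List.forall_mem_cons.2
          ⟨⟨Subgroup.subset_closure ?_, B.one_mem⟩, hL⟩, by rw [pr_cons_RTorA, mul_one]⟩
        have : i = 0 ∨ i = 1 := by
          simp only [Fin.ext_iff, Fin.val_zero, Fin.val_one]
          omega
        rcases this with rfl | rfl <;> simp
  exact main_RTorA (z := fun g => (sLift f f1 f2 g).left)
    (fun g h => by rw [_root_.map_mul, mul_left, zR]) (fun a ha => by rw [zA a ha, hw])
    (fun b hb => by rw [zB b hb, left_inr]) h1 h2 _ L rfl hL hx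

end Pool.Agent.MP_692752_al

end

section

set_option autoImplicit false

namespace Pool.Agent.MP_692752_al

open FreeGroup

theorem fin_RSD {A T : Type} [Group A] (K : Subgroup A) [Finite T] (F : A → T)
    (h : ∀ a b, F a = F b → a⁻¹ * b ∈ K) : K.FiniteIndex := by
  have : Finite (A ⧸ K) := Finite.of_injective (fun q : A ⧸ K => F q.out) fun q q' e => by
    rw [← q.out_eq', ← q'.out_eq']
    exact QuotientGroup.eq.2 (h _ _ e)
  exact Subgroup.finiteIndex_of_finite_quotient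

theorem sd_ok (hC : Cong_st) (hT : Tor_st) (hU : Univ_st) : SD_st := by
  intro m
  obtain ⟨hE, -, hD⟩ := hU m
  obtain ⟨B, hB, hBπ⟩ := (hC _ (sph_fg (m + 5)) _ (QuotientGroup.mk' (sE m).normalCore)).1
  have h1 : ∀ (β : MulAut (Sph (m + 5))) (i : Fin (m + 5)),
      ∃ (i' : Fin (m + 5)) (g : Sph (m + 5)), β (cs i) = g * cs i' * g⁻¹ := fun β i => by
    rcases hT m (β (cs i)) (by rw [← _root_.map_mul, cs_cs, _root_.map_one]) with h | h
    · refine ⟨i, 1, ?_⟩
      rw [h, (MulEquiv.map_eq_one_iff β).1 h]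
      simp
    · exact h
  choose ι g hg using h1
  refine fin_RSD _ (fun β => ((β : MulAut (Sph (m + 5)) ⧸ B),
    fun i => (ι β i, QuotientGroup.mk' (sE m).normalCore (β⁻¹ (g β i))))) fun β β' e => ?_
  have e1 : β⁻¹ * β' ∈ B := QuotientGroup.eq.1 (congrArg Prod.fst e)
  refine hD _ fun i => ?_
  have e2 := congrFun (congrArg Prod.snd e) i
  have e3 : ι β i = ι β' i := congrArg Prod.fst e2
  have e4 : QuotientGroup.mk' (sE m).normalCore (β⁻¹ (g β i)) =
    QuotientGroup.mk' (sE m).normalCore (β'⁻¹ (g β' i)) := congrArg Prod.snd e2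
  refine ⟨β⁻¹ (g β' i * (g β i)⁻¹), (sE m).normalCore_le ?_, ?_⟩
  · have e5 := hBπ _ e1 (β'⁻¹ (g β' i))
    rw [MulAut.mul_apply, MulAut.apply_inv_self, ← e4] at e5
    rw [← QuotientGroup.eq_one_iff, ← QuotientGroup.mk'_apply, _root_.map_mul, _root_.map_mul, e5,
      ← _root_.map_mul, ← _root_.map_mul, mul_inv_cancel, _root_.map_one, _root_.map_one]
  · apply β.injective
    rw [MulAut.mul_apply, MulAut.apply_inv_self, _root_.map_mul, _root_.map_mul, _root_.map_inv,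
      MulAut.apply_inv_self, hg, hg, e3]
    group

/-- pairs of automorphisms that are compatible with `j` -/
def W_RSD {G F : Type} [Group G] [Group F] (j : G →* F) : Subgroup (MulAut G × MulAut F) where
  carrier := {p | ∀ x, p.2 (j x) = j (p.1 x)}
  one_mem' := fun _ => rfl
  mul_mem' := fun {a b} ha hb x => by
    rw [Prod.snd_mul, Prod.fst_mul, MulAut.mul_apply, MulAut.mul_apply, hb, ha]
  inv_mem' := fun {a} ha x => by
    rw [Prod.snd_inv, Prod.fst_inv, MulAut.inv_apply, MulEquiv.symm_apply_eq, ha]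
    simp

theorem desc_RSD {G F H : Type} [Group G] [Group F] [Group H] (j : G →* F) (E : Subgroup F)
    (T : E →* H) {α : MulAut G} {β : MulAut F} (h : (α, β) ∈ W_RSD j) (hβ : β ∈ Desc E T) :
    α ∈ Desc (E.comap j) (T.comp (j.subgroupComap E)) := by
  have h' : ∀ x, β (j x) = j (α x) := h
  obtain ⟨h1, γ, h2⟩ := hβ
  refine ⟨fun x => by rw [Subgroup.mem_comap, Subgroup.mem_comap, ← h', h1], γ, fun x hx => ?_⟩
  refine Eq.trans (congrArg T (Subtype.ext ?_)) (h2 ⟨j x, x.2⟩ ((h1 _).2 x.2))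
  exact (h' x).symm

theorem lift_RSD {G F : Type} [Group G] [Group F] {j : G →* F} (hj : Function.Injective j)
    (B : Subgroup (MulAut F)) (hB : ∀ β ∈ B, ∀ x, β (j x) ∈ j.range) {β : MulAut F}
    (hβ : β ∈ B) : ∃ α : MulAut G, (α, β) ∈ W_RSD j := by
  choose f hf using hB β hβ
  choose f' hf' using hB β⁻¹ (B.inv_mem hβ)
  exact ⟨⟨⟨f, f', fun x => hj (by rw [hf', hf, MulAut.inv_apply_self]),
    fun x => hj (by rw [hf, hf', MulAut.apply_inv_self])⟩,
    fun x y => hj (by simp only [hf, _root_.map_mul])⟩, fun x => (hf x).symm⟩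

theorem hyp_ok (hC : Cong_st) (hU : Univ_st) (hD : SD_st) (hN : SN_st) : Hyp_st := by
  intro m G _ j hj hr
  obtain ⟨hE, hT, -⟩ := hU m
  have hD' := hD m
  refine ⟨(sE m).comap j, (sT m).comp (j.subgroupComap (sE m)), ⟨?_⟩, ?_, ?_, ?_⟩
  · rw [Subgroup.index_comap]
    exact Subgroup.FiniteIndex.index_ne_zero (H := (sE m).subgroupOf j.range)
  · have : ((j.range.subgroupOf (sE m)).map (sT m)).FiniteIndex :=
      ⟨ne_zero_of_dvd_ne_zero Subgroup.FiniteIndex.index_ne_zero (Subgroup.index_map_dvd _ hT)⟩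
    refine Subgroup.finiteIndex_of_le (H := (j.range.subgroupOf (sE m)).map (sT m)) ?_
    rintro _ ⟨z, ⟨x, hx⟩, rfl⟩
    exact ⟨⟨x, by rw [Subgroup.mem_comap, hx]; exact z.2⟩, congrArg (sT m) (Subtype.ext hx)⟩
  · have h1 : ∀ a : (Liftable j).comap (toOut G), ∃ β, (a.1, β) ∈ W_RSD j := by
      rintro ⟨a, α, β, h, h'⟩
      obtain ⟨γ, hγ⟩ : α⁻¹ * a ∈ Inn G := QuotientGroup.eq.1 h
      refine ⟨β * MulAut.conj (j γ), fun x => ?_⟩
      have e : a = α * MulAut.conj γ := by rw [hγ, mul_inv_cancel_left]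
      show β (j γ * j x * (j γ)⁻¹) = j (a x)
      rw [e, ← _root_.map_inv, ← _root_.map_mul, ← _root_.map_mul, h']
      rfl
    choose β hβ using h1
    exact (fin_RSD ((Desc ((sE m).comap j) ((sT m).comp (j.subgroupComap (sE m)))).subgroupOf _)
      (fun a => (β a : MulAut (Sph (m + 5)) ⧸ Desc (sE m) (sT m))) fun a b e =>
      desc_RSD j _ _ (mul_mem (inv_mem (hβ a)) (hβ b)) (QuotientGroup.eq.1 e)).index_ne_zero
  · obtain ⟨β, hβ, β', hβ', h⟩ := hN m
    obtain ⟨B, hB, hBπ⟩ := (hC _ (sph_fg (m + 5)) _ (QuotientGroup.mk' j.range.normalCore)).1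
    have hBr : ∀ β ∈ B, ∀ x, β (j x) ∈ j.range := fun γ hγ x => by
      have h1 : (j x)⁻¹ * γ (j x) ∈ j.range :=
        j.range.normalCore_le (QuotientGroup.eq.1 (hBπ γ hγ (j x)).symm)
      simpa using mul_mem (⟨x, rfl⟩ : j x ∈ j.range) h1
    obtain ⟨α, hα⟩ := lift_RSD hj B hBr (B.normalCore_le (Subgroup.pow_index_mem _ β))
    obtain ⟨α', hα'⟩ := lift_RSD hj B hBr (B.normalCore_le (Subgroup.pow_index_mem _ β'))
    refine ⟨α, desc_RSD j _ _ hα (pow_mem hβ _), α', desc_RSD j _ _ hα' (pow_mem hβ' _),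
      ⟨α, _, rfl, hα⟩, ⟨α', _, rfl, hα'⟩, fun N hN0 ⟨w, hw⟩ => ?_⟩
    obtain ⟨z, hz, hne⟩ := h (B.normalCore.index * N)
      (mul_ne_zero Subgroup.FiniteIndex.index_ne_zero hN0)
    have h1 : ∀ x, cm (β ^ (B.normalCore.index * N)) (β' ^ (B.normalCore.index * N)) (j x) =
        j (cm (α ^ N) (α' ^ N) x) := by
      rw [pow_mul, pow_mul]
      exact mul_mem (mul_mem (mul_mem (pow_mem hα N) (pow_mem hα' N)) (inv_mem (pow_mem hα N)))
        (inv_mem (pow_mem hα' N))
    obtain ⟨x, hx⟩ := j.range.normalCore_le (Subgroup.pow_index_mem _ z.1)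
    have hxD : x ∈ (sE m).comap j := by
      rw [Subgroup.mem_comap, hx]
      exact pow_mem z.2 _
    obtain ⟨h2, h3⟩ := hw ⟨x, hxD⟩
    have h4 : sT m ⟨_, hz⟩ ^ j.range.normalCore.index =
        w * sT m z ^ j.range.normalCore.index * w⁻¹ := by
      rw [← _root_.map_pow, ← _root_.map_pow]
      refine Eq.trans (congrArg (sT m) (Subtype.ext ?_)) (h3.trans ?_)
      · show _ ^ _ = j (cm (α ^ N) (α' ^ N) x)
        rw [← h1, hx, _root_.map_pow]
      · congr 2
        exact congrArg (sT m) (Subtype.ext hx)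
    have h5 : ∀ φ : Orb →* Multiplicative ℤ, φ (sT m ⟨_, hz⟩) = φ (sT m z) := fun φ => by
      apply pow_left_injective (Subgroup.FiniteIndex.index_ne_zero (H := j.range.normalCore))
      have := congrArg φ h4
      rwa [_root_.map_mul, _root_.map_mul, _root_.map_inv, mul_inv_cancel_comm, _root_.map_pow,
        _root_.map_pow] at this
    exact hne.elim (fun e => e (h5 ex)) (fun e => e (h5 ey))

end Pool.Agent.MP_692752_al

end

section

/-! The parts for random subgroups without hypotheses. -/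

set_option autoImplicit false

namespace Pool.Agent.MP_692752_al

theorem v2_all : V2_st := fun g hg D hD θ hθ H hH h1 h2 =>
  v2_of out_all coreV_all (Surf g) (surf_fg g) (gr_all g hg) D hD θ hθ H hH h1 h2

theorem rand_all : Rand_st :=
  rand_ok (prob_ok (dec_ok (gap_ok (kes_ok fourP_ok sq_ok pow_ok
    (bp_ok fourP_ok pre_ok par_ok sq_ok pow_ok)))) cnt_ok
    (det_ok fourP_ok pre_ok (near_ok fourP_ok))) (pong_ok four_ok)

theorem r0_all : R0_st :=
  r0_ok (coreO_ok cong_ok (rf_ok cp_ok) cfo_all asada2_all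
    (gam4O_ok no_all (gam4_ok (niel_ok fourP_ok four_ok pre_ok par_ok sq_ok)))) rand_all v2_all

theorem hyp_all : Hyp_st :=
  hyp_ok cong_ok univ_ok (sd_ok cong_ok (tor_ok torA_ok) univ_ok) (sn_ok univ_ok)

end Pool.Agent.MP_692752_al

end
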