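import Pool.Agent.Mg.F692752.G94411f
import Pool.Agent.MP_692752_al.Stmt3

section

/-! Internal definitions and the statements of the parts, third series. -/

set_option autoImplicit false

namespace Pool.Agent.MP_692752_al

open FreeGroup

/-! Walks with labels in the free group of rank two -/

/-- a finite automaton with inverse letters and labels in the free group -/
structure WK (S Q : Type) where
  io : S → S
  σ : S → Q → Q
  k : S → Q → F2
  io_io : ∀ s, io (io s) = s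
  σ_io : ∀ s q, σ (io s) (σ s q) = q
  k_io : ∀ s q, k (io s) (σ s q) = (k s q)⁻¹

namespace WK
variable {S Q : Type} (d : WK S Q)

def step (x : Q × F2) (s : S) : Q × F2 := (d.σ s x.1, x.2 * d.k s x.1)

def run (x : Q × F2) (L : List S) : Q × F2 := L.foldl d.step x

/-- the formal inverse of a word -/
def rev (L : List S) : List S := (L.map d.io).reverse

theorem run_nil (x : Q × F2) : d.run x [] = x := rfl

theorem run_cons (x : Q × F2) (s : S) (L : List S) : d.run x (s :: L) = d.run (d.step x s) L :=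
  rfl

theorem run_append (x : Q × F2) (L L' : List S) : d.run x (L ++ L') = d.run (d.run x L) L' :=
  List.foldl_append

theorem step_io (x : Q × F2) (s : S) : d.step (d.step x s) (d.io s) = x := by
  simp [step, d.σ_io, d.k_io]

theorem step_io' (x : Q × F2) (s : S) : d.step (d.step x (d.io s)) s = x := by
  simpa [d.io_io] using d.step_io x (d.io s)

theorem run_rev (x : Q × F2) (L : List S) : d.run (d.run x L) (d.rev L) = x := by
  induction L generalizing x with
  | nil => rfl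
  | cons s L ih =>
    have : d.rev (s :: L) = d.rev L ++ [d.io s] := by simp [rev]
    rw [this, run_cons, run_append, ih, run_cons, run_nil, step_io]

theorem rev_rev (L : List S) : d.rev (d.rev L) = L := by
  simp [rev, List.map_reverse, Function.comp_def, d.io_io]

theorem run_eq (q : Q) (u : F2) (L : List S) :
    d.run (q, u) L = ((d.run (q, 1) L).1, u * (d.run (q, 1) L).2) := by
  induction L generalizing q u with
  | nil => simp [run_nil]
  | cons s L ih =>
    simp only [run_cons, step, one_mul]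
    rw [ih, ih _ (d.k s q), mul_assoc]

/-- at every state there are two loops with labels that do not commute -/
def NE : Prop := ∀ q, ∃ a b : List S, (d.run (q, 1) a).1 = q ∧ (d.run (q, 1) b).1 = q ∧
  ¬ Commute (d.run (q, 1) a).2 (d.run (q, 1) b).2

/-- exponential decay of the transition probabilities -/
def Dec [Fintype S] (r : ℝ) : Prop := ∀ (n : ℕ) (x y : Q × F2),
  (Nat.card {w : Fin n → S // d.run x (List.ofFn w) = y} : ℝ) ≤ (Fintype.card S * r) ^ n

/-- ping pong with constant `K` -/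
def PP (K : ℕ) : Prop := (∀ s q, K < (d.k s q).norm) ∧
  ∀ s s' q, s ≠ s' → (d.k s q).norm + (d.k s' q).norm ≤ ((d.k s q)⁻¹ * d.k s' q).norm + K

/-- the word of a letter -/
def lw {k n : ℕ} (ω : Fin k → Fin n → S) (l : Fin k × Bool) : List S :=
  if l.2 then List.ofFn (ω l.1) else d.rev (List.ofFn (ω l.1))

theorem lw_not {k n : ℕ} (ω : Fin k → Fin n → S) (l : Fin k × Bool) :
    d.lw ω (l.1, !l.2) = d.rev (d.lw ω l) := by
  obtain ⟨i, b⟩ := l
  cases b <;> simp [lw, rev_rev]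

/-- the automaton whose letters are the sampled words and their inverses -/
def big {k n : ℕ} (ω : Fin k → Fin n → S) : WK (Fin k × Bool) Q where
  io l := (l.1, !l.2)
  σ l q := (d.run (q, 1) (d.lw ω l)).1
  k l q := (d.run (q, 1) (d.lw ω l)).2
  io_io l := by simp
  σ_io l q := by
    have h := d.run_rev (q, 1) (d.lw ω l)
    rw [← Prod.mk.eta (p := d.run (q, 1) (d.lw ω l)), run_eq] at h
    rw [lw_not]
    exact congrArg Prod.fst h
  k_io l q := by
    have h := d.run_rev (q, 1) (d.lw ω l)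
    rw [← Prod.mk.eta (p := d.run (q, 1) (d.lw ω l)), run_eq] at h
    rw [lw_not]
    exact eq_inv_of_mul_eq_one_right (congrArg Prod.snd h)

/-- the label after `j` steps of the word of a letter -/
def Y {k n : ℕ} (ω : Fin k → Fin n → S) (l : Fin k × Bool) (q : Q) (j : ℕ) : F2 :=
  (d.run (q, 1) ((d.lw ω l).take j)).2

/-- a late return to a ball -/
def E1 {k n : ℕ} (R : ℕ) (ω : Fin k → Fin n → S) : Prop :=
  ∃ l q j, j ≤ n ∧ n < 2 * j ∧ (d.Y ω l q j).norm ≤ R

/-- a late meeting of two paths -/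
def E2 {k n : ℕ} (R J : ℕ) (ω : Fin k → Fin n → S) : Prop :=
  ∃ l l' q j j', l ≠ l' ∧ j ≤ j' ∧ J ≤ j' ∧ j + j' ≤ n ∧
    ((d.Y ω l q j)⁻¹ * d.Y ω l' q j').norm ≤ R

end WK

def Kes_st : Prop := ∀ A B : F2, ¬ Commute A B → ∃ δ : ℝ, 0 < δ ∧ ∀ f : F2 → ℝ,
  (Function.support f).Finite →
    δ * ∑' u, f u ^ 2 ≤ ∑' u, (f (u * A) - f u) ^ 2 + ∑' u, (f (u * B) - f u) ^ 2

def Gap_st : Prop := ∀ (S Q : Type) [Fintype S] [Fintype Q] (d : WK S Q), d.NE →
  ∃ ρ : ℝ, 0 ≤ ρ ∧ ρ < 1 ∧ ∀ f : Q × F2 → ℝ, (Function.support f).Finite →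
    ∑' x, (∑ s, f (d.step x s)) ^ 2 ≤ ρ * (Fintype.card S : ℝ) ^ 2 * ∑' x, f x ^ 2

def Dec_st : Prop := ∀ (S Q : Type) [Fintype S] [Fintype Q] (d : WK S Q), d.NE →
  ∃ r : ℝ, 0 ≤ r ∧ r < 1 ∧ d.Dec r

def Cnt_st : Prop := ∀ (S Q : Type) [Fintype S] [Fintype Q] (d : WK S Q) (r : ℝ), 0 ≤ r →
  d.Dec r → ∀ R : ℕ, ∃ C : ℝ, 0 ≤ C ∧ ∀ (k n : ℕ) (l l' : Fin k × Bool) (q : Q) (j j' : ℕ),
    l ≠ l' → j + j' ≤ n →
    (Nat.card {ω : Fin k → Fin n → S // ((d.Y ω l q j)⁻¹ * d.Y ω l' q j').norm ≤ R} : ℝ) ≤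
      C * r ^ j' * (Fintype.card S : ℝ) ^ (k * n)

def Near_st : Prop := ∀ (y : ℕ → F2) (n B : ℕ) (p : F2), y 0 = 1 →
  (∀ j, j < n → ((y j)⁻¹ * y (j + 1)).norm ≤ B) →
  p.norm + (p⁻¹ * y n).norm = (y n).norm → ∃ j, j ≤ n ∧ (p⁻¹ * y j).norm ≤ B

def Det_st : Prop := ∀ (S Q : Type) (d : WK S Q) (B J k n : ℕ) (ω : Fin k → Fin n → S),
  1 ≤ B → 1 ≤ n → (∀ s q, (d.k s q).norm ≤ B) → ¬ d.E1 (2 * (B * J + B)) ω →
  ¬ d.E2 (2 * B) J ω → (d.big ω).PP (2 * (B * J + B))

def Pong_st : Prop := ∀ (S Q : Type) (d : WK S Q) (K : ℕ), d.PP K → ∀ L : List S, L ≠ [] →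
  L.IsChain (fun s s' => s' ≠ d.io s) → ∀ q, (d.run (q, 1) L).2 ≠ 1

def Prob_st : Prop := ∀ (S Q : Type) [Fintype S] [Fintype Q] (d : WK S Q), d.NE →
  ∀ (k : ℕ) (ε : ℝ), 0 < ε → ∃ N : ℕ, ∀ n, N ≤ n →
    (Nat.card {ω : Fin k → Fin n → S // ¬ ∃ K, (d.big ω).PP K} : ℝ) ≤
      ε * (Fintype.card S : ℝ) ^ (k * n)

/-- the subgroup generated by the products of the sampled words -/
def genW {Γ : Type} [Group Γ] {S : Finset Γ} {k n : ℕ} (w : Fin k → Fin n → S) : Subgroup Γ :=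
  Subgroup.closure (Set.range fun i => (List.ofFn fun l => (w i l : Γ)).prod)

/-- a virtual homomorphism with non abelian image is injective on a random subgroup -/
def Rand_st : Prop := ∀ (Γ : Type) [Group Γ] (S : Finset Γ), (∀ s ∈ S, s⁻¹ ∈ S) →
  ∀ (T : Subgroup Γ) (ρ : T →* F2), T.relIndex (Subgroup.closure (S : Set Γ)) ≠ 0 →
  (∃ a b : T, (a : Γ) ∈ Subgroup.closure (S : Set Γ) ∧ (b : Γ) ∈ Subgroup.closure (S : Set Γ) ∧
    ¬ Commute (ρ a) (ρ b)) →
  ∀ (k : ℕ) (ε : ℝ), 0 < ε → ∃ N : ℕ, ∀ n, N ≤ n →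
    (Nat.card {w : Fin k → Fin n → S // ¬ ∀ t : T, (t : Γ) ∈ genW w → ρ t = 1 → t = 1} : ℝ) ≤
      ε * (S.card : ℝ) ^ (k * n)

/-- the virtual homomorphism on the outer automorphism group -/
def CoreO_st : Prop := ∀ (G : Type) [Group G], Group.FG G → ∀ (D : Subgroup G), D.FiniteIndex →
  ∀ θ : D →* Orb, θ.range.FiniteIndex →
  ∃ (T : Subgroup (MulAut G)) (ρ : T.map (toOut G) →* F2), T.relIndex (Desc D θ) ≠ 0 ∧
    (∀ α : MulAut G, ActsInner D θ α → α ∈ T) ∧
    ∀ (t : MulAut G) (h : t ∈ T), ρ ⟨toOut G t, t, h, rfl⟩ = 1 ↔ ActsInner D θ t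

/-- two elements with commutators of powers that do not act as inner automorphisms -/
def NEl {G : Type} [Group G] (D : Subgroup G) (θ : D →* Orb) (Λ : Subgroup (Out G)) : Prop :=
  ∃ α ∈ Desc D θ, ∃ α' ∈ Desc D θ, toOut G α ∈ Λ ∧ toOut G α' ∈ Λ ∧
    ∀ N : ℕ, N ≠ 0 → ¬ ActsInner D θ (cm (α ^ N) (α' ^ N))

def R0_st : Prop := ∀ g : ℕ, 2 ≤ g → ∀ (D : Subgroup (Surf g)), D.FiniteIndex →
  ∀ θ : D →* Orb, θ.range.FiniteIndex → ∀ S : Finset (Out (Surf g)), (∀ s ∈ S, s⁻¹ ∈ S) →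
  (Desc D θ).relIndex ((Subgroup.closure (S : Set (Out (Surf g)))).comap (toOut (Surf g))) ≠ 0 →
  NEl D θ (Subgroup.closure (S : Set (Out (Surf g)))) → ∀ k : ℕ,
  Filter.Tendsto (fun n : ℕ => (Nat.card {w : Fin k → Fin n → S // Separable (genW w)} : ℝ) /
    (S.card : ℝ) ^ (k * n)) Filter.atTop (nhds 1)

/-- the theorem for the orbifold target -/
def V2_st : Prop := ∀ g : ℕ, 2 ≤ g → ∀ (D : Subgroup (Surf g)), D.FiniteIndex →
  ∀ θ : D →* Orb, θ.range.FiniteIndex → ∀ H : Subgroup (Out (Surf g)), H.FG →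
  (Desc D θ).relIndex (H.comap (toOut (Surf g))) ≠ 0 →
  {φ : Out (Surf g) | φ ∈ H ∧
    ∃ α : MulAut (Surf g), toOut (Surf g) α = φ ∧ ActsInner D θ α}.Finite → Separable H

/-! The sphere with cone points of order two -/

def ps (n : ℕ) : FreeGroup (Fin n) →* Sph n := PresentedGroup.mk _

def cs {n : ℕ} (i : Fin n) : Sph n := ps n (of i)

theorem ps_sur (n : ℕ) : Function.Surjective (ps n) := PresentedGroup.mk_surjective _

theorem cs_cs {n : ℕ} (i : Fin n) : cs i * cs i = 1 := by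
  rw [cs, ← _root_.map_mul, ← pow_two]
  exact PresentedGroup.one_of_mem (Or.inl ⟨i, rfl⟩)

theorem cs_inv {n : ℕ} (i : Fin n) : (cs i)⁻¹ = cs i := inv_eq_of_mul_eq_one_right (cs_cs i)

theorem cs_prod (n : ℕ) : (List.ofFn fun i : Fin n => cs i).prod = 1 := by
  have h : ps n (List.ofFn fun i : Fin n => FreeGroup.of i).prod = 1 :=
    PresentedGroup.one_of_mem (Or.inr rfl)
  rwa [map_list_prod, List.map_ofFn] at h

theorem sph_fg (n : ℕ) : Group.FG (Sph n) := Group.fg_of_surjective (ps_sur n)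

theorem sRel {n : ℕ} {H : Type} [Group H] (f : Fin n → H) (h : ∀ i, f i * f i = 1)
    (h' : (List.ofFn f).prod = 1) : ∀ r ∈ sphRel n, FreeGroup.lift f r = 1 := by
  rintro r (⟨i, rfl⟩ | rfl)
  · simpa [pow_two] using h i
  · rw [map_list_prod, List.map_ofFn]
    simpa [Function.comp_def] using h'

/-- homomorphisms from the group of the sphere with cone points -/
def sLift {n : ℕ} {H : Type} [Group H] (f : Fin n → H) (h : ∀ i, f i * f i = 1)
    (h' : (List.ofFn f).prod = 1) : Sph n →* H := PresentedGroup.toGroup (sRel f h h')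

theorem sLift_cs {n : ℕ} {H : Type} [Group H] (f : Fin n → H) (h) (h') (i : Fin n) :
    sLift f h h' (cs i) = f i := PresentedGroup.toGroup.of (sRel f h h')

theorem sph_ext {n : ℕ} {H : Type} [Group H] {f g : Sph n →* H} (h : ∀ i, f (cs i) = g (cs i)) :
    f = g := by
  refine MonoidHom.ext fun z => ?_
  obtain ⟨z, rfl⟩ := ps_sur n z
  exact DFunLike.congr_fun (FreeGroup.ext_hom (f.comp (ps n)) (g.comp (ps n)) h) z

theorem sph_ind {n : ℕ} {p : Sph n → Prop} (h1 : p 1) (hm : ∀ i z, p z → p (cs i * z))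
    (z : Sph n) : p z := by
  obtain ⟨z, rfl⟩ := ps_sur n z
  rw [← FreeGroup.mk_toWord (x := z)]
  induction z.toWord with
  | nil => exact h1
  | cons x L ih =>
    obtain ⟨i, b⟩ := x
    have : ps n (mk ((i, b) :: L)) = cs i * ps n (mk L) := by
      cases b
      · rw [← cs_inv, cs, ← _root_.map_inv, ← _root_.map_mul]; rfl
      · rw [cs, ← _root_.map_mul]; rfl
    rw [this]
    exact hm i _ ih

/-- a product that is trivial after the first five factors -/
theorem prod_five {H : Type} [Group H] (m : ℕ) (f : Fin (m + 5) → H)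
    (h : ∀ i : Fin (m + 5), 5 ≤ i.val → f i = 1) :
    (List.ofFn f).prod = f 0 * f 1 * f 2 * f 3 * f 4 := by
  have h5 : (List.ofFn fun i : Fin m => f i.succ.succ.succ.succ.succ).prod = 1 :=
    List.prod_eq_one fun x hx => by
      obtain ⟨i, rfl⟩ := List.mem_ofFn.1 hx
      exact h _ (by simp)
  simp only [List.ofFn_succ, List.prod_cons, h5, mul_one, mul_assoc]
  rfl

/-- the action of a generator on two copies of a group -/
def sP {H : Type} [Group H] (sw : Bool) (a b : H) : Equiv.Perm (Bool × H) where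
  toFun z := (xor sw z.1, (if z.1 then b else a) * z.2)
  invFun z := (xor sw z.1, (if xor sw z.1 then b else a)⁻¹ * z.2)
  left_inv z := by obtain ⟨v, u⟩ := z; cases sw <;> cases v <;> simp
  right_inv z := by obtain ⟨v, u⟩ := z; cases sw <;> cases v <;> simp

/-- the actions of the generators -/
def sG (m : ℕ) (i : Fin (m + 5)) : Equiv.Perm (Bool × Orb) :=
  if i.val = 0 then sP true 1 1 else if i.val = 1 then sP true yo yo⁻¹
  else if i.val = 2 then sP true xo⁻¹ xo else if i.val = 3 then sP true (yo⁻¹ * xo⁻¹) (xo * yo)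
  else if i.val = 4 then sP false co 1 else 1

theorem sG_sq (m : ℕ) (i : Fin (m + 5)) : sG m i * sG m i = 1 := by
  unfold sG
  split_ifs <;> ext ⟨b, u⟩ : 1 <;> cases b <;> simp [sP, ← mul_assoc, co_co]

theorem sG_prod (m : ℕ) : (List.ofFn (sG m)).prod = 1 := by
  rw [prod_five m _ fun i hi => by
    unfold sG
    rw [if_neg (by omega), if_neg (by omega), if_neg (by omega), if_neg (by omega),
      if_neg (by omega)]]
  have h0 : sG m 0 = sP true 1 1 := rfl
  have h1 : sG m 1 = sP true yo yo⁻¹ := rfl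
  have h2 : sG m 2 = sP true xo⁻¹ xo := rfl
  have h3 : sG m 3 = sP true (yo⁻¹ * xo⁻¹) (xo * yo) := rfl
  have h4 : sG m 4 = sP false co 1 := rfl
  rw [h0, h1, h2, h3, h4]
  ext ⟨b, u⟩ : 1
  cases b
  · have : yo * (xo * (yo⁻¹ * xo⁻¹ * (co * u))) = u := by rw [co_eq]; group
    simpa [sP] using this
  · simp [sP, mul_assoc]

/-- the action on two copies of the orbifold group -/
def sR (m : ℕ) : Sph (m + 5) →* Equiv.Perm (Bool × Orb) := sLift (sG m) (sG_sq m) (sG_prod m)

theorem sR_apply (m : ℕ) (z : Sph (m + 5)) (v : Bool) (u : Orb) :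
    sR m z (v, u) = ((sR m z (v, 1)).1, (sR m z (v, 1)).2 * u) := by
  induction z using sph_ind generalizing v u with
  | h1 => simp
  | hm i z ih =>
    have hG : ∀ v u, sG m i (v, u) = ((sG m i (v, 1)).1, (sG m i (v, 1)).2 * u) := by
      intro v u
      unfold sG
      split_ifs <;> simp [sP]
    simp only [_root_.map_mul, Equiv.Perm.mul_apply, sR, sLift_cs] at ih ⊢
    rw [ih v u, hG, ih v 1, hG _ (_ * 1)]
    simp [mul_assoc]

/-- the subgroup of index two -/
def sE (m : ℕ) : Subgroup (Sph (m + 5)) where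
  carrier := {z | (sR m z (false, 1)).1 = false}
  one_mem' := by simp
  mul_mem' := fun {a b} ha hb => by
    simp only [Set.mem_ofPred_eq, _root_.map_mul, Equiv.Perm.mul_apply] at ha hb ⊢
    rw [← Prod.mk.eta (p := sR m b (false, 1)), hb, sR_apply]
    exact ha
  inv_mem' := fun {a} ha => by
    simp only [Set.mem_ofPred_eq] at ha ⊢
    have h : sR m a⁻¹ (sR m a (false, 1)) = (false, 1) := by simp
    rw [← Prod.mk.eta (p := sR m a (false, 1)), ha, sR_apply] at h
    exact congrArg Prod.fst h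

/-- the map to the group of the torus with one cone point -/
def sT (m : ℕ) : sE m →* Orb := MonoidHom.mk' (fun z => (sR m z (false, 1)).2) fun a b => by
  have hb : (sR m b (false, 1)).1 = false := b.2
  simp only [Subgroup.coe_mul, _root_.map_mul, Equiv.Perm.mul_apply]
  rw [← Prod.mk.eta (p := sR m b (false, 1)), hb, sR_apply]

theorem sT_apply (m : ℕ) (z : sE m) : sT m z = (sR m z (false, 1)).2 := rfl

/-- involutions are conjugate into one of the two vertex groups -/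
def TorA_st : Prop := ∀ (m : ℕ) (z : Sph (m + 5)), z * z = 1 → ∃ g : Sph (m + 5),
  g⁻¹ * z * g ∈ Subgroup.closure ({cs 0, cs 1} : Set (Sph (m + 5))) ∨
  g⁻¹ * z * g ∈ Subgroup.closure {w : Sph (m + 5) | ∃ i : Fin (m + 5), 2 ≤ i.val ∧ w = cs i}

def Tor_st : Prop := ∀ (m : ℕ) (z : Sph (m + 5)), z * z = 1 → z = 1 ∨
  ∃ (i : Fin (m + 5)) (g : Sph (m + 5)), z = g * cs i * g⁻¹

def Univ_st : Prop := ∀ m : ℕ, (sE m).FiniteIndex ∧ Function.Surjective (sT m) ∧
  ∀ β : MulAut (Sph (m + 5)), (∀ i, ∃ g ∈ sE m, β (cs i) = g * cs i * g⁻¹) →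
    β ∈ Desc (sE m) (sT m)

def SD_st : Prop := ∀ m : ℕ, (Desc (sE m) (sT m)).FiniteIndex

def SN_st : Prop := ∀ m : ℕ, ∃ β ∈ Desc (sE m) (sT m), ∃ β' ∈ Desc (sE m) (sT m),
  ∀ N : ℕ, N ≠ 0 → ∃ (z : sE m) (h : cm (β ^ N) (β' ^ N) z ∈ sE m),
    ex (sT m ⟨_, h⟩) ≠ ex (sT m z) ∨ ey (sT m ⟨_, h⟩) ≠ ey (sT m z)

def Hyp_st : Prop := ∀ (m : ℕ) (G : Type) [Group G] (j : G →* Sph (m + 5)),
  Function.Injective j → j.range.FiniteIndex →
  ∃ (D : Subgroup G) (θ : D →* Orb), D.FiniteIndex ∧ θ.range.FiniteIndex ∧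
    (Desc D θ).relIndex ((Liftable j).comap (toOut G)) ≠ 0 ∧ NEl D θ (Liftable j)

/-- the hyperelliptic quotient -/
def Ex_st : Prop := ∀ g : ℕ, ∃ j : Surf g →* Sph (2 * g + 2),
  Function.Injective j ∧ j.range.index = 2

end Pool.Agent.MP_692752_al

end

section

/-! The theorem on random subgroups from the parts. -/

set_option autoImplicit false

namespace Pool.Agent.MP_692752_al

theorem pow_mem_rel {G : Type} [Group G] {H K : Subgroup G} (h : H.relIndex K ≠ 0) :
    ∃ M : ℕ, M ≠ 0 ∧ ∀ a ∈ K, a ^ M ∈ H := by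
  have : (H.subgroupOf K).FiniteIndex := ⟨h⟩
  refine ⟨(H.subgroupOf K).normalCore.index, Subgroup.FiniteIndex.index_ne_zero, fun a ha => ?_⟩
  exact (H.subgroupOf K).normalCore_le ((H.subgroupOf K).normalCore.pow_index_mem ⟨a, ha⟩)

theorem rnd_of (hR : R0_st) (hH : Hyp_st) (g n : ℕ) (hg : 2 ≤ g) (hn : 5 ≤ n)
    (j : Surf g →* Sph n) (hj : Function.Injective j) (hr : j.range.FiniteIndex)
    (S : Finset (Out (Surf g))) (hS : ∀ s ∈ S, s⁻¹ ∈ S)
    (hc : (Subgroup.closure (S : Set (Out (Surf g)))).Commensurable (Liftable j)) (k : ℕ) :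
    Filter.Tendsto (fun m : ℕ => (Nat.card {w : Fin k → Fin m → S // Separable (genW w)} : ℝ) /
      (S.card : ℝ) ^ (k * m)) Filter.atTop (nhds 1) := by
  obtain ⟨m, rfl⟩ : ∃ m, n = m + 5 := ⟨n - 5, by omega⟩
  obtain ⟨D, θ, hD, hθ, h1, α, hα, α', hα', h2, h3, h4⟩ := hH m (Surf g) j hj hr
  obtain ⟨M, hM, h5⟩ := pow_mem_rel hc.1
  refine hR g hg D hD θ hθ S hS (Subgroup.relIndex_ne_zero_trans h1 ?_)
    ⟨α ^ M, pow_mem hα M, α' ^ M, pow_mem hα' M, by rw [map_pow]; exact h5 _ h2,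
      by rw [map_pow]; exact h5 _ h3, fun N hN => ?_⟩ k
  · have hs : Function.Surjective (toOut (Surf g)) := QuotientGroup.mk'_surjective _
    rw [Subgroup.relIndex_comap, Subgroup.map_comap_eq_self_of_surjective hs]
    exact hc.2
  · rw [← pow_mul, ← pow_mul]
    exact h4 _ (mul_ne_zero hM hN)

end Pool.Agent.MP_692752_al

end

section

/-! Counting the samples in which two paths meet. -/

set_option autoImplicit false

namespace Pool.Agent.MP_692752_al

open FreeGroup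

theorem ball_RCnt (R : ℕ) : Finite {u : F2 // u.norm ≤ R} := by
  have h : {u : F2 | u.norm ≤ R}.Finite :=
    Set.Finite.of_finite_image (f := FreeGroup.toWord)
      ((List.finite_length_le _ R).subset (by
        rintro _ ⟨u, hu, rfl⟩
        exact hu)) FreeGroup.toWord_injective.injOn
  exact h

theorem words_RCnt {S Q : Type} [Fintype S] [Fintype Q] (d : WK S Q) (r : ℝ) (hd : d.Dec r)
    (R m : ℕ) (x : Q × F2) (z : F2) :
    (Nat.card {w : Fin m → S // (z⁻¹ * (d.run x (List.ofFn w)).2).norm ≤ R} : ℝ) ≤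
      Nat.card (Q × {u : F2 // u.norm ≤ R}) * (Fintype.card S * r) ^ m := by
  have := ball_RCnt R
  have : Fintype (Q × {u : F2 // u.norm ≤ R}) := Fintype.ofFinite _
  let f : {w : Fin m → S // (z⁻¹ * (d.run x (List.ofFn w)).2).norm ≤ R} →
      Σ y : Q × {u : F2 // u.norm ≤ R},
        {w : Fin m → S // d.run x (List.ofFn w) = (y.1, z * y.2.1)} :=
    fun w => ⟨((d.run x (List.ofFn w.1)).1, ⟨z⁻¹ * (d.run x (List.ofFn w.1)).2, w.2⟩),
      ⟨w.1, by simp⟩⟩
  have hf : Function.Injective f := fun w w' h => Subtype.ext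
    (congrArg (fun v : Σ y : Q × {u : F2 // u.norm ≤ R},
      {w : Fin m → S // d.run x (List.ofFn w) = (y.1, z * y.2.1)} => v.2.1) h)
  have h1 := Nat.card_le_card_of_injective f hf
  rw [Nat.card_sigma] at h1
  calc (Nat.card {w : Fin m → S // (z⁻¹ * (d.run x (List.ofFn w)).2).norm ≤ R} : ℝ)
      ≤ ∑ y : Q × {u : F2 // u.norm ≤ R},
        (Nat.card {w : Fin m → S // d.run x (List.ofFn w) = (y.1, z * y.2.1)} : ℝ) := by
        exact_mod_cast h1
    _ ≤ ∑ _y : Q × {u : F2 // u.norm ≤ R}, (Fintype.card S * r) ^ m :=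
        Finset.sum_le_sum fun y _ => hd m x _
    _ = _ := by
        rw [Finset.sum_const, Finset.card_univ, nsmul_eq_mul, Nat.card_eq_fintype_card]

theorem mix_RCnt {S Q Ω : Type} [Fintype S] [Fintype Q] [Fintype Ω] (d : WK S Q) (r : ℝ)
    (hd : d.Dec r) (R m : ℕ) (x : Q × F2) (Z : Ω → F2) (ins : Ω → Fin m → S)
    (mix : Ω → (Fin m → S) → Ω) (hZ : ∀ ω v, Z (mix ω v) = Z ω)
    (hi : ∀ ω ω' v v', mix ω v = mix ω' v' → ins ω = ins ω' → ω = ω' ∧ v = v') :
    (Nat.card {ω : Ω // ((Z ω)⁻¹ * (d.run x (List.ofFn (ins ω))).2).norm ≤ R} : ℝ) ≤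
      Nat.card (Q × {u : F2 // u.norm ≤ R}) * r ^ m * Fintype.card Ω := by
  classical
  rcases isEmpty_or_nonempty Ω with hΩ | ⟨⟨ω₀⟩⟩
  · simp
  have hpos : (0 : ℝ) < (Fintype.card S : ℝ) ^ m := by
    have : 0 < Fintype.card (Fin m → S) := Fintype.card_pos_iff.2 ⟨ins ω₀⟩
    rw [Fintype.card_fun, Fintype.card_fin] at this
    exact_mod_cast this
  let f : {ω : Ω // ((Z ω)⁻¹ * (d.run x (List.ofFn (ins ω))).2).norm ≤ R} × (Fin m → S) →
      Σ η : Ω, {w : Fin m → S // ((Z η)⁻¹ * (d.run x (List.ofFn w)).2).norm ≤ R} :=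
    fun y => ⟨mix y.1.1 y.2, ⟨ins y.1.1, by rw [hZ]; exact y.1.2⟩⟩
  have hf : Function.Injective f := by
    rintro ⟨⟨ω, hω⟩, v⟩ ⟨⟨ω', hω'⟩, v'⟩ h
    obtain ⟨h1, h2⟩ := hi ω ω' v v' (congrArg Sigma.fst h)
      (congrArg (fun y : Σ η : Ω,
        {w : Fin m → S // ((Z η)⁻¹ * (d.run x (List.ofFn w)).2).norm ≤ R} => y.2.1) h)
    subst h1 h2
    rfl
  have h1 := Nat.card_le_card_of_injective f hf
  rw [Nat.card_prod, Nat.card_sigma, Nat.card_eq_fintype_card (α := Fin m → S), Fintype.card_fun,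
    Fintype.card_fin] at h1
  refine le_of_mul_le_mul_right ?_ hpos
  calc (Nat.card {ω : Ω // ((Z ω)⁻¹ * (d.run x (List.ofFn (ins ω))).2).norm ≤ R} : ℝ) *
        (Fintype.card S : ℝ) ^ m
      ≤ ∑ η : Ω, (Nat.card
          {w : Fin m → S // ((Z η)⁻¹ * (d.run x (List.ofFn w)).2).norm ≤ R} : ℝ) := by
        exact_mod_cast h1
    _ ≤ ∑ _η : Ω, (Nat.card (Q × {u : F2 // u.norm ≤ R}) : ℝ) * (Fintype.card S * r) ^ m :=
        Finset.sum_le_sum fun η _ => words_RCnt d r hd R m x _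
    _ = _ := by
        rw [Finset.sum_const, Finset.card_univ, nsmul_eq_mul, mul_pow]
        ring

/-- the positions read in the first `j` steps -/
def pos_RCnt {n j : ℕ} (h : j ≤ n) (b : Bool) (a : Fin j) : Fin n :=
  if b then ⟨a, by omega⟩ else ⟨n - 1 - a, by omega⟩

/-- the letters read -/
def let_RCnt {S Q : Type} (d : WK S Q) (b : Bool) (s : S) : S := if b then s else d.io s

theorem pos_inj_RCnt {n j : ℕ} (h : j ≤ n) (b : Bool) : Function.Injective (pos_RCnt h b) := by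
  intro a a' e
  have e' := congrArg Fin.val e
  cases b
  · simp only [pos_RCnt, Bool.false_eq_true, if_false] at e'
    exact Fin.ext (by omega)
  · simp only [pos_RCnt, if_true] at e'
    exact Fin.ext e'

theorem let_inj_RCnt {S Q : Type} (d : WK S Q) (b : Bool) : Function.Injective (let_RCnt d b) := by
  intro s s' e
  cases b
  · have e' : d.io s = d.io s' := e
    rw [← d.io_io s, e', d.io_io]
  · exact e

theorem take_RCnt {S Q : Type} (d : WK S Q) {k n j : ℕ} (h : j ≤ n) (ω : Fin k → Fin n → S)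
    (i : Fin k) (b : Bool) :
    (d.lw ω (i, b)).take j = List.ofFn fun a : Fin j => let_RCnt d b (ω i (pos_RCnt h b a)) := by
  cases b
  · refine List.ext_getElem (by simp [WK.lw, WK.rev, h]) fun a h1 h2 => ?_
    simp [WK.lw, WK.rev, let_RCnt, pos_RCnt]
  · refine List.ext_getElem (by simp [WK.lw, h]) fun a h1 h2 => ?_
    simp [WK.lw, let_RCnt, pos_RCnt]

theorem cnt_ok : Cnt_st := by
  intro S Q _ _ d r _ hd R
  classical
  refine ⟨Nat.card (Q × {u : F2 // u.norm ≤ R}), Nat.cast_nonneg _, ?_⟩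
  rintro k n ⟨i, b⟩ ⟨i', b'⟩ q j j' hl hj
  have h1 : j ≤ n := by omega
  have h2 : j' ≤ n := by omega
  have key := mix_RCnt d r hd R j' (q, 1) (fun ω : Fin k → Fin n → S => d.Y ω (i, b) q j)
    (fun ω a => let_RCnt d b' (ω i' (pos_RCnt h2 b' a)))
    (fun ω v => Function.update ω i' (Function.extend (pos_RCnt h2 b') v (ω i'))) ?_ ?_
  · rw [Fintype.card_fun, Fintype.card_fun, Fintype.card_fin, Fintype.card_fin, ← pow_mul,
      mul_comm n k, Nat.cast_pow] at key
    simpa only [WK.Y, take_RCnt d h2 _ i' b'] using key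
  · intro ω v
    simp only [WK.Y, take_RCnt d h1]
    congr 3
    funext a
    congr 1
    by_cases hi : i = i'
    · subst hi
      rw [Function.update_self, Function.extend_apply']
      rintro ⟨a', e⟩
      have e' := congrArg Fin.val e
      have ha := a.2
      have ha' := a'.2
      cases b <;> cases b'
      · exact hl rfl
      · simp only [pos_RCnt, Bool.false_eq_true, if_false, if_true] at e'
        omega
      · simp only [pos_RCnt, Bool.false_eq_true, if_false, if_true] at e'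
        omega
      · exact hl rfl
    · rw [Function.update_of_ne hi]
  · intro ω ω' v v' e e'
    have e1 : Function.extend (pos_RCnt h2 b') v (ω i') =
        Function.extend (pos_RCnt h2 b') v' (ω' i') := by
      simpa using congrFun e i'
    refine ⟨?_, ?_⟩
    · funext i₀ a
      by_cases hi : i₀ = i'
      · subst hi
        by_cases ha : ∃ a', pos_RCnt h2 b' a' = a
        · obtain ⟨a', rfl⟩ := ha
          exact let_inj_RCnt d b' (congrFun e' a')
        · have := congrFun e1 a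
          rwa [Function.extend_apply' _ _ _ ha, Function.extend_apply' _ _ _ ha] at this
      · have := congrFun (congrFun e i₀) a
        rwa [Function.update_of_ne hi, Function.update_of_ne hi] at this
    · funext a
      have := congrFun e1 (pos_RCnt h2 b' a)
      rwa [(pos_inj_RCnt h2 b').extend_apply, (pos_inj_RCnt h2 b').extend_apply] at this

end Pool.Agent.MP_692752_al

end

section

/-! The deterministic part: paths in the tree and ping pong. -/

set_option autoImplicit false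

namespace Pool.Agent.MP_692752_al

open FreeGroup

theorem symm_RDet (a b : F2) : (a⁻¹ * b).norm = (b⁻¹ * a).norm := by
  rw [← norm_inv_eq, mul_inv_rev, inv_inv]

theorem tri_RDet (a b c : F2) : (a⁻¹ * c).norm ≤ (a⁻¹ * b).norm + (b⁻¹ * c).norm := by
  have h := FreeGroup.norm_mul_le (a⁻¹ * b) (b⁻¹ * c)
  rwa [mul_assoc, mul_inv_cancel_left] at h

theorem tri1_RDet (b c : F2) : c.norm ≤ b.norm + (b⁻¹ * c).norm := by
  simpa using tri_RDet 1 b c

theorem near_ok (h4 : FourP_st) : Near_st := by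
  intro y n B p h0
  induction n with
  | zero =>
    intro _ h
    refine ⟨0, le_rfl, ?_⟩
    rw [h0, FreeGroup.norm_one] at h
    rw [h0]
    omega
  | succ n ih =>
    intro hB h
    have h1 := h4 (Fin 2) 1 (y (n + 1)) p (y n)
    have h2 := hB n (Nat.lt_succ_self n)
    have h3 := tri1_RDet p (y n)
    rw [symm_RDet (y (n + 1)) (y n), symm_RDet (y (n + 1)) p] at h1
    simp only [inv_one, one_mul] at h1
    by_cases h5 : (p⁻¹ * y (n + 1)).norm ≤ B
    · exact ⟨n + 1, le_rfl, h5⟩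
    · obtain ⟨j, hj, h6⟩ := ih (fun j hj => hB j (by omega)) (by omega)
      exact ⟨j, by omega, h6⟩

section
variable {S Q : Type} (d : WK S Q) {B k n : ℕ} (ω : Fin k → Fin n → S)

theorem step_RDet (hB : ∀ s q, (d.k s q).norm ≤ B) (l : Fin k × Bool) (q : Q) (j : ℕ) :
    ((d.Y ω l q j)⁻¹ * d.Y ω l q (j + 1)).norm ≤ B := by
  rw [WK.Y, WK.Y, List.take_add_one, d.run_append]
  cases (d.lw ω l)[j]? with
  | none => simp [d.run_nil]
  | some s => simpa [d.run_cons, d.run_nil, WK.step] using hB _ _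

theorem le_RDet (hB : ∀ s q, (d.k s q).norm ≤ B) (l : Fin k × Bool) (q : Q) (j : ℕ) :
    (d.Y ω l q j).norm ≤ B * j := by
  induction j with
  | zero => simp [WK.Y, d.run_nil]
  | succ j ih =>
    have h1 := tri1_RDet (d.Y ω l q j) (d.Y ω l q (j + 1))
    have h2 := step_RDet d ω hB l q j
    rw [Nat.mul_succ]
    omega

theorem end_RDet (l : Fin k × Bool) (q : Q) : (d.big ω).k l q = d.Y ω l q n := by
  have h : (d.lw ω l).length ≤ n := by
    unfold WK.lw
    split_ifs <;> simp [WK.rev]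
  rw [WK.Y, List.take_of_length_le h]
  rfl

end

theorem det_ok (h4 : FourP_st) (hp : Pre_st) (hN : Near_st) : Det_st := by
  intro S Q d B J k n ω hB1 hn hB h1 h2
  have a1 : ∀ l q, 2 * (B * J + B) < (d.Y ω l q n).norm := fun l q =>
    not_le.1 fun h => h1 ⟨l, q, n, le_rfl, by omega, h⟩
  refine ⟨fun l q => by rw [end_RDet]; exact a1 l q, fun l l' q hl => ?_⟩
  rw [end_RDet, end_RDet]
  by_contra hc
  obtain ⟨p, p1, p2⟩ := hp (Fin 2) (d.Y ω l q n) (B * J + B) (by have := a1 l q; omega)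
  have p3 : p.norm + (p⁻¹ * d.Y ω l' q n).norm = (d.Y ω l' q n).norm := by
    have h5 := h4 (Fin 2) p (d.Y ω l' q n) 1 (d.Y ω l q n)
    have h6 := tri1_RDet p (d.Y ω l' q n)
    rw [symm_RDet (d.Y ω l' q n) (d.Y ω l q n)] at h5
    simp only [inv_one, one_mul, mul_one, norm_inv_eq] at h5
    omega
  have key : ∀ l l' j j', l ≠ l' → j ≤ j' → j' ≤ n → (p⁻¹ * d.Y ω l q j).norm ≤ B →
      (p⁻¹ * d.Y ω l' q j').norm ≤ B → False := by
    intro l l' j j' hl hj hj' h5 h6
    by_cases h7 : j + j' ≤ n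
    · refine h2 ⟨l, l', q, j, j', hl, hj, ?_, h7, ?_⟩
      · have h8 := le_RDet d ω hB l' q j'
        have h9 := tri1_RDet (d.Y ω l' q j') p
        rw [symm_RDet] at h9
        exact Nat.le_of_mul_le_mul_left (show B * J ≤ B * j' by omega) hB1
      · have h8 := tri_RDet (d.Y ω l q j) p (d.Y ω l' q j')
        rw [symm_RDet _ p] at h8
        omega
    · have h8 := tri1_RDet p (d.Y ω l' q j')
      exact h1 ⟨l', q, j', hj', by omega, by omega⟩
  obtain ⟨j, hj, h5⟩ := hN (d.Y ω l q) n B p rfl (fun j _ => step_RDet d ω hB l q j) (by omega)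
  obtain ⟨j', hj', h6⟩ := hN (d.Y ω l' q) n B p rfl (fun j _ => step_RDet d ω hB l' q j) p3
  rcases le_total j j' with h | h
  · exact key l l' j j' hl h hj' h5 h6
  · exact key l' l j' j hl.symm h hj h6 h5

theorem pong_ok (h4 : Four_st) : Pong_st := by
  intro S Q d K hP
  have key : ∀ (L : List S) (s : S) (q : Q) (w : F2),
      (s :: L).IsChain (fun s s' => s' ≠ d.io s) →
      w.norm + (d.k s q).norm ≤ (w * d.k s q).norm + K →
      w.norm < (d.run (q, w) (s :: L)).2.norm := by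
    intro L
    induction L with
    | nil =>
      intro s q w _ h
      have h1 := hP.1 s q
      change w.norm < (w * d.k s q).norm
      omega
    | cons s' L ih =>
      intro s q w hc h
      obtain ⟨h1, h2⟩ := List.isChain_cons_cons.1 hc
      have h3 := hP.1 s q
      have h5 := hP.2 _ _ (d.σ s q) h1.symm
      rw [d.k_io, norm_inv_eq, inv_inv] at h5
      have h6 := (h4 (Fin 2) w (d.k s q) (d.k s' (d.σ s q))).2.2
      have h7 := ih s' (d.σ s q) (w * d.k s q) h2 (by omega)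
      change w.norm < (d.run (d.σ s q, w * d.k s q) (s' :: L)).2.norm
      omega
  rintro (_ | ⟨s, L⟩) h0 hc q e
  · exact h0 rfl
  · have h := key L s q 1 hc (by simp)
    rw [e] at h
    exact lt_irrefl _ h

end Pool.Agent.MP_692752_al

end

section

set_option autoImplicit false

namespace Pool.Agent.MP_692752_al

open FreeGroup

theorem or_RProb {Z : Type} [Finite Z] (a b c : Z → Prop) (h : ∀ z, c z → a z ∨ b z) :
    (Nat.card {z // c z} : ℝ) ≤ Nat.card {z // a z} + Nat.card {z // b z} := by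
  have := Set.ncard_union_le {z | a z} {z | b z}
  have h2 := Set.ncard_le_ncard (s := {z | c z}) (t := {z | a z} ∪ {z | b z}) h (Set.toFinite _)
  exact_mod_cast h2.trans this

theorem mono_RProb {Z : Type} [Finite Z] (a c : Z → Prop) (h : ∀ z, c z → a z) :
    (Nat.card {z // c z} : ℝ) ≤ Nat.card {z // a z} := by
  simpa using or_RProb a (fun _ => False) c fun z hz => Or.inl (h z hz)

theorem union_RProb {Z Y : Type} [Finite Z] (r : Y → Z → Prop) (s : Finset Y) (b : Y → ℝ)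
    (h : ∀ y ∈ s, (Nat.card {z // r y z} : ℝ) ≤ b y) :
    (Nat.card {z // ∃ y ∈ s, r y z} : ℝ) ≤ ∑ y ∈ s, b y := by
  classical
  induction s using Finset.induction_on with
  | empty => simp
  | insert y s hy ih =>
    rw [Finset.sum_insert hy]
    refine (or_RProb (r y) (fun z => ∃ y ∈ s, r y z) _ fun z hz => ?_).trans
      (add_le_add (h y (Finset.mem_insert_self _ _))
        (ih fun y' hy' => h y' (Finset.mem_insert_of_mem hy')))
    simpa using hz

theorem e2_RProb (hC : Cnt_st) {S Q : Type} [Fintype S] [Fintype Q] (d : WK S Q) {r : ℝ}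
    (h0 : 0 ≤ r) (h1 : r < 1) (hd : d.Dec r) (k R : ℕ) {ε : ℝ} (hε : 0 < ε) :
    ∃ J₀ : ℕ, ∀ J, J₀ ≤ J → ∀ n, (Nat.card {ω : Fin k → Fin n → S // d.E2 R J ω} : ℝ) ≤
      ε * (Fintype.card S : ℝ) ^ (k * n) := by
  classical
  obtain ⟨C, hC0, hC⟩ := hC S Q d r h0 hd R
  have hs : Summable fun j : ℕ => ((j : ℝ) + 1) * r ^ j := by
    have hr : ‖r‖ < 1 := by rwa [Real.norm_of_nonneg h0]
    have := (summable_pow_mul_geometric_of_norm_lt_one 1 hr).add (summable_geometric_of_lt_one h0 h1)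
    refine this.congr fun j => ?_
    ring
  set c : ℝ := (Fintype.card ((Fin k × Bool) × (Fin k × Bool) × Q) : ℝ) with hc
  have c0 : 0 ≤ c * C := by positivity
  obtain ⟨s, hs⟩ := summable_iff_vanishing_norm.1 hs (ε / (c * C + 1)) (by positivity)
  refine ⟨s.sup id + 1, fun J hJ n => ?_⟩
  have hM : (0 : ℝ) ≤ (Fintype.card S : ℝ) ^ (k * n) := by positivity
  have e1 := hs (Finset.Ico J (n + 1)) (Finset.disjoint_left.2 fun j hj hj' => by
    have h2 : j ≤ s.sup id := Finset.le_sup (f := id) hj'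
    have := (Finset.mem_Ico.1 hj).1
    omega)
  have e2 := ((le_abs_self _).trans e1.le)
  have e3 := union_RProb (fun (x : (Fin k × Bool) × (Fin k × Bool) × Q) (ω : Fin k → Fin n → S) =>
    ∃ j' ∈ Finset.Ico J (n + 1), ∃ j ∈ Finset.range (j' + 1), (x.1 ≠ x.2.1 ∧ j + j' ≤ n) ∧
      ((d.Y ω x.1 x.2.2 j)⁻¹ * d.Y ω x.2.1 x.2.2 j').norm ≤ R) Finset.univ _ fun x _ =>
    union_RProb _ _ _ fun j' _ => union_RProb _ _
      (fun _ => C * r ^ j' * (Fintype.card S : ℝ) ^ (k * n)) fun j _ => by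
        by_cases h : x.1 ≠ x.2.1 ∧ j + j' ≤ n
        · simp only [eq_true h, true_and]
          exact hC k n _ _ _ j j' h.1 h.2
        · simp only [eq_false h, false_and, Nat.card_of_isEmpty, Nat.cast_zero]
          positivity
  refine le_trans ?_ (e3.trans ?_)
  · refine mono_RProb _ _ fun ω h => ?_
    obtain ⟨l, l', q, j, j', a1, a2, a3, a4, a5⟩ := h
    exact ⟨(l, l', q), Finset.mem_univ _, j', Finset.mem_Ico.2 ⟨a3, by omega⟩, j,
      Finset.mem_range.2 (by omega), ⟨a1, a4⟩, a5⟩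
  · simp only [Finset.sum_const, Finset.card_range, nsmul_eq_mul, Finset.card_univ]
    rw [← hc]
    have e4 : ∑ j ∈ Finset.Ico J (n + 1), ((j + 1 : ℕ) : ℝ) *
        (C * r ^ j * (Fintype.card S : ℝ) ^ (k * n)) =
        C * (∑ j ∈ Finset.Ico J (n + 1), ((j : ℝ) + 1) * r ^ j) *
          (Fintype.card S : ℝ) ^ (k * n) := by
      rw [Finset.mul_sum, Finset.sum_mul]
      refine Finset.sum_congr rfl fun j _ => ?_
      push_cast
      ring
    rw [e4, ← mul_assoc, ← mul_assoc]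
    refine mul_le_mul_of_nonneg_right ((mul_le_mul_of_nonneg_left e2 c0).trans ?_) hM
    rw [← mul_div_assoc, div_le_iff₀ (by positivity)]
    nlinarith

theorem prob_ok (hD : Dec_st) (hC : Cnt_st) (hT : Det_st) : Prob_st := by
  intro S Q _ _ d hN k ε hε
  obtain ⟨r, h0, h1, hd⟩ := hD S Q d hN
  obtain ⟨B, hB1, hB⟩ : ∃ B, 1 ≤ B ∧ ∀ s q, (d.k s q).norm ≤ B :=
    ⟨1 + Finset.univ.sup fun x : S × Q => (d.k x.1 x.2).norm, by omega, fun s q =>
      (Finset.le_sup (f := fun x : S × Q => (d.k x.1 x.2).norm) (Finset.mem_univ (s, q))).trans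
        (by omega)⟩
  obtain ⟨J, hJ⟩ := e2_RProb hC d h0 h1 hd k (2 * B) (half_pos hε)
  obtain ⟨J₁, hJ₁⟩ := e2_RProb hC d h0 h1 hd k (2 * (B * J + B)) (half_pos hε)
  refine ⟨2 * J₁ + 1, fun n hn => ?_⟩
  refine (or_RProb (fun ω => d.E2 (2 * (B * J + B)) J₁ ω) (fun ω => d.E2 (2 * B) J ω) _
    fun ω h => ?_).trans ((add_le_add (hJ₁ _ le_rfl n) (hJ _ le_rfl n)).trans (le_of_eq (by ring)))
  by_contra hc
  rw [not_or] at hc
  refine h ⟨_, hT S Q d B J k n ω hB1 (by omega) hB (fun hE => hc.1 ?_) hc.2⟩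
  obtain ⟨l, q, j, a1, a2, a3⟩ := hE
  refine ⟨(l.1, !l.2), l, q, 0, j, fun e => ?_, by omega, by omega, by omega, ?_⟩
  · simpa using congrArg Prod.snd e
  · have : d.Y ω (l.1, !l.2) q 0 = 1 := rfl
    rwa [this, inv_one, one_mul]

end Pool.Agent.MP_692752_al

end

section

set_option autoImplicit false

namespace Pool.Agent.MP_692752_al

open FreeGroup

lemma coc_RRand {G : Type} [Group G] (N : Subgroup G) [N.Normal] (φ : N →* F2) :
    ∃ c : G → G ⧸ N → F2, (∀ g h q, c (g * h) q = c g q * c h (g⁻¹ • q)) ∧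
      ∀ (q : G ⧸ N) (a : N), c (q.out * a * q.out⁻¹) q = φ a := by
  have m : ∀ (g : G) (q : G ⧸ N), q.out⁻¹ * g * (g⁻¹ • q).out ∈ N := fun g q => by
    have : ((g⁻¹ * q.out : G) : G ⧸ N) = ((g⁻¹ • q).out : G) := by
      rw [QuotientGroup.out_eq', ← smul_eq_mul, ← MulAction.Quotient.smul_mk, QuotientGroup.out_eq']
    simpa using QuotientGroup.eq.1 this
  refine ⟨fun g q => φ ⟨_, m g q⟩, fun g h q => ?_, fun q a => ?_⟩
  · rw [← _root_.map_mul]
    refine congrArg φ (Subtype.ext ?_)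
    simp [mul_smul, mul_assoc]
  · have : (q.out * a * q.out⁻¹)⁻¹ • q = q := by
      conv_lhs => rw [← QuotientGroup.out_eq' q, MulAction.Quotient.smul_mk]
      rw [QuotientGroup.out_eq']
      refine Eq.trans (QuotientGroup.eq.2 ?_) (QuotientGroup.out_eq' q)
      simp [mul_assoc]
    refine congrArg φ (Subtype.ext ?_)
    change q.out⁻¹ * (q.out * a * q.out⁻¹) * ((q.out * a * q.out⁻¹)⁻¹ • q).out = a
    rw [this]
    simp [mul_assoc]

lemma fix_RRand {G : Type} [Group G] {N : Subgroup G} [hN : N.Normal] {g : G} (hg : g ∈ N)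
    (q : G ⧸ N) : g⁻¹ • q = q := by
  obtain ⟨x, rfl⟩ := QuotientGroup.mk_surjective q
  rw [MulAction.Quotient.smul_mk]
  refine QuotientGroup.eq.2 ?_
  simpa using hN.conj_mem g hg x⁻¹

lemma big_RRand {S Q : Type} (d : WK S Q) {k n : ℕ} (ω : Fin k → Fin n → S)
    (L : List (Fin k × Bool)) (x : Q × F2) :
    (d.big ω).run x L = d.run x (L.flatMap (d.lw ω)) := by
  induction L generalizing x with
  | nil => rfl
  | cons l L ih =>
    rw [WK.run_cons, ih, List.flatMap_cons, WK.run_append]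
    congr 1
    exact (d.run_eq x.1 x.2 _).symm

lemma core_RRand (hP : Prob_st) (hQ : Pong_st) {G S : Type} [Group G] [Fintype S] (N : Subgroup G)
    [hN : N.Normal] [N.FiniteIndex] (φ : N →* F2) (e : S → G) (io : S → S)
    (h1 : ∀ s, io (io s) = s) (h2 : ∀ s, e (io s) = (e s)⁻¹)
    (h3 : ∀ g, ∃ L : List S, (L.map e).prod = g) {a b : N} (hab : ¬ Commute (φ a) (φ b))
    (k : ℕ) (ε : ℝ) (hε : 0 < ε) : ∃ n₀ : ℕ, ∀ n, n₀ ≤ n →
      (Nat.card {w : Fin k → Fin n → S // ¬ ∀ (v : FreeGroup (Fin k)) (t : N), v ≠ 1 →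
        FreeGroup.lift (fun i => (List.ofFn fun l => e (w i l)).prod) v = t → φ t ≠ 1} : ℝ) ≤
        ε * (Fintype.card S : ℝ) ^ (k * n) := by
  classical
  obtain ⟨c, c1, c2⟩ := coc_RRand N φ
  have c0 : ∀ q, c 1 q = 1 := fun q => by simpa using c1 1 1 q
  let d : WK S (G ⧸ N) :=
    { io := io
      σ := fun s q => (e s)⁻¹ • q
      k := fun s q => c (e s) q
      io_io := h1
      σ_io := fun s q => by simp [h2]
      k_io := fun s q => by
        refine eq_inv_of_mul_eq_one_right ?_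
        rw [← c1, h2, mul_inv_cancel, c0] }
  have hr : ∀ (L : List S) q u,
      d.run (q, u) L = ((L.map e).prod⁻¹ • q, u * c (L.map e).prod q) := by
    intro L
    induction L with
    | nil => intro q u; simp [WK.run_nil, c0]
    | cons s L ih =>
      intro q u
      rw [WK.run_cons, WK.step, ih, List.map_cons, List.prod_cons, c1, mul_inv_rev, mul_smul,
        mul_assoc]
  have hl : ∀ (q : G ⧸ N) (a : N), ∃ L : List S, d.run (q, 1) L = (q, φ a) := fun q a => by
    obtain ⟨L, hL⟩ := h3 (q.out * a * q.out⁻¹)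
    exact ⟨L, by rw [hr, hL, c2, one_mul, fix_RRand (hN.conj_mem _ a.2 _)]⟩
  have hNE : d.NE := fun q => by
    obtain ⟨A, hA⟩ := hl q a
    obtain ⟨B, hB⟩ := hl q b
    exact ⟨A, B, by rw [hA], by rw [hB], by rw [hA, hB]; exact hab⟩
  have := Fintype.ofFinite (G ⧸ N)
  obtain ⟨n₀, hn⟩ := hP S (G ⧸ N) d hNE k ε hε
  refine ⟨n₀, fun n h => le_trans ?_ (hn n h)⟩
  refine Nat.cast_le.2 (Nat.card_le_card_of_injective
    (Subtype.map id fun w hw => ?_) (Subtype.map_injective _ Function.injective_id))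
  rintro ⟨K, hK⟩
  refine hw fun v t hv ht h0 => ?_
  have hw1 : ∀ l : Fin k × Bool, ((d.lw w l).map e).prod =
      cond l.2 (List.ofFn fun j => e (w l.1 j)).prod (List.ofFn fun j => e (w l.1 j)).prod⁻¹ := by
    rintro ⟨i, _ | _⟩
    · simp only [WK.lw, WK.rev, Bool.false_eq_true, if_false, cond_false, List.prod_inv_reverse,
        List.map_reverse, List.map_ofFn, Function.comp_def, d, h2]
    · simp only [WK.lw, if_true, cond_true, List.map_ofFn, Function.comp_def]
  have hp : ∀ L : List (Fin k × Bool), ((L.flatMap (d.lw w)).map e).prod =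
      FreeGroup.lift (fun i => (List.ofFn fun l => e (w i l)).prod) (mk L) := fun L => by
    rw [FreeGroup.lift_mk]
    induction L with
    | nil => rfl
    | cons l L ih => rw [List.flatMap_cons, List.map_append, List.prod_append, ih, hw1]; rfl
  let q : G ⧸ N := ((1 : G) : G ⧸ N)
  have hq : q.out ∈ N := (QuotientGroup.eq_one_iff _).1 (QuotientGroup.out_eq' q)
  refine hQ _ _ (d.big w) K hK v.toWord (fun h => hv (toWord_eq_nil_iff.1 h))
    (List.IsChain.imp (fun x y hxy h => ?_) (isReduced_toWord (x := v))) q ?_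
  · have := hxy (by rw [h]; rfl)
    rw [h] at this
    exact Bool.not_ne_self _ this.symm
  · have := c2 q ((⟨_, hq⟩ : N)⁻¹ * t * ⟨_, hq⟩)
    simp only [Subgroup.coe_mul, Subgroup.coe_inv, _root_.map_mul, h0, mul_one, one_mul, _root_.map_inv,
      inv_mul_cancel, mul_assoc, mul_inv_cancel, mul_inv_cancel_left] at this
    rw [big_RRand, hr, hp, mk_toWord, ht, one_mul, this]

lemma pow_RRand {x y : F2} {M : ℕ} (hM : M ≠ 0) (h : Commute (x ^ M) (y ^ M)) : Commute x y := by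
  have key : ∀ u z : F2, Commute u (z ^ M) → Commute u z := fun u z h => by
    have : (u * z * u⁻¹) ^ M = z ^ M := by rw [conj_pow, h.eq, mul_inv_cancel_right]
    exact mul_inv_eq_iff_eq_mul.1 (pow_left_injective hM this)
  exact (key _ _ (key _ _ h).symm).symm

theorem rand_ok (hP : Prob_st) (hQ : Pong_st) : Rand_st := by
  classical
  rintro Γ _ S hS T ρ hT ⟨a, b, ha, hb, hab⟩ k ε hε
  let G := Subgroup.closure (S : Set Γ)
  have : (T.subgroupOf G).FiniteIndex := ⟨hT⟩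
  let N := (T.subgroupOf G).normalCore
  let φ : N →* F2 := ρ.comp ((G.subtype.comp N.subtype).codRestrict T fun x =>
    (T.subgroupOf G).normalCore_le x.2)
  let e : S → G := fun s => ⟨s, Subgroup.subset_closure s.2⟩
  have hM : N.index ≠ 0 := Subgroup.FiniteIndex.index_ne_zero
  have hφ : ∀ (t : T) (h : (t : Γ) ∈ G),
      φ ⟨(⟨t, h⟩ : G) ^ N.index, N.pow_index_mem _⟩ = ρ t ^ N.index := fun t h => by
    rw [← map_pow]; rfl
  obtain ⟨n₀, hn⟩ := core_RRand hP hQ N φ e (fun s => ⟨s.1⁻¹, hS _ s.2⟩)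
    (fun s => Subtype.ext (inv_inv _)) (fun s => rfl)
    (by
      rintro ⟨g, hg⟩
      induction hg using Subgroup.closure_induction_left with
      | one => exact ⟨[], rfl⟩
      | mul_left x hx y hy ih =>
        obtain ⟨L, hL⟩ := ih
        exact ⟨⟨x, hx⟩ :: L, by rw [List.map_cons, List.prod_cons, hL]; rfl⟩
      | inv_mul_cancel x hx y hy ih =>
        obtain ⟨L, hL⟩ := ih
        exact ⟨⟨x⁻¹, hS _ hx⟩ :: L, by rw [List.map_cons, List.prod_cons, hL]; rfl⟩)
    (a := ⟨_, N.pow_index_mem ⟨a, ha⟩⟩) (b := ⟨_, N.pow_index_mem ⟨b, hb⟩⟩)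
    (by rw [hφ, hφ]; exact fun h => hab (pow_RRand hM h)) k ε hε
  refine ⟨n₀, fun n h => le_trans ?_ (by simpa only [Fintype.card_coe] using hn n h)⟩
  refine Nat.cast_le.2 (Nat.card_le_card_of_injective
    (Subtype.map id fun w hw hw' => hw fun t ht h1 => ?_)
    (Subtype.map_injective _ Function.injective_id))
  by_contra hne
  rw [genW, ← FreeGroup.range_lift_eq_closure] at ht
  obtain ⟨v, hv⟩ := ht
  have hc : G.subtype.comp (FreeGroup.lift fun i => (List.ofFn fun l => e (w i l)).prod) =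
      FreeGroup.lift fun i => (List.ofFn fun l => (w i l : Γ)).prod := by
    refine FreeGroup.ext_hom _ _ fun i => ?_
    rw [MonoidHom.comp_apply, lift_apply_of, lift_apply_of, map_list_prod, List.map_ofFn]
    rfl
  have hv' : ((FreeGroup.lift (fun i => (List.ofFn fun l => e (w i l)).prod) v : G) : Γ) = t :=
    (DFunLike.congr_fun hc v).trans hv
  have hG : (t : Γ) ∈ G := hv' ▸ Subtype.property _
  have hv1 : v ≠ 1 := fun h => hne (Subtype.ext (by rw [← hv, h, _root_.map_one]; rfl))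
  refine hw' (v ^ N.index) ⟨_, N.pow_index_mem ⟨t, hG⟩⟩
    (fun h => hv1 (pow_left_injective hM (h.trans (one_pow _).symm))) ?_
    (by rw [hφ, h1, one_pow])
  rw [map_pow]
  exact congrArg (· ^ N.index) (Subtype.ext hv')

end Pool.Agent.MP_692752_al

end

section

/-! Involutions in the group of the sphere with cone points of order two. -/

set_option autoImplicit false

namespace Pool.Agent.MP_692752_al

open FreeGroup

/-- lists without equal neighbours -/
def RL_RTor : Type := {L : List ℤ // L.IsChain (· ≠ ·)}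

/-- remove or add the first letter -/
def togF_RTor (i : ℤ) (L : List ℤ) : List ℤ := if L.head? = some i then L.tail else i :: L

theorem togF_chain_RTor (i : ℤ) {L : List ℤ} (h : L.IsChain (· ≠ ·)) :
    (togF_RTor i L).IsChain (· ≠ ·) := by
  unfold togF_RTor
  split_ifs with h1
  · exact h.tail
  · refine h.cons fun y hy e => h1 ?_
    rw [e]
    exact hy

theorem togF_togF_RTor (i : ℤ) {L : List ℤ} (h : L.IsChain (· ≠ ·)) :
    togF_RTor i (togF_RTor i L) = L := by
  rcases L with _ | ⟨a, L⟩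
  · simp [togF_RTor]
  · by_cases e : a = i
    · subst e
      have h1 : L.head? ≠ some a := fun h2 => (List.isChain_cons.1 h).1 a h2 rfl
      simp [togF_RTor, h1]
    · simp [togF_RTor, e]

/-- the action of a letter -/
def tog_RTor (i : ℤ) : Equiv.Perm RL_RTor :=
  Function.Involutive.toPerm (fun L => ⟨togF_RTor i L.1, togF_chain_RTor i L.2⟩)
    fun L => Subtype.ext (togF_togF_RTor i L.2)

theorem tog_val_RTor (i : ℤ) (L : RL_RTor) : (tog_RTor i L).1 = togF_RTor i L.1 := rfl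

theorem tog_tog_RTor (i : ℤ) : tog_RTor i * tog_RTor i = 1 :=
  Equiv.ext fun L => Subtype.ext (togF_togF_RTor i L.2)

/-- the reflection of the alphabet -/
def rv_RTor (c : ℤ) : Equiv.Perm RL_RTor :=
  Function.Involutive.toPerm (fun L => ⟨L.1.map (c - ·),
      List.isChain_map_of_isChain _ (fun _ _ h e => h (sub_right_injective e)) L.2⟩)
    fun L => Subtype.ext (by simp)

theorem rv_val_RTor (c : ℤ) (L : RL_RTor) : (rv_RTor c L).1 = L.1.map (c - ·) := rfl

theorem rv_rv_RTor (c : ℤ) : rv_RTor c * rv_RTor c = 1 :=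
  Equiv.ext fun L => Subtype.ext (by simp [rv_val_RTor])

theorem rv_tog_RTor (c i : ℤ) : rv_RTor c * tog_RTor i * (rv_RTor c)⁻¹ = tog_RTor (c - i) := by
  rw [mul_inv_eq_iff_eq_mul]
  refine Equiv.ext fun L => Subtype.ext ?_
  simp only [Equiv.Perm.mul_apply, rv_val_RTor, tog_val_RTor]
  obtain ⟨L, -⟩ := L
  rcases L with _ | ⟨a, L⟩
  · simp [togF_RTor]
  · by_cases e : a = i <;> simp [togF_RTor, e]

theorem free_RTor {G ι : Type} [Group G] (c : ι → G) (S : Set ι) (φ : G →* Equiv.Perm RL_RTor)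
    (e : ι → ℤ) (he : Function.Injective e) (hφ : ∀ i ∈ S, φ (c i) = tog_RTor (e i))
    (L : List ι) (hS : ∀ i ∈ L, i ∈ S) (hL : L.IsChain (· ≠ ·)) :
    (φ (L.map c).prod ⟨[], List.isChain_nil⟩).1 = L.map e := by
  induction L with
  | nil =>
    rw [List.map_nil, List.prod_nil, _root_.map_one]
    rfl
  | cons a L ih =>
    rw [List.map_cons, List.prod_cons, _root_.map_mul, Equiv.Perm.mul_apply,
      hφ a (hS a List.mem_cons_self), tog_val_RTor,
      ih (fun i hi => hS i (List.mem_cons_of_mem _ hi)) hL.tail, togF_RTor, if_neg, List.map_cons]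
    rw [List.head?_map, Option.map_eq_some_iff]
    rintro ⟨b, h1, h2⟩
    exact (List.isChain_cons.1 hL).1 b h1 (he h2).symm

theorem list_RTor {G ι : Type} [Group G] (c : ι → G) (hc : ∀ i, c i * c i = 1) (S : Set ι)
    (hf : ∀ L : List ι, (∀ i ∈ L, i ∈ S) → L.IsChain (· ≠ ·) → (L.map c).prod = 1 → L = [])
    (n : ℕ) : ∀ L : List ι, L.length = n → (∀ i ∈ L, i ∈ S) →
      (L.map c).prod * (L.map c).prod = 1 →
      (L.map c).prod = 1 ∨ ∃ (i : ι) (g : G), (L.map c).prod = g * c i * g⁻¹ := by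
  induction n using Nat.strong_induction_on with
  | _ n ih =>
    intro L hn hS hz
    by_cases hL : L.IsChain (· ≠ ·)
    · rcases L with _ | ⟨a, L⟩
      · exact Or.inl rfl
      rcases List.eq_nil_or_concat' L with rfl | ⟨L, b, rfl⟩
      · exact Or.inr ⟨a, 1, by simp⟩
      by_cases e : a = b
      · subst e
        have hi : (c a)⁻¹ = c a := inv_eq_of_mul_eq_one_right (hc a)
        have h1 : ((a :: (L ++ [a])).map c).prod = c a * (L.map c).prod * (c a)⁻¹ := by
          simp [hi, mul_assoc]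
        rw [h1] at hz ⊢
        have h2 : (L.map c).prod * (L.map c).prod = 1 := by
          rw [conj_mul, mul_inv_eq_one, mul_eq_left] at hz
          exact hz
        rcases ih L.length (by simp at hn; omega) L rfl
          (fun i hi => hS i (by simp [hi])) h2 with h3 | ⟨i, g, h3⟩
        · exact Or.inl (by rw [h3]; simp)
        · exact Or.inr ⟨i, c a * g, by rw [h3]; group⟩
      · exfalso
        have h1 := hf ((a :: (L ++ [b])) ++ (a :: (L ++ [b])))
          (fun i hi => (List.mem_append.1 hi).elim (hS i) (hS i))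
          (hL.append hL fun x hx y hy => by
            rw [← List.cons_append, List.getLast?_concat] at hx
            obtain rfl : b = x := by simpa using hx
            obtain rfl : a = y := by simpa using hy
            exact fun h => e h.symm)
          (by rw [List.map_append, List.prod_append, hz])
        simp at h1
    · rw [List.isChain_iff_forall_rel_of_append_cons_cons] at hL
      push Not at hL
      obtain ⟨a, b, L1, L2, rfl, rfl⟩ := hL
      have h1 : ((L1 ++ a :: a :: L2).map c).prod = ((L1 ++ L2).map c).prod := by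
        simp [← mul_assoc _ (c a), hc]
      rw [h1] at hz ⊢
      exact ih (L1 ++ L2).length (by simp at hn ⊢; omega) _ rfl
        (fun i hi => hS i (by
          simp only [List.mem_append, List.mem_cons] at hi ⊢
          tauto)) hz

theorem gen_RTor {G ι : Type} [Group G] (c : ι → G) (hc : ∀ i, c i * c i = 1) (S : Set ι)
    (φ : G →* Equiv.Perm RL_RTor) (e : ι → ℤ) (he : Function.Injective e)
    (hφ : ∀ i ∈ S, φ (c i) = tog_RTor (e i)) {z : G} (hz : z ∈ Subgroup.closure (c '' S))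
    (h2 : z * z = 1) : z = 1 ∨ ∃ (i : ι) (g : G), z = g * c i * g⁻¹ := by
  have h1 : ∃ L : List ι, (∀ i ∈ L, i ∈ S) ∧ (L.map c).prod = z := by
    clear h2
    induction hz using Subgroup.closure_induction_left with
    | one => exact ⟨[], by simp, rfl⟩
    | mul_left x hx y _ ih =>
      obtain ⟨i, hi, rfl⟩ := hx
      obtain ⟨L, h3, rfl⟩ := ih
      exact ⟨i :: L, List.forall_mem_cons.2 ⟨hi, h3⟩, by simp⟩
    | inv_mul_cancel x hx y _ ih =>
      obtain ⟨i, hi, rfl⟩ := hx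
      obtain ⟨L, h3, rfl⟩ := ih
      exact ⟨i :: L, List.forall_mem_cons.2 ⟨hi, h3⟩, by
        simp [inv_eq_of_mul_eq_one_right (hc i)]⟩
  obtain ⟨L, h3, rfl⟩ := h1
  refine list_RTor c hc S (fun L hS hL h1 => ?_) _ L rfl h3 h2
  have h4 := free_RTor c S φ e he hφ L hS hL
  rw [h1, _root_.map_one] at h4
  exact List.map_eq_nil_iff.1 h4.symm

theorem homA_RTor (m : ℕ) : ∃ φ : Sph (m + 5) →* Equiv.Perm RL_RTor,
    φ (cs 0) = tog_RTor 0 ∧ φ (cs 1) = tog_RTor 1 := by
  let f : Fin (m + 5) → Equiv.Perm RL_RTor := fun i =>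
    if i.val = 0 ∨ i.val = 3 then tog_RTor 0 else if i.val = 1 ∨ i.val = 2 then tog_RTor 1 else 1
  have h1 : ∀ i, f i * f i = 1 := fun i => by
    simp only [f]
    split_ifs <;> simp [tog_tog_RTor]
  have h2 : (List.ofFn f).prod = 1 := by
    rw [prod_five m f fun i hi => by
      simp only [f]
      rw [if_neg (by omega), if_neg (by omega)]]
    change tog_RTor 0 * tog_RTor 1 * tog_RTor 1 * tog_RTor 0 * 1 = 1
    rw [mul_assoc (tog_RTor 0), tog_tog_RTor, mul_one, mul_one, tog_tog_RTor]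
  exact ⟨sLift f h1 h2, sLift_cs _ _ _ _, sLift_cs _ _ _ _⟩

theorem homB_RTor (m : ℕ) : ∃ φ : Sph (m + 5) →* Equiv.Perm RL_RTor,
    ∀ i : Fin (m + 5), 2 ≤ i.val → φ (cs i) = tog_RTor (i.val : ℤ) := by
  obtain ⟨u, hu⟩ : ∃ u, u = (List.ofFn fun j : Fin (m + 3) =>
    tog_RTor ((j.val + 2 : ℕ) : ℤ)).prod := ⟨_, rfl⟩
  obtain ⟨r, hr⟩ : ∃ r, r = rv_RTor (m + 6) := ⟨_, rfl⟩
  have h0 : r * r = 1 := hr ▸ rv_rv_RTor _
  have h3 : r * u * r⁻¹ = u⁻¹ := by
    rw [hu, ← MulAut.conj_apply, map_list_prod, List.prod_inv_reverse]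
    congr 1
    refine List.ext_getElem (by simp) fun k h1 h2 => ?_
    have h4 : k < m + 3 := by rwa [List.length_map, List.length_ofFn] at h1
    simp only [List.getElem_map, List.getElem_ofFn, List.getElem_reverse, List.length_map,
      List.length_ofFn, MulAut.conj_apply, hr, rv_tog_RTor,
      inv_eq_of_mul_eq_one_right (tog_tog_RTor _)]
    congr 1
    omega
  let f : Fin (m + 5) → Equiv.Perm RL_RTor := fun i =>
    if i.val = 0 then r else if i.val = 1 then r * u⁻¹ else tog_RTor (i.val : ℤ)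
  have h1 : ∀ i, f i * f i = 1 := fun i => by
    simp only [f]
    split_ifs
    · exact h0
    · rw [mul_assoc, ← mul_assoc u⁻¹]
      nth_rw 1 [← h3]
      rw [inv_mul_cancel_right, ← mul_assoc, ← mul_assoc, h0, one_mul, mul_inv_cancel]
    · exact tog_tog_RTor _
  have h2 : (List.ofFn f).prod = 1 := by
    rw [List.ofFn_succ, List.ofFn_succ, List.prod_cons, List.prod_cons]
    change r * (r * u⁻¹ * (List.ofFn fun j : Fin (m + 3) =>
      tog_RTor ((j.val + 2 : ℕ) : ℤ)).prod) = 1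
    rw [← hu, inv_mul_cancel_right, h0]
  refine ⟨sLift f h1 h2, fun i hi => ?_⟩
  rw [sLift_cs]
  simp only [f]
  rw [if_neg (by omega), if_neg (by omega)]

theorem tor_ok (hA : TorA_st) : Tor_st := by
  intro m z hz
  obtain ⟨g, hg⟩ := hA m z hz
  have h2 : g⁻¹ * z * g * (g⁻¹ * z * g) = 1 := by
    calc _ = g⁻¹ * (z * z) * g := by group
      _ = 1 := by rw [hz]; group
  have he : Function.Injective fun i : Fin (m + 5) => (i.val : ℤ) := fun i j h =>
    Fin.ext (Int.ofNat.inj h)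
  have h3 : g⁻¹ * z * g = 1 ∨ ∃ (i : Fin (m + 5)) (g' : Sph (m + 5)),
      g⁻¹ * z * g = g' * cs i * g'⁻¹ := by
    rcases hg with hg | hg
    · obtain ⟨φ, h0, h1⟩ := homA_RTor m
      refine gen_RTor cs cs_cs {0, 1} φ _ he ?_ (by rwa [Set.image_pair]) h2
      rintro i (rfl | rfl)
      · exact h0
      · exact h1
    · obtain ⟨φ, h0⟩ := homB_RTor m
      refine gen_RTor cs cs_cs {i | 2 ≤ i.val} φ _ he h0 (Subgroup.closure_mono ?_ hg) h2
      rintro _ ⟨i, hi, rfl⟩
      exact ⟨i, hi, rfl⟩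
  rcases h3 with h3 | ⟨i, g', h3⟩
  · left
    calc z = g * (g⁻¹ * z * g) * g⁻¹ := by group
      _ = 1 := by rw [h3]; group
  · refine Or.inr ⟨i, g * g', ?_⟩
    calc z = g * (g⁻¹ * z * g) * g⁻¹ := by group
      _ = _ := by rw [h3]; group

end Pool.Agent.MP_692752_al

end

section

set_option autoImplicit false

namespace Pool.Agent.MP_692752_al

open FreeGroup

theorem mem_RUniv {m : ℕ} {z : Sph (m + 5)} : z ∈ sE m ↔ (sR m z (false, 1)).1 = false := Iff.rfl

theorem cs_RUniv (m : ℕ) (i : Fin (m + 5)) : sR m (cs i) = sG m i := sLift_cs _ _ _ i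

theorem form_RUniv (m : ℕ) (z : Sph (m + 5)) : ∃ s a b, sR m z = sP s a b := by
  induction z using sph_ind with
  | h1 => exact ⟨false, 1, 1, by ext ⟨v, u⟩ : 1; simp [sP]⟩
  | hm i z ih =>
    obtain ⟨s, a, b, h⟩ := ih
    obtain ⟨s', a', b', h'⟩ : ∃ s a b, sG m i = sP s a b := by
      unfold sG
      split_ifs
      iterate 5 exact ⟨_, _, _, rfl⟩
      exact ⟨false, 1, 1, by ext ⟨v, u⟩ : 1; simp [sP]⟩
    refine ⟨xor s' s, (if s then b' else a') * a, (if s then a' else b') * b, ?_⟩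
    rw [_root_.map_mul, cs_RUniv, h, h']
    ext ⟨v, u⟩ : 1
    cases v <;> cases s <;> simp [sP, mul_assoc]

theorem cj_RUniv {m : ℕ} {g : Sph (m + 5)} (hg : g ∈ sE m) (z : Sph (m + 5)) :
    (∀ x, sR m z = sP true x x⁻¹ → ∃ p, sR m (g * z * g⁻¹) = sP true p p⁻¹) ∧
    (∀ x, sR m z = sP false x 1 → ∃ p, sR m (g * z * g⁻¹) = sP false p 1) := by
  obtain ⟨s, a, b, h⟩ := form_RUniv m g
  obtain rfl : s = false := by simpa [mem_RUniv, h, sP] using hg
  refine ⟨fun x e => ⟨b * x * a⁻¹, ?_⟩, fun x e => ⟨a * x * a⁻¹, ?_⟩⟩ <;>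
  · rw [_root_.map_mul, _root_.map_mul, _root_.map_inv, mul_inv_eq_iff_eq_mul, e, h]
    ext ⟨v, u⟩ : 1
    cases v <;> simp [sP, mul_assoc]

theorem semi_RUniv {m : ℕ} (β : MulAut (Sph (m + 5)))
    (h : ∀ i, ∃ g ∈ sE m, β (cs i) = g * cs i * g⁻¹) : ∃ f : Orb →* Orb, ∀ z,
      (β z ∈ sE m ↔ z ∈ sE m) ∧
        (z ∈ sE m → (sR m (β z) (false, 1)).2 = f (sR m z (false, 1)).2) := by
  choose g hg e using h
  obtain ⟨p0, h0⟩ := e 0 ▸ (cj_RUniv (hg 0) _).1 1 (by rw [inv_one]; exact cs_RUniv m 0)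
  obtain ⟨p1, h1⟩ := e 1 ▸ (cj_RUniv (hg 1) _).1 _ (cs_RUniv m 1)
  obtain ⟨p2, h2⟩ := e 2 ▸ (cj_RUniv (hg 2) _).1 xo⁻¹ (by rw [inv_inv]; exact cs_RUniv m 2)
  obtain ⟨p3, h3⟩ := e 3 ▸ (cj_RUniv (hg 3) _).1 (yo⁻¹ * xo⁻¹)
    (by rw [_root_.mul_inv_rev, inv_inv, inv_inv]; exact cs_RUniv m 3)
  obtain ⟨k, h4⟩ := e 4 ▸ (cj_RUniv (hg 4) _).2 _ (cs_RUniv m 4)
  have h5' : ∀ i : Fin (m + 5), 5 ≤ i.val → sG m i = 1 := fun i hi => by
    unfold sG
    rw [if_neg (by omega), if_neg (by omega), if_neg (by omega), if_neg (by omega),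
      if_neg (by omega)]
  have h5 : ∀ i : Fin (m + 5), 5 ≤ i.val → sR m (β (cs i)) = 1 := fun i hi => by
    rw [e, _root_.map_mul, _root_.map_mul, cs_RUniv, h5' i hi, mul_one, _root_.map_inv,
      mul_inv_cancel]
  have h6 := congrArg ((sR m).comp β.toMonoidHom) (cs_prod (m + 5))
  rw [map_list_prod, List.map_ofFn, _root_.map_one] at h6
  have h6 := (prod_five m _ h5).symm.trans h6
  rw [h0, h1, h2, h3, h4] at h6
  have a1 : p0⁻¹ * (p1 * (p2⁻¹ * (p3 * k))) = 1 := by
    simpa [sP] using DFunLike.congr_fun h6 (false, 1)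
  have a2 : p0 * (p1⁻¹ * (p2 * p3⁻¹)) = 1 := by simpa [sP] using DFunLike.congr_fun h6 (true, 1)
  have a3 : k * k = 1 := by
    have := congrArg (fun z => sR m (β z) (false, 1)) (cs_cs (4 : Fin (m + 5)))
    simpa [h4, sP] using this
  obtain rfl : p3 = p0 * p1⁻¹ * p2 := by rw [← one_mul p3, ← a2]; group
  obtain rfl : k = p2⁻¹ * p0 * (p0⁻¹ * p1) * (p2⁻¹ * p0)⁻¹ * (p0⁻¹ * p1)⁻¹ := by
    rw [← mul_one (_ * (p0⁻¹ * p1)⁻¹), ← a1]; group
  obtain ⟨f, fx, fy⟩ : ∃ f : Orb →* Orb, f xo = p2⁻¹ * p0 ∧ f yo = p0⁻¹ * p1 :=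
    ⟨oLift (FreeGroup.lift ![p2⁻¹ * p0, p0⁻¹ * p1]) (by simpa [cc] using a3),
      by simp [xo, oLift_pr], by simp [yo, oLift_pr]⟩
  have key : ∀ z (x : Bool × Orb), sR m (β z) (x.1, (if x.1 then p0 else 1) * f x.2) =
      ((sR m z x).1, (if (sR m z x).1 then p0 else 1) * f (sR m z x).2) := fun z x => by
    induction z using sph_ind with
    | h1 => simp
    | hm i z ih =>
      simp only [_root_.map_mul, Equiv.Perm.mul_apply, ih, cs_RUniv]
      obtain ⟨v, u⟩ := sR m z x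
      obtain rfl | rfl | rfl | rfl | rfl | hi :
          i = 0 ∨ i = 1 ∨ i = 2 ∨ i = 3 ∨ i = 4 ∨ 5 ≤ i.val := by
        simp only [Fin.ext_iff]
        change i.val = 0 ∨ i.val = 1 ∨ i.val = 2 ∨ i.val = 3 ∨ i.val = 4 ∨ _
        omega
      · rw [h0, show sG m 0 = sP true 1 1 from rfl]
        cases v <;> simp [sP]
      · rw [h1, show sG m 1 = sP true yo yo⁻¹ from rfl]
        cases v <;> simp [sP, fy, mul_assoc]
      · rw [h2, show sG m 2 = sP true xo⁻¹ xo from rfl]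
        cases v <;> simp [sP, fx, mul_assoc]
      · rw [h3, show sG m 3 = sP true (yo⁻¹ * xo⁻¹) (xo * yo) from rfl]
        cases v <;> simp [sP, fx, fy, mul_assoc]
      · rw [h4, show sG m 4 = sP false co 1 from rfl]
        cases v <;> simp [sP, co_eq, fx, fy, mul_assoc]
      · rw [h5 i hi, h5' i hi]
        rfl
  refine ⟨f, fun z => ?_⟩
  have := key z (false, 1)
  simp only [Bool.false_eq_true, if_false, _root_.map_one, mul_one] at this
  rw [mem_RUniv, mem_RUniv, this]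
  exact ⟨Iff.rfl, fun e => by simp [e]⟩

theorem univ_ok : Univ_st := by
  intro m
  have hs : Function.Surjective (sT m) := fun z => by
    obtain ⟨w, rfl⟩ := pr_sur z
    change pr w ∈ (sT m).range
    induction w using FreeGroup.induction_on with
    | C1 => simp
    | of i =>
      have h0 : sG m 0 = sP true 1 1 := rfl
      fin_cases i
      · have h2 : sG m 2 = sP true xo⁻¹ xo := rfl
        exact ⟨⟨cs 2 * cs 0, by simp [mem_RUniv, cs_RUniv, h0, h2, sP]⟩,
          by simp [sT_apply, cs_RUniv, h0, h2, sP, xo]⟩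
      · have h1 : sG m 1 = sP true yo yo⁻¹ := rfl
        exact ⟨⟨cs 0 * cs 1, by simp [mem_RUniv, cs_RUniv, h0, h1, sP]⟩,
          by simp [sT_apply, cs_RUniv, h0, h1, sP, yo]⟩
    | inv_of i hi => exact _root_.map_inv pr _ ▸ inv_mem hi
    | mul a b ha hb => exact _root_.map_mul pr _ _ ▸ mul_mem ha hb
  refine ⟨⟨(Subgroup.index_eq_two_iff.2 ⟨cs 0, fun b => ?_⟩).trans_ne two_ne_zero⟩, hs,
    fun β h => ?_⟩
  · obtain ⟨s, x, y, e⟩ := form_RUniv m b
    have h0 : sG m 0 = sP true 1 1 := rfl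
    cases s <;> simp [mem_RUniv, cs_RUniv, h0, e, sP]
  obtain ⟨f, hf⟩ := semi_RUniv β h
  obtain ⟨f', hf'⟩ := semi_RUniv β⁻¹ fun i => by
    obtain ⟨g, hg, e⟩ := h i
    refine ⟨(β⁻¹ g)⁻¹, inv_mem ((hf _).1.1 (by simpa using hg)), β.injective ?_⟩
    simp [e, mul_assoc]
  refine ⟨fun x => (hf x).1, MonoidHom.toMulEquiv f f' (MonoidHom.ext fun u => ?_)
    (MonoidHom.ext fun u => ?_), fun x _ => (hf x).2 x.2⟩
  · obtain ⟨z, rfl⟩ := hs u
    have := (hf' _).2 ((hf z).1.2 z.2)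
    rw [(hf z).2 z.2, MulAut.inv_apply_self] at this
    exact this.symm
  · obtain ⟨z, rfl⟩ := hs u
    have := (hf _).2 ((hf' z).1.2 z.2)
    rw [(hf' z).2 z.2, MulAut.apply_inv_self] at this
    exact this.symm

end Pool.Agent.MP_692752_al

end

section

/-! Two twists whose powers do not commute on the homology of the torus. -/

set_option autoImplicit false

namespace Pool.Agent.MP_692752_al

open FreeGroup

theorem tw_RSN {n : ℕ} (a b : Fin n) (hp : ∀ u, Commute u (cs a * cs b) →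
    (List.ofFn fun i => if i = a ∨ i = b then u * cs i * u⁻¹ else cs i).prod = 1) :
    ∃ β : MulAut (Sph n), ∀ i, β (cs i) =
      if i = a ∨ i = b then cs a * cs b * cs i * (cs a * cs b)⁻¹ else cs i := by
  have key : ∀ u, Commute u (cs a * cs b) → ∃ φ : Sph n →* Sph n, φ (cs a * cs b) = cs a * cs b ∧
      ∀ i, φ (cs i) = if i = a ∨ i = b then u * cs i * u⁻¹ else cs i := fun u hu => by
    refine ⟨sLift _ (fun i => ?_) (hp u hu), ?_, sLift_cs _ _ _⟩
    · split_ifs
      · rw [conj_mul, cs_cs, mul_one, mul_inv_cancel]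
      · exact cs_cs i
    · rw [_root_.map_mul, sLift_cs, sLift_cs, if_pos (Or.inl rfl), if_pos (Or.inr rfl), conj_mul,
        hu.eq, mul_inv_cancel_right]
  obtain ⟨φ, h1, h2⟩ := key _ (Commute.refl _)
  obtain ⟨ψ, k1, k2⟩ := key _ (Commute.refl _).inv_left
  generalize cs a * cs b = t at h1 h2 k1 k2 ⊢
  refine ⟨φ.toMulEquiv ψ (sph_ext fun i => ?_) (sph_ext fun i => ?_), h2⟩
  · by_cases h : i = a ∨ i = b <;> simp [h2 i, k2 i, h, k1, mul_assoc]
  · by_cases h : i = a ∨ i = b <;> simp [h2 i, k2 i, h, h1, mul_assoc]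

theorem lin_RSN (η : Orb →* Multiplicative ℤ) (z : Orb) :
    (η z).toAdd = (η xo).toAdd * (ex z).toAdd + (η yo).toAdd * (ey z).toAdd := by
  obtain ⟨z, rfl⟩ := pr_sur z
  induction z using FreeGroup.induction_on with
  | C1 => simp
  | of i =>
    fin_cases i
    · change (η xo).toAdd = _ * (ex xo).toAdd + _ * (ey xo).toAdd
      simp [ex_x, ey_x]
    · change (η yo).toAdd = _ * (ex yo).toAdd + _ * (ey yo).toAdd
      simp [ex_y, ey_y]
  | inv_of i hi => simp only [_root_.map_inv, toAdd_inv, hi]; ring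
  | mul a b ha hb => simp only [_root_.map_mul, toAdd_mul, ha, hb]; ring

section
variable {m : ℕ}

theorem three_RSN (f : Fin (m + 5) → Sph (m + 5)) (h : ∀ i, i ≠ 0 → i ≠ 1 → i ≠ 2 → f i = cs i)
    (h' : f 0 * f 1 * f 2 = cs 0 * cs 1 * cs 2) : (List.ofFn f).prod = 1 := by
  have key : ∀ g : Fin (m + 5) → Sph (m + 5), (List.ofFn g).prod =
      g 0 * g 1 * g 2 * (List.ofFn fun i : Fin (m + 2) => g i.succ.succ.succ).prod := fun g => by
    rw [List.ofFn_succ, List.ofFn_succ, List.ofFn_succ]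
    simp only [List.prod_cons, mul_assoc]
    rfl
  rw [← cs_prod (m + 5), key, key, h']
  congr 3
  refine funext fun i => h _ (Fin.succ_ne_zero _) (fun e => ?_) fun e => ?_
  · exact Fin.succ_ne_zero _ (Fin.succ_injective _ (a₂ := 0) e)
  · exact Fin.succ_ne_zero _ (Fin.succ_injective _ (a₂ := 0) (Fin.succ_injective _ (a₂ := 1) e))

theorem sR0_RSN (v : Bool) (u : Orb) : sR m (cs 0) (v, u) = (!v, u) := by
  rw [sR, sLift_cs]
  cases v <;> simp [sG, sP]

theorem sR1_RSN (v : Bool) (u : Orb) :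
    sR m (cs 1) (v, u) = (!v, (if v then yo⁻¹ else yo) * u) := by
  rw [sR, sLift_cs]
  cases v <;> simp [sG, sP]

theorem sR2_RSN (v : Bool) (u : Orb) :
    sR m (cs 2) (v, u) = (!v, (if v then xo else xo⁻¹) * u) := by
  rw [sR, sLift_cs, show sG m 2 = sP true xo⁻¹ xo from rfl]
  cases v <;> simp [sP]

/-- the class in homology -/
def V_RSN (z : Sph (m + 5)) : ℤ × ℤ :=
  ((ex (sR m z (false, 1)).2).toAdd, (ey (sR m z (false, 1)).2).toAdd)

theorem m01_RSN : cs 0 * cs 1 ∈ sE m := by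
  change (sR m _ _).1 = false
  simp [sR0_RSN, sR1_RSN]

theorem m02_RSN : cs 0 * cs 2 ∈ sE m := by
  change (sR m _ _).1 = false
  simp [sR0_RSN, sR2_RSN]

theorem m12_RSN : cs 1 * cs 2 ∈ sE m := by
  change (sR m _ _).1 = false
  simp [sR1_RSN, sR2_RSN]

theorem act_RSN {β : MulAut (Sph (m + 5))} (h : β ∈ Desc (sE m) (sT m)) {z : Sph (m + 5)}
    (hz : z ∈ sE m) : V_RSN (β z) =
      -(V_RSN z).1 • V_RSN (β (cs 0 * cs 2)) + (V_RSN z).2 • V_RSN (β (cs 0 * cs 1)) := by
  obtain ⟨h1, b, hb⟩ := h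
  have e : ∀ z ∈ sE m, (sR m (β z) (false, 1)).2 = b (sR m z (false, 1)).2 := fun z hz =>
    hb ⟨z, hz⟩ ((h1 z).2 hz)
  have e1 := lin_RSN (ex.comp b.toMonoidHom) (sR m z (false, 1)).2
  have e2 := lin_RSN (ey.comp b.toMonoidHom) (sR m z (false, 1)).2
  simp only [V_RSN, e z hz, e _ m01_RSN, e _ m02_RSN]
  simp only [MonoidHom.comp_apply, MulEquiv.coe_toMonoidHom] at e1 e2
  simp [sR0_RSN, sR1_RSN, sR2_RSN, e1, e2, mul_comm]

end

theorem sn_ok (hU : Univ_st) : SN_st := by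
  intro m
  have n20 : (2 : Fin (m + 5)) ≠ 0 := Fin.ne_of_val_ne (show 2 ≠ 0 by decide)
  have n21 : (2 : Fin (m + 5)) ≠ 1 := Fin.ne_of_val_ne (show 2 ≠ 1 by decide)
  obtain ⟨β, hβ⟩ := tw_RSN (0 : Fin (m + 5)) 1 fun u hu =>
    three_RSN _ (fun i h0 h1 _ => by simp [h0, h1]) (by simp [n20, n21, hu.eq])
  obtain ⟨β', hβ'⟩ := tw_RSN (1 : Fin (m + 5)) 2 fun u hu =>
    three_RSN _ (fun i _ h1 h2 => by simp [h1, h2]) (by
      simp [n20.symm, mul_assoc (cs 0), hu.eq])
  have d1 : β ∈ Desc (sE m) (sT m) := (hU m).2.2 β fun i => by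
    rw [hβ]
    split_ifs
    exacts [⟨_, m01_RSN, rfl⟩, ⟨1, one_mem _, by simp⟩]
  have d2 : β' ∈ Desc (sE m) (sT m) := (hU m).2.2 β' fun i => by
    rw [hβ']
    split_ifs
    exacts [⟨_, m12_RSN, rfl⟩, ⟨1, one_mem _, by simp⟩]
  have p1 : ∀ N : ℕ, ∀ z ∈ sE m,
      V_RSN ((β ^ N) z) = ((V_RSN z).1, (V_RSN z).2 - 2 * N * (V_RSN z).1) := by
    intro N z hz
    induction N with
    | zero => simp
    | succ N ih =>
      rw [pow_succ', MulAut.mul_apply, act_RSN d1 ((((Desc _ _).pow_mem d1 N).1 z).2 hz), ih]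
      simp [V_RSN, hβ, n20, n21, cs_inv, sR0_RSN, sR1_RSN, sR2_RSN, ex_x, ex_y, ey_x, ey_y]
      ring
  have p2 : ∀ N : ℕ, ∀ z ∈ sE m, V_RSN ((β' ^ N) z) =
      ((V_RSN z).1 + 2 * N * ((V_RSN z).2 - (V_RSN z).1),
        (V_RSN z).2 + 2 * N * ((V_RSN z).2 - (V_RSN z).1)) := by
    intro N z hz
    induction N with
    | zero => simp
    | succ N ih =>
      rw [pow_succ', MulAut.mul_apply, act_RSN d2 ((((Desc _ _).pow_mem d2 N).1 z).2 hz), ih]
      simp [V_RSN, hβ', n20.symm, n21, cs_inv, sR0_RSN, sR1_RSN, sR2_RSN, ex_x, ex_y, ey_x, ey_y]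
      constructor <;> ring
  refine ⟨β, d1, β', d2, fun N hN => ?_⟩
  have a1 := fun z => (((Desc _ _).pow_mem d1 N).1 z).2
  have a2 := fun z => (((Desc _ _).pow_mem d2 N).1 z).2
  have e : cm (β ^ N) (β' ^ N) ((β' ^ N) ((β ^ N) (cs 0 * cs 2))) =
      (β ^ N) ((β' ^ N) (cs 0 * cs 2)) := by simp [cm]
  refine ⟨⟨_, a2 _ (a1 _ m02_RSN)⟩, e ▸ a1 _ (a2 _ m02_RSN), Or.inl fun h => hN ?_⟩
  have h' : (V_RSN (cm (β ^ N) (β' ^ N) ((β' ^ N) ((β ^ N) (cs 0 * cs 2))))).1 =
    (V_RSN ((β' ^ N) ((β ^ N) (cs 0 * cs 2)))).1 := congrArg Multiplicative.toAdd h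
  have v0 : V_RSN (cs 0 * cs 2 : Sph (m + 5)) = (-1, 0) := by
    simp [V_RSN, sR0_RSN, sR2_RSN, ex_x, ey_x]
  rw [e, p1 _ _ (a2 _ m02_RSN), p2 _ _ (a1 _ m02_RSN), p1 _ _ m02_RSN, p2 _ _ m02_RSN, v0] at h'
  have : (N : ℤ) * N = 0 := by
    simp only at h'
    linarith
  simpa using this

end Pool.Agent.MP_692752_al

end
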